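import Mathlib
import Pool.Agent.H99.NC.RswP
import Pool.Agent.H99.NC.VarP
import Pool.Agent.H99.NC.DualP
import Pool.Agent.H99.NC.Russo

set_option autoImplicit false
open Finset

/-! Near-critical percolation: definitions for the closure of the scaling argument. -/

namespace Pool.Agent.H47.NC

open Pool.Agent.H75.Perc Pool.Agent.H99.NC

/-- boundary vertices of the rectangle `[a,b] × [c,d]` -/
def bdB (a b c d : ℤ) (v : ℤ × ℤ) : Prop :=
  inB a b c d v ∧ (v.1 = a ∨ v.1 = b ∨ v.2 = c ∨ v.2 = d)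

/-- edges of the square of radius `m` around `x` -/
noncomputable def Bq (x : ℤ × ℤ) (m : ℤ) : Finset (ℤ × ℤ) :=
  Bx (x.1 - m) (x.1 + m) (x.2 - m) (x.2 + m)

/-- boundary vertices of the square of radius `m` around `x` -/
def bq (x : ℤ × ℤ) (m : ℤ) (v : ℤ × ℤ) : Prop :=
  bdB (x.1 - m) (x.1 + m) (x.2 - m) (x.2 + m) v

/-- `A1` is connected to `A2` in the rectangle `[a,b] × [c,d]` -/
def QC (a b c d : ℤ) (A1 A2 : ℤ × ℤ → Prop) (ω : Finset (ℤ × ℤ)) : Prop :=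
  ∃ p q, inB a b c d p ∧ A1 p ∧ A2 q ∧ Co (ω ∩ Bx a b c d) p q

/-- Four strands from the edge with ends `x`, `y` leave the square of radius `m` around `x`: without
the edge both ends are connected to the boundary of the square, but not to each other. The event does
not depend on the edge itself. -/
def F4 (x y : ℤ × ℤ) (m : ℤ) (ω : Finset (ℤ × ℤ)) : Prop :=
  (∃ v, bq x m v ∧ Co ((ω.erase (x + y)) ∩ Bq x m) x v) ∧
  (∃ v, bq x m v ∧ Co ((ω.erase (x + y)) ∩ Bq x m) y v) ∧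
  ¬ Co ((ω.erase (x + y)) ∩ Bq x m) x y

/-- the four-arm probability at density `p` -/
noncomputable def uP (p : ℝ) (m : ℤ) : ℝ := PrP (cp p) (Bq (0, 0) m) (F4 (0, 0) (1, 0) m)

/-- the block `B` is pivotal for the increasing event `A` -/
def BP (A : Finset (ℤ × ℤ) → Prop) (B ω : Finset (ℤ × ℤ)) : Prop := A (ω ∪ B) ∧ ¬ A (ω \ B)

/-- the edges `e`, `f` are jointly pivotal: the state of `f` decides whether `e` is pivotal -/
def JP (A : Finset (ℤ × ℤ) → Prop) (e f : ℤ × ℤ) (ω : Finset (ℤ × ℤ)) : Prop :=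
  ¬ (Piv A e (insert f ω) ↔ Piv A e (ω.erase f))

/-- An open arch at the bottom line: a path in `[-l,l] × [0,l]` which does not use the edges of
`[-j,j] × [0,j]` and joins `(s,0)`, `s ≤ -j`, to `(t,0)`, `j ≤ t`. -/
def Arch (j l : ℤ) (ω : Finset (ℤ × ℤ)) : Prop :=
  ∃ s t : ℤ, -l ≤ s ∧ s ≤ -j ∧ j ≤ t ∧ t ≤ l ∧
    Co ((ω ∩ Bx (-l) l 0 l) \ Bx (-j) j 0 j) (s, 0) (t, 0)

/-- all dual squares of side at most `N` are crossed with probability at least `δ` -/
def RS (δ p : ℝ) (N : ℕ) : Prop := ∀ n : ℕ, 1 ≤ n → n ≤ N → δ ≤ fcP (1 - p) n n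

lemma QC_inc (a b c d : ℤ) (A1 A2 : ℤ × ℤ → Prop) : Inc (QC a b c d A1 A2) := by
  rintro ω ω' h ⟨p, q, h1, h2, h3, h4⟩
  exact ⟨p, q, h1, h2, h3, h4.mono (inter_subset_inter_right h)⟩

lemma Arch_inc (j l : ℤ) : Inc (Arch j l) := by
  rintro ω ω' h ⟨s, t, h1, h2, h3, h4, h5⟩
  exact ⟨s, t, h1, h2, h3, h4, h5.mono (sdiff_subset_sdiff (inter_subset_inter_right h)
    (subset_refl _))⟩

end Pool.Agent.H47.NC
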