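import Mathlib
import Pool.Agent.H47.NC.Defs
import Pool.Agent.H69.NC.RectDual
import Pool.Agent.H75.Perc.Wedge

set_option autoImplicit false
open Finset

/-! The probability of `no open arch' at density 1/2: it is at most `C (j/l)^(1/3)`. -/

namespace Pool.Agent.H47.NC

open Pool.Agent.H75.Perc Pool.Agent.H99.NC

namespace ArchAux

/-! ### Gluing in the half plane `x ≤ 0` -/

/-- A path from the inner box to the boundary of the half box of radius `4j` meets the half circuit. -/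
lemma hit {j : ℤ} (hj : 1 ≤ j) {ω : Finset (ℤ × ℤ)} {u z v v' : ℤ × ℤ}
    (hu : inB (-(2 * j) + 1) 0 (-(2 * j) + 1) (2 * j - 1) u)
    (hz : z.1 = -(4 * j) ∨ z.2 = -(4 * j) ∨ z.2 = 4 * j)
    (hco : Co (ω ∩ Bx (-(4 * j)) 0 (-(4 * j)) (4 * j)) u z)
    (hv : inB (-(4 * j)) (-(2 * j)) (-(4 * j)) (4 * j) v) (hv2 : v.2 = -(4 * j))
    (hv2' : v'.2 = 4 * j)
    (hvv : Co (ω ∩ Bx (-(4 * j)) (-(2 * j)) (-(4 * j)) (4 * j)) v v')
    (hT : HC (-(4 * j)) 0 (2 * j) (4 * j) ω) (hB : HC (-(4 * j)) 0 (-(4 * j)) (-(2 * j)) ω) :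
    Co (ω ∩ Bx (-(4 * j)) 0 (-(4 * j)) (4 * j)) v u := by
  obtain ⟨t, t', t1, t2, t3, t4⟩ := hT
  obtain ⟨b, b', b1, b2, b3, b4⟩ := hB
  have huB : inB (-(4 * j)) 0 (-(4 * j)) (4 * j) u := by unfold inB at hu ⊢; omega
  have hzB : inB (-(4 * j)) 0 (-(4 * j)) (4 * j) z := hco.inB inter_subset_right huB
  have s1 : ω ∩ Bx (-(4 * j)) (-(2 * j)) (-(4 * j)) (4 * j) ⊆
      Bx (-(4 * j)) 0 (-(4 * j)) (4 * j) :=
    inter_subset_right.trans (Bx_sub le_rfl (by omega) le_rfl le_rfl)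
  have s2 : ω ∩ Bx (-(4 * j)) 0 (2 * j) (4 * j) ⊆ Bx (-(4 * j)) 0 (-(4 * j)) (4 * j) :=
    inter_subset_right.trans (Bx_sub le_rfl le_rfl (by omega) le_rfl)
  have s3 : ω ∩ Bx (-(4 * j)) 0 (-(4 * j)) (-(2 * j)) ⊆ Bx (-(4 * j)) 0 (-(4 * j)) (4 * j) :=
    inter_subset_right.trans (Bx_sub le_rfl le_rfl le_rfl (by omega))
  have m1 : ω ∩ Bx (-(4 * j)) (-(2 * j)) (-(4 * j)) (4 * j) ⊆
      ω ∩ Bx (-(4 * j)) 0 (-(4 * j)) (4 * j) :=
    inter_subset_inter_left (Bx_sub le_rfl (by omega) le_rfl le_rfl)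
  have m2 : ω ∩ Bx (-(4 * j)) 0 (2 * j) (4 * j) ⊆ ω ∩ Bx (-(4 * j)) 0 (-(4 * j)) (4 * j) :=
    inter_subset_inter_left (Bx_sub le_rfl le_rfl (by omega) le_rfl)
  have m3 : ω ∩ Bx (-(4 * j)) 0 (-(4 * j)) (-(2 * j)) ⊆
      ω ∩ Bx (-(4 * j)) 0 (-(4 * j)) (4 * j) :=
    inter_subset_inter_left (Bx_sub le_rfl le_rfl le_rfl (by omega))
  rcases hz with hz | hz | hz
  · -- left exit
    obtain ⟨w, w', hw, hw', had, hcx, -⟩ := exit_co (u := z) (v := u)
      (X := inB (-(4 * j)) (-(2 * j)) (-(4 * j)) (4 * j)) hco.symm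
      (by unfold inB at hzB ⊢; omega) (by unfold inB at hu ⊢; omega)
    have hw2 : w.1 = -(2 * j) := by
      have h5 := unit_cases had.1
      have h6 := (had.inB inter_subset_right).2
      unfold inB at hw hw' h6
      omega
    have hzX : inB (-(4 * j)) (-(2 * j)) (-(4 * j)) (4 * j) z := by
      unfold inB at hzB ⊢; omega
    have c1 : Co (ω ∩ Bx (-(4 * j)) (-(2 * j)) (-(4 * j)) (4 * j)) z w :=
      (hcx.box (fun z hz => hz) hzX).mono (inter_subset_inter_right inter_subset_left)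
    obtain ⟨q, q1, q2⟩ := cross_co inter_subset_right inter_subset_right hzX hv c1 hvv hz hw2 hv2
      hv2'
    exact ((q2.mono m1).trans (q1.mono m1).symm).trans hco.symm
  · -- exit at the bottom
    obtain ⟨w, w', hw, hw', had, hcx, -⟩ := exit_co (u := z) (v := u)
      (X := inB (-(4 * j)) 0 (-(4 * j)) (-(2 * j))) hco.symm
      (by unfold inB at hzB ⊢; omega) (by unfold inB at hu ⊢; omega)
    have hw2 : w.2 = -(2 * j) := by
      have h5 := unit_cases had.1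
      have h6 := (had.inB inter_subset_right).2
      unfold inB at hw hw' h6
      omega
    have hzX : inB (-(4 * j)) 0 (-(4 * j)) (-(2 * j)) z := by
      unfold inB at hzB ⊢; omega
    have c1 : Co (ω ∩ Bx (-(4 * j)) 0 (-(4 * j)) (-(2 * j))) z w :=
      (hcx.box (fun z hz => hz) hzX).mono (inter_subset_inter_right inter_subset_left)
    obtain ⟨q, q1, q2⟩ := cross_co inter_subset_right inter_subset_right b1 hzX b4 c1 b2 b3 hz hw2
    obtain ⟨r, r1, r2⟩ := cross_co s3 s1 (by unfold inB at b1 ⊢; omega)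
      (by unfold inB at hv ⊢; omega) b4 hvv b2 b3 hv2 hv2'
    have k2 := (r2.mono m1).trans (r1.mono m3).symm
    have k3 := (q1.mono m3).trans (q2.mono m3).symm
    exact (k2.trans k3).trans hco.symm
  · -- exit at the top
    obtain ⟨w, w', hw, hw', had, hcx, -⟩ := exit_co (u := z) (v := u)
      (X := inB (-(4 * j)) 0 (2 * j) (4 * j)) hco.symm
      (by unfold inB at hzB ⊢; omega) (by unfold inB at hu ⊢; omega)
    have hw2 : w.2 = 2 * j := by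
      have h5 := unit_cases had.1
      have h6 := (had.inB inter_subset_right).2
      unfold inB at hw hw' h6
      omega
    have hzX : inB (-(4 * j)) 0 (2 * j) (4 * j) z := by
      unfold inB at hzB ⊢; omega
    have c1 : Co (ω ∩ Bx (-(4 * j)) 0 (2 * j) (4 * j)) z w :=
      (hcx.box (fun z hz => hz) hzX).mono (inter_subset_inter_right inter_subset_left)
    obtain ⟨q, q1, q2⟩ := cross_co inter_subset_right inter_subset_right t1 hw t4 c1.symm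
      t2 t3 hw2 hz
    obtain ⟨r, r1, r2⟩ := cross_co s2 s1 (by unfold inB at t1 ⊢; omega)
      (by unfold inB at hv ⊢; omega) t4 hvv t2 t3 hv2 hv2'
    have k2 := (r2.mono m1).trans (r1.mono m2).symm
    have k3 := (q1.mono m2).trans ((c1.trans q2).mono m2).symm
    exact (k2.trans k3).trans hco.symm

/-- the half circuit between the radii `2j` and `4j` -/
def Circ (j : ℤ) (ω : Finset (ℤ × ℤ)) : Prop :=
  (VC (-(4 * j)) (-(2 * j)) (-(4 * j)) (4 * j) ω ∧ HC (-(4 * j)) 0 (2 * j) (4 * j) ω) ∧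
    HC (-(4 * j)) 0 (-(4 * j)) (-(2 * j)) ω

lemma Circ_inc (j : ℤ) : Inc (Circ j) :=
  and_inc (and_inc (VC_inc _ _ _ _) (HC_inc _ _ _ _)) (HC_inc _ _ _ _)

/-- an arm in the half box `[-l,0] × [-l,l]` from the inner half box of radius `j` -/
def AN (j l : ℤ) (ω : Finset (ℤ × ℤ)) : Prop :=
  ∃ u v : ℤ × ℤ, inB (-j) 0 (-j) j u ∧ (v.1 ≤ -l ∨ v.2 ≤ -l ∨ l ≤ v.2) ∧
    Co (ω ∩ Bx (-(l + 1)) 0 (-(l + 1)) (l + 1)) u v

lemma AN_inc (j l : ℤ) : Inc (AN j l) := by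
  rintro ω ω' h ⟨u, v, h1, h2, h3⟩
  exact ⟨u, v, h1, h2, h3.mono (inter_subset_inter_right h)⟩

lemma glue {j l : ℤ} (hj : 1 ≤ j) (hl : 4 * j ≤ l) {ω : Finset (ℤ × ℤ)} (hA : AR 0 0 (4 * j) ω)
    (hC : Circ j ω) (hN : AN j l ω) : AR 0 0 l ω := by
  obtain ⟨⟨⟨p, p', p1, p2, p3, p4⟩, hT⟩, hB⟩ := hC
  obtain ⟨z, z1, z2⟩ := hA
  obtain ⟨u, v, hu, hv, huv⟩ := hN
  rw [zero_sub, zero_add] at z2
  -- the arm of the origin
  have k1 : Co (ω ∩ Bx (-(4 * j)) 0 (-(4 * j)) (4 * j)) p (0, 0) :=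
    hit hj (by unfold inB; simp only; omega) (by omega) z2 p1 p2 p3 p4 hT hB
  -- the other arm
  have huI : inB (-(4 * j) + 1) 0 (-(4 * j) + 1) (4 * j - 1) u := by unfold inB at hu ⊢; omega
  obtain ⟨w, w', hw, hw', had, hcx, -⟩ := exit_co
    (X := inB (-(4 * j) + 1) 0 (-(4 * j) + 1) (4 * j - 1)) huv huI (by unfold inB; omega)
  have h5 := unit_cases had.1
  have h6 := (had.inB inter_subset_right).2
  have hwB : inB (-(4 * j)) 0 (-(4 * j)) (4 * j) w := by unfold inB at hw ⊢; omega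
  have hwB' : inB (-(4 * j)) 0 (-(4 * j)) (4 * j) w' := by unfold inB at hw h6 ⊢; omega
  have c1 : Co (ω ∩ Bx (-(4 * j)) 0 (-(4 * j)) (4 * j)) u w' := by
    refine Relation.ReflTransGen.tail (b := w) ?_ ⟨had.1, mem_inter.2 ⟨(mem_inter.1 had.2).1,
      add_mem_Bx had.1 hwB hwB'⟩⟩
    exact (hcx.box (fun z hz => by unfold inB at hz ⊢; omega) huI).mono
      (inter_subset_inter_right inter_subset_left)
  have k2 : Co (ω ∩ Bx (-(4 * j)) 0 (-(4 * j)) (4 * j)) p u :=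
    hit hj (by unfold inB at hu ⊢; omega) (by unfold inB at hw hw' h6; omega) c1 p1 p2 p3 p4 hT hB
  have k3 : Co (ω ∩ Bx (-(l + 1)) 0 (-(l + 1)) (l + 1)) (0, 0) v :=
    ((k1.symm.trans k2).mono (inter_subset_inter_left (Bx_sub (by omega) le_rfl (by omega)
      (by omega)))).trans huv
  have h0 : inB (-l + 1) 0 (-l + 1) (l - 1) ((0, 0) : ℤ × ℤ) := by unfold inB; simp only; omega
  obtain ⟨x, x', hx, hx', hxa, hxc, -⟩ := exit_co
    (X := inB (-l + 1) 0 (-l + 1) (l - 1)) k3 h0 (by unfold inB; omega)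
  have g5 := unit_cases hxa.1
  have g6 := (hxa.inB inter_subset_right).2
  refine ⟨x', by unfold inB at hx hx' g6; omega, ?_⟩
  rw [zero_sub, zero_add]
  have hxB : inB (-l) 0 (-l) l x := by unfold inB at hx ⊢; omega
  have hxB' : inB (-l) 0 (-l) l x' := by unfold inB at hx g6 ⊢; omega
  refine Relation.ReflTransGen.tail (b := x) ?_ ⟨hxa.1, mem_inter.2 ⟨(mem_inter.1 hxa.2).1,
    add_mem_Bx hxa.1 hxB hxB'⟩⟩
  exact (hxc.box (fun z hz => by unfold inB at hz ⊢; omega) h0).mono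
    (inter_subset_inter_right inter_subset_left)

lemma Pr_Circ {j : ℕ} (hj : 1 ≤ j) {E : Finset (ℤ × ℤ)}
    (hE : Bx (-(4 * j)) 0 (-(4 * j)) (4 * j) ⊆ E) :
    1 / 2 ^ 47 * (1 / 2 ^ 15) * (1 / 2 ^ 15) ≤ Pr E (Circ j) := by
  have a2 : 1 / 2 ^ 47 ≤ Pr E (VC (-(4 * j)) (-(2 * j)) (-(4 * j)) (4 * j)) := by
    rw [Pr_VC ((Bx_sub (by omega) (by omega) (by omega) (by omega)).trans hE)]
    have := fc_eight hj
    have e1 : 4 * (j : ℤ) - (-(4 * j)) = 8 * j := by ring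
    have e2 : -(2 * (j : ℤ)) - (-(4 * j)) = 2 * j := by ring
    rw [e1, e2]; exact this
  have a3 : 1 / 2 ^ 15 ≤ Pr E (HC (-(4 * j)) 0 (2 * j) (4 * j)) := by
    rw [Pr_HC' ((Bx_sub (by omega) (by omega) (by omega) (by omega)).trans hE)]
    have := fc_four hj
    have e1 : 0 - (-(4 * (j : ℤ))) = 4 * j := by ring
    have e2 : 4 * (j : ℤ) - 2 * j = 2 * j := by ring
    rw [e1, e2]; exact this
  have a4 : 1 / 2 ^ 15 ≤ Pr E (HC (-(4 * j)) 0 (-(4 * j)) (-(2 * j))) := by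
    rw [Pr_HC' ((Bx_sub (by omega) (by omega) (by omega) (by omega)).trans hE)]
    have := fc_four hj
    have e1 : 0 - (-(4 * (j : ℤ))) = 4 * j := by ring
    have e2 : -(2 * (j : ℤ)) - (-(4 * j)) = 2 * j := by ring
    rw [e1, e2]; exact this
  have f1 := Pr_harris E (VC_inc (-(4 * j)) (-(2 * j)) (-(4 * j)) (4 * j))
    (HC_inc (-(4 * j)) 0 (2 * j) (4 * j))
  have f2 := Pr_harris E (and_inc (VC_inc (-(4 * j)) (-(2 * j)) (-(4 * j)) (4 * j))
    (HC_inc (-(4 * j)) 0 (2 * j) (4 * j))) (HC_inc (-(4 * j)) 0 (-(4 * j)) (-(2 * j)))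
  have m1 := le_trans (mul_le_mul a2 a3 (by norm_num) (le_trans (by norm_num) a2)) f1
  exact le_trans (mul_le_mul m1 a4 (by norm_num) (le_trans (by norm_num) m1)) f2

/-- Gluing of arms in the half plane. -/
lemma Pr_AN {j l : ℕ} (hj : 1 ≤ j) (hl : 4 * j ≤ l) :
    1 / 2 ^ 77 * (ph (4 * j) * Pr (Bx (-(l + 1)) 0 (-(l + 1)) (l + 1)) (AN j l)) ≤ ph l := by
  set E := Bx (-((l : ℤ) + 1)) 0 (-(l + 1)) (l + 1) with hE
  have e1 : ph l = Pr E (AR 0 0 l) := by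
    rw [Pr_AR (Bx_sub (by omega) (by omega) (by omega) (by omega))]
  have e2 : ph (4 * j) = Pr E (AR 0 0 (4 * j)) := by
    rw [Pr_AR (Bx_sub (by omega) (by omega) (by omega) (by omega))]
  have h1 := Pr_Circ (j := j) hj (E := E) (Bx_sub (by omega) (by omega) (by omega) (by omega))
  have h2 := harris3 E (Circ_inc j) (AR_inc 0 0 (4 * j)) (AN_inc j l)
  have h3 : Pr E (fun ω => Circ j ω ∧ AR 0 0 (4 * j) ω ∧ AN j l ω) ≤ Pr E (AR 0 0 l) := by
    apply Pr_mono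
    rintro ω _ ⟨g1, g2, g3⟩
    exact glue (by omega) (by omega) g2 g1 g3
  rw [e1, e2]
  refine le_trans ?_ (h2.trans h3)
  have n1 := Pr_nonneg E (AR 0 0 (4 * j))
  have n2 := Pr_nonneg E (AN j l)
  rw [mul_assoc]
  refine mul_le_mul_of_nonneg_right ?_ (mul_nonneg n1 n2)
  refine le_trans (le_of_eq ?_) h1
  norm_num

/-! ### From `no arch' to a dual arm -/

lemma mem_dual {E ω : Finset (ℤ × ℤ)} {e : ℤ × ℤ} : e ∈ Pool.Agent.H75.TwoArm.du E ω ↔
    ((e.1 - 1, e.2 - 1) : ℤ × ℤ) ∈ E ∧ ((e.1 - 1, e.2 - 1) : ℤ × ℤ) ∉ ω := by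
  unfold Pool.Agent.H75.TwoArm.du
  rw [mem_map]
  constructor
  · rintro ⟨x, hx, rfl⟩
    have : (((Pool.Agent.H75.TwoArm.sh1 x).1 - 1, (Pool.Agent.H75.TwoArm.sh1 x).2 - 1) : ℤ × ℤ) = x := by
      refine Prod.ext ?_ ?_ <;> simp [Pool.Agent.H75.TwoArm.sh1]
    rw [this]
    exact mem_sdiff.1 hx
  · intro h
    refine ⟨(e.1 - 1, e.2 - 1), mem_sdiff.2 h, ?_⟩
    refine Prod.ext ?_ ?_ <;> simp [Pool.Agent.H75.TwoArm.sh1]

/-- the edges of the outer half box without those of the inner half box -/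
noncomputable def Wn (j l : ℤ) (ω : Finset (ℤ × ℤ)) : Finset (ℤ × ℤ) :=
  (ω ∩ Bx (-l) l 0 l) \ Bx (-j) j 0 j

/-- the padding: the outer edges of the bottom row -/
noncomputable def Pd (j l : ℤ) : Finset (ℤ × ℤ) :=
  (Bx (-(l + 1)) (l + 1) 0 0).filter (fun e => e.1 < -(2 * j) ∨ 2 * j < e.1)

lemma mem_Pd {j l : ℤ} {e : ℤ × ℤ} : e ∈ Pd j l ↔
    e ∈ Bx (-(l + 1)) (l + 1) 0 0 ∧ (e.1 < -(2 * j) ∨ 2 * j < e.1) := by
  unfold Pd; rw [mem_filter]

lemma no_HC {j l : ℤ} (hj : 1 ≤ j) (hjl : j ≤ l) {ω : Finset (ℤ × ℤ)} (h : ¬ Arch j l ω) :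
    ¬ HC (-(l + 1)) (l + 1) 0 l (Wn j l ω ∪ Pd j l) := by
  rintro ⟨p, q, p1, p2, q1, hpq⟩
  have key : ∀ v, Co ((Wn j l ω ∪ Pd j l) ∩ Bx (-(l + 1)) (l + 1) 0 l) p v →
      v.1 = -(l + 1) ∨ (v.2 = 0 ∧ v.1 ≤ -j) ∨
        ∃ s : ℤ, -l ≤ s ∧ s ≤ -j ∧ Co (Wn j l ω) (s, 0) v := by
    intro v hv
    induction hv with
    | refl => exact Or.inl p2
    | @tail a b hab hbc ih =>
      have hu := unit_cases hbc.1
      rcases mem_union.1 (mem_inter.1 hbc.2).1 with hW | hP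
      · have hW' : Wn j l ω ⊆ Bx (-l) l 0 l := sdiff_subset.trans inter_subset_right
        have had : Ad (Wn j l ω) a b := ⟨hbc.1, hW⟩
        have hin := had.inB hW'
        rcases ih with ih | ih | ⟨s, s1, s2, s3⟩
        · unfold inB at hin; omega
        · refine Or.inr (Or.inr ⟨a.1, by unfold inB at hin; omega, ih.2, ?_⟩)
          have ha : ((a.1, 0) : ℤ × ℤ) = a := Prod.ext rfl ih.1.symm
          rw [ha]
          exact Relation.ReflTransGen.single had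
        · exact Or.inr (Or.inr ⟨s, s1, s2, s3.tail had⟩)
      · rw [mem_Pd, mem_Bx] at hP
        simp only [Prod.fst_add, Prod.snd_add] at hP
        by_cases hs : (a + b).1 < -(2 * j)
        · simp only [Prod.fst_add] at hs
          right; left; omega
        · simp only [Prod.fst_add] at hs
          rcases ih with ih | ih | ⟨s, s1, s2, s3⟩
          · omega
          · omega
          · exfalso
            have hin : inB (-l) l 0 l a := s3.inB (sdiff_subset.trans inter_subset_right)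
              (by unfold inB; simp only; omega)
            apply h
            refine ⟨s, a.1, s1, s2, by omega, by unfold inB at hin; omega, ?_⟩
            have ha : ((a.1, 0) : ℤ × ℤ) = a := Prod.ext rfl (by simp only; omega)
            rw [ha]
            exact s3
  rcases key q hpq with h1 | h1 | ⟨s, s1, s2, s3⟩
  · omega
  · omega
  · have hin : inB (-l) l 0 l q := s3.inB (sdiff_subset.trans inter_subset_right)
      (by unfold inB; simp only; omega)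
    unfold inB at hin
    omega

lemma dual_arm {j l : ℤ} (hj : 1 ≤ j) (hjl : j + 1 ≤ l) {ω : Finset (ℤ × ℤ)}
    (h : ¬ Arch j l ω) : ∃ z w : ℤ × ℤ, inB (-j) (j + 1) 1 (j + 1) z ∧
      (w.1 = -l + 1 ∨ w.1 = l ∨ w.2 = l) ∧
      Co (Pool.Agent.H75.TwoArm.du (Bx (-l) l 0 l) ω ∩ Bx (-l + 1) l 1 l) z w := by
  have h1 := Pool.Agent.H69.NC.dual_crossing (by omega) (by omega)
    (no_HC hj (by omega) h)
  rw [show -(l + 1) + 1 = -l by ring] at h1
  obtain ⟨p, q, p1, p2, q2, hpq⟩ := h1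
  -- facts about a step
  have step : ∀ a b : ℤ × ℤ, Ad (Pool.Agent.H75.TwoArm.du (Pool.Agent.H69.NC.Bi (-(l + 1)) (l + 1) 0 l)
      (Wn j l ω ∪ Pd j l) ∩ Bx (-l) (l + 1) 0 (l + 1)) a b →
      ((((a + b).1 - 1, (a + b).2 - 1) : ℤ × ℤ) ∈ Bx (-(l + 1)) (l + 1) 0 l ∧
        (2 * (-(l + 1)) < (a + b).1 - 1 ∧ (a + b).1 - 1 < 2 * (l + 1))) ∧
      (((a + b).1 - 1, (a + b).2 - 1) : ℤ × ℤ) ∉ Wn j l ω ∧
      (((a + b).1 - 1, (a + b).2 - 1) : ℤ × ℤ) ∉ Pd j l := by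
    intro a b hab
    have h2 := mem_dual.1 (mem_inter.1 hab.2).1
    rw [mem_union, not_or] at h2
    refine ⟨?_, h2.2⟩
    have h3 := h2.1
    unfold Pool.Agent.H69.NC.Bi at h3
    rw [mem_filter] at h3
    exact h3
  -- the first vertex is in the inner region
  set I : ℤ × ℤ → Prop := fun f => (-j + 1 ≤ f.1 ∧ f.1 ≤ j) ∧ f.2 ≤ j with hI
  have row0 : ∀ a b : ℤ × ℤ, Ad (Pool.Agent.H75.TwoArm.du (Pool.Agent.H69.NC.Bi (-(l + 1)) (l + 1) 0 l)
      (Wn j l ω ∪ Pd j l) ∩ Bx (-l) (l + 1) 0 (l + 1)) a b → a.2 = 0 → I a ∧ I b := by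
    intro a b hab ha
    obtain ⟨h2, h3, h4⟩ := step a b hab
    have hu := unit_cases hab.1
    have hin := hab.inB inter_subset_right
    rw [mem_Bx] at h2
    rw [mem_Pd, mem_Bx] at h4
    simp only [Prod.fst_add, Prod.snd_add] at h2 h4
    simp only [hI]
    unfold inB at hin
    omega
  have hpI : I p := by
    rcases Relation.ReflTransGen.cases_head hpq with he | ⟨b, hb, -⟩
    · rw [he] at p2; omega
    · exact (row0 p b hb p2).1
  obtain ⟨z, z', hz, hz', had, hcx, -⟩ := exit_co (u := q) (v := p) (X := fun f => ¬ I f) hpq.symm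
    (by simp only [hI]; omega) (by simp only [not_not]; exact hpI)
  simp only [not_not] at hz'
  have hqin := hpq.inB inter_subset_right p1
  -- outside of the inner region
  have key : ∀ v, CoX (Pool.Agent.H75.TwoArm.du (Pool.Agent.H69.NC.Bi (-(l + 1)) (l + 1) 0 l)
      (Wn j l ω ∪ Pd j l) ∩ Bx (-l) (l + 1) 0 (l + 1)) (fun f => ¬ I f) q v →
      inB (-l + 1) l 1 l v → ∃ w : ℤ × ℤ, (w.1 = -l + 1 ∨ w.1 = l ∨ w.2 = l) ∧
        Co (Pool.Agent.H75.TwoArm.du (Bx (-l) l 0 l) ω ∩ Bx (-l + 1) l 1 l) v w := by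
    intro v hv
    induction hv with
    | refl => intro h5; unfold inB at h5; omega
    | @tail a b hab hbc ih =>
      intro hb
      by_cases hbd : b.1 = -l + 1 ∨ b.1 = l ∨ b.2 = l
      · exact ⟨b, hbd, Co.refl _ _⟩
      · have hu := unit_cases hbc.1.1
        have haI : ¬ I a := CoX.mem (X := fun f => ¬ I f) hab (by simp only [hI]; omega)
        have hbI : ¬ I b := hbc.2
        have ha0 : a.2 ≠ 0 := fun h6 => haI (row0 a b hbc.1 h6).1
        have ha : inB (-l + 1) l 1 l a := by unfold inB at hb ⊢; omega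
        obtain ⟨w, w1, w2⟩ := ih ha
        refine ⟨w, w1, ?_⟩
        refine Relation.ReflTransGen.head (b := a) ?_ w2
        obtain ⟨h2, h3, h4⟩ := step a b hbc.1
        refine ⟨hbc.1.symm.1, mem_inter.2 ⟨?_, add_mem_Bx hbc.1.symm.1 hb ha⟩⟩
        rw [mem_dual]
        rw [add_comm b a]
        have hE : (((a + b).1 - 1, (a + b).2 - 1) : ℤ × ℤ) ∈ Bx (-l) l 0 l := by
          rw [mem_Bx] at h2 ⊢
          simp only [Prod.fst_add, Prod.snd_add] at h2 ⊢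
          unfold inB at ha hb
          omega
        refine ⟨hE, fun hω => h3 ?_⟩
        unfold Wn
        rw [mem_sdiff, mem_inter]
        refine ⟨⟨hω, hE⟩, ?_⟩
        rw [mem_Bx]
        simp only [Prod.fst_add, Prod.snd_add, hI] at haI hbI ⊢
        omega
  have hz0 : z.2 ≠ 0 := fun h6 => hz (row0 z z' had h6).1
  have hzin := (had.inB inter_subset_right).1
  have hu := unit_cases had.1
  have hzI : inB (-j) (j + 1) 1 (j + 1) z := by
    simp only [hI] at hz hz'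
    unfold inB at hzin ⊢
    omega
  obtain ⟨w, w1, w2⟩ := key z hcx (by unfold inB at hzI ⊢; omega)
  exact ⟨z, w, hzI, w1, w2⟩

/-- the dual arm -/
def AD (j l : ℤ) (η : Finset (ℤ × ℤ)) : Prop :=
  ∃ z w : ℤ × ℤ, inB (-j) (j + 1) 1 (j + 1) z ∧ (w.1 = -l + 1 ∨ w.1 = l ∨ w.2 = l) ∧
    Co (η ∩ Bx (-l + 1) l 1 l) z w

lemma Pr_AD_le {j l : ℤ} (hj : 1 ≤ j) (hl : 1 ≤ l) :
    Pr (Bx (-l + 1) l 1 l) (AD j l) ≤ Pr (Bx (-l) 0 (-l) l) (AN (j + 1) (l - 1)) := by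
  have hE1 : ∀ e, e ∈ Bx 1 l (-l + 1) l ↔ syD.G' e ∈ Bx (-l + 1) l 1 l := by
    intro e
    rw [mem_Bx, mem_Bx]
    simp only [syD]
    omega
  have hE2 : ∀ e, e ∈ Bx (1 - l) 0 (-l + 1) l ↔ (syX 1).G' e ∈ Bx 1 l (-l + 1) l := by
    intro e
    rw [mem_Bx, mem_Bx]
    simp only [syX]
    omega
  have h1 : Pr (Bx (1 - l) 0 (-l + 1) l) (AN (j + 1) (l - 1)) = Pr (Bx (-l + 1) l 1 l)
      (fun ω => AN (j + 1) (l - 1) ((ω.map syD.G).map (syX 1).G)) := by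
    rw [(syX 1).Pr hE2, syD.Pr hE1]
  refine le_trans ?_ (Pr_inc (E1 := Bx (1 - l) 0 (-l + 1) l) (Bx_sub (by omega) le_rfl (by omega)
    le_rfl) (AN_inc _ _))
  rw [h1]
  apply Pr_mono
  rintro ω hω ⟨z, w, hz, hw, hco⟩
  refine ⟨(syX 1).g (syD.g z), (syX 1).g (syD.g w), ?_, ?_, ?_⟩
  · simp only [syX, syD]
    unfold inB at hz ⊢
    simp only
    omega
  · simp only [syX, syD]
    omega
  · have hsub : (ω.map syD.G).map (syX 1).G ⊆ Bx (-(l - 1 + 1)) 0 (-(l - 1 + 1)) (l - 1 + 1) := by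
      intro e he
      rw [Sy.mem_map, Sy.mem_map] at he
      have h2 := (hE2 e).2 ((hE1 _).2 (hω he))
      rw [mem_Bx] at h2 ⊢
      omega
    rw [inter_eq_left.2 hsub, Sy.co_iff, Sy.co_iff]
    exact hco.mono inter_subset_left

lemma Pr_Arch_le {j l : ℤ} (hj : 1 ≤ j) (hjl : j + 1 ≤ l) :
    Pr (Bx (-l) l 0 l) (fun ω => ¬ Arch j l ω) ≤ Pr (Bx (-l) 0 (-l) l) (AN (j + 1) (l - 1)) := by
  refine le_trans ?_ (Pr_AD_le hj (by omega))
  have h1 : Pr (Bx (-l) l 0 l) (fun ω => ¬ Arch j l ω) ≤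
      Pr (Bx (-l) l 0 l) (fun ω => AD j l (Pool.Agent.H75.TwoArm.du (Bx (-l) l 0 l) ω)) :=
    Pr_mono fun ω _ h => dual_arm hj hjl h
  refine h1.trans ?_
  rw [Pool.Agent.H75.TwoArm.Pr_du]
  have hsub : Bx (-l + 1) l 1 l ⊆ (Bx (-l) l 0 l).map Pool.Agent.H75.TwoArm.sh1 := by
    intro e he
    rw [mem_map]
    refine ⟨(e.1 - 1, e.2 - 1), ?_, ?_⟩
    · rw [mem_Bx] at he ⊢
      simp only
      omega
    · refine Prod.ext ?_ ?_ <;> simp [Pool.Agent.H75.TwoArm.sh1]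
  rw [← Pr_restrict hsub]
  apply Pr_mono
  rintro η _ ⟨z, w, h2, h3, h4⟩
  refine ⟨z, w, h2, h3, ?_⟩
  rw [inter_assoc, inter_self]
  exact h4

end ArchAux

open ArchAux in
/-- **No open arch at density 1/2.** -/
theorem noArch_half : ∃ C : ℝ, 0 < C ∧ ∀ j l : ℕ, 1 ≤ j → j ≤ l →
    Pr (Bx (-l) l 0 l) (fun ω => ¬ Arch j l ω) ≤ C * ((j : ℝ) / l) ^ (1 / 3 : ℝ) := by
  obtain ⟨c, C, hc, hC, hph⟩ := PB_ph
  refine ⟨2 ^ 77 * (C / c) * 16 + 9, by positivity, fun j l hj hjl => ?_⟩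
  have hj' : (1 : ℝ) ≤ j := by exact_mod_cast hj
  have hjl' : (j : ℝ) ≤ l := by exact_mod_cast hjl
  have hl0 : (0 : ℝ) < l := by linarith
  have hx0 : (0 : ℝ) < (j : ℝ) / l := by positivity
  have hx1 : (j : ℝ) / l ≤ 1 := by rw [div_le_one hl0]; exact hjl'
  have hX0 : 0 < ((j : ℝ) / l) ^ (1 / 3 : ℝ) := Real.rpow_pos_of_pos hx0 _
  rcases Nat.lt_or_ge l (4 * j + 5) with hlt | hge
  · have h1 := Pr_le_one (Bx (-(l : ℤ)) l 0 l) (fun ω => ¬ Arch j l ω)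
    have h2 : (j : ℝ) / l ≤ ((j : ℝ) / l) ^ (1 / 3 : ℝ) := by
      have := Real.rpow_le_rpow_of_exponent_ge hx0 hx1 (show (1 / 3 : ℝ) ≤ 1 by norm_num)
      rwa [Real.rpow_one] at this
    have h3 : (l : ℝ) ≤ 9 * j := by
      have : l ≤ 9 * j := by omega
      exact_mod_cast this
    have h4 : 1 / 9 ≤ (j : ℝ) / l := by
      rw [div_le_div_iff₀ (by norm_num) hl0]
      linarith
    have h5 : 0 ≤ 2 ^ 77 * (C / c) * 16 * ((j : ℝ) / l) ^ (1 / 3 : ℝ) := by positivity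
    calc _ ≤ (1 : ℝ) := h1
      _ ≤ 9 * ((j : ℝ) / l) ^ (1 / 3 : ℝ) := by linarith
      _ ≤ _ := by rw [add_mul]; linarith
  · have h1 := Pr_Arch_le (j := j) (l := l) (by omega) (by omega)
    have h2 := Pr_AN (j := j + 1) (l := l - 1) (by omega) (by omega)
    have e1 : ((l - 1 : ℕ) : ℤ) = l - 1 := by omega
    have e2 : ((j + 1 : ℕ) : ℤ) = j + 1 := by push_cast; ring
    rw [e1, e2, show (l : ℤ) - 1 + 1 = l by ring] at h2
    set P := Pr (Bx (-(l : ℤ)) 0 (-l) l) (AN (j + 1) (l - 1)) with hP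
    have hP0 : 0 ≤ P := Pr_nonneg _ _
    have h3 := (hph (4 * (j + 1)) (by omega)).1
    have h4 := (hph (l - 1) (by omega)).2
    simp only at h3 h4
    rw [e1] at h4
    have e3 : ((4 * (j + 1) : ℕ) : ℤ) = 4 * (j + 1) := by push_cast; ring
    rw [e3] at h3
    have e4 : ((4 * (j + 1) : ℕ) : ℝ) = 4 * ((j : ℝ) + 1) := by push_cast; ring
    have e5 : ((l - 1 : ℕ) : ℝ) = (l : ℝ) - 1 := by
      rw [Nat.cast_sub (by omega)]; simp
    rw [e4] at h3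
    rw [e5] at h4
    have hA0 : (0 : ℝ) < 4 * ((j : ℝ) + 1) := by positivity
    have hL : (9 : ℝ) ≤ l := by
      have : 9 ≤ l := by omega
      exact_mod_cast this
    have hL0 : (0 : ℝ) < (l : ℝ) - 1 := by linarith
    have h5 : 1 / 2 ^ 77 * (c * (4 * ((j : ℝ) + 1)) ^ (-(1 / 3) : ℝ) * P) ≤
        C * ((l : ℝ) - 1) ^ (-(1 / 3) : ℝ) := by
      refine le_trans ?_ (h2.trans h4)
      exact mul_le_mul_of_nonneg_left (mul_le_mul_of_nonneg_right h3 hP0) (by positivity)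
    have hApos : 0 < (4 * ((j : ℝ) + 1)) ^ (1 / 3 : ℝ) := Real.rpow_pos_of_pos hA0 _
    have hLpos : 0 < ((l : ℝ) - 1) ^ (1 / 3 : ℝ) := Real.rpow_pos_of_pos hL0 _
    rw [Real.rpow_neg hA0.le, Real.rpow_neg hL0.le] at h5
    have h6 : P ≤ 2 ^ 77 * (C / c) * (4 * ((j : ℝ) + 1) / ((l : ℝ) - 1)) ^ (1 / 3 : ℝ) := by
      rw [Real.div_rpow hA0.le hL0.le]
      have h7 : P = 2 ^ 77 / c * (4 * ((j : ℝ) + 1)) ^ (1 / 3 : ℝ) *
          (1 / 2 ^ 77 * (c * ((4 * ((j : ℝ) + 1)) ^ (1 / 3 : ℝ))⁻¹ * P)) := by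
        field_simp
      rw [h7]
      refine (mul_le_mul_of_nonneg_left h5 (by positivity)).trans (le_of_eq ?_)
      field_simp
    have h8 : 4 * ((j : ℝ) + 1) / ((l : ℝ) - 1) ≤ 16 * ((j : ℝ) / l) := by
      rw [div_le_iff₀ hL0]
      have h9 : 16 * ((j : ℝ) / l) * ((l : ℝ) - 1) = 16 * j * (((l : ℝ) - 1) / l) := by
        field_simp
      rw [h9]
      have h10 : 1 / 2 ≤ ((l : ℝ) - 1) / l := by
        rw [div_le_div_iff₀ (by norm_num) hl0]
        linarith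
      nlinarith
    have h11 : (4 * ((j : ℝ) + 1) / ((l : ℝ) - 1)) ^ (1 / 3 : ℝ) ≤
        16 * ((j : ℝ) / l) ^ (1 / 3 : ℝ) := by
      refine (Real.rpow_le_rpow (by positivity) h8 (by norm_num)).trans ?_
      rw [Real.mul_rpow (by norm_num) hx0.le]
      refine mul_le_mul_of_nonneg_right ?_ hX0.le
      have := Real.rpow_le_rpow_of_exponent_le (show (1 : ℝ) ≤ 16 by norm_num)
        (show (1 / 3 : ℝ) ≤ 1 by norm_num)
      rwa [Real.rpow_one] at this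
    have h12 : 0 ≤ 2 ^ 77 * (C / c) := by positivity
    calc _ ≤ P := h1
      _ ≤ 2 ^ 77 * (C / c) * (4 * ((j : ℝ) + 1) / ((l : ℝ) - 1)) ^ (1 / 3 : ℝ) := h6
      _ ≤ 2 ^ 77 * (C / c) * (16 * ((j : ℝ) / l) ^ (1 / 3 : ℝ)) :=
        mul_le_mul_of_nonneg_left h11 h12
      _ ≤ _ := by
        rw [add_mul]
        have : 0 ≤ 9 * ((j : ℝ) / l) ^ (1 / 3 : ℝ) := by positivity
        linarith

end Pool.Agent.H47.NC
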