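import Mathlib
import Pool.Agent.H47.NC.Defs

set_option autoImplicit false
open Finset

/-! Pivotal edges and four strands. -/

namespace Pool.Agent.H47.NC

open Pool.Agent.H75.Perc Pool.Agent.H99.NC

/-- strict interior of the square of radius `m` around `x` -/
def iq (x : ℤ × ℤ) (m : ℤ) (v : ℤ × ℤ) : Prop :=
  x.1 - m < v.1 ∧ v.1 < x.1 + m ∧ x.2 - m < v.2 ∧ v.2 < x.2 + m

lemma mem_Bq {x : ℤ × ℤ} {m : ℤ} {l : ℤ × ℤ} : l ∈ Bq x m ↔
    (2 * (x.1 - m) ≤ l.1 ∧ l.1 ≤ 2 * (x.1 + m)) ∧ (2 * (x.2 - m) ≤ l.2 ∧ l.2 ≤ 2 * (x.2 + m)) ∧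
      (l.1 + l.2) % 2 = 1 := by
  unfold Bq; rw [mem_Bx]

/-- an edge has only two ends -/
lemma ends_unique {x y a b : ℤ × ℤ} (hxy : IsUnit4 (y - x)) (hab : IsUnit4 (b - a))
    (h : a + b = x + y) : (a = x ∧ b = y) ∨ (a = y ∧ b = x) := by
  have h1 := unit_cases hxy
  have h2 := unit_cases hab
  have h3 := congrArg Prod.fst h
  have h4 := congrArg Prod.snd h
  simp only [Prod.fst_add, Prod.snd_add] at h3 h4
  have key : (a.1 = x.1 ∧ a.2 = x.2 ∧ b.1 = y.1 ∧ b.2 = y.2) ∨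
      (a.1 = y.1 ∧ a.2 = y.2 ∧ b.1 = x.1 ∧ b.2 = x.2) := by omega
  rcases key with ⟨k1, k2, k3, k4⟩ | ⟨k1, k2, k3, k4⟩
  · exact Or.inl ⟨Prod.ext k1 k2, Prod.ext k3 k4⟩
  · exact Or.inr ⟨Prod.ext k1 k2, Prod.ext k3 k4⟩

/-- a path through an additional edge -/
lemma split_edge {x y p q : ℤ × ℤ} {ω : Finset (ℤ × ℤ)} (hxy : IsUnit4 (y - x))
    (h : Co (insert (x + y) ω) p q) :
    Co (ω.erase (x + y)) p q ∨ (Co (ω.erase (x + y)) p x ∧ Co (ω.erase (x + y)) y q) ∨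
      (Co (ω.erase (x + y)) p y ∧ Co (ω.erase (x + y)) x q) := by
  induction h with
  | refl => exact Or.inl (Co.refl _ _)
  | @tail b c hpb hbc ih =>
    by_cases hbx : b + c = x + y
    · rcases ends_unique hxy hbc.1 hbx with ⟨rfl, rfl⟩ | ⟨rfl, rfl⟩
      · rcases ih with ih | ⟨ih1, ih2⟩ | ⟨ih1, ih2⟩
        · exact Or.inr (Or.inl ⟨ih, Co.refl _ _⟩)
        · exact Or.inr (Or.inl ⟨ih1, Co.refl _ _⟩)
        · exact Or.inl ih1
      · rcases ih with ih | ⟨ih1, ih2⟩ | ⟨ih1, ih2⟩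
        · exact Or.inr (Or.inr ⟨ih, Co.refl _ _⟩)
        · exact Or.inl ih1
        · exact Or.inr (Or.inr ⟨ih1, Co.refl _ _⟩)
    · have hbc' : Ad (ω.erase (x + y)) b c := by
        refine ⟨hbc.1, mem_erase.2 ⟨hbx, ?_⟩⟩
        rcases mem_insert.1 hbc.2 with h | h
        · exact absurd h hbx
        · exact h
      rcases ih with ih | ⟨ih1, ih2⟩ | ⟨ih1, ih2⟩
      · exact Or.inl (Relation.ReflTransGen.tail ih hbc')
      · exact Or.inr (Or.inl ⟨ih1, Relation.ReflTransGen.tail ih2 hbc'⟩)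
      · exact Or.inr (Or.inr ⟨ih1, Relation.ReflTransGen.tail ih2 hbc'⟩)

/-- the first visit of the boundary of a rectangle -/
lemma exit_bd {a b c d : ℤ} {ω : Finset (ℤ × ℤ)} {u v : ℤ × ℤ} (hu : inB a b c d u)
    (hv : ¬ (a < v.1 ∧ v.1 < b ∧ c < v.2 ∧ v.2 < d)) (h : Co ω u v) :
    ∃ z, bdB a b c d z ∧ Co (ω ∩ Bx a b c d) u z := by
  by_cases hub : bdB a b c d u
  · exact ⟨u, hub, Co.refl _ _⟩
  have hui : a < u.1 ∧ u.1 < b ∧ c < u.2 ∧ u.2 < d := by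
    unfold bdB at hub
    unfold inB at hub hu
    omega
  obtain ⟨z, z', hz, hz', had, hcx, -⟩ := exit_co
    (X := fun w : ℤ × ℤ => a < w.1 ∧ w.1 < b ∧ c < w.2 ∧ w.2 < d) h hui hv
  have h1 := unit_cases had.1
  have hzi : inB a b c d z := by unfold inB; omega
  have hz'i : inB a b c d z' := by unfold inB; omega
  refine ⟨z', ⟨hz'i, by omega⟩, ?_⟩
  refine Relation.ReflTransGen.tail (CoX.box (fun w hw => by unfold inB; omega) hcx hui) ?_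
  exact ⟨had.1, mem_inter.2 ⟨had.2, add_mem_Bx had.1 hzi hz'i⟩⟩

/-- connection between sets, no box -/
def RC (A1 A2 : ℤ × ℤ → Prop) (ω : Finset (ℤ × ℤ)) : Prop := ∃ p q, A1 p ∧ A2 q ∧ Co ω p q

lemma RC_inc (A1 A2 : ℤ × ℤ → Prop) : Inc (RC A1 A2) := by
  rintro ω ω' h ⟨p, q, h1, h2, h3⟩
  exact ⟨p, q, h1, h2, h3.mono h⟩

lemma QC_RC (a b c d : ℤ) (A1 A2 : ℤ × ℤ → Prop) (ω : Finset (ℤ × ℤ)) :
    QC a b c d A1 A2 ω ↔ RC (fun p => inB a b c d p ∧ A1 p) A2 (ω ∩ Bx a b c d) := by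
  unfold QC RC
  constructor
  · rintro ⟨p, q, h1, h2, h3, h4⟩; exact ⟨p, q, ⟨h1, h2⟩, h3, h4⟩
  · rintro ⟨p, q, ⟨h1, h2⟩, h3, h4⟩; exact ⟨p, q, h1, h2, h3, h4⟩

/-- A pivotal edge has its ends connected to the two sets, and not to each other. -/
lemma piv_ends {A1 A2 : ℤ × ℤ → Prop} {x y : ℤ × ℤ} {ω : Finset (ℤ × ℤ)} (hxy : IsUnit4 (y - x))
    (h : Piv (RC A1 A2) (x + y) ω) :
    ¬ Co (ω.erase (x + y)) x y ∧ ∃ p q, A1 p ∧ A2 q ∧
      ((Co (ω.erase (x + y)) p x ∧ Co (ω.erase (x + y)) y q) ∨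
        (Co (ω.erase (x + y)) p y ∧ Co (ω.erase (x + y)) x q)) := by
  obtain ⟨⟨p, q, hp, hq, hpq⟩, hn⟩ := h
  have h1 := split_edge hxy hpq
  rcases h1 with h1 | h1
  · exact absurd ⟨p, q, hp, hq, h1⟩ hn
  · refine ⟨fun hc => hn ?_, p, q, hp, hq, h1⟩
    rcases h1 with ⟨h2, h3⟩ | ⟨h2, h3⟩
    · exact ⟨p, q, hp, hq, (h2.trans hc).trans h3⟩
    · exact ⟨p, q, hp, hq, (h2.trans hc.symm).trans h3⟩

/-- A pivotal edge has four strands which leave each square around it which does not contain points of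
the two sets in its interior. -/
lemma piv_F4 {A1 A2 : ℤ × ℤ → Prop} {x y : ℤ × ℤ} {m : ℤ} (hm : 1 ≤ m) {ω : Finset (ℤ × ℤ)}
    (hxy : IsUnit4 (y - x)) (hA1 : ∀ v, A1 v → ¬ iq x m v) (hA2 : ∀ v, A2 v → ¬ iq x m v)
    (h : Piv (RC A1 A2) (x + y) ω) : F4 x y m ω := by
  obtain ⟨hn, p, q, hp, hq, h1⟩ := piv_ends hxy h
  have hu := unit_cases hxy
  have hxB : inB (x.1 - m) (x.1 + m) (x.2 - m) (x.2 + m) x := by unfold inB; omega
  have hyB : inB (x.1 - m) (x.1 + m) (x.2 - m) (x.2 + m) y := by unfold inB; omega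
  have key : ∀ {u v : ℤ × ℤ}, inB (x.1 - m) (x.1 + m) (x.2 - m) (x.2 + m) u → ¬ iq x m v →
      Co (ω.erase (x + y)) u v →
      ∃ z, bq x m z ∧ Co ((ω.erase (x + y)) ∩ Bq x m) u z := by
    intro u v hu hv huv
    exact exit_bd hu hv huv
  refine ⟨?_, ?_, fun hc => hn (hc.mono inter_subset_left)⟩
  · rcases h1 with ⟨h2, h3⟩ | ⟨h2, h3⟩
    · exact key hxB (hA1 p hp) h2.symm
    · exact key hxB (hA2 q hq) h3
  · rcases h1 with ⟨h2, h3⟩ | ⟨h2, h3⟩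
    · exact key hyB (hA2 q hq) h3
    · exact key hyB (hA1 p hp) h2.symm

/-- `F4` is determined by the edges of the square except for the edge itself. -/
lemma F4_congr {x y : ℤ × ℤ} {m : ℤ} {ω ω' : Finset (ℤ × ℤ)}
    (h : (ω.erase (x + y)) ∩ Bq x m = (ω'.erase (x + y)) ∩ Bq x m) : F4 x y m ω ↔ F4 x y m ω' := by
  unfold F4; rw [h]

lemma F4_local {x y : ℤ × ℤ} {m : ℤ} (ω : Finset (ℤ × ℤ)) :
    F4 x y m ω ↔ F4 x y m (ω ∩ Bq x m) := by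
  apply F4_congr
  ext e
  simp only [mem_inter, mem_erase]
  tauto

lemma F4_insert {x y : ℤ × ℤ} {m : ℤ} (ω : Finset (ℤ × ℤ)) (e : ℤ × ℤ)
    (he : e = x + y ∨ e ∉ Bq x m) : F4 x y m (insert e ω) ↔ F4 x y m ω := by
  apply F4_congr
  ext f
  simp only [mem_inter, mem_erase, mem_insert]
  constructor
  · rintro ⟨⟨h1, h2 | h2⟩, h3⟩
    · rcases he with he | he
      · exact absurd (h2.trans he) h1
      · exact absurd (h2 ▸ h3) he
    · exact ⟨⟨h1, h2⟩, h3⟩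
  · rintro ⟨⟨h1, h2⟩, h3⟩
    exact ⟨⟨h1, Or.inr h2⟩, h3⟩

lemma F4_erase {x y : ℤ × ℤ} {m : ℤ} (ω : Finset (ℤ × ℤ)) (e : ℤ × ℤ)
    (he : e = x + y ∨ e ∉ Bq x m) : F4 x y m (ω.erase e) ↔ F4 x y m ω := by
  apply F4_congr
  ext f
  simp only [mem_inter, mem_erase]
  constructor
  · rintro ⟨⟨h1, h2, h3⟩, h4⟩
    exact ⟨⟨h1, h3⟩, h4⟩
  · rintro ⟨⟨h1, h2⟩, h3⟩
    refine ⟨⟨h1, ?_, h2⟩, h3⟩
    rintro rfl
    rcases he with he | he
    · exact h1 he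
    · exact he h3

/-! ### Symmetry -/

/-- a lattice symmetry which maps the square around `x` to the square around `g x` -/
def SqS (S : Sy) : Prop := ∀ (x : ℤ × ℤ) (m : ℤ),
  (∀ e, e ∈ Bq (S.g x) m ↔ S.G' e ∈ Bq x m) ∧ ∀ v, bq (S.g x) m (S.g v) ↔ bq x m v

lemma SqS_T (t : ℤ × ℤ) : SqS (syT t) := by
  intro x m
  constructor
  · intro e
    rw [mem_Bq, mem_Bq]
    simp only [syT, Prod.fst_add, Prod.snd_add]
    omega
  · intro v
    unfold bq bdB inB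
    simp only [syT, Prod.fst_add, Prod.snd_add]
    omega

lemma SqS_X (s : ℤ) : SqS (syX s) := by
  intro x m
  constructor
  · intro e
    rw [mem_Bq, mem_Bq]
    simp only [syX]
    omega
  · intro v
    unfold bq bdB inB
    simp only [syX]
    omega

lemma SqS_Y (s : ℤ) : SqS (syY s) := by
  intro x m
  constructor
  · intro e
    rw [mem_Bq, mem_Bq]
    simp only [syY]
    omega
  · intro v
    unfold bq bdB inB
    simp only [syY]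
    omega

lemma SqS_D : SqS syD := by
  intro x m
  constructor
  · intro e
    rw [mem_Bq, mem_Bq]
    simp only [syD]
    omega
  · intro v
    unfold bq bdB inB
    simp only [syD]
    omega

lemma map_erase_inter (S : Sy) {ω E1 E2 : Finset (ℤ × ℤ)} (a : ℤ × ℤ)
    (hE : ∀ e, e ∈ E2 ↔ S.G' e ∈ E1) :
    ((ω.map S.G).erase (S.G a)) ∩ E2 = ((ω.erase a) ∩ E1).map S.G := by
  rw [← S.map_inter _ hE, map_erase]

lemma F4_map (S : Sy) (hS : SqS S) (x y : ℤ × ℤ) (m : ℤ) (ω : Finset (ℤ × ℤ)) :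
    F4 (S.g x) (S.g y) m (ω.map S.G) ↔ F4 x y m ω := by
  obtain ⟨h1, h2⟩ := hS x m
  have e1 : ((ω.map S.G).erase (S.g x + S.g y)) ∩ Bq (S.g x) m =
      ((ω.erase (x + y)) ∩ Bq x m).map S.G := by
    rw [S.add]; exact map_erase_inter S (x + y) h1
  unfold F4
  rw [e1, S.co_iff]
  have e2 : ∀ u, (∃ v, bq (S.g x) m v ∧ Co (((ω.erase (x + y)) ∩ Bq x m).map S.G) (S.g u) v) ↔
      ∃ v, bq x m v ∧ Co ((ω.erase (x + y)) ∩ Bq x m) u v := by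
    intro u
    constructor
    · rintro ⟨v, hv, hc⟩
      refine ⟨S.g' v, ?_, ?_⟩
      · rw [← h2, S.gg']; exact hv
      · rw [← S.co_iff, S.gg']; exact hc
    · rintro ⟨v, hv, hc⟩
      exact ⟨S.g v, (h2 v).2 hv, (S.co_iff _ _ _).2 hc⟩
  rw [e2, e2]

/-- the probability of four strands does not depend on the edge -/
theorem PrP_F4 (p : ℝ) {E : Finset (ℤ × ℤ)} {x y : ℤ × ℤ} {m : ℤ} (hxy : IsUnit4 (y - x))
    (hE : Bq x m ⊆ E) : PrP (cp p) E (F4 x y m) = uP p m := by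
  have h0 : PrP (cp p) E (F4 x y m) = PrP (cp p) (Bq x m) (F4 x y m) := by
    rw [← PrP_restrict (cp p) hE]
    exact PrP_congr fun ω _ => F4_local ω
  rw [h0]
  -- transport by symmetries
  have tr : ∀ (S : Sy), SqS S → ∀ x y : ℤ × ℤ,
      PrP (cp p) (Bq (S.g x) m) (F4 (S.g x) (S.g y) m) = PrP (cp p) (Bq x m) (F4 x y m) := by
    intro S hS x y
    rw [Sy_PrP S p (hS x m).1]
    exact PrP_congr fun ω _ => F4_map S hS x y m ω
  have h1 := tr (syT (-x.1, -x.2)) (SqS_T _) x y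
  have e1 : (syT (-x.1, -x.2)).g x = (0, 0) := by
    simp only [syT]; refine Prod.ext ?_ ?_ <;> simp
  have e2 : (syT (-x.1, -x.2)).g y = (y.1 - x.1, y.2 - x.2) := by
    simp only [syT]
    refine Prod.ext ?_ ?_ <;> simp only [Prod.fst_add, Prod.snd_add] <;> ring
  rw [e1, e2] at h1
  rw [← h1]
  have hu := unit_cases hxy
  unfold uP
  rcases hu with ⟨h2, h3⟩ | ⟨h2, h3⟩ | ⟨h2, h3⟩ | ⟨h2, h3⟩
  · have : ((y.1 - x.1, y.2 - x.2) : ℤ × ℤ) = (1, 0) := by rw [h2, h3]; simp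
    rw [this]
  · have h4 := tr syD SqS_D (0, 0) (1, 0)
    have e3 : syD.g (0, 0) = (0, 0) := rfl
    have e4 : syD.g (1, 0) = (0, 1) := rfl
    rw [e3, e4] at h4
    have : ((y.1 - x.1, y.2 - x.2) : ℤ × ℤ) = (0, 1) := by rw [h2, h3]; simp
    rw [this, h4]
  · have h4 := tr (syX 0) (SqS_X 0) (0, 0) (1, 0)
    have e3 : (syX 0).g (0, 0) = (0, 0) := rfl
    have e4 : (syX 0).g (1, 0) = (-1, 0) := rfl
    rw [e3, e4] at h4
    have : ((y.1 - x.1, y.2 - x.2) : ℤ × ℤ) = (-1, 0) := by rw [h2, h3]; simp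
    rw [this, h4]
  · have h4 := tr syD SqS_D (0, 0) (1, 0)
    have e3 : syD.g (0, 0) = (0, 0) := rfl
    have e4 : syD.g (1, 0) = (0, 1) := rfl
    rw [e3, e4] at h4
    have h5 := tr (syY 0) (SqS_Y 0) (0, 0) (0, 1)
    have e5 : (syY 0).g (0, 0) = (0, 0) := rfl
    have e6 : (syY 0).g (0, 1) = (0, -1) := rfl
    rw [e5, e6] at h5
    have : ((y.1 - x.1, y.2 - x.2) : ℤ × ℤ) = (0, -1) := by rw [h2, h3]; simp
    rw [this, h5, h4]

lemma uP_nonneg {p : ℝ} (h0 : 0 ≤ p) (h1 : p ≤ 1) (m : ℤ) : 0 ≤ uP p m :=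
  PrP_nonneg (cp_Pb h0 h1) _ _

lemma uP_le_one {p : ℝ} (h0 : 0 ≤ p) (h1 : p ≤ 1) (m : ℤ) : uP p m ≤ 1 :=
  PrP_le_one (cp_Pb h0 h1) _ _

end Pool.Agent.H47.NC
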