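import Mathlib
import Pool.Agent.H47.NC.Basic

set_option autoImplicit false
open Finset

/-! Joint pivotality and the derivative of the probability that an edge is pivotal. -/

namespace Pool.Agent.H47.NC

open Pool.Agent.H75.Perc Pool.Agent.H99.NC

lemma JP_sym_cases {A : Finset (ℤ × ℤ) → Prop} (hA : Inc A) {e f : ℤ × ℤ} (hef : e ≠ f)
    {ω : Finset (ℤ × ℤ)} (h : JP A e f ω) :
    (Piv A e (insert f ω) ∨ Piv A e (ω.erase f)) ∧
      (Piv A f (insert e ω) ∨ Piv A f (ω.erase e)) := by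
  unfold JP Piv at *
  -- the four configurations
  have e1 : insert e (ω.erase f) = (insert e ω).erase f := by
    ext x; simp only [mem_insert, mem_erase]
    constructor
    · rintro (rfl | ⟨h1, h2⟩)
      · exact ⟨hef, Or.inl rfl⟩
      · exact ⟨h1, Or.inr h2⟩
    · rintro ⟨h1, rfl | h2⟩
      · exact Or.inl rfl
      · exact Or.inr ⟨h1, h2⟩
  have e2 : (insert f ω).erase e = insert f (ω.erase e) := by
    ext x; simp only [mem_insert, mem_erase]
    constructor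
    · rintro ⟨h1, rfl | h2⟩
      · exact Or.inl rfl
      · exact Or.inr ⟨h1, h2⟩
    · rintro (rfl | ⟨h1, h2⟩)
      · exact ⟨fun h => hef h.symm, Or.inl rfl⟩
      · exact ⟨h1, Or.inr h2⟩
  have e3 : insert e (insert f ω) = insert f (insert e ω) := insert_comm _ _ _
  have e4 : (ω.erase f).erase e = (ω.erase e).erase f := erase_right_comm
  rw [e1, e2, e3, e4] at h ⊢
  have m1 : A ((ω.erase e).erase f) → A ((insert e ω).erase f) :=
    hA _ _ (erase_subset_erase _ ((erase_subset _ _).trans (subset_insert _ _)))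
  have m2 : A ((ω.erase e).erase f) → A (insert f (ω.erase e)) :=
    hA _ _ ((erase_subset _ _).trans (subset_insert _ _))
  have m3 : A ((insert e ω).erase f) → A (insert f (insert e ω)) :=
    hA _ _ ((erase_subset _ _).trans (subset_insert _ _))
  have m4 : A (insert f (ω.erase e)) → A (insert f (insert e ω)) :=
    hA _ _ (insert_subset_insert _ ((erase_subset _ _).trans (subset_insert _ _)))
  tauto

lemma Piv_BP {A : Finset (ℤ × ℤ) → Prop} (hA : Inc A) {e f : ℤ × ℤ} {B ω : Finset (ℤ × ℤ)}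
    (he : e ∈ B) (hf : f ∈ B) (h : Piv A e (insert f ω) ∨ Piv A e (ω.erase f)) : BP A B ω := by
  rcases h with ⟨h1, h2⟩ | ⟨h1, h2⟩
  · refine ⟨hA _ _ ?_ h1, fun h3 => h2 (hA _ _ ?_ h3)⟩
    · intro x hx
      rw [mem_insert, mem_insert] at hx
      rw [mem_union]
      rcases hx with rfl | rfl | hx
      · exact Or.inr he
      · exact Or.inr hf
      · exact Or.inl hx
    · intro x hx
      rw [mem_sdiff] at hx
      rw [mem_erase, mem_insert]
      exact ⟨fun h => hx.2 (h ▸ he), Or.inr hx.1⟩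
  · refine ⟨hA _ _ ?_ h1, fun h3 => h2 (hA _ _ ?_ h3)⟩
    · intro x hx
      rw [mem_insert, mem_erase] at hx
      rw [mem_union]
      rcases hx with rfl | hx
      · exact Or.inr he
      · exact Or.inl hx.2
    · intro x hx
      rw [mem_sdiff] at hx
      rw [mem_erase, mem_erase]
      exact ⟨fun h => hx.2 (h ▸ he), fun h => hx.2 (h ▸ hf), hx.1⟩

lemma JP_insert (A : Finset (ℤ × ℤ) → Prop) (e f : ℤ × ℤ) (ω : Finset (ℤ × ℤ)) :
    JP A e f (insert f ω) ↔ JP A e f ω := by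
  unfold JP
  rw [insert_eq_of_mem (mem_insert_self f ω), erase_insert_eq_erase]

lemma PrP_JP_erase (q : ℤ × ℤ → ℝ) {E : Finset (ℤ × ℤ)} {f : ℤ × ℤ} (hf : f ∈ E)
    (A : Finset (ℤ × ℤ) → Prop) (e : ℤ × ℤ) :
    PrP q (E.erase f) (JP A e f) = PrP q E (JP A e f) := by
  have h1 : insert f (E.erase f) = E := insert_erase hf
  conv_rhs => rw [← h1]
  unfold PrP
  rw [Ex_insert q (notMem_erase f E)]
  simp only [JP_insert]
  ring

/-- the derivative of the probability that `e` is pivotal -/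
lemma hasDerivAt_Piv (E : Finset (ℤ × ℤ)) (A : Finset (ℤ × ℤ) → Prop) (e : ℤ × ℤ) (p : ℝ) :
    HasDerivAt (fun s : ℝ => PrP (cp s) E (Piv A e))
      (∑ f ∈ E, Ex (cp p) (E.erase f)
        (fun ω => ind (Piv A e (insert f ω)) - ind (Piv A e ω))) p := by
  refine (hasDerivAt_Ex (q := fun s => cp s) (q' := fun _ => 1) E
    (fun f _ => hasDerivAt_id p) (fun ω => ind (Piv A e ω))).congr_deriv ?_
  exact sum_congr rfl fun f _ => one_mul _

lemma deriv_Piv_le {p : ℝ} (p0 : 0 ≤ p) (p1 : p ≤ 1) {E : Finset (ℤ × ℤ)}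
    (A : Finset (ℤ × ℤ) → Prop) (e : ℤ × ℤ) :
    |∑ f ∈ E, Ex (cp p) (E.erase f) (fun ω => ind (Piv A e (insert f ω)) - ind (Piv A e ω))| ≤
      ∑ f ∈ E.erase e, PrP (cp p) E (JP A e f) := by
  have hq := cp_Pb p0 p1
  refine (abs_sum_le_sum_abs _ _).trans ?_
  have key : ∀ f ∈ E, |Ex (cp p) (E.erase f)
      (fun ω => ind (Piv A e (insert f ω)) - ind (Piv A e ω))| ≤ PrP (cp p) E (JP A e f) := by
    intro f hf
    rw [← PrP_JP_erase (cp p) hf, abs_le]
    have hab : ∀ ω, ω ⊆ E.erase f →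
        |ind (Piv A e (insert f ω)) - ind (Piv A e ω)| ≤ ind (JP A e f ω) := by
      intro ω hω
      have h1 : f ∉ ω := fun h => notMem_erase f E (hω h)
      have h2 : JP A e f ω ↔ ¬ (Piv A e (insert f ω) ↔ Piv A e ω) := by
        unfold JP; rw [erase_eq_of_notMem h1]
      by_cases a : Piv A e (insert f ω) <;> by_cases b : Piv A e ω
      · have : ¬ JP A e f ω := fun h => (h2.1 h) ⟨fun _ => b, fun _ => a⟩
        rw [ind_true a, ind_true b, ind_false this]; norm_num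
      · have : JP A e f ω := h2.2 fun h => b (h.1 a)
        rw [ind_true a, ind_false b, ind_true this]; norm_num
      · have : JP A e f ω := h2.2 fun h => a (h.2 b)
        rw [ind_false a, ind_true b, ind_true this]; norm_num
      · have : ¬ JP A e f ω := fun h => (h2.1 h) ⟨fun h' => absurd h' a, fun h' => absurd h' b⟩
        rw [ind_false a, ind_false b, ind_false this]; norm_num
    constructor
    · have h3 : -PrP (cp p) (E.erase f) (JP A e f) =
          Ex (cp p) (E.erase f) (fun ω => (-1) * ind (JP A e f ω)) := by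
        rw [Ex_smul]; unfold PrP; ring
      rw [h3]
      refine Ex_mono hq fun ω hω => ?_
      have := (abs_le.1 (hab ω hω)).1
      linarith
    · exact Ex_mono hq fun ω hω => (abs_le.1 (hab ω hω)).2
  have hz : ∀ f ∈ E, f = e → |Ex (cp p) (E.erase f)
      (fun ω => ind (Piv A e (insert f ω)) - ind (Piv A e ω))| = 0 := by
    rintro f _ rfl
    have : (fun ω => ind (Piv A f (insert f ω)) - ind (Piv A f ω)) = fun _ => (0 : ℝ) := by
      funext ω
      rw [ind_congr (Piv_insert A f ω), sub_self]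
    rw [this, Ex_const, abs_zero]
  rw [← sum_filter_add_sum_filter_not E (fun f => f = e)]
  have h4 : ∑ f ∈ E.filter (fun f => f = e), |Ex (cp p) (E.erase f)
      (fun ω => ind (Piv A e (insert f ω)) - ind (Piv A e ω))| = 0 :=
    sum_eq_zero fun f hf => hz f (mem_filter.1 hf).1 (mem_filter.1 hf).2
  rw [h4, zero_add]
  have h5 : E.filter (fun f => ¬ f = e) = E.erase e := by
    ext f; simp only [mem_filter, mem_erase]; tauto
  rw [h5]
  exact sum_le_sum fun f hf => key f (mem_of_mem_erase hf)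

/-- Lipschitz bound for the probability that `e` is pivotal, as a function of the density -/
lemma Piv_diff_le {a b D : ℝ} (hab : a ≤ b) (ha : 0 ≤ a) (hb : b ≤ 1) {E : Finset (ℤ × ℤ)}
    (A : Finset (ℤ × ℤ) → Prop) (e : ℤ × ℤ)
    (hD : ∀ s, a ≤ s → s ≤ b → ∑ f ∈ E.erase e, PrP (cp s) E (JP A e f) ≤ D) :
    |PrP (cp b) E (Piv A e) - PrP (cp a) E (Piv A e)| ≤ D * (b - a) := by
  have h := (convex_Icc a b).norm_image_sub_le_of_norm_hasDerivWithin_le
    (f := fun s : ℝ => PrP (cp s) E (Piv A e))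
    (f' := fun p => ∑ f ∈ E, Ex (cp p) (E.erase f)
        (fun ω => ind (Piv A e (insert f ω)) - ind (Piv A e ω))) (C := D)
    (fun s _ => (hasDerivAt_Piv E A e s).hasDerivWithinAt)
    (fun s hs => (deriv_Piv_le (ha.trans hs.1) (hs.2.trans hb) A e).trans (hD s hs.1 hs.2))
    (Set.left_mem_Icc.2 hab) (Set.right_mem_Icc.2 hab)
  rw [Real.norm_eq_abs, Real.norm_eq_abs, abs_of_nonneg (sub_nonneg.2 hab)] at h
  exact h

/-- three independent events -/
lemma PrP_indep3 (q : ℤ × ℤ → ℝ) {E E1 E2 F : Finset (ℤ × ℤ)} (h1 : E1 ⊆ F) (h2 : E2 ⊆ F)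
    (hF : F ⊆ E) (hd : Disjoint E1 E2) (A B C : Finset (ℤ × ℤ) → Prop) :
    PrP q E (fun ω => A (ω ∩ E1) ∧ B (ω ∩ E2) ∧ C (ω \ F)) =
      PrP q E1 A * PrP q E2 B * PrP q (E \ F) C := by
  rw [← PrP_indep q h1 h2 hd, ← PrP_split q hF]
  refine PrP_congr fun ω _ => ?_
  have e1 : ω ∩ F ∩ E1 = ω ∩ E1 := by rw [inter_assoc, inter_eq_right.2 h1]
  have e2 : ω ∩ F ∩ E2 = ω ∩ E2 := by rw [inter_assoc, inter_eq_right.2 h2]
  rw [e1, e2]
  tauto

lemma BP_sdiff (A : Finset (ℤ × ℤ) → Prop) (B ω : Finset (ℤ × ℤ)) :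
    BP A B ω ↔ BP A B (ω \ B) := by
  unfold BP
  rw [sdiff_union_self_eq_union, Finset.sdiff_idem]

/-- the probability that a block is pivotal only involves the edges outside of it -/
lemma PrP_BP (q : ℤ × ℤ → ℝ) {E B : Finset (ℤ × ℤ)} (hB : B ⊆ E) (A : Finset (ℤ × ℤ) → Prop) :
    PrP q (E \ B) (BP A B) = PrP q E (BP A B) := by
  have h := PrP_split q hB (fun _ => True) (BP A B)
  rw [PrP_true, one_mul] at h
  rw [← h]
  refine PrP_congr fun ω _ => ?_
  rw [BP_sdiff A B ω]; simp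

lemma F4_BP_indep (p : ℝ) {E B : Finset (ℤ × ℤ)} {x y x' y' : ℤ × ℤ} {r r' : ℤ}
    (hxy : IsUnit4 (y - x)) (hxy' : IsUnit4 (y' - x')) (h1 : Bq x r ⊆ B) (h2 : Bq x' r' ⊆ B)
    (hB : B ⊆ E) (hd : Disjoint (Bq x r) (Bq x' r')) (A : Finset (ℤ × ℤ) → Prop) :
    PrP (cp p) E (fun ω => F4 x y r ω ∧ F4 x' y' r' ω ∧ BP A B ω) =
      uP p r * uP p r' * PrP (cp p) E (BP A B) := by
  rw [← PrP_F4 p hxy (subset_refl _), ← PrP_F4 p hxy' (subset_refl _), ← PrP_BP (cp p) hB,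
    ← PrP_indep3 (cp p) h1 h2 hB hd]
  refine PrP_congr fun ω _ => ?_
  rw [F4_local ω, F4_local (x := x') ω, BP_sdiff A B ω]

/-- **bulk estimate**: two jointly pivotal edges with disjoint neighbourhoods inside a block -/
lemma JP_bulk {p : ℝ} (p0 : 0 ≤ p) (p1 : p ≤ 1) {E B : Finset (ℤ × ℤ)} {x y x' y' : ℤ × ℤ} {r r' : ℤ}
    (hr : 1 ≤ r) (hr' : 1 ≤ r')
    (hxy : IsUnit4 (y - x)) (hxy' : IsUnit4 (y' - x')) (h1 : Bq x r ⊆ B) (h2 : Bq x' r' ⊆ B)
    (hB : B ⊆ E) (hd : Disjoint (Bq x r) (Bq x' r')) {A1 A2 : ℤ × ℤ → Prop}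
    (a1 : ∀ v, A1 v → ¬ iq x r v ∧ ¬ iq x' r' v) (a2 : ∀ v, A2 v → ¬ iq x r v ∧ ¬ iq x' r' v) :
    PrP (cp p) E (JP (RC A1 A2) (x + y) (x' + y')) ≤
      uP p r * uP p r' * PrP (cp p) E (BP (RC A1 A2) B) := by
  rw [← F4_BP_indep p hxy hxy' h1 h2 hB hd]
  have hx : ∀ {x y : ℤ × ℤ} {r : ℤ}, 1 ≤ r → IsUnit4 (y - x) → x + y ∈ Bq x r := by
    intro x y r hr hxy
    have := unit_cases hxy
    rw [mem_Bq]
    simp only [Prod.fst_add, Prod.snd_add]
    omega
  have hne : x + y ≠ x' + y' := fun h => (disjoint_left.1 hd) (hx hr hxy) (h ▸ hx hr' hxy')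
  have n1 : x' + y' ∉ Bq x r := fun h => (disjoint_left.1 hd) h (hx hr' hxy')
  have n2 : x + y ∉ Bq x' r' := fun h => (disjoint_left.1 hd) (hx hr hxy) h
  refine PrP_mono (cp_Pb p0 p1) fun ω _ h => ?_
  obtain ⟨h3, h4⟩ := JP_sym_cases (RC_inc A1 A2) hne h
  refine ⟨?_, ?_, Piv_BP (RC_inc A1 A2) (h1 (hx hr hxy)) (h2 (hx hr' hxy')) h3⟩
  · rcases h3 with h3 | h3
    · exact (F4_insert ω _ (Or.inr n1)).1
        (piv_F4 hr hxy (fun v hv => (a1 v hv).1) (fun v hv => (a2 v hv).1) h3)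
    · exact (F4_erase ω _ (Or.inr n1)).1
        (piv_F4 hr hxy (fun v hv => (a1 v hv).1) (fun v hv => (a2 v hv).1) h3)
  · rcases h4 with h4 | h4
    · exact (F4_insert ω _ (Or.inr n2)).1
        (piv_F4 hr' hxy' (fun v hv => (a1 v hv).2) (fun v hv => (a2 v hv).2) h4)
    · exact (F4_erase ω _ (Or.inr n2)).1
        (piv_F4 hr' hxy' (fun v hv => (a1 v hv).2) (fun v hv => (a2 v hv).2) h4)

end Pool.Agent.H47.NC
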