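import Mathlib
import Pool.Agent.H47.NC.Joint

set_option autoImplicit false
open Finset

/-! Pivotal edges near the bottom side of a square: four strands and no open arch. -/

namespace Pool.Agent.H47.NC

open Pool.Agent.H75.Perc Pool.Agent.H99.NC

/-- the statement of `arch_block` (job N2) -/
def ArchBlock : Prop := ∀ {a b d j l : ℤ} {A1 A2 : ℤ × ℤ → Prop} {x y : ℤ × ℤ}
    {ω : Finset (ℤ × ℤ)}, a < -l → l < b → l < d → 1 ≤ j → j ≤ l →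
    (∀ v, A1 v → bdB a b 0 d v) → (∀ v, A2 v → bdB a b 0 d v) →
    (∀ t, -l ≤ t → t ≤ l → (A1 (t, 0) ↔ A1 (0, 0)) ∧ (A2 (t, 0) ↔ A2 (0, 0))) →
    IsUnit4 (y - x) → (-j < x.1 ∧ x.1 < j ∧ 0 ≤ x.2 ∧ x.2 < j) →
    (-j < y.1 ∧ y.1 < j ∧ 0 ≤ y.2 ∧ y.2 < j) →
    Piv (QC a b 0 d A1 A2) (x + y) ω → ¬ Arch j l ω

/-- A pair of boundary sets of the square of radius `m` around the origin which are locally constant on
the sides away from the coordinates in `T`. -/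
structure QT (m : ℤ) (T : Finset ℤ) (A1 A2 : ℤ × ℤ → Prop) : Prop where
  bd1 : ∀ v, A1 v → bq (0, 0) m v
  bd2 : ∀ v, A2 v → bq (0, 0) m v
  mT : m ∈ T
  sT : ∀ r ∈ T, -r ∈ T
  rT : ∀ r ∈ T, -m ≤ r ∧ r ≤ m
  bot : ∀ s t, -m ≤ s → s ≤ t → t ≤ m → (∀ r ∈ T, ¬ (s ≤ r ∧ r ≤ t)) →
    (A1 (s, -m) ↔ A1 (t, -m)) ∧ (A2 (s, -m) ↔ A2 (t, -m))
  top : ∀ s t, -m ≤ s → s ≤ t → t ≤ m → (∀ r ∈ T, ¬ (s ≤ r ∧ r ≤ t)) →
    (A1 (s, m) ↔ A1 (t, m)) ∧ (A2 (s, m) ↔ A2 (t, m))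
  lef : ∀ s t, -m ≤ s → s ≤ t → t ≤ m → (∀ r ∈ T, ¬ (s ≤ r ∧ r ≤ t)) →
    (A1 (-m, s) ↔ A1 (-m, t)) ∧ (A2 (-m, s) ↔ A2 (-m, t))
  rig : ∀ s t, -m ≤ s → s ≤ t → t ≤ m → (∀ r ∈ T, ¬ (s ≤ r ∧ r ≤ t)) →
    (A1 (m, s) ↔ A1 (m, t)) ∧ (A2 (m, s) ↔ A2 (m, t))

/-- the crossing event of the square of radius `m` around the origin -/
def QM (m : ℤ) (A1 A2 : ℤ × ℤ → Prop) : Finset (ℤ × ℤ) → Prop := QC (-m) m (-m) m A1 A2

lemma QM_inc (m : ℤ) (A1 A2 : ℤ × ℤ → Prop) : Inc (QM m A1 A2) := QC_inc _ _ _ _ _ _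

lemma Bq0 (m : ℤ) : Bq (0, 0) m = Bx (-m) m (-m) m := by unfold Bq; simp

lemma bq0 (m : ℤ) (v : ℤ × ℤ) : bq (0, 0) m v ↔ bdB (-m) m (-m) m v := by unfold bq; simp

lemma Piv_QM {m : ℤ} {A1 A2 : ℤ × ℤ → Prop} {e : ℤ × ℤ} (he : e ∈ Bq (0, 0) m)
    (ω : Finset (ℤ × ℤ)) : Piv (QM m A1 A2) e ω ↔
      Piv (RC (fun p => inB (-m) m (-m) m p ∧ A1 p) A2) e (ω ∩ Bq (0, 0) m) := by
  unfold Piv QM
  rw [QC_RC, QC_RC, ← Bq0]
  have e1 : insert e ω ∩ Bq (0, 0) m = insert e (ω ∩ Bq (0, 0) m) := by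
    ext x; simp only [mem_inter, mem_insert]
    constructor
    · rintro ⟨rfl | h1, h2⟩
      · exact Or.inl rfl
      · exact Or.inr ⟨h1, h2⟩
    · rintro (rfl | ⟨h1, h2⟩)
      · exact ⟨Or.inl rfl, he⟩
      · exact ⟨Or.inr h1, h2⟩
  have e2 : ω.erase e ∩ Bq (0, 0) m = (ω ∩ Bq (0, 0) m).erase e := by
    ext x; simp only [mem_inter, mem_erase]; tauto
  rw [e1, e2]

/-- four strands around a pivotal edge, radius `r ≥ 1` such that the square fits into the box -/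
lemma Piv_QM_F4 {m r : ℤ} {A1 A2 : ℤ × ℤ → Prop} (h1 : ∀ v, A1 v → bq (0, 0) m v)
    (h2 : ∀ v, A2 v → bq (0, 0) m v) {x y : ℤ × ℤ} (hxy : IsUnit4 (y - x)) (hr : 1 ≤ r)
    (hx : |x.1| + r ≤ m ∧ |x.2| + r ≤ m) {ω : Finset (ℤ × ℤ)}
    (h : Piv (QM m A1 A2) (x + y) ω) : F4 x y r ω := by
  have hu := unit_cases hxy
  have b1 := abs_le.1 (show |x.1| ≤ m - r by linarith [hx.1])
  have b2 := abs_le.1 (show |x.2| ≤ m - r by linarith [hx.2])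
  have hsub : Bq x r ⊆ Bq (0, 0) m := by
    intro e he
    rw [mem_Bq] at he ⊢
    simp only
    omega
  have he : x + y ∈ Bq (0, 0) m := by
    apply hsub
    rw [mem_Bq]
    simp only [Prod.fst_add, Prod.snd_add]
    omega
  rw [Piv_QM he] at h
  have h3 := piv_F4 hr hxy (fun v hv hi => by
      have := (bq0 m v).1 (h1 v hv.2)
      unfold bdB inB at this; unfold iq at hi; omega)
    (fun v hv hi => by
      have := (bq0 m v).1 (h2 v hv)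
      unfold bdB inB at this; unfold iq at hi; omega) h
  refine (F4_congr ?_).1 h3
  ext e
  simp only [mem_inter, mem_erase]
  constructor
  · rintro ⟨⟨k1, k2, _⟩, k4⟩; exact ⟨⟨k1, k2⟩, k4⟩
  · rintro ⟨⟨k1, k2⟩, k4⟩; exact ⟨⟨k1, k2, hsub k4⟩, k4⟩

/-- transport of crossing events -/
lemma QC_map (S : Sy) {a b c d a' b' c' d' : ℤ}
    (hE : ∀ e, e ∈ Bx a' b' c' d' ↔ S.G' e ∈ Bx a b c d)
    (hI : ∀ v, inB a' b' c' d' (S.g v) ↔ inB a b c d v) (A1 A2 : ℤ × ℤ → Prop)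
    (ω : Finset (ℤ × ℤ)) :
    QC a' b' c' d' (fun v => A1 (S.g' v)) (fun v => A2 (S.g' v)) (ω.map S.G) ↔
      QC a b c d A1 A2 ω := by
  unfold QC
  rw [S.map_inter ω hE]
  constructor
  · rintro ⟨p, q, h1, h2, h3, h4⟩
    refine ⟨S.g' p, S.g' q, ?_, h2, h3, ?_⟩
    · rw [← hI, S.gg']; exact h1
    · rw [← S.co_iff, S.gg', S.gg']; exact h4
  · rintro ⟨p, q, h1, h2, h3, h4⟩
    refine ⟨S.g p, S.g q, (hI p).2 h1, ?_, ?_, (S.co_iff _ _ _).2 h4⟩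
    · simp only [S.g'g]; exact h2
    · simp only [S.g'g]; exact h3

lemma Piv_map (S : Sy) {A A' : Finset (ℤ × ℤ) → Prop} (h : ∀ ω, A' (ω.map S.G) ↔ A ω)
    (e : ℤ × ℤ) (ω : Finset (ℤ × ℤ)) : Piv A' (S.G e) (ω.map S.G) ↔ Piv A e ω := by
  unfold Piv
  rw [← map_insert, ← map_erase, h, h]

lemma JP_map (S : Sy) {A A' : Finset (ℤ × ℤ) → Prop} (h : ∀ ω, A' (ω.map S.G) ↔ A ω)
    (e f : ℤ × ℤ) (ω : Finset (ℤ × ℤ)) : JP A' (S.G e) (S.G f) (ω.map S.G) ↔ JP A e f ω := by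
  unfold JP
  rw [← map_insert, ← map_erase, Piv_map S h, Piv_map S h]

/-- the arch event around `(x0, c)`, at the bottom line `y = c` -/
def ArchS (x0 c j l : ℤ) (ω : Finset (ℤ × ℤ)) : Prop := Arch j l (ω.map (syT (-x0, -c)).G)

/-- the half annulus -/
noncomputable def HA (x0 c j l : ℤ) : Finset (ℤ × ℤ) :=
  Bx (x0 - l) (x0 + l) c (c + l) \ Bx (x0 - j) (x0 + j) c (c + j)

lemma Arch_local (j l : ℤ) (ω : Finset (ℤ × ℤ)) :
    Arch j l ω ↔ Arch j l (ω ∩ (Bx (-l) l 0 l \ Bx (-j) j 0 j)) := by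
  unfold Arch
  have : (ω ∩ (Bx (-l) l 0 l \ Bx (-j) j 0 j) ∩ Bx (-l) l 0 l) \ Bx (-j) j 0 j =
      (ω ∩ Bx (-l) l 0 l) \ Bx (-j) j 0 j := by
    ext e; simp only [mem_inter, mem_sdiff]; tauto
  rw [this]

lemma HA_G (x0 c j l : ℤ) (e : ℤ × ℤ) : e ∈ Bx (-l) l 0 l \ Bx (-j) j 0 j ↔
    (syT (-x0, -c)).G' e ∈ HA x0 c j l := by
  unfold HA
  rw [mem_sdiff, mem_sdiff, mem_Bx, mem_Bx, mem_Bx, mem_Bx]
  simp only [syT]
  omega

lemma ArchS_local (x0 c j l : ℤ) (ω : Finset (ℤ × ℤ)) :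
    ArchS x0 c j l ω ↔ ArchS x0 c j l (ω ∩ HA x0 c j l) := by
  unfold ArchS
  rw [Arch_local, ← (syT (-x0, -c)).map_inter ω (HA_G x0 c j l)]

/-- probability of no arch -/
noncomputable def nA (p : ℝ) (j l : ℤ) : ℝ := PrP (cp p) (Bx (-l) l 0 l) (fun ω => ¬ Arch j l ω)

lemma PrP_ArchS (p : ℝ) (x0 c j l : ℤ) :
    PrP (cp p) (HA x0 c j l) (fun ω => ¬ ArchS x0 c j l ω) = nA p j l := by
  have h1 := Sy_PrP (syT (-x0, -c)) p (HA_G x0 c j l) (fun ω => ¬ Arch j l ω)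
  unfold ArchS nA
  rw [← h1, ← PrP_restrict (cp p) (E := Bx (-l) l 0 l) sdiff_subset]
  exact PrP_congr fun ω _ => not_congr (Arch_local j l ω).symm

lemma nA_mono {p : ℝ} (hp : 1 / 2 ≤ p) (p1 : p ≤ 1) (j l : ℤ) :
    nA p j l ≤ Pr (Bx (-l) l 0 l) (fun ω => ¬ Arch j l ω) := by
  unfold nA
  rw [PrP_not, ← PrP_half, PrP_not]
  have := PrP_mono_q (q := cp (1 / 2)) (q' := cp p) (cp_Pb (by norm_num) (by norm_num))
    (cp_Pb (by linarith) p1) (E := Bx (-l) l 0 l) (fun _ _ => hp) (Arch_inc j l)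
  have e : PrP (cp (1 / 2)) (Bx (-l) l 0 l) (Arch j l) =
      PrP (fun _ => 1 / 2) (Bx (-l) l 0 l) (Arch j l) := rfl
  rw [← e]
  linarith

/-- no arch around a pivotal edge near the bottom side -/
lemma Piv_QM_Arch (hAB : ArchBlock) {m j l : ℤ} {T : Finset ℤ} {A1 A2 : ℤ × ℤ → Prop}
    (hQ : QT m T A1 A2) {x y : ℤ × ℤ} (hxy : IsUnit4 (y - x)) (hj : 1 ≤ j) (hjl : j ≤ l)
    (hl : l < 2 * m) (hT : ∀ r ∈ T, ¬ (x.1 - l ≤ r ∧ r ≤ x.1 + l)) (hxm : -m ≤ x.1 ∧ x.1 ≤ m)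
    (hx : -m ≤ x.2 ∧ x.2 < j - m) (hy : -j < y.1 - x.1 ∧ y.1 - x.1 < j ∧ -m ≤ y.2 ∧ y.2 < j - m)
    {ω : Finset (ℤ × ℤ)} (h : Piv (QM m A1 A2) (x + y) ω) : ¬ ArchS x.1 (-m) j l ω := by
  have k1 := hT m hQ.mT
  have k2 := hT (-m) (hQ.sT m hQ.mT)
  set S := syT (-x.1, - -m) with hS
  have hE : ∀ e, e ∈ Bx (-m - x.1) (m - x.1) 0 (2 * m) ↔ S.G' e ∈ Bx (-m) m (-m) m := by
    intro e
    rw [mem_Bx, mem_Bx, hS]
    simp only [syT]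
    omega
  have hI : ∀ v, inB (-m - x.1) (m - x.1) 0 (2 * m) (S.g v) ↔ inB (-m) m (-m) m v := by
    intro v
    unfold inB
    rw [hS]
    simp only [syT, Prod.fst_add, Prod.snd_add]
    omega
  have hmap : ∀ ω, QC (-m - x.1) (m - x.1) 0 (2 * m) (fun v => A1 (S.g' v))
      (fun v => A2 (S.g' v)) (ω.map S.G) ↔ QM m A1 A2 ω := fun ω => QC_map S hE hI A1 A2 ω
  have h1 := (Piv_map S hmap (x + y) ω).2 h
  rw [← S.add] at h1
  have g'v : ∀ v : ℤ × ℤ, S.g' v = (v.1 + x.1, v.2 - m) := by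
    intro v
    rw [hS]
    simp only [syT]
    refine Prod.ext ?_ ?_ <;> simp only [Prod.fst_sub, Prod.snd_sub] <;> ring
  have gv : ∀ v : ℤ × ℤ, S.g v = (v.1 - x.1, v.2 + m) := by
    intro v
    rw [hS]
    simp only [syT]
    refine Prod.ext ?_ ?_ <;> simp only [Prod.fst_add, Prod.snd_add] <;> ring
  have hbd : ∀ v : ℤ × ℤ, bq (0, 0) m (v.1 + x.1, v.2 - m) →
      bdB (-m - x.1) (m - x.1) 0 (2 * m) v := by
    intro v hv
    rw [bq0] at hv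
    unfold bdB inB at *
    simp only at hv
    omega
  have hconst : ∀ t, -l ≤ t → t ≤ l → (A1 (t + x.1, -m) ↔ A1 (x.1, -m)) ∧
      (A2 (t + x.1, -m) ↔ A2 (x.1, -m)) := by
    intro t ht1 ht2
    rcases le_total 0 t with h0 | h0
    · obtain ⟨q1, q2⟩ := hQ.bot x.1 (t + x.1) (by omega) (by omega) (by omega)
        (fun r hr hh => hT r hr (by omega))
      exact ⟨q1.symm, q2.symm⟩
    · exact hQ.bot (t + x.1) x.1 (by omega) (by omega) (by omega)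
        (fun r hr hh => hT r hr (by omega))
  refine hAB (a := -m - x.1) (b := m - x.1) (d := 2 * m) (by omega) (by omega) hl hj hjl ?_ ?_ ?_
    ((S.unit x y).1 hxy) ?_ ?_ h1
  · intro v hv
    simp only [g'v] at hv
    exact hbd v (hQ.bd1 _ hv)
  · intro v hv
    simp only [g'v] at hv
    exact hbd v (hQ.bd2 _ hv)
  · intro t ht1 ht2
    have := hconst t ht1 ht2
    simp only [g'v, zero_add, zero_sub]
    exact this
  · rw [gv]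
    simp only
    omega
  · rw [gv]
    simp only
    omega

/-- four strands to distance `r`, no condition for `r ≤ 0` -/
def F4' (x y : ℤ × ℤ) (r : ℤ) (ω : Finset (ℤ × ℤ)) : Prop := 1 ≤ r → F4 x y r ω

/-- four-arm probability, equal to one for `r ≤ 0` -/
noncomputable def u1 (p : ℝ) (r : ℤ) : ℝ := if 1 ≤ r then uP p r else 1

lemma u1_nonneg {p : ℝ} (h0 : 0 ≤ p) (h1 : p ≤ 1) (r : ℤ) : 0 ≤ u1 p r := by
  unfold u1; split_ifs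
  · exact uP_nonneg h0 h1 r
  · norm_num

lemma PrP_F4' (p : ℝ) {x y : ℤ × ℤ} {r : ℤ} (hxy : IsUnit4 (y - x)) :
    PrP (cp p) (Bq x r) (F4' x y r) = u1 p r := by
  unfold F4' u1
  by_cases hr : 1 ≤ r
  · rw [if_pos hr, ← PrP_F4 p hxy (subset_refl _)]
    exact PrP_congr fun ω _ => ⟨fun h => h hr, fun h _ => h⟩
  · rw [if_neg hr, ← PrP_true (cp p) (Bq x r)]
    exact PrP_congr fun ω _ => ⟨fun _ => trivial, fun _ h => absurd h hr⟩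

lemma F4'_local {x y : ℤ × ℤ} {m : ℤ} (ω : Finset (ℤ × ℤ)) :
    F4' x y m ω ↔ F4' x y m (ω ∩ Bq x m) := by
  unfold F4'; rw [F4_local]

/-- three independent events with disjoint supports -/
lemma PrP_indep3' (q : ℤ × ℤ → ℝ) {E E1 E2 E3 : Finset (ℤ × ℤ)} (h1 : E1 ⊆ E) (h2 : E2 ⊆ E)
    (h3 : E3 ⊆ E) (d12 : Disjoint E1 E2) (d13 : Disjoint E1 E3) (d23 : Disjoint E2 E3)
    (A B C : Finset (ℤ × ℤ) → Prop) :
    PrP q E (fun ω => A (ω ∩ E1) ∧ B (ω ∩ E2) ∧ C (ω ∩ E3)) =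
      PrP q E1 A * PrP q E2 B * PrP q E3 C := by
  have h4 : E2 ∪ E3 ⊆ E := union_subset h2 h3
  have hd : Disjoint E1 (E2 ∪ E3) := disjoint_union_right.2 ⟨d12, d13⟩
  have h5 := PrP_indep q h1 h4 hd A (fun ω => B (ω ∩ E2) ∧ C (ω ∩ E3))
  have h6 := PrP_indep q (E := E2 ∪ E3) subset_union_left subset_union_right d23 B C
  rw [h6, ← mul_assoc] at h5
  rw [← h5]
  refine PrP_congr fun ω _ => ?_
  have e1 : ω ∩ (E2 ∪ E3) ∩ E2 = ω ∩ E2 := by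
    rw [inter_assoc, inter_eq_right.2 subset_union_left]
  have e2 : ω ∩ (E2 ∪ E3) ∩ E3 = ω ∩ E3 := by
    rw [inter_assoc, inter_eq_right.2 subset_union_right]
  rw [e1, e2]

end Pool.Agent.H47.NC
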