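import Mathlib

set_option autoImplicit false
open Finset

/-! Elementary sums of powers. -/

namespace Pool.Agent.H47.NC

/-- Bernoulli: one step -/
lemma rpow_step {a : ℝ} (h0 : 0 ≤ a) (h1 : a < 1) (n : ℕ) :
    (1 - a) * ((n : ℝ) + 1) ^ (-a) ≤ ((n : ℝ) + 1) ^ (1 - a) - (n : ℝ) ^ (1 - a) := by
  have hn : (0 : ℝ) < n + 1 := by positivity
  have h2 : (n : ℝ) = (n + 1) * (1 + (-(1 / ((n : ℝ) + 1)))) := by field_simp; ring
  have h3 : (n : ℝ) ^ (1 - a) = ((n : ℝ) + 1) ^ (1 - a) * (1 + (-(1 / ((n : ℝ) + 1)))) ^ (1 - a) := by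
    conv_lhs => rw [h2]
    rw [Real.mul_rpow hn.le]
    have : 1 / ((n : ℝ) + 1) ≤ 1 := by
      rw [div_le_one hn]; linarith [(Nat.cast_nonneg n : (0 : ℝ) ≤ n)]
    linarith
  have h4 : (1 + (-(1 / ((n : ℝ) + 1)))) ^ (1 - a) ≤ 1 + (1 - a) * (-(1 / ((n : ℝ) + 1))) := by
    apply rpow_one_add_le_one_add_mul_self
    · have : 1 / ((n : ℝ) + 1) ≤ 1 := by
        rw [div_le_one hn]; linarith [(Nat.cast_nonneg n : (0 : ℝ) ≤ n)]
      linarith
    · linarith
    · linarith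
  have h5 : ((n : ℝ) + 1) ^ (-a) = ((n : ℝ) + 1) ^ (1 - a) * (1 / ((n : ℝ) + 1)) := by
    have : -a = (1 - a) - 1 := by ring
    rw [this, Real.rpow_sub hn, Real.rpow_one, Real.rpow_sub hn, Real.rpow_one]
    ring
  rw [h3, h5]
  have h6 : 0 ≤ ((n : ℝ) + 1) ^ (1 - a) := by positivity
  nlinarith [mul_le_mul_of_nonneg_left h4 h6]

lemma sum_rpow_le {a : ℝ} (h0 : 0 ≤ a) (h1 : a < 1) (N : ℕ) :
    ∑ j ∈ range N, ((j : ℝ) + 1) ^ (-a) ≤ (N : ℝ) ^ (1 - a) / (1 - a) := by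
  have h2 : 0 < 1 - a := by linarith
  rw [le_div_iff₀ h2]
  induction N with
  | zero => simp; positivity
  | succ N ih =>
    rw [sum_range_succ, add_mul]
    have := rpow_step h0 h1 N
    push_cast
    linarith

/-- sum over an integer interval of a function of the distance to a point of the interval -/
lemma sum_dist_le {m t : ℤ} (ht : -m ≤ t ∧ t ≤ m) (g : ℕ → ℝ) (hg : ∀ k, 0 ≤ g k) :
    ∑ s ∈ Icc (-m) m, g (s - t).natAbs ≤ 2 * ∑ k ∈ range (2 * m + 1).toNat, g k := by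
  have h1 : ∑ s ∈ Icc (-m) m, g (s - t).natAbs =
      ∑ k ∈ range (2 * m + 1).toNat, ∑ s ∈ (Icc (-m) m).filter (fun s => (s - t).natAbs = k),
        g (s - t).natAbs := by
    rw [sum_fiberwise_of_maps_to]
    intro s hs
    rw [mem_Icc] at hs
    rw [mem_range]
    omega
  rw [h1, mul_sum]
  refine sum_le_sum fun k _ => ?_
  have h2 : ∑ s ∈ (Icc (-m) m).filter (fun s => (s - t).natAbs = k), g (s - t).natAbs =
      ∑ s ∈ (Icc (-m) m).filter (fun s => (s - t).natAbs = k), g k :=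
    sum_congr rfl fun s hs => by rw [(mem_filter.1 hs).2]
  rw [h2, sum_const, nsmul_eq_mul]
  apply mul_le_mul_of_nonneg_right _ (hg k)
  have h3 : (Icc (-m) m).filter (fun s => (s - t).natAbs = k) ⊆ {t + k, t - k} := by
    intro s hs
    rw [mem_filter] at hs
    rw [mem_insert, mem_singleton]
    omega
  have h4 := (card_le_card h3).trans (card_le_two)
  exact_mod_cast h4

end Pool.Agent.H47.NC
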