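import Mathlib
import Pool.Agent.H47.NC.Side
import Pool.Agent.H47.NC.Sums

set_option autoImplicit false
open Finset

/-! The probability that an edge near the bottom side is (jointly) pivotal. -/

namespace Pool.Agent.H47.NC

open Pool.Agent.H75.Perc Pool.Agent.H99.NC

/-- the statement of `noArch_half` (job N1) with a fixed constant -/
def NoArch (C : ℝ) : Prop := ∀ j l : ℕ, 1 ≤ j → j ≤ l →
    Pr (Bx (-l) l 0 l) (fun ω => ¬ Arch j l ω) ≤ C * ((j : ℝ) / l) ^ (1 / 3 : ℝ)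

/-- independence of the three local events -/
lemma core_bound {p : ℝ} (p0 : 0 ≤ p) (p1 : p ≤ 1) {E E1 : Finset (ℤ × ℤ)} {x y : ℤ × ℤ}
    {c r j l : ℤ} (hxy : IsUnit4 (y - x)) (h1 : E1 ⊆ E) (h2 : Bq x r ⊆ E)
    (h3 : j ≤ l → HA x.1 c j l ⊆ E) (d12 : Disjoint E1 (Bq x r))
    (d13 : j ≤ l → Disjoint E1 (HA x.1 c j l)) (d23 : j ≤ l → Disjoint (Bq x r) (HA x.1 c j l))
    {X Z : Finset (ℤ × ℤ) → Prop} (hX : ∀ ω, X ω ↔ X (ω ∩ E1))
    (hZ : ∀ ω, ω ⊆ E → Z ω → X ω ∧ F4' x y r ω ∧ (j ≤ l → ¬ ArchS x.1 c j l ω)) :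
    PrP (cp p) E Z ≤ PrP (cp p) E1 X * (u1 p r * (if j ≤ l then nA p j l else 1)) := by
  have hq := cp_Pb p0 p1
  rw [← PrP_F4' p (r := r) hxy]
  by_cases hjl : j ≤ l
  · rw [if_pos hjl, ← PrP_ArchS p x.1 c j l, ← mul_assoc,
      ← PrP_indep3' (cp p) h1 h2 (h3 hjl) d12 (d13 hjl) (d23 hjl)]
    refine PrP_mono hq fun ω hω hz => ?_
    obtain ⟨k1, k2, k3⟩ := hZ ω hω hz
    exact ⟨(hX ω).1 k1, (F4'_local ω).1 k2, fun h => k3 hjl ((ArchS_local _ _ _ _ _).2 h)⟩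
  · rw [if_neg hjl, mul_one, ← PrP_indep (cp p) h1 h2 d12]
    refine PrP_mono hq fun ω hω hz => ?_
    obtain ⟨k1, k2, _⟩ := hZ ω hω hz
    exact ⟨(hX ω).1 k1, (F4'_local ω).1 k2⟩

/-- the weight of a column -/
noncomputable def WT (m : ℤ) (T : Finset ℤ) (s : ℤ) : ℝ :=
  ∑ t ∈ T, (((s - t).natAbs : ℝ) + 1) ^ (-(1 / 3) : ℝ) + ((m : ℝ) + 1) ^ (-(1 / 3) : ℝ)

lemma third_term {C x y : ℝ} (hx : 0 ≤ x) (hy : 0 < y) (h : x ≤ C * y) (hC : 0 ≤ C) :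
    x ^ (1 / 3 : ℝ) ≤ C ^ (1 / 3 : ℝ) * y ^ (1 / 3 : ℝ) := by
  rw [← Real.mul_rpow hC hy.le]
  exact Real.rpow_le_rpow hx h (by norm_num)

/-- choice of the outer radius and the resulting bound -/
lemma exists_l {p : ℝ} (hp : 1 / 2 ≤ p) (p1 : p ≤ 1) {C : ℝ} (hC : 1 ≤ C) (hN : NoArch C) {m : ℤ}
    (hm : 1 ≤ m) {T : Finset ℤ} (hT : T.Nonempty) (s : ℤ) {j0 : ℤ} (hj0 : 0 ≤ j0) :
    ∃ l : ℤ, l ≤ m / 2 ∧ (∀ r ∈ T, ¬ (s - l ≤ r ∧ r ≤ s + l)) ∧
      (if 2 * (j0 + 1) ≤ l then nA p (2 * (j0 + 1)) l else 1) ≤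
        4 * C * ((j0 : ℝ) + 1) ^ (1 / 3 : ℝ) * WT m T s := by
  obtain ⟨t, ht, hmin⟩ := exists_min_image T (fun t => (s - t).natAbs) hT
  set d : ℤ := ((s - t).natAbs : ℤ) with hd
  set l : ℤ := min (d - 1) (m / 2) with hl
  have hj00 : (0 : ℝ) ≤ j0 := by exact_mod_cast hj0
  have hj : (0 : ℝ) < (j0 : ℝ) + 1 := by linarith
  refine ⟨l, min_le_right _ _, ?_, ?_⟩
  · intro r hr hh
    have h1 := hmin r hr
    have h2 : d ≤ ((s - r).natAbs : ℤ) := Int.ofNat_le.2 h1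
    have h3 : l ≤ d - 1 := min_le_left _ _
    omega
  · -- the two terms of the weight
    have w1 : ((d : ℝ) + 1) ^ (-(1 / 3) : ℝ) ≤ WT m T s := by
      unfold WT
      have h1 : ((d : ℝ) + 1) ^ (-(1 / 3) : ℝ) ≤
          ∑ t ∈ T, (((s - t).natAbs : ℝ) + 1) ^ (-(1 / 3) : ℝ) := by
        have h2 := single_le_sum (f := fun t => (((s - t).natAbs : ℝ) + 1) ^ (-(1 / 3) : ℝ))
          (fun i _ => by positivity) ht
        simpa [hd] using h2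
      have h3 : (0 : ℝ) ≤ ((m : ℝ) + 1) ^ (-(1 / 3) : ℝ) := by
        have : (0 : ℝ) ≤ m := by exact_mod_cast (by omega : (0 : ℤ) ≤ m)
        positivity
      linarith
    have w2 : ((m : ℝ) + 1) ^ (-(1 / 3) : ℝ) ≤ WT m T s := by
      unfold WT
      have h1 : (0 : ℝ) ≤ ∑ t ∈ T, (((s - t).natAbs : ℝ) + 1) ^ (-(1 / 3) : ℝ) :=
        sum_nonneg fun i _ => by positivity
      linarith
    have hm0 : (0 : ℝ) < (m : ℝ) + 1 := by
      have : (0 : ℝ) ≤ m := by exact_mod_cast (by omega : (0 : ℤ) ≤ m)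
      linarith
    have hd0 : (0 : ℝ) < (d : ℝ) + 1 := by
      have : (0 : ℝ) ≤ d := by exact_mod_cast (by omega : (0 : ℤ) ≤ d)
      linarith
    -- general comparison
    have comb : ∀ D : ℝ, 0 < D → D ^ (-(1 / 3) : ℝ) ≤ WT m T s → ∀ x : ℝ, 0 ≤ x →
        x ≤ (64 * ((j0 : ℝ) + 1)) / D → x ^ (1 / 3 : ℝ) ≤
          4 * ((j0 : ℝ) + 1) ^ (1 / 3 : ℝ) * WT m T s := by
      intro D hD hW x hx hxD
      calc x ^ (1 / 3 : ℝ) ≤ ((64 * ((j0 : ℝ) + 1)) / D) ^ (1 / 3 : ℝ) :=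
            Real.rpow_le_rpow hx hxD (by norm_num)
        _ = 4 * ((j0 : ℝ) + 1) ^ (1 / 3 : ℝ) * D ^ (-(1 / 3) : ℝ) := by
            rw [Real.div_rpow (by positivity) hD.le, Real.mul_rpow (by norm_num) hj.le,
              Real.rpow_neg hD.le, div_eq_mul_inv]
            congr 2
            rw [show (64 : ℝ) = 4 ^ (3 : ℕ) by norm_num, ← Real.rpow_natCast, ← Real.rpow_mul
              (by norm_num)]
            norm_num
        _ ≤ _ := by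
            apply mul_le_mul_of_nonneg_left hW
            positivity
    have fin : ∀ x : ℝ, x ≤ 4 * ((j0 : ℝ) + 1) ^ (1 / 3 : ℝ) * WT m T s → C * x ≤
        4 * C * ((j0 : ℝ) + 1) ^ (1 / 3 : ℝ) * WT m T s := by
      intro x hx
      nlinarith
    split_ifs with hjl
    · -- use the arch estimate
      obtain ⟨l', hl'⟩ : ∃ l' : ℕ, (l' : ℤ) = l := ⟨l.toNat, by omega⟩
      obtain ⟨j', hj'⟩ : ∃ j' : ℕ, (j' : ℤ) = 2 * (j0 + 1) := ⟨(2 * (j0 + 1)).toNat, by omega⟩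
      have h1 : nA p (2 * (j0 + 1)) l ≤ C * ((j' : ℝ) / l') ^ (1 / 3 : ℝ) := by
        rw [← hl', ← hj']
        exact (nA_mono hp p1 _ _).trans (hN j' l' (by omega) (by omega))
      refine h1.trans (fin _ ?_)
      have hl0 : (0 : ℝ) < l' := by exact_mod_cast (by omega : 0 < l')
      have hj1 : (j' : ℝ) = 2 * ((j0 : ℝ) + 1) := by exact_mod_cast hj'
      rcases le_total (d - 1) (m / 2) with hc | hc
      · have e : l = d - 1 := by rw [hl, min_eq_left hc]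
        refine comb _ hd0 w1 _ (by positivity) ?_
        rw [div_le_div_iff₀ hl0 hd0, hj1]
        have : (d : ℝ) = l' + 1 := by
          have : d = (l' : ℤ) + 1 := by omega
          exact_mod_cast this
        rw [this]
        have h3 : (1 : ℝ) ≤ l' := by exact_mod_cast (by omega : 1 ≤ l')
        nlinarith
      · have e : l = m / 2 := by rw [hl, min_eq_right hc]
        refine comb _ hm0 w2 _ (by positivity) ?_
        rw [div_le_div_iff₀ hl0 hm0, hj1]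
        have h4 : m ≤ 2 * (l' : ℤ) + 1 := by omega
        have : (m : ℝ) ≤ 2 * l' + 1 := by exact_mod_cast h4
        have h3 : (1 : ℝ) ≤ l' := by exact_mod_cast (by omega : 1 ≤ l')
        nlinarith
    · have h0 : (1 : ℝ) ≤ 4 * ((j0 : ℝ) + 1) ^ (1 / 3 : ℝ) * WT m T s := by
        rw [← Real.one_rpow (1 / 3 : ℝ)]
        rcases le_total (d - 1) (m / 2) with hc | hc
        · have e : l = d - 1 := by rw [hl, min_eq_left hc]
          have h1 := comb _ hd0 w1 1 (by norm_num) (by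
            rw [le_div_iff₀ hd0, one_mul]
            have h4 : d ≤ 2 * (j0 + 1) := by omega
            have : (d : ℝ) ≤ 2 * (j0 + 1) := by exact_mod_cast h4
            linarith)
          simpa using h1
        · have e : l = m / 2 := by rw [hl, min_eq_right hc]
          have h1 := comb _ hm0 w2 1 (by norm_num) (by
            rw [le_div_iff₀ hm0, one_mul]
            have h4 : m ≤ 4 * (j0 + 1) := by omega
            have : (m : ℝ) ≤ 4 * (j0 + 1) := by exact_mod_cast h4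
            linarith)
          simpa using h1
      have := fin 1 h0
      linarith

/-- the bound for `u1` at the radius `j0 / 8` -/
lemma u1_le {p K : ℝ} (hK : 1 ≤ K) {n : ℤ}
    (hu : ∀ s : ℕ, 1 ≤ s → (s : ℤ) ≤ n → uP p s ≤ K * (s : ℝ) ^ (-(5 / 4) : ℝ)) {j0 : ℤ}
    (hj0 : 0 ≤ j0) (hjn : j0 / 8 ≤ n) :
    u1 p (j0 / 8) ≤ 32 * K * ((j0 : ℝ) + 1) ^ (-(5 / 4) : ℝ) := by
  have hj : (0 : ℝ) < (j0 : ℝ) + 1 := by
    have : (0 : ℝ) ≤ j0 := by exact_mod_cast hj0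
    linarith
  have e32 : (16 : ℝ) ^ (5 / 4 : ℝ) = 32 := by
    rw [show (16 : ℝ) = 2 ^ (4 : ℕ) by norm_num, ← Real.rpow_natCast, ← Real.rpow_mul
      (by norm_num), show ((4 : ℕ) : ℝ) * (5 / 4) = ((5 : ℕ) : ℝ) by norm_num, Real.rpow_natCast]
    norm_num
  have key : ∀ D : ℝ, 0 < D → (j0 : ℝ) + 1 ≤ 16 * D → D ^ (-(5 / 4) : ℝ) ≤
      32 * ((j0 : ℝ) + 1) ^ (-(5 / 4) : ℝ) := by
    intro D hD h
    have h1 : (16 * D) ^ (-(5 / 4) : ℝ) ≤ ((j0 : ℝ) + 1) ^ (-(5 / 4) : ℝ) :=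
      Real.rpow_le_rpow_of_nonpos hj h (by norm_num)
    rw [Real.mul_rpow (by norm_num) hD.le, Real.rpow_neg (by norm_num), e32] at h1
    linarith
  unfold u1
  split_ifs with h
  · obtain ⟨r, hr⟩ : ∃ r : ℕ, (r : ℤ) = j0 / 8 := ⟨(j0 / 8).toNat, by omega⟩
    rw [← hr]
    refine (hu r (by omega) (by omega)).trans ?_
    rw [show 32 * K * ((j0 : ℝ) + 1) ^ (-(5 / 4) : ℝ) =
      K * (32 * ((j0 : ℝ) + 1) ^ (-(5 / 4) : ℝ)) by ring]
    apply mul_le_mul_of_nonneg_left _ (by linarith)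
    apply key
    · exact_mod_cast (by omega : 0 < r)
    · have : j0 + 1 ≤ 16 * (r : ℤ) := by omega
      exact_mod_cast this
  · have h1 := key 1 one_pos (by
      have : j0 + 1 ≤ 16 := by omega
      have : (j0 : ℝ) + 1 ≤ 16 := by exact_mod_cast this
      linarith)
    rw [Real.one_rpow] at h1
    have h2 : 0 ≤ 32 * ((j0 : ℝ) + 1) ^ (-(5 / 4) : ℝ) := by positivity
    nlinarith

/-- lower left end of the edge with label `f` -/
def xF (f : ℤ × ℤ) : ℤ × ℤ := (f.1 / 2, f.2 / 2)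

/-- upper right end of the edge with label `f` -/
def yF (f : ℤ × ℤ) : ℤ × ℤ := (f.1 - f.1 / 2, f.2 - f.2 / 2)

lemma xF_add_yF (f : ℤ × ℤ) : xF f + yF f = f := by
  refine Prod.ext ?_ ?_ <;> simp only [xF, yF, Prod.fst_add, Prod.snd_add] <;> ring

lemma unit_F {f : ℤ × ℤ} (h : (f.1 + f.2) % 2 = 1) : IsUnit4 (yF f - xF f) := by
  unfold IsUnit4 xF yF
  simp only [Prod.mk_sub_mk, Prod.mk.injEq]
  omega

/-- the bound for one edge in the bottom sector -/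
lemma one_edge {p K C : ℝ} (hp : 1 / 2 ≤ p) (p1 : p ≤ 1) (hK : 1 ≤ K) (hC : 1 ≤ C)
    (hN : NoArch C) (hAB : ArchBlock) {m : ℤ} (hm : 1 ≤ m) {T : Finset ℤ}
    {A1 A2 : ℤ × ℤ → Prop} (hQ : QT m T A1 A2)
    (hu : ∀ s : ℕ, 1 ≤ s → (s : ℤ) ≤ m → uP p s ≤ K * (s : ℝ) ^ (-(5 / 4) : ℝ))
    {f : ℤ × ℤ} (hf : f ∈ Bq (0, 0) m) (hfb : f.2 ≤ -|f.1|)
    {E1 : Finset (ℤ × ℤ)} {X Z : Finset (ℤ × ℤ) → Prop} (hX : ∀ ω, X ω ↔ X (ω ∩ E1))
    (hE1 : E1 = ∅ ∨ (E1 ⊆ Bq (0, 0) (m / 16) ∧ 2 * (m / 4) < -f.2))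
    (hZ : ∀ ω, ω ⊆ Bq (0, 0) m → Z ω → X ω ∧ ∃ ω', (∀ e, e ∉ E1 → (e ∈ ω' ↔ e ∈ ω)) ∧
      Piv (QM m A1 A2) f ω') :
    PrP (cp p) (Bq (0, 0) m) Z ≤ PrP (cp p) E1 X *
      (128 * K * C * ((((f.2 / 2 + m : ℤ) : ℝ) + 1) ^ (-(11 / 12) : ℝ) * WT m T (f.1 / 2))) := by
  have p0 : 0 ≤ p := by linarith
  set x := xF f with hx
  set y := yF f with hy
  have hodd : (f.1 + f.2) % 2 = 1 := (mem_Bq.1 hf).2.2
  have hxy : IsUnit4 (y - x) := unit_F hodd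
  have hsum : x + y = f := xF_add_yF f
  have hfm := mem_Bq.1 hf
  simp only at hfm
  have hfb' := abs_le.1 (show |f.1| ≤ -f.2 by linarith)
  set j0 : ℤ := f.2 / 2 + m with hj0
  have hj0n : 0 ≤ j0 := by omega
  have hx1 : x.1 = f.1 / 2 := rfl
  have hx2 : x.2 = f.2 / 2 := rfl
  have hy1 : y.1 = f.1 - f.1 / 2 := rfl
  have hy2 : y.2 = f.2 - f.2 / 2 := rfl
  obtain ⟨l, hl1, hl2, hl3⟩ := exists_l hp p1 hC hN hm ⟨m, hQ.mT⟩ x.1 hj0n
  -- distances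
  have hr0 : j0 / 8 ≤ j0 := by omega
  have hbox : |x.1| + j0 / 8 ≤ m ∧ |x.2| + j0 / 8 ≤ m := by
    constructor
    · have : |x.1| ≤ m - j0 := by rw [abs_le]; omega
      omega
    · have : |x.2| ≤ m - j0 := by rw [abs_le]; omega
      omega
  have hb1 := abs_le.1 (show |x.1| ≤ m - j0 / 8 by linarith [hbox.1])
  have hb2 := abs_le.1 (show |x.2| ≤ m - j0 / 8 by linarith [hbox.2])
  have hBx : Bq x (j0 / 8) ⊆ Bq (0, 0) m := by
    intro e he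
    rw [mem_Bq] at he ⊢
    simp only
    omega
  have hmT := hl2 m hQ.mT
  have hmT' := hl2 (-m) (hQ.sT m hQ.mT)
  have hHA : 2 * (j0 + 1) ≤ l → HA x.1 (-m) (2 * (j0 + 1)) l ⊆ Bq (0, 0) m := by
    intro hjl e he
    unfold HA at he
    rw [mem_sdiff, mem_Bx] at he
    rw [mem_Bq]
    simp only
    omega
  have hE1sub : E1 ⊆ Bq (0, 0) m := by
    rcases hE1 with rfl | ⟨h1, -⟩
    · exact empty_subset _
    · refine h1.trans ?_
      intro e he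
      rw [mem_Bq] at he ⊢
      simp only at he ⊢
      omega
  have d12 : Disjoint E1 (Bq x (j0 / 8)) := by
    rcases hE1 with rfl | ⟨h1, h2⟩
    · exact disjoint_empty_left _
    · rw [disjoint_left]
      intro e he he'
      have h3 := mem_Bq.1 (h1 he)
      rw [mem_Bq] at he'
      simp only at h3
      omega
  have d13 : 2 * (j0 + 1) ≤ l → Disjoint E1 (HA x.1 (-m) (2 * (j0 + 1)) l) := by
    intro hjl
    rcases hE1 with rfl | ⟨h1, h2⟩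
    · exact disjoint_empty_left _
    · rw [disjoint_left]
      intro e he he'
      have h3 := mem_Bq.1 (h1 he)
      unfold HA at he'
      rw [mem_sdiff, mem_Bx] at he'
      simp only at h3
      omega
  have d23 : 2 * (j0 + 1) ≤ l → Disjoint (Bq x (j0 / 8)) (HA x.1 (-m) (2 * (j0 + 1)) l) := by
    intro hjl
    rw [disjoint_left]
    intro e he he'
    rw [mem_Bq] at he
    unfold HA at he'
    rw [mem_sdiff, mem_Bx, mem_Bx] at he'
    omega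
  -- locality of the two events
  have hloc1 : ∀ ω ω' : Finset (ℤ × ℤ), (∀ e, e ∉ E1 → (e ∈ ω' ↔ e ∈ ω)) →
      F4' x y (j0 / 8) ω' → F4' x y (j0 / 8) ω := by
    intro ω ω' hω h hr
    refine (F4_congr ?_).1 (h hr)
    ext e
    simp only [mem_inter, mem_erase]
    constructor
    · rintro ⟨⟨k1, k2⟩, k3⟩
      exact ⟨⟨k1, (hω e (fun h => (disjoint_left.1 d12) h k3)).1 k2⟩, k3⟩
    · rintro ⟨⟨k1, k2⟩, k3⟩
      exact ⟨⟨k1, (hω e (fun h => (disjoint_left.1 d12) h k3)).2 k2⟩, k3⟩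
  have hloc2 : ∀ ω ω' : Finset (ℤ × ℤ), (∀ e, e ∉ E1 → (e ∈ ω' ↔ e ∈ ω)) →
      2 * (j0 + 1) ≤ l → ArchS x.1 (-m) (2 * (j0 + 1)) l ω → ArchS x.1 (-m) (2 * (j0 + 1)) l ω' := by
    intro ω ω' hω hjl h
    rw [ArchS_local] at h ⊢
    have : ω ∩ HA x.1 (-m) (2 * (j0 + 1)) l = ω' ∩ HA x.1 (-m) (2 * (j0 + 1)) l := by
      ext e
      simp only [mem_inter]
      constructor
      · rintro ⟨k1, k2⟩
        exact ⟨(hω e (fun h => (disjoint_left.1 (d13 hjl)) h k2)).2 k1, k2⟩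
      · rintro ⟨k1, k2⟩
        exact ⟨(hω e (fun h => (disjoint_left.1 (d13 hjl)) h k2)).1 k1, k2⟩
    rwa [← this]
  have h1 := core_bound p0 p1 (E := Bq (0, 0) m) (E1 := E1) (x := x) (y := y) (c := -m)
    (r := j0 / 8) (j := 2 * (j0 + 1)) (l := l) hxy hE1sub hBx hHA d12 d13 d23 (X := X) (Z := Z) hX
    (by
      intro ω hω hz
      obtain ⟨k1, ω', k2, k3⟩ := hZ ω hω hz
      rw [← hsum] at k3
      refine ⟨k1, hloc1 ω ω' k2 (fun hr => Piv_QM_F4 hQ.bd1 hQ.bd2 hxy hr hbox k3), ?_⟩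
      intro hjl ha
      refine Piv_QM_Arch hAB hQ hxy (by omega) hjl (by omega) hl2 (by omega) (by omega)
        (by omega) k3 (hloc2 ω ω' k2 hjl ha))
  refine h1.trans ?_
  apply mul_le_mul_of_nonneg_left _ (PrP_nonneg (cp_Pb p0 p1) _ _)
  have h2 := u1_le hK hu hj0n (by omega)
  have hjr : (0 : ℝ) < (j0 : ℝ) + 1 := by
    have : (0 : ℝ) ≤ j0 := by exact_mod_cast hj0n
    linarith
  have h3 : 0 ≤ (if 2 * (j0 + 1) ≤ l then nA p (2 * (j0 + 1)) l else 1) := by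
    split_ifs
    · exact PrP_nonneg (cp_Pb p0 p1) _ _
    · norm_num
  calc u1 p (j0 / 8) * (if 2 * (j0 + 1) ≤ l then nA p (2 * (j0 + 1)) l else 1)
      ≤ (32 * K * ((j0 : ℝ) + 1) ^ (-(5 / 4) : ℝ)) *
        (4 * C * ((j0 : ℝ) + 1) ^ (1 / 3 : ℝ) * WT m T x.1) :=
        mul_le_mul h2 hl3 h3 (by positivity)
    _ = 128 * K * C * ((((j0 : ℝ) + 1) ^ (-(5 / 4) : ℝ) * ((j0 : ℝ) + 1) ^ (1 / 3 : ℝ)) *
          WT m T x.1) := by ring
    _ = _ := by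
        rw [← Real.rpow_add hjr]
        norm_num
        exact Or.inl (Or.inl rfl)

end Pool.Agent.H47.NC
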