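import Mathlib
import Pool.Agent.H47.NC.Bottom

set_option autoImplicit false
open Finset

/-! Sums over all edges near the boundary. -/

namespace Pool.Agent.H47.NC

open Pool.Agent.H75.Perc Pool.Agent.H99.NC

/-- bottom sector -/
noncomputable def SB (m : ℤ) : Finset (ℤ × ℤ) := (Bq (0, 0) m).filter (fun f => f.2 ≤ -|f.1|)

lemma sum_b_le (m : ℤ) (hm : 0 ≤ m) :
    ∑ b ∈ Icc (-m) m, ((((b + m : ℤ) : ℝ) + 1) ^ (-(11 / 12) : ℝ)) ≤
      24 * ((m : ℝ) + 1) ^ (1 / 12 : ℝ) := by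
  have h1 : ∑ b ∈ Icc (-m) m, ((((b + m : ℤ) : ℝ) + 1) ^ (-(11 / 12) : ℝ)) ≤
      ∑ j ∈ range (2 * m + 1).toNat, ((j : ℝ) + 1) ^ (-(11 / 12) : ℝ) := by
    apply le_of_eq
    refine sum_nbij' (fun b => (b + m).toNat) (fun j => (j : ℤ) - m) ?_ ?_ ?_ ?_ ?_
    · intro b hb; rw [mem_Icc] at hb; rw [mem_range]; omega
    · intro j hj; rw [mem_range] at hj; rw [mem_Icc]; omega
    · intro b hb; rw [mem_Icc] at hb; omega
    · intro j hj; omega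
    · intro b hb
      rw [mem_Icc] at hb
      have : (((b + m).toNat : ℕ) : ℤ) = b + m := by omega
      have h2 : (((b + m).toNat : ℕ) : ℝ) = ((b + m : ℤ) : ℝ) := by exact_mod_cast this
      rw [h2]
  refine h1.trans ((sum_rpow_le (by norm_num) (by norm_num) _).trans ?_)
  have hm0 : (0 : ℝ) ≤ m := by exact_mod_cast hm
  have h2 : (((2 * m + 1).toNat : ℕ) : ℝ) = 2 * m + 1 := by
    have : (((2 * m + 1).toNat : ℕ) : ℤ) = 2 * m + 1 := by omega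
    exact_mod_cast this
  rw [h2, show (1 : ℝ) - 11 / 12 = 1 / 12 by norm_num, div_le_iff₀ (by norm_num)]
  have h3 : (2 * (m : ℝ) + 1) ^ (1 / 12 : ℝ) ≤ (2 * ((m : ℝ) + 1)) ^ (1 / 12 : ℝ) :=
    Real.rpow_le_rpow (by positivity) (by linarith) (by norm_num)
  rw [Real.mul_rpow (by norm_num) (by positivity)] at h3
  have h4 : (2 : ℝ) ^ (1 / 12 : ℝ) ≤ 2 := by
    calc (2 : ℝ) ^ (1 / 12 : ℝ) ≤ 2 ^ (1 : ℝ) :=
          Real.rpow_le_rpow_of_exponent_le (by norm_num) (by norm_num)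
      _ = 2 := Real.rpow_one 2
  have h5 : 0 ≤ ((m : ℝ) + 1) ^ (1 / 12 : ℝ) := by positivity
  nlinarith

lemma sum_W_le (m : ℤ) (hm : 0 ≤ m) {T : Finset ℤ} (hT : ∀ r ∈ T, -m ≤ r ∧ r ≤ m) :
    ∑ a ∈ Icc (-m) m, WT m T a ≤ (6 * T.card + 2) * ((m : ℝ) + 1) ^ (2 / 3 : ℝ) := by
  have hm0 : (0 : ℝ) ≤ m := by exact_mod_cast hm
  have h2 : (((2 * m + 1).toNat : ℕ) : ℝ) = 2 * m + 1 := by
    have : (((2 * m + 1).toNat : ℕ) : ℤ) = 2 * m + 1 := by omega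
    exact_mod_cast this
  have h23 : (2 : ℝ) ^ (2 / 3 : ℝ) ≤ 2 := by
    calc (2 : ℝ) ^ (2 / 3 : ℝ) ≤ 2 ^ (1 : ℝ) :=
          Real.rpow_le_rpow_of_exponent_le (by norm_num) (by norm_num)
      _ = 2 := Real.rpow_one 2
  have hX : 0 ≤ ((m : ℝ) + 1) ^ (2 / 3 : ℝ) := by positivity
  have h3 : (2 * (m : ℝ) + 1) ^ (2 / 3 : ℝ) ≤ 2 * ((m : ℝ) + 1) ^ (2 / 3 : ℝ) := by
    have h := Real.rpow_le_rpow (z := (2 / 3 : ℝ)) (by positivity)
      (show 2 * (m : ℝ) + 1 ≤ 2 * ((m : ℝ) + 1) by linarith) (by norm_num)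
    rw [Real.mul_rpow (by norm_num) (by positivity)] at h
    nlinarith
  have key : ∀ t ∈ T, ∑ a ∈ Icc (-m) m, (((a - t).natAbs : ℝ) + 1) ^ (-(1 / 3) : ℝ) ≤
      6 * ((m : ℝ) + 1) ^ (2 / 3 : ℝ) := by
    intro t ht
    have h4 := sum_dist_le (hT t ht) (fun k => ((k : ℝ) + 1) ^ (-(1 / 3) : ℝ))
      (fun k => by positivity)
    have h5 := sum_rpow_le (a := 1 / 3) (by norm_num) (by norm_num) (2 * m + 1).toNat
    rw [h2, show (1 : ℝ) - 1 / 3 = 2 / 3 by norm_num, le_div_iff₀ (by norm_num)] at h5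
    have h6 : ∑ a ∈ Icc (-m) m, (((a - t).natAbs : ℝ) + 1) ^ (-(1 / 3) : ℝ) ≤
        2 * ∑ k ∈ range (2 * m + 1).toNat, ((k : ℝ) + 1) ^ (-(1 / 3) : ℝ) := h4
    linarith
  unfold WT
  rw [sum_add_distrib, sum_comm]
  have h7 : ∑ t ∈ T, ∑ a ∈ Icc (-m) m, (((a - t).natAbs : ℝ) + 1) ^ (-(1 / 3) : ℝ) ≤
      T.card * (6 * ((m : ℝ) + 1) ^ (2 / 3 : ℝ)) := by
    rw [← nsmul_eq_mul]
    exact sum_le_card_nsmul _ _ _ key
  have h8 : ∑ a ∈ Icc (-m) m, ((m : ℝ) + 1) ^ (-(1 / 3) : ℝ) ≤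
      2 * ((m : ℝ) + 1) ^ (2 / 3 : ℝ) := by
    rw [sum_const, nsmul_eq_mul, Int.card_Icc]
    have h9 : (((m + 1 - -m).toNat : ℕ) : ℝ) = 2 * m + 1 := by
      have : (((m + 1 - -m).toNat : ℕ) : ℤ) = 2 * m + 1 := by omega
      exact_mod_cast this
    rw [h9]
    have h10 : ((m : ℝ) + 1) ^ (2 / 3 : ℝ) = ((m : ℝ) + 1) * ((m : ℝ) + 1) ^ (-(1 / 3) : ℝ) := by
      conv_rhs => rw [← Real.rpow_one ((m : ℝ) + 1)]
      rw [← Real.rpow_mul (by positivity), ← Real.rpow_add (by positivity)]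
      norm_num
    rw [h10]
    have : 0 ≤ ((m : ℝ) + 1) ^ (-(1 / 3) : ℝ) := by positivity
    nlinarith
  nlinarith

/-- sum over the bottom sector -/
lemma sum_SB_le (m : ℤ) (hm : 0 ≤ m) {T : Finset ℤ} (hT : ∀ r ∈ T, -m ≤ r ∧ r ≤ m) :
    ∑ f ∈ SB m, ((((f.2 / 2 + m : ℤ) : ℝ) + 1) ^ (-(11 / 12) : ℝ) * WT m T (f.1 / 2)) ≤
      (288 * T.card + 96) * ((m : ℝ) + 1) ^ (3 / 4 : ℝ) := by
  have hm0 : (0 : ℝ) ≤ m := by exact_mod_cast hm
  set F : ℤ × ℤ → ℝ := fun z => (((z.2 + m : ℤ) : ℝ) + 1) ^ (-(11 / 12) : ℝ) * WT m T z.1 with hF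
  have hW0 : ∀ s, 0 ≤ WT m T s := by
    intro s; unfold WT
    have : 0 ≤ ∑ t ∈ T, (((s - t).natAbs : ℝ) + 1) ^ (-(1 / 3) : ℝ) :=
      sum_nonneg fun i _ => by positivity
    positivity
  have hmaps : ∀ f ∈ SB m, xF f ∈ Icc (-m) m ×ˢ Icc (-m) m := by
    intro f hf
    unfold SB at hf
    rw [mem_filter, mem_Bq] at hf
    rw [mem_product, mem_Icc, mem_Icc]
    simp only [xF]
    simp only at hf
    omega
  have h1 : ∑ f ∈ SB m, ((((f.2 / 2 + m : ℤ) : ℝ) + 1) ^ (-(11 / 12) : ℝ) * WT m T (f.1 / 2)) =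
      ∑ z ∈ Icc (-m) m ×ˢ Icc (-m) m, ∑ f ∈ (SB m).filter (fun f => xF f = z), F (xF f) := by
    rw [sum_fiberwise_of_maps_to hmaps]
    rfl
  rw [h1]
  have h2 : ∀ z ∈ Icc (-m) m ×ˢ Icc (-m) m, ∑ f ∈ (SB m).filter (fun f => xF f = z), F (xF f) ≤
      2 * F z := by
    intro z hz
    rw [mem_product, mem_Icc, mem_Icc] at hz
    have h3 : ∑ f ∈ (SB m).filter (fun f => xF f = z), F (xF f) =
        ∑ f ∈ (SB m).filter (fun f => xF f = z), F z :=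
      sum_congr rfl fun f hf => by rw [(mem_filter.1 hf).2]
    rw [h3, sum_const, nsmul_eq_mul]
    have hFz : 0 ≤ F z := by
      rw [hF]
      have : (0 : ℝ) ≤ ((z.2 + m : ℤ) : ℝ) := by exact_mod_cast (by omega : (0 : ℤ) ≤ z.2 + m)
      have := hW0 z.1
      positivity
    apply mul_le_mul_of_nonneg_right _ hFz
    have h4 : (SB m).filter (fun f => xF f = z) ⊆
        {(2 * z.1, 2 * z.2 + 1), (2 * z.1 + 1, 2 * z.2)} := by
      intro f hf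
      unfold SB at hf
      rw [mem_filter, mem_filter, mem_Bq] at hf
      obtain ⟨⟨⟨-, -, h5⟩, -⟩, h6⟩ := hf
      have h7 := congrArg Prod.fst h6
      have h8 := congrArg Prod.snd h6
      simp only [xF] at h7 h8
      rw [mem_insert, mem_singleton]
      rcases Int.emod_two_eq_zero_or_one f.1 with h9 | h9
      · left; exact Prod.ext (by simp only; omega) (by simp only; omega)
      · right; exact Prod.ext (by simp only; omega) (by simp only; omega)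
    exact_mod_cast (card_le_card h4).trans card_le_two
  refine (sum_le_sum h2).trans ?_
  rw [← mul_sum, sum_product]
  have h5 : ∑ a ∈ Icc (-m) m, ∑ b ∈ Icc (-m) m, F (a, b) =
      (∑ b ∈ Icc (-m) m, ((((b + m : ℤ) : ℝ) + 1) ^ (-(11 / 12) : ℝ))) *
        ∑ a ∈ Icc (-m) m, WT m T a := by
    rw [sum_mul_sum, sum_comm]
  rw [h5]
  have h6 := sum_b_le m hm
  have h7 := sum_W_le m hm hT
  have h8 : 0 ≤ ∑ a ∈ Icc (-m) m, WT m T a := sum_nonneg fun a _ => hW0 a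
  have h9 := mul_le_mul h6 h7 h8 (by positivity)
  have h10 : 24 * ((m : ℝ) + 1) ^ (1 / 12 : ℝ) * ((6 * T.card + 2) *
      ((m : ℝ) + 1) ^ (2 / 3 : ℝ)) = (144 * T.card + 48) * ((m : ℝ) + 1) ^ (3 / 4 : ℝ) := by
    have : ((m : ℝ) + 1) ^ (3 / 4 : ℝ) = ((m : ℝ) + 1) ^ (1 / 12 : ℝ) *
        ((m : ℝ) + 1) ^ (2 / 3 : ℝ) := by
      rw [← Real.rpow_add (by positivity)]; norm_num
    rw [this]; ring
  rw [h10] at h9
  linarith

/-! ### Symmetries of quads -/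

lemma QT_Y {m : ℤ} {T : Finset ℤ} {A1 A2 : ℤ × ℤ → Prop} (h : QT m T A1 A2) :
    QT m T (fun v => A1 ((syY 0).g' v)) (fun v => A2 ((syY 0).g' v)) := by
  have e : ∀ v : ℤ × ℤ, (syY 0).g' v = (v.1, 0 - v.2) := fun v => rfl
  simp only [e]
  refine ⟨?_, ?_, h.mT, h.sT, h.rT, ?_, ?_, ?_, ?_⟩
  · intro v hv
    have := h.bd1 _ hv
    rw [bq0] at this ⊢
    unfold bdB inB at *
    simp only at this
    omega
  · intro v hv
    have := h.bd2 _ hv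
    rw [bq0] at this ⊢
    unfold bdB inB at *
    simp only at this
    omega
  · intro s t h1 h2 h3 h4
    have := h.top s t h1 h2 h3 h4
    simpa using this
  · intro s t h1 h2 h3 h4
    have := h.bot s t h1 h2 h3 h4
    simpa using this
  · intro s t h1 h2 h3 h4
    have := h.lef (0 - t) (0 - s) (by omega) (by omega) (by omega)
      (fun r hr hh => h4 (-r) (h.sT r hr) (by omega))
    exact ⟨this.1.symm, this.2.symm⟩
  · intro s t h1 h2 h3 h4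
    have := h.rig (0 - t) (0 - s) (by omega) (by omega) (by omega)
      (fun r hr hh => h4 (-r) (h.sT r hr) (by omega))
    exact ⟨this.1.symm, this.2.symm⟩

lemma QT_X {m : ℤ} {T : Finset ℤ} {A1 A2 : ℤ × ℤ → Prop} (h : QT m T A1 A2) :
    QT m T (fun v => A1 ((syX 0).g' v)) (fun v => A2 ((syX 0).g' v)) := by
  have e : ∀ v : ℤ × ℤ, (syX 0).g' v = (0 - v.1, v.2) := fun v => rfl
  simp only [e]
  refine ⟨?_, ?_, h.mT, h.sT, h.rT, ?_, ?_, ?_, ?_⟩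
  · intro v hv
    have := h.bd1 _ hv
    rw [bq0] at this ⊢
    unfold bdB inB at *
    simp only at this
    omega
  · intro v hv
    have := h.bd2 _ hv
    rw [bq0] at this ⊢
    unfold bdB inB at *
    simp only at this
    omega
  · intro s t h1 h2 h3 h4
    have := h.bot (0 - t) (0 - s) (by omega) (by omega) (by omega)
      (fun r hr hh => h4 (-r) (h.sT r hr) (by omega))
    exact ⟨this.1.symm, this.2.symm⟩
  · intro s t h1 h2 h3 h4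
    have := h.top (0 - t) (0 - s) (by omega) (by omega) (by omega)
      (fun r hr hh => h4 (-r) (h.sT r hr) (by omega))
    exact ⟨this.1.symm, this.2.symm⟩
  · intro s t h1 h2 h3 h4
    have := h.rig s t h1 h2 h3 h4
    simpa using this
  · intro s t h1 h2 h3 h4
    have := h.lef s t h1 h2 h3 h4
    simpa using this

lemma QT_D {m : ℤ} {T : Finset ℤ} {A1 A2 : ℤ × ℤ → Prop} (h : QT m T A1 A2) :
    QT m T (fun v => A1 (syD.g' v)) (fun v => A2 (syD.g' v)) := by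
  have e : ∀ v : ℤ × ℤ, syD.g' v = (v.2, v.1) := fun v => rfl
  simp only [e]
  refine ⟨?_, ?_, h.mT, h.sT, h.rT, h.lef, h.rig, h.bot, h.top⟩
  · intro v hv
    have := h.bd1 _ hv
    rw [bq0] at this ⊢
    unfold bdB inB at *
    simp only at this
    omega
  · intro v hv
    have := h.bd2 _ hv
    rw [bq0] at this ⊢
    unfold bdB inB at *
    simp only at this
    omega

/-- a symmetry of the square around the origin -/
structure Sq0 (S : Sy) : Prop where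
  sq : SqS S
  z : S.g (0, 0) = (0, 0)
  inn : ∀ (m : ℤ) v, inB (-m) m (-m) m (S.g v) ↔ inB (-m) m (-m) m v

lemma Sq0_X : Sq0 (syX 0) := ⟨SqS_X 0, rfl, fun m v => by unfold inB; simp only [syX]; omega⟩
lemma Sq0_Y : Sq0 (syY 0) := ⟨SqS_Y 0, rfl, fun m v => by unfold inB; simp only [syY]; omega⟩
lemma Sq0_D : Sq0 syD := ⟨SqS_D, rfl, fun m v => by unfold inB; simp only [syD]; omega⟩

lemma Sq0.box {S : Sy} (h : Sq0 S) (m : ℤ) (e : ℤ × ℤ) :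
    e ∈ Bq (0, 0) m ↔ S.G' e ∈ Bq (0, 0) m := by
  have := (h.sq (0, 0) m).1 e
  rwa [h.z] at this

lemma Sq0.QM {S : Sy} (h : Sq0 S) (m : ℤ) (A1 A2 : ℤ × ℤ → Prop) (ω : Finset (ℤ × ℤ)) :
    NC.QM m (fun v => A1 (S.g' v)) (fun v => A2 (S.g' v)) (ω.map S.G) ↔ NC.QM m A1 A2 ω := by
  unfold NC.QM
  refine QC_map S ?_ (h.inn m) A1 A2 ω
  intro e
  have := h.box m e
  rwa [Bq0] at this

/-- joint pivotality probability -/
noncomputable def jp (p : ℝ) (m : ℤ) (A1 A2 : ℤ × ℤ → Prop) (e f : ℤ × ℤ) : ℝ :=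
  PrP (cp p) (Bq (0, 0) m) (JP (QM m A1 A2) e f)

/-- pivotality probability -/
noncomputable def pv (p : ℝ) (m : ℤ) (A1 A2 : ℤ × ℤ → Prop) (f : ℤ × ℤ) : ℝ :=
  PrP (cp p) (Bq (0, 0) m) (Piv (QM m A1 A2) f)

lemma jp_map {S : Sy} (h : Sq0 S) (p : ℝ) (m : ℤ) (A1 A2 : ℤ × ℤ → Prop) (e f : ℤ × ℤ) :
    jp p m (fun v => A1 (S.g' v)) (fun v => A2 (S.g' v)) (S.G e) (S.G f) = jp p m A1 A2 e f := by
  unfold jp
  rw [Sy_PrP S p (h.box m)]
  exact PrP_congr fun ω _ => JP_map S (h.QM m A1 A2) e f ω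

lemma pv_map {S : Sy} (h : Sq0 S) (p : ℝ) (m : ℤ) (A1 A2 : ℤ × ℤ → Prop) (f : ℤ × ℤ) :
    pv p m (fun v => A1 (S.g' v)) (fun v => A2 (S.g' v)) (S.G f) = pv p m A1 A2 f := by
  unfold pv
  rw [Sy_PrP S p (h.box m)]
  exact PrP_congr fun ω _ => Piv_map S (h.QM m A1 A2) f ω

/-- a functional of quads, central edges and edges which is compatible with symmetries -/
structure Fun0 (m : ℤ) (Φ : (ℤ × ℤ → Prop) → (ℤ × ℤ → Prop) → ℤ × ℤ → ℤ × ℤ → ℝ) : Prop where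
  nn : ∀ A1 A2 e f, 0 ≤ Φ A1 A2 e f
  map : ∀ S : Sy, Sq0 S → ∀ A1 A2 e f,
    Φ (fun v => A1 (S.g' v)) (fun v => A2 (S.g' v)) (S.G e) (S.G f) = Φ A1 A2 e f

/-- From the bottom sector to all sectors. `d` is a lower bound for the distance from the centre. -/
lemma all_sectors {m : ℤ} {T : Finset ℤ} {Φ : (ℤ × ℤ → Prop) → (ℤ × ℤ → Prop) → ℤ × ℤ → ℤ × ℤ → ℝ}
    (hΦ : Fun0 m Φ) (d : ℤ) {B : ℝ}
    (hB : ∀ A1 A2, QT m T A1 A2 → ∀ e, IsUnit4 e →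
      ∑ f ∈ (SB m).filter (fun f => d < -f.2), Φ A1 A2 e f ≤ B)
    {A1 A2 : ℤ × ℤ → Prop} (hQ : QT m T A1 A2) {e : ℤ × ℤ} (he : IsUnit4 e) :
    ∑ f ∈ (Bq (0, 0) m).filter (fun f => d < |f.1| ∨ d < |f.2|), Φ A1 A2 e f ≤ 4 * B := by
  classical
  set R : Finset (ℤ × ℤ) := (SB m).filter (fun f => d < -f.2) with hR
  have tr : ∀ (S : Sy), Sq0 S → ∀ (R' R'' : Finset (ℤ × ℤ)), (∀ f, f ∈ R'' ↔ S.G f ∈ R') →
      ∀ A1 A2 e, ∑ f ∈ R'', Φ A1 A2 e f ≤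
        ∑ f ∈ R', Φ (fun v => A1 (S.g' v)) (fun v => A2 (S.g' v)) (S.G e) f := by
    intro S hS R' R'' hRR A1 A2 e
    have h1 : ∑ f ∈ R'', Φ A1 A2 e f =
        ∑ f ∈ R''.map S.G, Φ (fun v => A1 (S.g' v)) (fun v => A2 (S.g' v)) (S.G e) f := by
      rw [sum_map]
      exact sum_congr rfl fun f _ => (hΦ.map S hS A1 A2 e f).symm
    rw [h1]
    apply sum_le_sum_of_subset_of_nonneg
    · intro f hf
      rw [mem_map] at hf
      obtain ⟨g, hg, rfl⟩ := hf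
      exact (hRR g).1 hg
    · intro f _ _; exact hΦ.nn _ _ _ _
  have hu : ∀ S : Sy, Sq0 S → ∀ e, IsUnit4 e → IsUnit4 (S.G e) := by
    intro S hS e he
    have h3 : ((0, 0) : ℤ × ℤ) = 0 := rfl
    have h0 : IsUnit4 (e - (0, 0)) := by rw [h3, sub_zero]; exact he
    have h1 := (S.unit (0, 0) e).1 h0
    have h2 := S.add (0, 0) e
    rw [hS.z] at h1 h2
    rw [h3, sub_zero] at h1
    rw [h3, zero_add, zero_add] at h2
    rw [← h2]; exact h1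
  -- top
  set RT : Finset (ℤ × ℤ) := (Bq (0, 0) m).filter (fun f => |f.1| ≤ f.2 ∧ d < f.2) with hRT
  set RL : Finset (ℤ × ℤ) := (Bq (0, 0) m).filter (fun f => f.1 ≤ -|f.2| ∧ d < -f.1) with hRL
  set RR : Finset (ℤ × ℤ) := (Bq (0, 0) m).filter (fun f => |f.2| ≤ f.1 ∧ d < f.1) with hRR
  have bT : ∀ A1 A2, QT m T A1 A2 → ∀ e, IsUnit4 e → ∑ f ∈ RT, Φ A1 A2 e f ≤ B := by
    intro A1 A2 hQ e he
    refine (tr (syY 0) Sq0_Y R RT ?_ A1 A2 e).trans (hB _ _ (QT_Y hQ) _ (hu _ Sq0_Y e he))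
    intro f
    rw [hRT, hR, mem_filter, mem_filter, SB, mem_filter, mem_Bq, mem_Bq]
    simp only [syY, Function.Embedding.coeFn_mk]
    omega
  have bL : ∀ A1 A2, QT m T A1 A2 → ∀ e, IsUnit4 e → ∑ f ∈ RL, Φ A1 A2 e f ≤ B := by
    intro A1 A2 hQ e he
    refine (tr syD Sq0_D R RL ?_ A1 A2 e).trans (hB _ _ (QT_D hQ) _ (hu _ Sq0_D e he))
    intro f
    rw [hRL, hR, mem_filter, mem_filter, SB, mem_filter, mem_Bq, mem_Bq]
    simp only [syD, Function.Embedding.coeFn_mk]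
    omega
  have bR : ∀ A1 A2, QT m T A1 A2 → ∀ e, IsUnit4 e → ∑ f ∈ RR, Φ A1 A2 e f ≤ B := by
    intro A1 A2 hQ e he
    refine (tr (syX 0) Sq0_X RL RR ?_ A1 A2 e).trans (bL _ _ (QT_X hQ) _ (hu _ Sq0_X e he))
    intro f
    rw [hRL, hRR, mem_filter, mem_filter, mem_Bq, mem_Bq]
    simp only [syX, Function.Embedding.coeFn_mk]
    omega
  have hsub : (Bq (0, 0) m).filter (fun f => d < |f.1| ∨ d < |f.2|) ⊆ R ∪ RT ∪ (RL ∪ RR) := by
    intro f hf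
    rw [mem_filter] at hf
    simp only [mem_union, hR, hRT, hRL, hRR, mem_filter, SB]
    have h1 := hf.1
    have h2 := hf.2
    rcases abs_cases f.1 with ⟨e1, e1'⟩ | ⟨e1, e1'⟩ <;>
      rcases abs_cases f.2 with ⟨e2, e2'⟩ | ⟨e2, e2'⟩ <;> rw [e1, e2] at h2 ⊢ <;>
      simp only [h1, true_and] <;> omega
  refine (sum_le_sum_of_subset_of_nonneg hsub (fun f _ _ => hΦ.nn _ _ _ _)).trans ?_
  have un : ∀ U V : Finset (ℤ × ℤ), ∑ f ∈ U ∪ V, Φ A1 A2 e f ≤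
      ∑ f ∈ U, Φ A1 A2 e f + ∑ f ∈ V, Φ A1 A2 e f := by
    intro U V
    rw [← sum_union_inter]
    have : 0 ≤ ∑ f ∈ U ∩ V, Φ A1 A2 e f := sum_nonneg fun f _ => hΦ.nn _ _ _ _
    linarith
  have g1 := un (R ∪ RT) (RL ∪ RR)
  have g2 := un R RT
  have g3 := un RL RR
  have g4 := hB A1 A2 hQ e he
  have g5 := bT A1 A2 hQ e he
  have g6 := bL A1 A2 hQ e he
  have g7 := bR A1 A2 hQ e he
  linarith

end Pool.Agent.H47.NC
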