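import Mathlib
import Pool.Agent.H47.NC.Sector

set_option autoImplicit false
open Finset

/-! Dual crossings of squares in the near-critical window. -/

namespace Pool.Agent.H47.NC

open Pool.Agent.H75.Perc Pool.Agent.H99.NC

/-- left side of the square of radius `m` -/
def sL (m : ℤ) (v : ℤ × ℤ) : Prop := v.1 = -m ∧ -m ≤ v.2 ∧ v.2 ≤ m

/-- right side of the square of radius `m` -/
def sR (m : ℤ) (v : ℤ × ℤ) : Prop := v.1 = m ∧ -m ≤ v.2 ∧ v.2 ≤ m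

lemma QM_HC {m : ℤ} (ω : Finset (ℤ × ℤ)) :
    QM m (sL m) (sR m) ω ↔ HC (-m) m (-m) m ω := by
  unfold QM QC HC
  constructor
  · rintro ⟨p, q, h1, h2, h3, h4⟩
    exact ⟨p, q, h1, h2.1, h3.1, h4⟩
  · rintro ⟨p, q, h1, h2, h3, h4⟩
    have h5 : inB (-m) m (-m) m q := h4.inB inter_subset_right h1
    unfold inB at h1 h5
    exact ⟨p, q, h1, ⟨h2, by omega, by omega⟩, ⟨h3, by omega, by omega⟩, h4⟩

lemma QT_sides {m : ℤ} (hm : 1 ≤ m) : QT m {m, -m} (sL m) (sR m) := by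
  refine ⟨?_, ?_, by simp, ?_, ?_, ?_, ?_, ?_, ?_⟩
  · intro v hv
    rw [bq0]; unfold sL at hv; unfold bdB inB; omega
  · intro v hv
    rw [bq0]; unfold sR at hv; unfold bdB inB; omega
  · intro r hr
    simp only [mem_insert, mem_singleton] at hr ⊢
    omega
  · intro r hr
    simp only [mem_insert, mem_singleton] at hr
    omega
  all_goals
    intro s t h1 h2 h3 h4
    have h5 := h4 m (by simp)
    have h6 := h4 (-m) (by simp)
    unfold sL sR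
    simp only
    constructor <;> constructor <;> intro h <;> first | omega | exact ⟨trivial, by omega, by omega⟩

lemma pv_nonneg {p : ℝ} (p0 : 0 ≤ p) (p1 : p ≤ 1) (m : ℤ) (A1 A2 : ℤ × ℤ → Prop) (f : ℤ × ℤ) :
    0 ≤ pv p m A1 A2 f := PrP_nonneg (cp_Pb p0 p1) _ _

/-- the expected number of pivotal edges -/
lemma sum_pv_le {p K C : ℝ} (hp : 1 / 2 ≤ p) (p1 : p ≤ 1) (hK : 1 ≤ K) (hC : 1 ≤ C)
    (hN : NoArch C) (hAB : ArchBlock) {m : ℤ} (hm : 1 ≤ m) {T : Finset ℤ}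
    {A1 A2 : ℤ × ℤ → Prop} (hQ : QT m T A1 A2)
    (hu : ∀ s : ℕ, 1 ≤ s → (s : ℤ) ≤ m → uP p s ≤ K * (s : ℝ) ^ (-(5 / 4) : ℝ)) :
    ∑ f ∈ Bq (0, 0) m, pv p m A1 A2 f ≤
      512 * K * C * ((288 * T.card + 96) * ((m : ℝ) + 1) ^ (3 / 4 : ℝ)) := by
  have p0 : 0 ≤ p := by linarith
  have hΦ : Fun0 m (fun A1 A2 _ f => pv p m A1 A2 f) :=
    ⟨fun A1 A2 e f => pv_nonneg p0 p1 m A1 A2 f, fun S hS A1 A2 e f => pv_map hS p m A1 A2 f⟩
  have h1 := all_sectors hΦ (-1) (T := T)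
    (B := 128 * K * C * ((288 * T.card + 96) * ((m : ℝ) + 1) ^ (3 / 4 : ℝ))) (by
      intro A1 A2 hQ e _
      have h2 : ∀ f ∈ SB m, pv p m A1 A2 f ≤ 128 * K * C *
          ((((f.2 / 2 + m : ℤ) : ℝ) + 1) ^ (-(11 / 12) : ℝ) * WT m T (f.1 / 2)) := by
        intro f hf
        unfold SB at hf
        rw [mem_filter] at hf
        have h3 := one_edge hp p1 hK hC hN hAB hm hQ hu hf.1 hf.2 (E1 := ∅) (X := fun _ => True)
          (Z := Piv (QM m A1 A2) f) (fun _ => Iff.rfl) (Or.inl rfl)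
          (fun ω _ h => ⟨trivial, ω, fun _ _ => Iff.rfl, h⟩)
        rw [PrP_true, one_mul] at h3
        exact h3
      calc ∑ f ∈ (SB m).filter (fun f => -1 < -f.2), pv p m A1 A2 f
          ≤ ∑ f ∈ SB m, pv p m A1 A2 f :=
            sum_le_sum_of_subset_of_nonneg (filter_subset _ _)
              (fun f _ _ => pv_nonneg p0 p1 m A1 A2 f)
        _ ≤ ∑ f ∈ SB m, 128 * K * C *
            ((((f.2 / 2 + m : ℤ) : ℝ) + 1) ^ (-(11 / 12) : ℝ) * WT m T (f.1 / 2)) :=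
            sum_le_sum h2
        _ ≤ _ := by
            rw [← mul_sum]
            apply mul_le_mul_of_nonneg_left (sum_SB_le m (by omega) hQ.rT)
            positivity) hQ (e := (1, 0)) (by unfold IsUnit4; simp)
  have h2 : (Bq (0, 0) m).filter (fun f => -1 < |f.1| ∨ -1 < |f.2|) = Bq (0, 0) m := by
    rw [filter_eq_self]
    intro f _
    left
    have := abs_nonneg f.1
    omega
  rw [h2] at h1
  refine h1.trans (le_of_eq ?_)
  ring

/-- Crossing probabilities of squares increase only a little in the window. -/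
lemma square_diff {p K C : ℝ} (hp : 1 / 2 ≤ p) (p1 : p ≤ 1) (hK : 1 ≤ K) (hC : 1 ≤ C)
    (hN : NoArch C) (hAB : ArchBlock) {m : ℤ} (hm : 1 ≤ m)
    (hu : ∀ q : ℝ, 1 / 2 ≤ q → q ≤ p → ∀ s : ℕ, 1 ≤ s → (s : ℤ) ≤ m →
      uP q s ≤ K * (s : ℝ) ^ (-(5 / 4) : ℝ)) :
    fcP p (2 * m) (2 * m) ≤ fcP (1 / 2) (2 * m) (2 * m) +
      512 * 672 * K * C * ((m : ℝ) + 1) ^ (3 / 4 : ℝ) * (p - 1 / 2) := by
  set A := QM m (sL m) (sR m) with hA
  have hf : ∀ q : ℝ, fcP q (2 * m) (2 * m) = PrP (cp q) (Bq (0, 0) m) A := by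
    intro q
    have h1 := hcP_eq q (-m) m (-m) m
    have h2 : m - -m = 2 * m := by ring
    rw [h2] at h1
    rw [← h1, Bq0]
    unfold hcP
    exact PrP_congr fun ω _ => (QM_HC ω).symm
  have hd : ∀ q : ℝ, HasDerivAt (fun s : ℝ => PrP (cp s) (Bq (0, 0) m) A)
      (∑ e ∈ Bq (0, 0) m, PrP (cp q) (Bq (0, 0) m) (Piv A e)) q :=
    fun q => russo_const (Bq (0, 0) m) (QM_inc _ _ _) q
  have h := (convex_Icc (1 / 2) p).norm_image_sub_le_of_norm_hasDerivWithin_le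
    (f := fun s : ℝ => PrP (cp s) (Bq (0, 0) m) A)
    (f' := fun q => ∑ e ∈ Bq (0, 0) m, PrP (cp q) (Bq (0, 0) m) (Piv A e))
    (C := 512 * 672 * K * C * ((m : ℝ) + 1) ^ (3 / 4 : ℝ))
    (fun s _ => (hd s).hasDerivWithinAt)
    (fun s hs => by
      have s0 : 0 ≤ s := by linarith [hs.1]
      have s1 : s ≤ 1 := hs.2.trans p1
      have h1 := sum_pv_le hs.1 s1 hK hC hN hAB hm (QT_sides hm)
        (fun k hk hkm => hu s hs.1 hs.2 k hk hkm)
      have h0 : 0 ≤ ∑ e ∈ Bq (0, 0) m, PrP (cp s) (Bq (0, 0) m) (Piv A e) :=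
        sum_nonneg fun e _ => PrP_nonneg (cp_Pb s0 s1) _ _
      rw [Real.norm_eq_abs, abs_of_nonneg h0]
      refine h1.trans ?_
      have h2 : ((({m, -m} : Finset ℤ).card : ℕ) : ℝ) ≤ 2 := by exact_mod_cast card_le_two
      have h3 : 0 ≤ ((m : ℝ) + 1) ^ (3 / 4 : ℝ) := by
        have : (0 : ℝ) ≤ m := by exact_mod_cast (by omega : (0 : ℤ) ≤ m)
        positivity
      have h4 : (288 * ((({m, -m} : Finset ℤ).card : ℕ) : ℝ) + 96) *
          ((m : ℝ) + 1) ^ (3 / 4 : ℝ) ≤ 672 * ((m : ℝ) + 1) ^ (3 / 4 : ℝ) :=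
        mul_le_mul_of_nonneg_right (by linarith) h3
      have h5 : 0 ≤ 512 * K * C := by positivity
      calc 512 * K * C * ((288 * ((({m, -m} : Finset ℤ).card : ℕ) : ℝ) + 96) *
          ((m : ℝ) + 1) ^ (3 / 4 : ℝ)) ≤
          512 * K * C * (672 * ((m : ℝ) + 1) ^ (3 / 4 : ℝ)) := mul_le_mul_of_nonneg_left h4 h5
        _ = _ := by ring)
    (Set.left_mem_Icc.2 hp) (Set.right_mem_Icc.2 hp)
  rw [hf, hf]
  have h1 := (abs_le.1 h).2
  rw [Real.norm_eq_abs, abs_of_nonneg (sub_nonneg.2 hp)] at h1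
  linarith

/-- **dual squares in the window** -/
theorem dual_squares {C : ℝ} (hC : 1 ≤ C) (hN : NoArch C) (hAB : ArchBlock) :
    ∃ δ : ℝ, 0 < δ ∧ ∀ K : ℝ, 1 ≤ K → ∃ a : ℝ, 0 < a ∧ a ≤ 1 / 4 ∧ ∀ p : ℝ, 1 / 2 ≤ p → p ≤ 1 →
      ∀ N : ℕ, 1 ≤ N →
      (∀ q : ℝ, 1 / 2 ≤ q → q ≤ p → ∀ s : ℕ, 1 ≤ s → s ≤ N → uP q s ≤ K * (s : ℝ) ^ (-(5 / 4) : ℝ)) →
      (p - 1 / 2) * (N : ℝ) ^ (3 / 4 : ℝ) ≤ a → RS δ p (2 * N) := by
  obtain ⟨c, hc, hrsw⟩ := rswP_half 3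
  set c0 : ℝ := min c 1 with hc0
  have c0p : 0 < c0 := lt_min hc one_pos
  have c01 : c0 ≤ 1 := min_le_right _ _
  set δ0 : ℝ := c0 / 2 with hδ0
  have δ0p : 0 < δ0 := by positivity
  refine ⟨min ((δ0 ^ 5 / 4 * δ0) ^ 2 * δ0) (1 / 64), lt_min (by positivity) (by norm_num), ?_⟩
  intro K hK
  set D : ℝ := 512 * 672 * K * C with hD
  have Dp : 0 < D := by positivity
  refine ⟨min (1 / 4) (c0 / (4 * D)), lt_min (by norm_num) (by positivity), min_le_left _ _, ?_⟩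
  intro p hp p1 N hN1 hu ha
  have p0 : 0 ≤ p := by linarith
  have hNr : (1 : ℝ) ≤ N := by exact_mod_cast hN1
  have hN34 : (1 : ℝ) ≤ (N : ℝ) ^ (3 / 4 : ℝ) := Real.one_le_rpow hNr (by norm_num)
  have hp34 : p ≤ 3 / 4 := by
    have h1 := ha.trans (min_le_left _ _)
    nlinarith
  have q0 : 0 ≤ 1 - p := by linarith
  have q1 : 1 - p ≤ 1 := by linarith
  -- even sides
  have even : ∀ m : ℕ, 1 ≤ m → m ≤ N → δ0 ≤ fcP (1 - p) (2 * (m : ℤ)) (2 * (m : ℤ)) := by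
    intro m hm1 hmN
    obtain ⟨k, rfl⟩ : ∃ k : ℕ, m = k + 1 := ⟨m - 1, by omega⟩
    have h1 := square_diff hp p1 hK hC hN hAB (m := ((k + 1 : ℕ) : ℤ)) (by omega)
      (fun q h1 h2 s h3 h4 => hu q h1 h2 s h3 (by omega))
    -- duality
    have d1 := fcP_dual p (2 * k + 2) (2 * k + 1)
    have d2 := fcP_dual (1 / 2) (2 * k + 1) (2 * k + 2)
    have e1 : 2 * (((k + 1 : ℕ) : ℤ)) = 2 * k + 2 := by push_cast; ring
    rw [e1] at h1 ⊢
    have e2 : (((2 * k + 1 : ℕ) : ℤ) + 1) = 2 * (k : ℤ) + 2 := by push_cast; ring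
    have e3 : (((2 * k + 2 : ℕ) : ℤ)) = 2 * (k : ℤ) + 2 := by push_cast; ring
    have e4 : (((2 * k + 1 : ℕ) : ℤ)) = 2 * (k : ℤ) + 1 := by push_cast; ring
    rw [e3, e4] at d1 d2
    have e5 : 2 * (k : ℤ) + 1 + 1 = 2 * k + 2 := by ring
    have e6 : 2 * (k : ℤ) + 2 + 1 = 2 * k + 3 := by ring
    rw [e5, e6] at d1 d2
    norm_num at d2
    have h2 := hrsw (1 / 2) le_rfl (by norm_num) (2 * k + 3) (2 * k + 1) (by omega) (by omega)
      (by push_cast; omega)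
    norm_num at h2
    have h3 : fcP p (2 * k + 3) (2 * k + 1) ≤ fcP p (2 * k + 2) (2 * k + 2) :=
      (fcP_mono p0 p1 (by omega)).trans (fcP_anti p0 p1 (by omega) (by omega))
    have h4 : c0 ≤ c := min_le_left _ _
    -- the error term
    have h5 : ((((k + 1 : ℕ) : ℤ) : ℝ) + 1) ^ (3 / 4 : ℝ) ≤ 2 * (N : ℝ) ^ (3 / 4 : ℝ) := by
      have h6 : ((((k + 1 : ℕ) : ℤ) : ℝ) + 1) ≤ 2 * N := by
        have : ((k + 1 : ℕ) : ℝ) ≤ N := by exact_mod_cast hmN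
        push_cast at this ⊢
        linarith
      have h7 := Real.rpow_le_rpow (z := (3 / 4 : ℝ)) (by positivity) h6 (by norm_num)
      rw [Real.mul_rpow (by norm_num) (by positivity)] at h7
      have h8 : (2 : ℝ) ^ (3 / 4 : ℝ) ≤ 2 := by
        calc (2 : ℝ) ^ (3 / 4 : ℝ) ≤ 2 ^ (1 : ℝ) :=
              Real.rpow_le_rpow_of_exponent_le (by norm_num) (by norm_num)
          _ = 2 := Real.rpow_one 2
      nlinarith
    have h6 : D * ((((k + 1 : ℕ) : ℤ) : ℝ) + 1) ^ (3 / 4 : ℝ) * (p - 1 / 2) ≤ c0 / 2 := by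
      have h7 := ha.trans (min_le_right _ _)
      rw [le_div_iff₀ (by positivity)] at h7
      have h8 : 0 ≤ D * (p - 1 / 2) := mul_nonneg Dp.le (by linarith)
      calc D * ((((k + 1 : ℕ) : ℤ) : ℝ) + 1) ^ (3 / 4 : ℝ) * (p - 1 / 2)
          = D * (p - 1 / 2) * ((((k + 1 : ℕ) : ℤ) : ℝ) + 1) ^ (3 / 4 : ℝ) := by ring
        _ ≤ D * (p - 1 / 2) * (2 * (N : ℝ) ^ (3 / 4 : ℝ)) := mul_le_mul_of_nonneg_left h5 h8
        _ = (p - 1 / 2) * (N : ℝ) ^ (3 / 4 : ℝ) * (4 * D) / 2 := by ring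
        _ ≤ c0 / 2 := by linarith
    rw [show 2 * (k : ℤ) + 1 + 1 = 2 * k + 2 by ring] at *
    linarith
  intro n hn1 hn2
  rcases Nat.even_or_odd' n with ⟨m, rfl | rfl⟩
  · refine (min_le_left _ _).trans ?_
    have h1 := even m (by omega) (by omega)
    push_cast
    refine le_trans ?_ h1
    have h2 : δ0 ≤ 1 := by linarith
    have h3 : δ0 ^ 5 / 4 * δ0 ≤ 1 := by
      have : δ0 ^ 5 ≤ 1 := pow_le_one₀ δ0p.le h2
      nlinarith
    have h4 : (δ0 ^ 5 / 4 * δ0) ^ 2 ≤ 1 := pow_le_one₀ (by positivity) h3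
    nlinarith
  · rcases le_or_gt 2 m with h2 | h2
    · refine (min_le_left _ _).trans ?_
      obtain ⟨j, hj⟩ : ∃ j : ℕ, j = 2 * ((2 * m + 1) / 4) := ⟨_, rfl⟩
      have h3 := even ((2 * m + 1) / 4) (by omega) (by omega)
      have h4 := even (2 * ((2 * m + 1) / 4)) (by omega) (by omega)
      rw [← hj] at h4
      have e1 : 2 * (((2 * m + 1) / 4 : ℕ) : ℤ) = j := by omega
      rw [e1] at h3
      have h5 := fcP_long q0 q1 δ0p.le (n := j) (by omega) h3 h4 2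
      refine h5.trans ((fcP_mono q0 q1 (h' := ((2 * m + 1 : ℕ) : ℤ)) (by omega)).trans
        (fcP_anti q0 q1 (by omega) ?_))
      push_cast
      omega
    · refine (min_le_right _ _).trans ?_
      refine le_trans ?_ (fcP_pow q0 q1 (2 * m + 1) (h := ((2 * m + 1 : ℕ) : ℤ)) (by omega))
      have h3 : (1 : ℝ) / 4 ≤ 1 - p := by linarith
      calc (1 : ℝ) / 64 = (1 / 4) ^ 3 := by norm_num
        _ ≤ (1 / 4) ^ (2 * m + 1) :=
          pow_le_pow_of_le_one (by norm_num) (by norm_num) (by omega)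
        _ ≤ _ := pow_le_pow_left₀ (by norm_num) h3 _

end Pool.Agent.H47.NC
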