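import Mathlib
import Pool.Agent.H47.NC.Joint
import Pool.Agent.H99.NC.OneArmP

set_option autoImplicit false
open Finset

/-! Stability of the probability that an edge is pivotal along a path of inhomogeneous densities. -/

namespace Pool.Agent.H47.NC

open Pool.Agent.H75.Perc Pool.Agent.H99.NC

/-- densities between `1/2` and `p` -/
def Cl (p : ℝ) (q : ℤ × ℤ → ℝ) : Prop := ∀ e, 1 / 2 ≤ q e ∧ q e ≤ p

lemma Cl.pb {p : ℝ} {q : ℤ × ℤ → ℝ} (h : Cl p q) (p1 : p ≤ 1) : Pb q := fun e =>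
  ⟨by linarith [(h e).1], (h e).2.trans p1⟩

/-- four-arm probability for a general density -/
noncomputable def uQ (q : ℤ × ℤ → ℝ) (x y : ℤ × ℤ) (m : ℤ) : ℝ := PrP q (Bq x m) (F4 x y m)

/-- linear path of densities -/
noncomputable def qt (q : ℤ × ℤ → ℝ) (t : ℝ) : ℤ × ℤ → ℝ := fun e => 1 / 2 + t * (q e - 1 / 2)

lemma Cl.qt {p : ℝ} {q : ℤ × ℤ → ℝ} (h : Cl p q) {t : ℝ} (h0 : 0 ≤ t) (h1 : t ≤ 1) :
    Cl p (qt q t) := fun e => by
  unfold NC.qt
  have := h e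
  constructor <;> nlinarith

lemma qt_zero (q : ℤ × ℤ → ℝ) : qt q 0 = cp (1 / 2) := by
  funext e; unfold qt cp; ring

lemma qt_one (q : ℤ × ℤ → ℝ) : qt q 1 = q := by
  funext e; unfold qt; ring

/-- the derivative of the probability that `e` is pivotal -/
lemma hasDerivAt_Pivq (q : ℤ × ℤ → ℝ) (E : Finset (ℤ × ℤ)) (A : Finset (ℤ × ℤ) → Prop)
    (e : ℤ × ℤ) (t : ℝ) :
    HasDerivAt (fun s : ℝ => PrP (qt q s) E (Piv A e))
      (∑ f ∈ E, (q f - 1 / 2) * Ex (qt q t) (E.erase f)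
        (fun ω => ind (Piv A e (insert f ω)) - ind (Piv A e ω))) t := by
  refine hasDerivAt_Ex (q := fun s => qt q s) (q' := fun f => q f - 1 / 2) E
    (fun f _ => ?_) (fun ω => ind (Piv A e ω))
  have h1 := ((hasDerivAt_id t).mul_const (q f - 1 / 2)).const_add (1 / 2 : ℝ)
  rw [one_mul] at h1
  exact h1

lemma deriv_Pivq_le {Q : ℤ × ℤ → ℝ} (hQ : Pb Q) (g : ℤ × ℤ → ℝ) {E : Finset (ℤ × ℤ)}
    (A : Finset (ℤ × ℤ) → Prop) (e : ℤ × ℤ) :
    |∑ f ∈ E, g f * Ex Q (E.erase f) (fun ω => ind (Piv A e (insert f ω)) - ind (Piv A e ω))| ≤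
      ∑ f ∈ E.erase e, |g f| * PrP Q E (JP A e f) := by
  refine (abs_sum_le_sum_abs _ _).trans ?_
  have key : ∀ f ∈ E, |Ex Q (E.erase f)
      (fun ω => ind (Piv A e (insert f ω)) - ind (Piv A e ω))| ≤ PrP Q E (JP A e f) := by
    intro f hf
    rw [← PrP_JP_erase Q hf, abs_le]
    have hab : ∀ ω, ω ⊆ E.erase f →
        |ind (Piv A e (insert f ω)) - ind (Piv A e ω)| ≤ ind (JP A e f ω) := by
      intro ω hω
      have h1 : f ∉ ω := fun h => notMem_erase f E (hω h)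
      have h2 : JP A e f ω ↔ ¬ (Piv A e (insert f ω) ↔ Piv A e ω) := by
        unfold JP; rw [erase_eq_of_notMem h1]
      by_cases a : Piv A e (insert f ω) <;> by_cases b : Piv A e ω
      · have : ¬ JP A e f ω := fun h => (h2.1 h) ⟨fun _ => b, fun _ => a⟩
        rw [ind_true a, ind_true b, ind_false this]; norm_num
      · have : JP A e f ω := h2.2 fun h => b (h.1 a)
        rw [ind_true a, ind_false b, ind_true this]; norm_num
      · have : JP A e f ω := h2.2 fun h => a (h.2 b)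
        rw [ind_false a, ind_true b, ind_true this]; norm_num
      · have : ¬ JP A e f ω := fun h => (h2.1 h) ⟨fun h' => absurd h' a, fun h' => absurd h' b⟩
        rw [ind_false a, ind_false b, ind_false this]; norm_num
    constructor
    · have h3 : -PrP Q (E.erase f) (JP A e f) =
          Ex Q (E.erase f) (fun ω => (-1) * ind (JP A e f ω)) := by
        rw [Ex_smul]; unfold PrP; ring
      rw [h3]
      refine Ex_mono hQ fun ω hω => ?_
      have := (abs_le.1 (hab ω hω)).1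
      linarith
    · exact Ex_mono hQ fun ω hω => (abs_le.1 (hab ω hω)).2
  have hz : ∀ f ∈ E, f = e → |g f * Ex Q (E.erase f)
      (fun ω => ind (Piv A e (insert f ω)) - ind (Piv A e ω))| = 0 := by
    rintro f _ rfl
    have : (fun ω => ind (Piv A f (insert f ω)) - ind (Piv A f ω)) = fun _ => (0 : ℝ) := by
      funext ω
      rw [ind_congr (Piv_insert A f ω), sub_self]
    rw [this, Ex_const, mul_zero, abs_zero]
  rw [← sum_filter_add_sum_filter_not E (fun f => f = e)]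
  have h4 : ∑ f ∈ E.filter (fun f => f = e), |g f * Ex Q (E.erase f)
      (fun ω => ind (Piv A e (insert f ω)) - ind (Piv A e ω))| = 0 :=
    sum_eq_zero fun f hf => hz f (mem_filter.1 hf).1 (mem_filter.1 hf).2
  rw [h4, zero_add]
  have h5 : E.filter (fun f => ¬ f = e) = E.erase e := by
    ext f; simp only [mem_filter, mem_erase]; tauto
  rw [h5]
  refine sum_le_sum fun f hf => ?_
  rw [abs_mul]
  exact mul_le_mul_of_nonneg_left (key f (mem_of_mem_erase hf)) (abs_nonneg _)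

/-- **bulk estimate** for general densities -/
lemma JPq_bulk {q : ℤ × ℤ → ℝ} (hq : Pb q) {E B : Finset (ℤ × ℤ)} {x y x' y' : ℤ × ℤ} {r r' : ℤ}
    {A : Finset (ℤ × ℤ) → Prop} (hA : Inc A)
    (hr : 1 ≤ r) (hr' : 1 ≤ r') (hxy : IsUnit4 (y - x)) (hxy' : IsUnit4 (y' - x'))
    (hF : ∀ ω, Piv A (x + y) ω → F4 x y r ω) (hF' : ∀ ω, Piv A (x' + y') ω → F4 x' y' r' ω)
    (h1 : Bq x r ⊆ B) (h2 : Bq x' r' ⊆ B) (hB : B ⊆ E) (hd : Disjoint (Bq x r) (Bq x' r')) :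
    PrP q E (JP A (x + y) (x' + y')) ≤ uQ q x y r * uQ q x' y' r' * PrP q E (BP A B) := by
  have e1 : PrP q E (fun ω => F4 x y r ω ∧ F4 x' y' r' ω ∧ BP A B ω) =
      uQ q x y r * uQ q x' y' r' * PrP q E (BP A B) := by
    unfold uQ
    rw [← PrP_BP q hB, ← PrP_indep3 q h1 h2 hB hd]
    refine PrP_congr fun ω _ => ?_
    rw [F4_local ω, F4_local (x := x') ω, BP_sdiff A B ω]
  rw [← e1]
  have hx : ∀ {x y : ℤ × ℤ} {r : ℤ}, 1 ≤ r → IsUnit4 (y - x) → x + y ∈ Bq x r := by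
    intro x y r hr hxy
    have := unit_cases hxy
    rw [mem_Bq]
    simp only [Prod.fst_add, Prod.snd_add]
    omega
  have hne : x + y ≠ x' + y' := fun h => (disjoint_left.1 hd) (hx hr hxy) (h ▸ hx hr' hxy')
  have n1 : x' + y' ∉ Bq x r := fun h => (disjoint_left.1 hd) h (hx hr' hxy')
  have n2 : x + y ∉ Bq x' r' := fun h => (disjoint_left.1 hd) (hx hr hxy) h
  refine PrP_mono hq fun ω _ h => ?_
  obtain ⟨h3, h4⟩ := JP_sym_cases hA hne h
  refine ⟨?_, ?_, Piv_BP hA (h1 (hx hr hxy)) (h2 (hx hr' hxy')) h3⟩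
  · rcases h3 with h3 | h3
    · exact (F4_insert ω _ (Or.inr n1)).1 (hF _ h3)
    · exact (F4_erase ω _ (Or.inr n1)).1 (hF _ h3)
  · rcases h4 with h4 | h4
    · exact (F4_insert ω _ (Or.inr n2)).1 (hF' _ h4)
    · exact (F4_erase ω _ (Or.inr n2)).1 (hF' _ h4)

/-- trivial estimate for nearby edges -/
lemma JPq_near {q : ℤ × ℤ → ℝ} (hq : Pb q) {E B : Finset (ℤ × ℤ)} {e f : ℤ × ℤ}
    {A : Finset (ℤ × ℤ) → Prop} (hA : Inc A) (hef : e ≠ f) (he : e ∈ B) (hf : f ∈ B) :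
    PrP q E (JP A e f) ≤ PrP q E (BP A B) :=
  PrP_mono hq fun _ _ h => Piv_BP hA he hf (JP_sym_cases hA hef h).1

/-- the left-right crossing of a box; four strands around a pivotal edge -/
lemma HC_F4 {a b c d r : ℤ} {x y : ℤ × ℤ} (hxy : IsUnit4 (y - x)) (hr : 1 ≤ r)
    (h1 : a ≤ x.1 - r) (h2 : x.1 + r ≤ b) (h3 : c ≤ x.2 - r) (h4 : x.2 + r ≤ d)
    {ω : Finset (ℤ × ℤ)} (h : Piv (HC a b c d) (x + y) ω) : F4 x y r ω := by
  have hu := unit_cases hxy
  have hsub : Bq x r ⊆ Bx a b c d := Bx_sub h1 h2 h3 h4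
  have hmem : x + y ∈ Bx a b c d := by
    apply hsub
    rw [mem_Bq]
    simp only [Prod.fst_add, Prod.snd_add]
    omega
  have key : ∀ ω : Finset (ℤ × ℤ), HC a b c d ω ↔
      RC (fun p => inB a b c d p ∧ p.1 = a) (fun p => p.1 = b) (ω ∩ Bx a b c d) := by
    intro ω
    unfold HC RC
    constructor
    · rintro ⟨p, q, h1, h2, h3, h4⟩; exact ⟨p, q, ⟨h1, h2⟩, h3, h4⟩
    · rintro ⟨p, q, ⟨h1, h2⟩, h3, h4⟩; exact ⟨p, q, h1, h2, h3, h4⟩
  have h5 : Piv (RC (fun p => inB a b c d p ∧ p.1 = a) (fun p => p.1 = b)) (x + y)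
      (ω ∩ Bx a b c d) := by
    unfold Piv at h ⊢
    rw [key, key] at h
    have e1 : insert (x + y) ω ∩ Bx a b c d = insert (x + y) (ω ∩ Bx a b c d) := by
      ext z; simp only [mem_inter, mem_insert]
      constructor
      · rintro ⟨rfl | h1, h2⟩
        · exact Or.inl rfl
        · exact Or.inr ⟨h1, h2⟩
      · rintro (rfl | ⟨h1, h2⟩)
        · exact ⟨Or.inl rfl, hmem⟩
        · exact ⟨Or.inr h1, h2⟩
    have e2 : ω.erase (x + y) ∩ Bx a b c d = (ω ∩ Bx a b c d).erase (x + y) := by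
      ext z; simp only [mem_inter, mem_erase]; tauto
    rwa [e1, e2] at h
  have h6 := piv_F4 hr hxy
    (fun v hv hi => by unfold iq at hi; have := hv.2; omega)
    (fun v hv hi => by unfold iq at hi; omega) h5
  refine (F4_congr ?_).1 h6
  ext z
  simp only [mem_inter, mem_erase]
  constructor
  · rintro ⟨⟨k1, k2, _⟩, k4⟩; exact ⟨⟨k1, k2⟩, k4⟩
  · rintro ⟨⟨k1, k2⟩, k4⟩; exact ⟨⟨k1, k2, hsub k4⟩, k4⟩

/-- the crossing event of the box of radius `R` around `x` -/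
def HR (x : ℤ × ℤ) (R : ℤ) : Finset (ℤ × ℤ) → Prop := HC (x.1 - R) (x.1 + R) (x.2 - R) (x.2 + R)

lemma HR_inc (x : ℤ × ℤ) (R : ℤ) : Inc (HR x R) := HC_inc _ _ _ _

lemma rpow_cmp {a : ℝ} (ha : 0 ≤ a) {c x y : ℝ} (hx : 0 < x) (hc : 0 < c) (h : x ≤ c * y) :
    y ^ (-a) ≤ c ^ a * x ^ (-a) := by
  have hy : 0 < y := by
    by_contra hcon
    push Not at hcon
    nlinarith
  have h1 : (c * y) ^ (-a) ≤ x ^ (-a) := Real.rpow_le_rpow_of_nonpos hx h (by linarith)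
  rw [Real.mul_rpow hc.le hy.le] at h1
  have h2 : 0 < c ^ a := Real.rpow_pos_of_pos hc a
  have h3 : c ^ a * c ^ (-a) = 1 := by
    rw [← Real.rpow_add hc]; simp
  calc y ^ (-a) = c ^ a * c ^ (-a) * y ^ (-a) := by rw [h3, one_mul]
    _ = c ^ a * (c ^ (-a) * y ^ (-a)) := by ring
    _ ≤ c ^ a * x ^ (-a) := mul_le_mul_of_nonneg_left h1 h2.le

lemma eight54 : (8 : ℝ) ^ (5 / 4 : ℝ) ≤ 16 := by
  calc (8 : ℝ) ^ (5 / 4 : ℝ) ≤ 16 ^ (1 : ℝ) := ?_
    _ = 16 := Real.rpow_one 16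
  have : (8 : ℝ) ^ (5 / 4 : ℝ) = (2 : ℝ) ^ (15 / 4 : ℝ) := by
    rw [show (8 : ℝ) = 2 ^ (3 : ℕ) by norm_num, ← Real.rpow_natCast, ← Real.rpow_mul (by norm_num)]
    norm_num
  rw [this, Real.rpow_one]
  calc (2 : ℝ) ^ (15 / 4 : ℝ) ≤ 2 ^ (4 : ℝ) :=
        Real.rpow_le_rpow_of_exponent_le (by norm_num) (by norm_num)
    _ = 16 := by norm_num

lemma two54 : (2 : ℝ) ^ (5 / 4 : ℝ) ≤ 4 := by
  calc (2 : ℝ) ^ (5 / 4 : ℝ) ≤ 2 ^ (2 : ℝ) :=
        Real.rpow_le_rpow_of_exponent_le (by norm_num) (by norm_num)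
    _ = 4 := by norm_num

/-- bound for one pair of edges -/
lemma JP_pair {p K L ψ : ℝ} (hK : 1 ≤ K) (hL : 0 ≤ L) (p1 : p ≤ 1) {m R : ℤ}
    (hB : F4B p K (m - 1)) {q : ℤ × ℤ → ℝ} (hq : Cl p q) {x y : ℤ × ℤ} (hxy : IsUnit4 (y - x))
    (hR : 2 * m + 8 ≤ R) (hψ : 0 ≤ ψ)
    (hV : ∀ k : ℤ, 8 ≤ k → k ≤ 2 * m + 8 →
      PrP q (Bq x R) (BP (HR x R) (Bq x k)) ≤ L * (k : ℝ) ^ (5 / 4 : ℝ) * ψ)
    {f : ℤ × ℤ} (hf : f ∈ Bq x m) (hfe : f ≠ x + y) :
    PrP q (Bq x R) (JP (HR x R) (x + y) f) ≤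
      2048 * K ^ 2 * L * ψ * (gw (f.1 / 2 - x.1) * gw (f.2 / 2 - x.2)) := by
  have hfm := mem_Bq.1 hf
  have hQ : Pb q := hq.pb p1
  have hlo1 : (lo f).1 = f.1 / 2 := rfl
  have hlo2 : (lo f).2 = f.2 / 2 := rfl
  have hf' : lo f + hi f = f := lo_add_hi
  have hu := unit_cases hxy
  have huf : IsUnit4 (hi f - lo f) := unit_lo_hi hfm.2.2
  obtain ⟨ρ, hρ⟩ : ∃ ρ : ℤ, ρ = max |f.1 / 2 - x.1| |f.2 / 2 - x.2| := ⟨_, rfl⟩
  have h1 : |f.1 / 2 - x.1| ≤ ρ := hρ ▸ le_max_left _ _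
  have h2 : |f.2 / 2 - x.2| ≤ ρ := hρ ▸ le_max_right _ _
  have hρ0 : 0 ≤ ρ := (abs_nonneg _).trans h1
  have hρm : ρ ≤ m := by
    rw [hρ]
    apply max_le <;> rw [abs_le] <;> omega
  have h1' := abs_le.1 h1
  have h2' := abs_le.1 h2
  have hρ' : ρ = |f.1 / 2 - x.1| ∨ ρ = |f.2 / 2 - x.2| := by
    rcases le_total |f.1 / 2 - x.1| |f.2 / 2 - x.2| with h | h
    · right; rw [hρ, max_eq_right h]
    · left; rw [hρ, max_eq_left h]
  have hg := gw_mul h1 h2 hρ0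
  have hρr : (0 : ℝ) ≤ ρ := by exact_mod_cast hρ0
  have hρ1 : (0 : ℝ) < (ρ : ℝ) + 1 := by linarith
  have goal : PrP q (Bq x R) (JP (HR x R) (x + y) f) ≤
      2048 * K ^ 2 * L * ψ * ((ρ : ℝ) + 1) ^ (-(5 / 4) : ℝ) := by
    rcases le_or_gt 8 ρ with h8 | h8
    · -- far edges
      obtain ⟨r, hr⟩ : ∃ r : ℤ, r = ρ / 4 := ⟨_, rfl⟩
      have hr1 : 2 ≤ r := by omega
      have hsubB1 : Bq x r ⊆ Bq x (2 * ρ) :=
        Bx_sub (by omega) (by omega) (by omega) (by omega)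
      have hsubB2 : Bq (lo f) r ⊆ Bq x (2 * ρ) := by
        intro e he
        rw [mem_Bq] at he ⊢
        rw [hlo1, hlo2] at he
        omega
      have hsubB : Bq x (2 * ρ) ⊆ Bq x R :=
        Bx_sub (by omega) (by omega) (by omega) (by omega)
      have hd : Disjoint (Bq x r) (Bq (lo f) r) := by
        rw [disjoint_left]
        intro e he he'
        rw [mem_Bq] at he he'
        rw [hlo1, hlo2] at he'
        rcases hρ' with h | h <;> rcases abs_cases (f.1 / 2 - x.1) with ⟨e1, e1'⟩ | ⟨e1, e1'⟩ <;>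
          rcases abs_cases (f.2 / 2 - x.2) with ⟨e2, e2'⟩ | ⟨e2, e2'⟩ <;> rw [e1] at h1 <;>
          rw [e2] at h2 <;> (try rw [e1] at h) <;> (try rw [e2] at h) <;> omega
      have h3 := JPq_bulk hQ (HR_inc x R) (E := Bq x R) (B := Bq x (2 * ρ)) (x := x) (y := y)
        (x' := lo f) (y' := hi f) (r := r) (r' := r) (by omega) (by omega) hxy huf
        (fun ω h => HC_F4 hxy (by omega) (by omega) (by omega) (by omega) (by omega) h)
        (fun ω h => HC_F4 huf (by omega) (by omega) (by omega) (by omega) (by omega) h)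
        hsubB1 hsubB2 hsubB hd
      rw [hf'] at h3
      refine h3.trans ?_
      have h4 := hB q hq x y r hxy (by omega) (by omega)
      have h5 := hB q hq (lo f) (hi f) r huf (by omega) (by omega)
      have h6 := hV (2 * ρ) (by omega) (by omega)
      have hrr : (0 : ℝ) < r := by exact_mod_cast (by omega : 0 < r)
      have hr8 : (ρ : ℝ) + 1 ≤ 8 * r := by exact_mod_cast (by omega : ρ + 1 ≤ 8 * r)
      have h7 := rpow_cmp (a := 5 / 4) (by norm_num) hρ1 (by norm_num) hr8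
      have h7' : (r : ℝ) ^ (-(5 / 4) : ℝ) ≤ 16 * ((ρ : ℝ) + 1) ^ (-(5 / 4) : ℝ) :=
        h7.trans (mul_le_mul_of_nonneg_right eight54 (by positivity))
      have h8' : (((2 * ρ : ℤ) : ℝ)) ^ (5 / 4 : ℝ) ≤ 4 * ((ρ : ℝ) + 1) ^ (5 / 4 : ℝ) := by
        have h9 : ((2 * ρ : ℤ) : ℝ) ≤ 2 * ((ρ : ℝ) + 1) := by push_cast; linarith
        have h10 := Real.rpow_le_rpow (z := (5 / 4 : ℝ)) (by push_cast; positivity) h9 (by norm_num)
        rw [Real.mul_rpow (by norm_num) hρ1.le] at h10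
        refine h10.trans (mul_le_mul_of_nonneg_right two54 (by positivity))
      have hX : 0 ≤ ((ρ : ℝ) + 1) ^ (-(5 / 4) : ℝ) := by positivity
      have k1 : uQ q x y r ≤ K * (16 * ((ρ : ℝ) + 1) ^ (-(5 / 4) : ℝ)) :=
        h4.trans (mul_le_mul_of_nonneg_left h7' (by linarith))
      have k2 : uQ q (lo f) (hi f) r ≤ K * (16 * ((ρ : ℝ) + 1) ^ (-(5 / 4) : ℝ)) :=
        h5.trans (mul_le_mul_of_nonneg_left h7' (by linarith))
      have k3 : PrP q (Bq x R) (BP (HR x R) (Bq x (2 * ρ))) ≤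
          L * (4 * ((ρ : ℝ) + 1) ^ (5 / 4 : ℝ)) * ψ :=
        h6.trans (mul_le_mul_of_nonneg_right (mul_le_mul_of_nonneg_left h8' hL) hψ)
      have k4 : 0 ≤ uQ q (lo f) (hi f) r := PrP_nonneg hQ _ _
      have k5 : 0 ≤ PrP q (Bq x R) (BP (HR x R) (Bq x (2 * ρ))) := PrP_nonneg hQ _ _
      have e1 : ((ρ : ℝ) + 1) ^ (-(5 / 4) : ℝ) * ((ρ : ℝ) + 1) ^ (5 / 4 : ℝ) = 1 := by
        rw [← Real.rpow_add hρ1]; norm_num
      calc uQ q x y r * uQ q (lo f) (hi f) r * PrP q (Bq x R) (BP (HR x R) (Bq x (2 * ρ)))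
          ≤ (K * (16 * ((ρ : ℝ) + 1) ^ (-(5 / 4) : ℝ))) *
            (K * (16 * ((ρ : ℝ) + 1) ^ (-(5 / 4) : ℝ))) *
            (L * (4 * ((ρ : ℝ) + 1) ^ (5 / 4 : ℝ)) * ψ) :=
            mul_le_mul (mul_le_mul k1 k2 k4 (by positivity)) k3 k5 (by positivity)
        _ = 1024 * K ^ 2 * L * ψ * ((ρ : ℝ) + 1) ^ (-(5 / 4) : ℝ) *
            (((ρ : ℝ) + 1) ^ (-(5 / 4) : ℝ) * ((ρ : ℝ) + 1) ^ (5 / 4 : ℝ)) := by ring
        _ = 1024 * K ^ 2 * L * ψ * ((ρ : ℝ) + 1) ^ (-(5 / 4) : ℝ) := by rw [e1, mul_one]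
        _ ≤ _ := by
            apply mul_le_mul_of_nonneg_right _ hX
            have : 0 ≤ K ^ 2 * L * ψ := by positivity
            linarith
    · -- near edges
      have h3 := JPq_near hQ (E := Bq x R) (B := Bq x 8) (A := HR x R) (HR_inc x R)
        (e := x + y) (f := f) (Ne.symm hfe)
        (by rw [mem_Bq]; simp only [Prod.fst_add, Prod.snd_add]; omega)
        (by rw [mem_Bq]; omega)
      refine h3.trans ((hV 8 le_rfl (by omega)).trans ?_)
      have h4 : (((8 : ℤ) : ℝ)) ^ (5 / 4 : ℝ) ≤ 16 := by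
        have := eight54
        norm_num at this ⊢
        exact this
      have h5 := rpow_cmp (a := 5 / 4) (by norm_num) hρ1 (c := 8) (y := 1) (by norm_num)
        (by
          have : ρ + 1 ≤ 8 := by omega
          have : (ρ : ℝ) + 1 ≤ 8 := by exact_mod_cast this
          linarith)
      rw [Real.one_rpow] at h5
      have hX : 0 ≤ ((ρ : ℝ) + 1) ^ (-(5 / 4) : ℝ) := by positivity
      have h6 : 1 ≤ 16 * ((ρ : ℝ) + 1) ^ (-(5 / 4) : ℝ) :=
        h5.trans (mul_le_mul_of_nonneg_right eight54 hX)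
      have hK2 : 1 ≤ K ^ 2 := one_le_pow₀ hK
      have hLψ : 0 ≤ L * ψ := by positivity
      calc L * (((8 : ℤ) : ℝ)) ^ (5 / 4 : ℝ) * ψ ≤ L * 16 * ψ :=
            mul_le_mul_of_nonneg_right (mul_le_mul_of_nonneg_left h4 hL) hψ
        _ = 16 * (L * ψ) * 1 * 1 := by ring
        _ ≤ 16 * (L * ψ) * K ^ 2 * (16 * ((ρ : ℝ) + 1) ^ (-(5 / 4) : ℝ)) := by
            apply mul_le_mul _ h6 (by norm_num) (by positivity)
            exact mul_le_mul_of_nonneg_left hK2 (by positivity)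
        _ = 256 * K ^ 2 * L * ψ * ((ρ : ℝ) + 1) ^ (-(5 / 4) : ℝ) := by ring
        _ ≤ _ := by
            apply mul_le_mul_of_nonneg_right _ hX
            have : 0 ≤ K ^ 2 * L * ψ := by positivity
            linarith
  exact goal.trans (mul_le_mul_of_nonneg_left hg (by positivity))

lemma sum_gw_Bq (x : ℤ × ℤ) {m : ℤ} (hm : 1 ≤ m) :
    ∑ f ∈ Bq x m, gw (f.1 / 2 - x.1) * gw (f.2 / 2 - x.2) ≤ 576 * (m : ℝ) ^ (3 / 4 : ℝ) := by
  refine le_trans (le_of_eq ?_) (sum_BR hm)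
  refine sum_nbij' (fun f => (f.1 - 2 * x.1, f.2 - 2 * x.2))
    (fun f => (f.1 + 2 * x.1, f.2 + 2 * x.2)) ?_ ?_ ?_ ?_ ?_
  · intro f hf
    rw [mem_Bq] at hf
    unfold BR
    rw [mem_Bx]
    simp only [Prod.fst_zero, Prod.snd_zero]
    omega
  · intro f hf
    unfold BR at hf
    rw [mem_Bx] at hf
    rw [mem_Bq]
    simp only [Prod.fst_zero, Prod.snd_zero] at hf ⊢
    omega
  · intro f _
    exact Prod.ext (by simp) (by simp)
  · intro f _
    exact Prod.ext (by simp) (by simp)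
  · intro f _
    have e1 : (f.1 - 2 * x.1) / 2 = f.1 / 2 - x.1 := by omega
    have e2 : (f.2 - 2 * x.2) / 2 = f.2 / 2 - x.2 := by omega
    simp only [e1, e2]

/-- the probability that the edge is pivotal for the crossing of the box of radius `R` around it -/
noncomputable def ph (q : ℤ × ℤ → ℝ) (x y : ℤ × ℤ) (R : ℤ) : ℝ :=
  PrP q (Bq x R) (Piv (HR x R) (x + y))

/-- the probability that the block of radius `k` around `x` is pivotal -/
noncomputable def VB (q : ℤ × ℤ → ℝ) (x : ℤ × ℤ) (k R : ℤ) : ℝ :=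
  PrP q (Bq x R) (BP (HR x R) (Bq x k))

/-- **Window estimate along a path of densities.** -/
theorem window_ode {p K L β : ℝ} (hp : 1 / 2 ≤ p) (p1 : p ≤ 1) (hK : 1 ≤ K) (hL : 0 ≤ L)
    (hβ : 0 ≤ β) {m R : ℤ} (hm : 1 ≤ m) (hR : 2 * m + 8 ≤ R) (hB : F4B p K (m - 1))
    {q : ℤ × ℤ → ℝ} (hq : Cl p q) {x y : ℤ × ℤ} (hxy : IsUnit4 (y - x))
    (hout : ∀ e, e ∉ Bq x m → q e = 1 / 2)
    (hV : ∀ t : ℝ, 0 ≤ t → t ≤ 1 → ∀ k : ℤ, 8 ≤ k → k ≤ 2 * m + 8 →
      VB (qt q t) x k R ≤ L * (k : ℝ) ^ (5 / 4 : ℝ) * (ph (qt q t) x y R + β)) :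
    ph q x y R + β ≤ (ph (cp (1 / 2)) x y R + β) *
        Real.exp (2048 * 576 * K ^ 2 * L * ((p - 1 / 2) * (m : ℝ) ^ (3 / 4 : ℝ))) ∧
      ph (cp (1 / 2)) x y R + β ≤ (ph q x y R + β) *
        Real.exp (2048 * 576 * K ^ 2 * L * ((p - 1 / 2) * (m : ℝ) ^ (3 / 4 : ℝ))) := by
  set M : ℝ := 2048 * 576 * K ^ 2 * L * ((p - 1 / 2) * (m : ℝ) ^ (3 / 4 : ℝ)) with hM
  set F : ℝ → ℝ := fun s => ph (qt q s) x y R + β with hF
  set F' : ℝ → ℝ := fun t => ∑ f ∈ Bq x R, (q f - 1 / 2) * Ex (qt q t) ((Bq x R).erase f)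
        (fun ω => ind (Piv (HR x R) (x + y) (insert f ω)) - ind (Piv (HR x R) (x + y) ω)) with hF'
  have hder : ∀ t, HasDerivAt F (F' t) t := fun t =>
    (hasDerivAt_Pivq q (Bq x R) (HR x R) (x + y) t).add_const β
  have hbound : ∀ t, 0 ≤ t → t ≤ 1 → |F' t| ≤ M * F t := by
    intro t h0 h1
    have hc := hq.qt h0 h1
    have hQ : Pb (qt q t) := hc.pb p1
    have hψ : 0 ≤ F t := add_nonneg (PrP_nonneg hQ _ _) hβ
    refine (deriv_Pivq_le hQ (fun f => q f - 1 / 2) (HR x R) (x + y)).trans ?_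
    have hsub : (Bq x R).erase (x + y) ∩ Bq x m ⊆ (Bq x R).erase (x + y) := inter_subset_left
    rw [← sum_subset hsub]
    · calc ∑ f ∈ (Bq x R).erase (x + y) ∩ Bq x m,
            |q f - 1 / 2| * PrP (qt q t) (Bq x R) (JP (HR x R) (x + y) f)
          ≤ ∑ f ∈ (Bq x R).erase (x + y) ∩ Bq x m, (p - 1 / 2) *
            (2048 * K ^ 2 * L * F t * (gw (f.1 / 2 - x.1) * gw (f.2 / 2 - x.2))) := by
            refine sum_le_sum fun f hf => ?_
            rw [mem_inter, mem_erase] at hf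
            have h2 := JP_pair hK hL p1 hB hc hxy hR hψ (hV t h0 h1) hf.2 hf.1.1
            have h3 : |q f - 1 / 2| ≤ p - 1 / 2 := by
              rw [abs_le]; have := hq f; constructor <;> linarith
            exact mul_le_mul h3 h2 (PrP_nonneg hQ _ _) (by linarith)
        _ ≤ ∑ f ∈ Bq x m, (p - 1 / 2) *
            (2048 * K ^ 2 * L * F t * (gw (f.1 / 2 - x.1) * gw (f.2 / 2 - x.2))) := by
            refine sum_le_sum_of_subset_of_nonneg inter_subset_right fun f _ _ => ?_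
            have := mul_nonneg (gw_nonneg (f.1 / 2 - x.1)) (gw_nonneg (f.2 / 2 - x.2))
            have h5 : 0 ≤ p - 1 / 2 := by linarith
            positivity
        _ = ((p - 1 / 2) * (2048 * K ^ 2 * L * F t)) *
            ∑ f ∈ Bq x m, gw (f.1 / 2 - x.1) * gw (f.2 / 2 - x.2) := by
            rw [mul_sum]
            exact sum_congr rfl fun f _ => by ring
        _ ≤ ((p - 1 / 2) * (2048 * K ^ 2 * L * F t)) * (576 * (m : ℝ) ^ (3 / 4 : ℝ)) := by
            apply mul_le_mul_of_nonneg_left (sum_gw_Bq x hm)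
            have h5 : 0 ≤ p - 1 / 2 := by linarith
            positivity
        _ = M * F t := by rw [hM]; ring
    · intro f hf hf'
      have h2 : f ∉ Bq x m := fun h => hf' (mem_inter.2 ⟨hf, h⟩)
      rw [hout f h2]
      simp
  have e0 : F 0 = ph (cp (1 / 2)) x y R + β := by simp only [hF, qt_zero]
  have e1 : F 1 = ph q x y R + β := by simp only [hF, qt_one]
  constructor
  · have h := gronwall' (f := F) (f' := F') (M := M) zero_le_one (fun s _ _ => hder s)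
      (fun s h0 h1 => (le_abs_self _).trans (hbound s h0 h1))
    rw [e0, e1, sub_zero, mul_one] at h
    exact h
  · have h := gronwall' (f := fun s => F (1 - s)) (f' := fun s => -F' (1 - s)) (M := M)
      zero_le_one (fun s _ _ => by
        have h3 : HasDerivAt (fun s => F (1 - s)) (F' (1 - s) * (-1)) s :=
          (hder (1 - s)).comp s ((hasDerivAt_id s).const_sub 1)
        exact h3.congr_deriv (by ring))
      (fun s h0 h1 => (neg_le_abs _).trans (hbound (1 - s) (by linarith) (by linarith)))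
    simp only [sub_self, sub_zero, mul_one] at h
    rw [e0, e1] at h
    exact h

end Pool.Agent.H47.NC
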