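import Mathlib
import Pool.Agent.H47.NC.GenQ
import Pool.Agent.H81.NC.Cell
import Pool.Agent.H69.NC.Defs
import Pool.Agent.H99.NC.VarP2

set_option autoImplicit false
open Finset

/-! The two gluing statements used by the scaling argument (interface with the gluing theory). -/

namespace Pool.Agent.H47.NC

open Pool.Agent.H75.Perc Pool.Agent.H99.NC

/-- crossings of both colours at all scales up to `M` -/
def RSM (q : ℤ × ℤ → ℝ) (c : ℝ) (M : ℤ) : Prop :=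
  Pb q ∧ ∀ w : ℤ, 1 ≤ w → w ≤ M →
    Pool.Agent.H81.NC.RS q c w ∧ Pool.Agent.H81.NC.RS (Pool.Agent.H69.NC.dq q) c w

/-- the block `Bq x k` is pivotal for the left-right crossing of the box `[a,b] × [c,d]` -/
noncomputable def VD (q : ℤ × ℤ → ℝ) (a b c d : ℤ) (x : ℤ × ℤ) (k : ℤ) : ℝ :=
  PrP q (Bx a b c d) (BP (HC a b c d) (Bq x k))

/-- **Outwards**: four strands to distance `m` can be extended, up to a small multiple of the
four-strand probability at distance `m / 2`. -/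
def OutStep : Prop := ∀ c0 ε : ℝ, 0 < c0 → 0 < ε → ∃ (K : ℤ) (C : ℝ) (m0 : ℤ),
  16 ≤ K ∧ 0 < C ∧ 1 ≤ m0 ∧ ∀ (q : ℤ × ℤ → ℝ) (x y : ℤ × ℤ) (m : ℤ), m0 ≤ m → IsUnit4 (y - x) →
    RSM q c0 (4 * K * m) → uQ q x y m ≤ C * ph q x y (K * m) + ε * uQ q x y (m / 2)

/-- **Inwards**: a pivotal block is separated, up to a small multiple of the probability that a larger
block is pivotal; a separated pivotal block contains pivotal edges and has a conditional variance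
bounded below. -/
def InStep : Prop := ∀ c0 ε ε' : ℝ, 0 < c0 → 0 < ε → 0 < ε' → ∃ (Λ : ℤ) (C : ℝ) (k0 : ℤ),
  1 ≤ Λ ∧ 0 < C ∧ 1 ≤ k0 ∧ ∀ (q : ℤ × ℤ → ℝ) (a b c d : ℤ) (x : ℤ × ℤ) (k : ℤ), k0 ≤ k →
    RSM q c0 (8 * k) → a ≤ x.1 - 8 * k → x.1 + 8 * k ≤ b → c ≤ x.2 - 8 * k → x.2 + 8 * k ≤ d →
    (∀ x' y' : ℤ × ℤ, IsUnit4 (y' - x') → |x'.1 - x.1| ≤ k / 4 → |x'.2 - x.2| ≤ k / 4 →
      ∃ σ : ℝ, 0 ≤ σ ∧ VD q a b c d x (k / 2) ≤ σ + ε * VD q a b c d x (4 * k) ∧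
        σ * (uQ q x' y' (k / Λ) - ε' * uQ q x' y' (k / Λ / 2)) ≤
          C * PrP q (Bx a b c d) (Piv (HC a b c d) (x' + y'))) ∧
    (∃ σ : ℝ, 0 ≤ σ ∧ VD q a b c d x (k / 2) ≤ σ + ε * VD q a b c d x (4 * k) ∧
      σ ≤ C * Ex q (Bx a b c d) (cV q (Bq x (k / 8)) (fun ω => ind (HC a b c d ω))))

end Pool.Agent.H47.NC
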