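import Mathlib
import Pool.Agent.H47.NC.Ifc
import Pool.Agent.H99.NC.BaseT5

set_option autoImplicit false
open Finset

/-! Monotonicity properties of the four-strand probabilities; crossings of both colours for the
densities between `1/2` and `p`. -/

namespace Pool.Agent.H47.NC

open Pool.Agent.H75.Perc Pool.Agent.H99.NC

lemma Bq_sub {x : ℤ × ℤ} {r m : ℤ} (h : r ≤ m) : Bq x r ⊆ Bq x m :=
  Bx_sub (by omega) (by omega) (by omega) (by omega)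

/-- four strands are monotone in the distance -/
lemma F4_anti {x y : ℤ × ℤ} {r m : ℤ} (hxy : IsUnit4 (y - x)) (hr : 1 ≤ r) (hrm : r ≤ m)
    {ω : Finset (ℤ × ℤ)} (h : F4 x y m ω) : F4 x y r ω := by
  obtain ⟨⟨v, hv, h1⟩, ⟨v', hv', h2⟩, h3⟩ := h
  have hu := unit_cases hxy
  have key : ∀ u v : ℤ × ℤ, inB (x.1 - r) (x.1 + r) (x.2 - r) (x.2 + r) u → bq x m v →
      Co ((ω.erase (x + y)) ∩ Bq x m) u v →
      ∃ z, bq x r z ∧ Co ((ω.erase (x + y)) ∩ Bq x r) u z := by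
    intro u v hu hv hc
    have hv2 : ¬ (x.1 - r < v.1 ∧ v.1 < x.1 + r ∧ x.2 - r < v.2 ∧ v.2 < x.2 + r) := by
      unfold bq bdB inB at hv; omega
    obtain ⟨z, hz, hcz⟩ := exit_bd hu hv2 hc
    exact ⟨z, hz, hcz.mono (inter_subset_inter_right inter_subset_left)⟩
  refine ⟨key x v (by unfold inB; omega) hv h1, key y v' (by unfold inB; omega) hv' h2, ?_⟩
  intro hc
  exact h3 (hc.mono (inter_subset_inter_left (Bq_sub hrm)))

lemma uQ_nonneg {q : ℤ × ℤ → ℝ} (hq : Pb q) (x y : ℤ × ℤ) (m : ℤ) : 0 ≤ uQ q x y m :=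
  PrP_nonneg hq _ _

lemma uQ_le_one {q : ℤ × ℤ → ℝ} (hq : Pb q) (x y : ℤ × ℤ) (m : ℤ) : uQ q x y m ≤ 1 :=
  PrP_le_one hq _ _

lemma uQ_sup (q : ℤ × ℤ → ℝ) {E : Finset (ℤ × ℤ)} {x y : ℤ × ℤ} {m : ℤ} (hE : Bq x m ⊆ E) :
    PrP q E (F4 x y m) = uQ q x y m := PrP_local hE fun ω _ => F4_local ω

lemma uQ_anti {q : ℤ × ℤ → ℝ} (hq : Pb q) {x y : ℤ × ℤ} (hxy : IsUnit4 (y - x)) {r m : ℤ}
    (hr : 1 ≤ r) (hrm : r ≤ m) : uQ q x y m ≤ uQ q x y r := by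
  rw [← uQ_sup q (Bq_sub hrm)]
  exact PrP_mono hq fun ω _ h => F4_anti hxy hr hrm h

lemma uQ_cp (p : ℝ) {x y : ℤ × ℤ} (hxy : IsUnit4 (y - x)) (m : ℤ) :
    uQ (cp p) x y m = uP p m := PrP_F4 p hxy (subset_refl _)

lemma uQ_congr {q q' : ℤ × ℤ → ℝ} {x y : ℤ × ℤ} {m : ℤ} (h : ∀ e ∈ Bq x m, q e = q' e) :
    uQ q x y m = uQ q' x y m := Ex_congr_q h _

lemma ph_nonneg {q : ℤ × ℤ → ℝ} (hq : Pb q) (x y : ℤ × ℤ) (R : ℤ) : 0 ≤ ph q x y R :=
  PrP_nonneg hq _ _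

lemma ph_le_uQ {q : ℤ × ℤ → ℝ} (hq : Pb q) {x y : ℤ × ℤ} (hxy : IsUnit4 (y - x)) {r R : ℤ}
    (hr : 1 ≤ r) (hrR : r ≤ R) : ph q x y R ≤ uQ q x y r := by
  rw [← uQ_sup q (Bq_sub hrR)]
  exact PrP_mono hq fun ω _ h => HC_F4 hxy hr (by omega) (by omega) (by omega) (by omega) h

lemma BP_mono {A : Finset (ℤ × ℤ) → Prop} (hA : Inc A) {B B' ω : Finset (ℤ × ℤ)} (h : B ⊆ B')
    (hb : BP A B ω) : BP A B' ω :=
  ⟨hA _ _ (union_subset_union_right h) hb.1, fun h1 => hb.2 (hA _ _ (sdiff_subset_sdiff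
    (subset_refl _) h) h1)⟩

lemma VD_mono {q : ℤ × ℤ → ℝ} (hq : Pb q) (a b c d : ℤ) (x : ℤ × ℤ) {k k' : ℤ} (h : k ≤ k') :
    VD q a b c d x k ≤ VD q a b c d x k' :=
  PrP_mono hq fun _ _ hb => BP_mono (HC_inc _ _ _ _) (Bq_sub h) hb

lemma VD_nonneg {q : ℤ × ℤ → ℝ} (hq : Pb q) (a b c d : ℤ) (x : ℤ × ℤ) (k : ℤ) :
    0 ≤ VD q a b c d x k := PrP_nonneg hq _ _

lemma VD_le_one {q : ℤ × ℤ → ℝ} (hq : Pb q) (a b c d : ℤ) (x : ℤ × ℤ) (k : ℤ) :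
    VD q a b c d x k ≤ 1 := PrP_le_one hq _ _

lemma VB_eq (q : ℤ × ℤ → ℝ) (x : ℤ × ℤ) (k R : ℤ) :
    VB q x k R = VD q (x.1 - R) (x.1 + R) (x.2 - R) (x.2 + R) x k := rfl

/-- RSW for both colours and all densities between `1/2` and `p`. -/
theorem class_RSM {δ : ℝ} (hδ : 0 < δ) : ∃ c0 : ℝ, 0 < c0 ∧ ∀ (p : ℝ) (N : ℕ) (M : ℤ),
    1 / 2 ≤ p → p ≤ 1 → 1 ≤ N → M ≤ N → RS δ p N → ∀ q : ℤ × ℤ → ℝ, Cl p q → RSM q c0 M := by
  obtain ⟨c1, hc1, h1⟩ := rswP_half 2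
  obtain ⟨c2, hc2, h2⟩ := rsw_dual 2 hδ
  refine ⟨min c1 c2, lt_min hc1 hc2, fun p N M hp p1 hN hMN hRS q hq => ⟨hq.pb p1, ?_⟩⟩
  intro w hw hwM
  have p0 : 0 ≤ p := by linarith
  have hQ : Pb q := hq.pb p1
  have hdq : Pb (Pool.Agent.H69.NC.dq q) := by
    intro e
    unfold Pool.Agent.H69.NC.dq
    have := hQ (e.1 - 1, e.2 - 1)
    constructor <;> linarith
  constructor
  · intro a b
    have hle : ∀ E : Finset (ℤ × ℤ), ∀ A : Finset (ℤ × ℤ) → Prop, Inc A →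
        PrP (cp (1 / 2)) E A ≤ PrP q E A := fun E A hA =>
      PrP_mono_q (cp_Pb (by norm_num) (by norm_num)) hQ (fun e _ => (hq e).1) hA
    have h3 := h1 (1 / 2) le_rfl (by norm_num) (2 * w) w (by omega) (by omega)
      (by push_cast; omega)
    constructor
    · refine (min_le_left _ _).trans (h3.trans (le_trans (le_of_eq ?_) (hle _ _ (HC_inc _ _ _ _))))
      have := PrP_HC' (1 / 2) (E := Bx a (a + 2 * w) b (b + w)) (subset_refl _)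
      rw [this]; congr 1 <;> ring
    · refine (min_le_left _ _).trans (h3.trans (le_trans (le_of_eq ?_) (hle _ _ (VC_inc _ _ _ _))))
      have := PrP_VC (1 / 2) (E := Bx a (a + w) b (b + 2 * w)) (subset_refl _)
      rw [this]; congr 1 <;> ring
  · intro a b
    have hle : ∀ E : Finset (ℤ × ℤ), ∀ A : Finset (ℤ × ℤ) → Prop, Inc A →
        PrP (cp (1 - p)) E A ≤ PrP (Pool.Agent.H69.NC.dq q) E A := fun E A hA =>
      PrP_mono_q (cp_Pb (by linarith) (by linarith)) hdq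
        (fun e _ => by
          have := (hq (e.1 - 1, e.2 - 1)).2
          unfold Pool.Agent.H69.NC.dq cp
          linarith) hA
    have h3 := h2 p p0 p1 N hN hRS (2 * w) w (by omega) (by omega) (by omega)
      (by push_cast; omega)
    constructor
    · refine (min_le_right _ _).trans (h3.trans (le_trans (le_of_eq ?_) (hle _ _ (HC_inc _ _ _ _))))
      have := PrP_HC' (1 - p) (E := Bx a (a + 2 * w) b (b + w)) (subset_refl _)
      rw [this]; congr 1 <;> ring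
    · refine (min_le_right _ _).trans (h3.trans (le_trans (le_of_eq ?_) (hle _ _ (VC_inc _ _ _ _))))
      have := PrP_VC (1 - p) (E := Bx a (a + w) b (b + 2 * w)) (subset_refl _)
      rw [this]; congr 1 <;> ring

end Pool.Agent.H47.NC
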