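import Mathlib
import Pool.Agent.H47.NC.Uq
import Pool.Agent.H47.NC.Squares

set_option autoImplicit false
open Finset

/-! Stability of the four-strand probability in the near-critical window. -/

namespace Pool.Agent.H47.NC

open Pool.Agent.H75.Perc Pool.Agent.H99.NC

lemma RSM.mono {q : ℤ × ℤ → ℝ} {c : ℝ} {M M' : ℤ} (h : RSM q c M) (hM : M' ≤ M) : RSM q c M' :=
  ⟨h.1, fun w h1 h2 => h.2 w h1 (h2.trans hM)⟩

lemma four54 : (4 : ℝ) ^ (5 / 4 : ℝ) ≤ 6 := by
  have h1 : ((4 : ℝ) ^ (5 / 4 : ℝ)) ^ (4 : ℕ) = 4 ^ (5 : ℕ) := by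
    rw [← Real.rpow_natCast, ← Real.rpow_mul (by norm_num)]
    norm_num
  by_contra hcon
  push Not at hcon
  have h2 : (6 : ℝ) ^ 4 < ((4 : ℝ) ^ (5 / 4 : ℝ)) ^ (4 : ℕ) :=
    pow_lt_pow_left₀ hcon (by norm_num) (by norm_num)
  rw [h1] at h2
  norm_num at h2

lemma three54 : (3 : ℝ) ^ (5 / 4 : ℝ) ≤ 4 := by
  have h1 : ((3 : ℝ) ^ (5 / 4 : ℝ)) ^ (4 : ℕ) = 3 ^ (5 : ℕ) := by
    rw [← Real.rpow_natCast, ← Real.rpow_mul (by norm_num)]
    norm_num
  by_contra hcon
  push Not at hcon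
  have h2 : (4 : ℝ) ^ 4 < ((3 : ℝ) ^ (5 / 4 : ℝ)) ^ (4 : ℕ) :=
    pow_lt_pow_left₀ hcon (by norm_num) (by norm_num)
  rw [h1] at h2
  norm_num at h2

/-- half of the distance costs at most a factor four -/
lemma half_rpow {m : ℤ} (hm : 2 ≤ m) :
    ((m / 2 : ℤ) : ℝ) ^ (-(5 / 4) : ℝ) ≤ 4 * (m : ℝ) ^ (-(5 / 4) : ℝ) := by
  have h1 : (0 : ℝ) < m := by exact_mod_cast (by omega : 0 < m)
  have h2 : (m : ℝ) ≤ 3 * ((m / 2 : ℤ) : ℝ) := by exact_mod_cast (by omega : m ≤ 3 * (m / 2))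
  exact (rpow_cmp (a := 5 / 4) (by norm_num) h1 (by norm_num) h2).trans
    (mul_le_mul_of_nonneg_right three54 (by positivity))

/-- iteration of the inward step -/
lemma V_iter {v : ℕ → ℝ} (h1 : ∀ i, v i ≤ 1) {A φ m : ℝ} {i1 : ℕ} (hA : 0 ≤ A) (hφ : 0 ≤ φ)
    (hm : 0 < m)
    (hrec : ∀ i, i1 ≤ i → (2 : ℝ) ^ (i + 2) ≤ m →
      v i ≤ A * ((2 : ℝ) ^ i) ^ (5 / 4 : ℝ) * φ + 1 / 32 * v (i + 3)) :
    ∀ i, i1 ≤ i → v i ≤ max (2 * A) 6 * ((2 : ℝ) ^ i) ^ (5 / 4 : ℝ) * (φ + m ^ (-(5 / 4) : ℝ)) := by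
  set L := max (2 * A) 6 with hL
  have L6 : 6 ≤ L := le_max_right _ _
  have LA : 2 * A ≤ L := le_max_left _ _
  have hβ : 0 < m ^ (-(5 / 4) : ℝ) := by positivity
  obtain ⟨T, hT⟩ : ∃ T : ℕ, m < (2 : ℝ) ^ T := pow_unbounded_of_one_lt m (by norm_num)
  have direct : ∀ i, m < (2 : ℝ) ^ (i + 2) →
      v i ≤ L * ((2 : ℝ) ^ i) ^ (5 / 4 : ℝ) * (φ + m ^ (-(5 / 4) : ℝ)) := by
    intro i hi
    have hX : (0 : ℝ) < (2 : ℝ) ^ i := by positivity
    have h2 : m ≤ 4 * (2 : ℝ) ^ i := by rw [pow_add] at hi; linarith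
    have h3 := Real.rpow_le_rpow (z := (5 / 4 : ℝ)) hm.le h2 (by norm_num)
    rw [Real.mul_rpow (by norm_num) hX.le] at h3
    have h4 : m ^ (5 / 4 : ℝ) ≤ 6 * ((2 : ℝ) ^ i) ^ (5 / 4 : ℝ) :=
      h3.trans (mul_le_mul_of_nonneg_right four54 (by positivity))
    have h5 : m ^ (5 / 4 : ℝ) * m ^ (-(5 / 4) : ℝ) = 1 := by
      rw [← Real.rpow_add hm]; norm_num
    have h6 : 0 ≤ ((2 : ℝ) ^ i) ^ (5 / 4 : ℝ) := by positivity
    calc v i ≤ 1 := h1 i
      _ = m ^ (5 / 4 : ℝ) * m ^ (-(5 / 4) : ℝ) := h5.symm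
      _ ≤ 6 * ((2 : ℝ) ^ i) ^ (5 / 4 : ℝ) * m ^ (-(5 / 4) : ℝ) :=
        mul_le_mul_of_nonneg_right h4 hβ.le
      _ ≤ L * ((2 : ℝ) ^ i) ^ (5 / 4 : ℝ) * (φ + m ^ (-(5 / 4) : ℝ)) := by
        apply mul_le_mul _ (by linarith) hβ.le (by positivity)
        exact mul_le_mul_of_nonneg_right L6 h6
  have key : ∀ j i, i1 ≤ i → T ≤ i + j →
      v i ≤ L * ((2 : ℝ) ^ i) ^ (5 / 4 : ℝ) * (φ + m ^ (-(5 / 4) : ℝ)) := by
    intro j
    induction j with
    | zero =>
      intro i _ h3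
      apply direct
      calc m < (2 : ℝ) ^ T := hT
        _ ≤ (2 : ℝ) ^ (i + 2) := pow_le_pow_right₀ (by norm_num) (by omega)
    | succ j ih =>
      intro i hi h3
      rcases lt_or_ge m ((2 : ℝ) ^ (i + 2)) with h4 | h4
      · exact direct i h4
      · have h5 := hrec i hi h4
        have h6 := ih (i + 3) (by omega) (by omega)
        have h7 : ((2 : ℝ) ^ (i + 3)) ^ (5 / 4 : ℝ) ≤ 16 * ((2 : ℝ) ^ i) ^ (5 / 4 : ℝ) := by
          have : (2 : ℝ) ^ (i + 3) = 8 * (2 : ℝ) ^ i := by rw [pow_add]; ring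
          rw [this, Real.mul_rpow (by norm_num) (by positivity)]
          exact mul_le_mul_of_nonneg_right eight54 (by positivity)
        set X := ((2 : ℝ) ^ i) ^ (5 / 4 : ℝ) with hX
        have hX0 : 0 ≤ X := by positivity
        set ψ := φ + m ^ (-(5 / 4) : ℝ) with hψ
        have hψ0 : 0 ≤ ψ := by linarith
        have hφψ : φ ≤ ψ := by linarith
        have h8 : v (i + 3) ≤ L * (16 * X) * ψ :=
          h6.trans (mul_le_mul_of_nonneg_right (mul_le_mul_of_nonneg_left h7 (by linarith)) hψ0)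
        have h9 : A * X * φ ≤ A * X * ψ := mul_le_mul_of_nonneg_left hφψ (by positivity)
        have h10 : 0 ≤ X * ψ := by positivity
        calc v i ≤ A * X * φ + 1 / 32 * v (i + 3) := h5
          _ ≤ A * X * ψ + 1 / 32 * (L * (16 * X) * ψ) := by linarith
          _ = (A + L / 2) * (X * ψ) := by ring
          _ ≤ L * (X * ψ) := mul_le_mul_of_nonneg_right (by linarith) h10
          _ = L * X * ψ := by ring
  intro i hi
  exact key T i hi (by omega)

/-- The probability that a block around the edge is pivotal. -/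
lemma win_V {p c0 K0 c3 Cin : ℝ} {Λ k0 M0 : ℤ} (p1 : p ≤ 1) (hK0 : 0 < K0) (hc3 : 0 < c3)
    (hCin : 0 < Cin) (hΛ : 1 ≤ Λ) (hk0 : 1 ≤ k0)
    (hIn : ∀ (q : ℤ × ℤ → ℝ) (a b c d : ℤ) (x : ℤ × ℤ) (k : ℤ), k0 ≤ k →
      RSM q c0 (8 * k) → a ≤ x.1 - 8 * k → x.1 + 8 * k ≤ b → c ≤ x.2 - 8 * k → x.2 + 8 * k ≤ d →
      (∀ x' y' : ℤ × ℤ, IsUnit4 (y' - x') → |x'.1 - x.1| ≤ k / 4 → |x'.2 - x.2| ≤ k / 4 →
        ∃ σ : ℝ, 0 ≤ σ ∧ VD q a b c d x (k / 2) ≤ σ + 1 / 32 * VD q a b c d x (4 * k) ∧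
          σ * (uQ q x' y' (k / Λ) - c3 / (8 * K0) * uQ q x' y' (k / Λ / 2)) ≤
            Cin * PrP q (Bx a b c d) (Piv (HC a b c d) (x' + y'))) ∧
      (∃ σ : ℝ, 0 ≤ σ ∧ VD q a b c d x (k / 2) ≤ σ + 1 / 32 * VD q a b c d x (4 * k) ∧
        σ ≤ Cin * Ex q (Bx a b c d) (cV q (Bq x (k / 8)) (fun ω => ind (HC a b c d ω)))))
    {m R : ℤ} (hM0 : 4 ≤ M0) (hm : M0 ≤ m) (hR : 4 * m ≤ R) (hB : F4B p K0 (m - 1))
    (hlow : ∀ q, Cl p q → ∀ x y : ℤ × ℤ, IsUnit4 (y - x) → ∀ s : ℤ, M0 ≤ s → s ≤ m - 1 →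
      c3 * (s : ℝ) ^ (-(5 / 4) : ℝ) ≤ uQ q x y s)
    {q : ℤ × ℤ → ℝ} (hq : Cl p q) (hRSM : RSM q c0 (4 * m)) {i1 : ℕ} (hi0 : k0 ≤ 2 ^ (i1 + 1))
    (hi1 : Λ * M0 ≤ 2 ^ (i1 + 1)) {x y : ℤ × ℤ} (hxy : IsUnit4 (y - x)) :
    ∀ k : ℤ, 1 ≤ k → VB q x k R ≤
      max (2 * (8 * Cin / c3)) 6 * ((2 : ℝ) ^ (i1 + 1)) ^ (5 / 4 : ℝ) * (k : ℝ) ^ (5 / 4 : ℝ) *
        (ph q x y R + (m : ℝ) ^ (-(5 / 4) : ℝ)) := by
  have hQ : Pb q := hq.pb p1
  have hm0 : (0 : ℝ) < m := by exact_mod_cast (by omega : 0 < m)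
  have hmono : ∀ {k k' : ℤ}, k ≤ k' → VB q x k R ≤ VB q x k' R := fun h =>
    VD_mono hQ _ _ _ _ _ h
  have h2 := V_iter (v := fun i => VB q x (2 ^ i) R) (A := 8 * Cin / c3) (φ := ph q x y R)
    (m := (m : ℝ)) (i1 := i1) (fun i => VD_le_one hQ _ _ _ _ _ _) (by positivity)
    (ph_nonneg hQ _ _ _) hm0 (by
      intro i hi h3
      obtain ⟨k, hk⟩ : ∃ k : ℤ, k = 2 ^ (i + 1) := ⟨_, rfl⟩
      have hpow : (2 : ℤ) ^ (i1 + 1) ≤ 2 ^ (i + 1) := pow_le_pow_right₀ (by norm_num) (by omega)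
      have h4 : 2 * k ≤ m := by
        have : ((2 * k : ℤ) : ℝ) ≤ m := by
          rw [hk]; push_cast
          calc (2 : ℝ) * 2 ^ (i + 1) = 2 ^ (i + 2) := by ring
            _ ≤ m := h3
        exact_mod_cast this
      have hk1 : k0 ≤ k := by omega
      have hk2 : Λ * M0 ≤ k := by omega
      obtain ⟨σ, hσ, g1, g3⟩ := (hIn q (x.1 - R) (x.1 + R) (x.2 - R) (x.2 + R) x k hk1
        (hRSM.mono (by omega)) (by omega) (by omega) (by omega) (by omega)).1 x y hxy
        (by simp; omega) (by simp; omega)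
      obtain ⟨s, hs⟩ : ∃ s : ℤ, s = k / Λ := ⟨_, rfl⟩
      rw [← hs] at g3
      have hs1 : M0 ≤ s := by
        rw [hs]
        exact Int.le_ediv_of_mul_le (by omega) (by rw [mul_comm]; exact hk2)
      have hs2 : s ≤ k := by
        rw [hs]
        exact Int.ediv_le_self _ (by omega)
      have hs0 : (0 : ℝ) < s := by exact_mod_cast (by omega : 0 < s)
      have l1 := hlow q hq x y hxy s hs1 (by omega)
      have l2 := hB q hq x y (s / 2) hxy (by omega) (by omega)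
      have l3 := half_rpow (m := s) (by omega)
      have hsX : (0 : ℝ) < (s : ℝ) ^ (-(5 / 4) : ℝ) := by positivity
      have l4 : c3 / (8 * K0) * uQ q x y (s / 2) ≤ c3 / 2 * (s : ℝ) ^ (-(5 / 4) : ℝ) := by
        have : uQ q x y (s / 2) ≤ K0 * (4 * (s : ℝ) ^ (-(5 / 4) : ℝ)) :=
          l2.trans (mul_le_mul_of_nonneg_left l3 hK0.le)
        calc c3 / (8 * K0) * uQ q x y (s / 2)
            ≤ c3 / (8 * K0) * (K0 * (4 * (s : ℝ) ^ (-(5 / 4) : ℝ))) :=
              mul_le_mul_of_nonneg_left this (by positivity)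
          _ = c3 / 2 * (s : ℝ) ^ (-(5 / 4) : ℝ) := by field_simp; ring
      have l5 : σ * (c3 / 2 * (s : ℝ) ^ (-(5 / 4) : ℝ)) ≤ Cin * ph q x y R := by
        refine le_trans (mul_le_mul_of_nonneg_left ?_ hσ) g3
        linarith
      have hk0' : (0 : ℝ) < (2 : ℝ) ^ i := by positivity
      have l6 : (s : ℝ) ^ (5 / 4 : ℝ) ≤ 4 * ((2 : ℝ) ^ i) ^ (5 / 4 : ℝ) := by
        have h5 : (s : ℝ) ≤ 2 * (2 : ℝ) ^ i := by
          have : (s : ℝ) ≤ (k : ℝ) := by exact_mod_cast hs2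
          refine this.trans (le_of_eq ?_)
          rw [hk]; push_cast; ring
        have h6 := Real.rpow_le_rpow (z := (5 / 4 : ℝ)) hs0.le h5 (by norm_num)
        rw [Real.mul_rpow (by norm_num) hk0'.le] at h6
        exact h6.trans (mul_le_mul_of_nonneg_right two54 (by positivity))
      have l7 : (s : ℝ) ^ (5 / 4 : ℝ) * (s : ℝ) ^ (-(5 / 4) : ℝ) = 1 := by
        rw [← Real.rpow_add hs0]; norm_num
      have l8 : σ ≤ 8 * Cin / c3 * ((2 : ℝ) ^ i) ^ (5 / 4 : ℝ) * ph q x y R := by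
        have hph := ph_nonneg hQ x y R
        have l9 : σ * (c3 / 2) ≤ (s : ℝ) ^ (5 / 4 : ℝ) * (Cin * ph q x y R) := by
          calc σ * (c3 / 2) = (s : ℝ) ^ (5 / 4 : ℝ) *
                (σ * (c3 / 2 * (s : ℝ) ^ (-(5 / 4) : ℝ))) := by
                rw [show (s : ℝ) ^ (5 / 4 : ℝ) * (σ * (c3 / 2 * (s : ℝ) ^ (-(5 / 4) : ℝ))) =
                  ((s : ℝ) ^ (5 / 4 : ℝ) * (s : ℝ) ^ (-(5 / 4) : ℝ)) * (σ * (c3 / 2)) by ring,
                  l7, one_mul]
            _ ≤ _ := mul_le_mul_of_nonneg_left l5 (by positivity)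
        have l10 : σ * (c3 / 2) ≤ 4 * ((2 : ℝ) ^ i) ^ (5 / 4 : ℝ) * (Cin * ph q x y R) :=
          l9.trans (mul_le_mul_of_nonneg_right l6 (by positivity))
        calc σ = (σ * (c3 / 2)) * (2 / c3) := by field_simp
          _ ≤ (4 * ((2 : ℝ) ^ i) ^ (5 / 4 : ℝ) * (Cin * ph q x y R)) * (2 / c3) :=
            mul_le_mul_of_nonneg_right l10 (by positivity)
          _ = _ := by ring
      have e1 : k / 2 = 2 ^ i := by rw [hk, pow_succ]; omega
      have e2 : 4 * k = 2 ^ (i + 3) := by rw [hk]; ring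
      rw [e1, e2] at g1
      simp only [VB_eq]
      linarith)
  intro k hk
  obtain ⟨i2, hi2, hi3⟩ : ∃ i2 : ℕ, k ≤ 2 ^ i2 ∧ (2 : ℤ) ^ i2 ≤ 2 * k := by
    refine ⟨Nat.clog 2 k.toNat, ?_, ?_⟩
    · have := Nat.le_pow_clog (b := 2) (by norm_num) k.toNat
      have h5 : ((k.toNat : ℕ) : ℤ) ≤ ((2 ^ Nat.clog 2 k.toNat : ℕ) : ℤ) := by exact_mod_cast this
      push_cast at h5
      omega
    · rcases le_or_gt k 1 with h5 | h5
      · have : k = 1 := by omega
        subst this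
        simp
      · have h6 : 1 < k.toNat := by omega
        have h7 := Nat.pow_pred_clog_lt_self (b := 2) (by norm_num) h6
        have h8 : 0 < Nat.clog 2 k.toNat := Nat.clog_pos (by norm_num) h6
        obtain ⟨j, hj⟩ : ∃ j, Nat.clog 2 k.toNat = j + 1 := ⟨_, (Nat.succ_pred_eq_of_pos h8).symm⟩
        rw [hj] at h7 ⊢
        simp only [Nat.pred_succ] at h7
        have h9 : ((2 ^ j : ℕ) : ℤ) < ((k.toNat : ℕ) : ℤ) := by exact_mod_cast h7
        push_cast at h9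
        rw [pow_succ]
        omega
  have h3 := h2 (i1 + i2) (by omega)
  have h4 : k ≤ 2 ^ (i1 + i2) := by
    refine hi2.trans ?_
    exact pow_le_pow_right₀ (by norm_num) (by omega)
  refine (hmono h4).trans (h3.trans ?_)
  have hψ : 0 ≤ ph q x y R + (m : ℝ) ^ (-(5 / 4) : ℝ) :=
    add_nonneg (ph_nonneg hQ _ _ _) (by positivity)
  apply mul_le_mul_of_nonneg_right _ hψ
  rw [mul_assoc]
  apply mul_le_mul_of_nonneg_left _ (le_trans (by norm_num) (le_max_right _ _))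
  have hk0 : (0 : ℝ) ≤ k := by exact_mod_cast (by omega : 0 ≤ k)
  rw [← Real.mul_rpow (by positivity) hk0]
  apply Real.rpow_le_rpow (by positivity) _ (by norm_num)
  have h5 : (2 : ℝ) ^ i2 ≤ 2 * k := by exact_mod_cast hi3
  calc (2 : ℝ) ^ (i1 + i2) = 2 ^ i1 * 2 ^ i2 := pow_add _ _ _
    _ ≤ 2 ^ i1 * (2 * k) := mul_le_mul_of_nonneg_left h5 (by positivity)
    _ = 2 ^ (i1 + 1) * k := by ring

/-- **Stability of the four-strand probability in the near-critical window.** -/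
theorem window_stab {C : ℝ} (hC : 1 ≤ C) (hN : NoArch C) (hAB : ArchBlock) (hOut : OutStep)
    (hIn : InStep) {c1 C1 : ℝ} (hc1 : 0 < c1)
    (hlo : ∀ m : ℤ, 1 ≤ m → c1 * (m : ℝ) ^ (-(5 / 4) : ℝ) ≤ uP (1 / 2) m)
    (hup : ∀ m : ℤ, 1 ≤ m → uP (1 / 2) m ≤ C1 * (m : ℝ) ^ (-(5 / 4) : ℝ)) :
    ∃ (a K0 c3 δ : ℝ) (M0 : ℤ), 0 < a ∧ 1 ≤ K0 ∧ 0 < c3 ∧ 0 < δ ∧ 4 ≤ M0 ∧
      ∀ (p : ℝ) (n : ℕ), 1 / 2 ≤ p → p ≤ 1 → 1 ≤ n → (p - 1 / 2) * (n : ℝ) ^ (3 / 4 : ℝ) ≤ a →
        F4B p K0 n ∧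
        (∀ q : ℤ × ℤ → ℝ, Cl p q → ∀ x y : ℤ × ℤ, IsUnit4 (y - x) → ∀ s : ℤ, M0 ≤ s → s ≤ n →
          c3 * (s : ℝ) ^ (-(5 / 4) : ℝ) ≤ uQ q x y s) ∧
        RS δ p (2 * n) := by
  obtain ⟨δ, hδ, hDS⟩ := dual_squares hC hN hAB
  obtain ⟨c0, hc0, hcl⟩ := class_RSM hδ
  set C1' : ℝ := max C1 1 with hC1'
  have C11 : 1 ≤ C1' := le_max_right _ _
  have hup' : ∀ m : ℤ, 1 ≤ m → uP (1 / 2) m ≤ C1' * (m : ℝ) ^ (-(5 / 4) : ℝ) := fun m hm =>
    (hup m hm).trans (mul_le_mul_of_nonneg_right (le_max_left _ _) (by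
      have : (0 : ℝ) < m := by exact_mod_cast (by omega : 0 < m)
      positivity))
  set ε1 : ℝ := min (1 / 16) (c1 / (8 * C1')) with hε1
  have ε1p : 0 < ε1 := lt_min (by norm_num) (by positivity)
  obtain ⟨K, Co, m0, hK16, hCo, hm0, hOut'⟩ := hOut c0 ε1 hc0 ε1p
  set M0 : ℤ := max m0 4 with hM0
  have hM04 : 4 ≤ M0 := le_max_right _ _
  have hM0m : m0 ≤ M0 := le_max_left _ _
  have hM0r : (0 : ℝ) < M0 := by exact_mod_cast (by omega : 0 < M0)
  set K0 : ℝ := max (max (4 * Co * (C1' + 1)) ((M0 : ℝ) ^ (5 / 4 : ℝ))) 1 with hK0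
  have K01 : 1 ≤ K0 := le_max_right _ _
  have K0a : 4 * Co * (C1' + 1) ≤ K0 := (le_max_left _ _).trans (le_max_left _ _)
  have K0b : (M0 : ℝ) ^ (5 / 4 : ℝ) ≤ K0 := (le_max_right _ _).trans (le_max_left _ _)
  have K0p : 0 < K0 := by linarith
  set c2 : ℝ := c1 / (2 * Co) with hc2
  have c2p : 0 < c2 := by positivity
  set c3 : ℝ := c2 / 2 with hc3
  have c3p : 0 < c3 := by positivity
  obtain ⟨Λ, Cin, k0, hΛ, hCin, hk0, hIn'⟩ := hIn c0 (1 / 32) (c3 / (8 * K0)) hc0 (by norm_num)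
    (by positivity)
  obtain ⟨i1, hi1⟩ : ∃ i1 : ℕ, max k0 (Λ * M0) ≤ 2 ^ (i1 + 1) := by
    obtain ⟨j, hj⟩ := pow_unbounded_of_one_lt (max k0 (Λ * M0)).toNat (show 1 < 2 by norm_num)
    refine ⟨j, ?_⟩
    have h1 : (((max k0 (Λ * M0)).toNat : ℕ) : ℤ) < ((2 ^ j : ℕ) : ℤ) := by exact_mod_cast hj
    push_cast at h1
    rw [pow_succ]
    omega
  have hi1a : k0 ≤ 2 ^ (i1 + 1) := (le_max_left _ _).trans hi1
  have hi1b : Λ * M0 ≤ 2 ^ (i1 + 1) := (le_max_right _ _).trans hi1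
  set L : ℝ := max (2 * (8 * Cin / c3)) 6 * ((2 : ℝ) ^ (i1 + 1)) ^ (5 / 4 : ℝ) with hL
  have Lp : 0 < L := by
    have : (0 : ℝ) < max (2 * (8 * Cin / c3)) 6 := lt_of_lt_of_le (by norm_num) (le_max_right _ _)
    positivity
  have hKr : (16 : ℝ) ≤ K := by exact_mod_cast hK16
  have hK0' : 1 ≤ K0 * (8 * (K : ℝ)) ^ (5 / 4 : ℝ) := by
    have : (1 : ℝ) ≤ (8 * (K : ℝ)) ^ (5 / 4 : ℝ) := Real.one_le_rpow (by linarith) (by norm_num)
    nlinarith
  have h8K : (1 : ℝ) ≤ (8 * (K : ℝ)) ^ (5 / 4 : ℝ) := Real.one_le_rpow (by linarith) (by norm_num)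
  obtain ⟨a', ha', -, hDS'⟩ := hDS (K0 * (8 * (K : ℝ)) ^ (5 / 4 : ℝ)) hK0'
  set G : ℝ := 2048 * 576 * K0 ^ 2 * L with hG
  have Gp : 0 < G := by positivity
  set θ : ℝ := min (1 / 4) (c2 / 4) with hθ
  have θp : 0 < θ := lt_min (by norm_num) (by positivity)
  refine ⟨min (a' / (4 * K)) (θ / G), K0, c3, δ, M0, lt_min (by positivity) (by positivity), K01,
    c3p, hδ, hM04, ?_⟩
  intro p n hp p1 hn1 han
  have p0 : 0 ≤ p := by linarith
  have hps : 0 ≤ p - 1 / 2 := by linarith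
  -- the constant densities belong to the class
  have hcp : ∀ s : ℝ, 1 / 2 ≤ s → s ≤ p → Cl p (cp s) := fun s h1 h2 e => ⟨h1, h2⟩
  have hu10 : IsUnit4 (((1, 0) : ℤ × ℤ) - (0, 0)) := by unfold IsUnit4; simp
  -- monotonicity in the distance of the window condition
  have hwin : ∀ M : ℤ, 0 ≤ M → M ≤ n → (p - 1 / 2) * (M : ℝ) ^ (3 / 4 : ℝ) ≤
      min (a' / (4 * K)) (θ / G) := by
    intro M h1 h2
    refine le_trans (mul_le_mul_of_nonneg_left ?_ hps) han
    apply Real.rpow_le_rpow (by exact_mod_cast h1) (by exact_mod_cast h2) (by norm_num)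
  -- dual squares
  have hRS : ∀ M : ℤ, 2 ≤ M → M ≤ n → F4B p K0 (M - 1) → ∀ N : ℕ, 1 ≤ N → (N : ℤ) ≤ 4 * K * M →
      RS δ p (2 * N) := by
    intro M hM2 hMn hB N hN1 hNM
    refine hDS' p hp p1 N hN1 ?_ ?_
    · intro s hs1 hs2 r hr1 hr2
      have hrr : (0 : ℝ) < r := by exact_mod_cast hr1
      rcases le_or_gt (r : ℤ) (M - 1) with h | h
      · have h1 := hB (cp s) (hcp s hs1 hs2) (0, 0) (1, 0) r hu10 (by omega) h
        have h2 : uP s r ≤ K0 * ((r : ℤ) : ℝ) ^ (-(5 / 4) : ℝ) := h1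
        push_cast at h2
        refine h2.trans ?_
        have h3 : 0 ≤ (r : ℝ) ^ (-(5 / 4) : ℝ) := by positivity
        calc K0 * (r : ℝ) ^ (-(5 / 4) : ℝ) = K0 * 1 * (r : ℝ) ^ (-(5 / 4) : ℝ) := by ring
          _ ≤ _ := mul_le_mul_of_nonneg_right (mul_le_mul_of_nonneg_left h8K K0p.le) h3
      · have h1 := hB (cp s) (hcp s hs1 hs2) (0, 0) (1, 0) (M - 1) hu10 (by omega) le_rfl
        have h2 : uP s r ≤ uP s (M - 1) := by
          rw [← uQ_cp s hu10, ← uQ_cp s hu10]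
          exact uQ_anti ((hcp s hs1 hs2).pb p1) hu10 (by omega) (by omega)
        have h3 : uP s (M - 1) ≤ K0 * (((M - 1 : ℤ)) : ℝ) ^ (-(5 / 4) : ℝ) := h1
        have h4 : (r : ℝ) ≤ 8 * K * ((M - 1 : ℤ) : ℝ) := by
          have : (r : ℤ) ≤ 8 * K * (M - 1) := by nlinarith
          exact_mod_cast this
        have h5 := rpow_cmp (a := 5 / 4) (by norm_num) hrr (by positivity) h4
        refine h2.trans (h3.trans ?_)
        rw [mul_assoc]
        exact mul_le_mul_of_nonneg_left h5 K0p.le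
    · have h1 : (N : ℝ) ≤ 4 * K * M := by exact_mod_cast hNM
      have hM0' : (0 : ℝ) ≤ M := by exact_mod_cast (by omega : 0 ≤ M)
      have h2 : (N : ℝ) ^ (3 / 4 : ℝ) ≤ 4 * K * (M : ℝ) ^ (3 / 4 : ℝ) := by
        have h3 := Real.rpow_le_rpow (z := (3 / 4 : ℝ)) (by positivity) h1 (by norm_num)
        rw [Real.mul_rpow (by positivity) hM0'] at h3
        have h4 : (4 * (K : ℝ)) ^ (3 / 4 : ℝ) ≤ 4 * K := by
          calc (4 * (K : ℝ)) ^ (3 / 4 : ℝ) ≤ (4 * (K : ℝ)) ^ (1 : ℝ) :=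
                Real.rpow_le_rpow_of_exponent_le (by linarith) (by norm_num)
            _ = 4 * K := Real.rpow_one _
        exact h3.trans (mul_le_mul_of_nonneg_right h4 (by positivity))
      have h5 := (hwin M (by omega) hMn).trans (min_le_left _ _)
      rw [le_div_iff₀ (by positivity)] at h5
      calc (p - 1 / 2) * (N : ℝ) ^ (3 / 4 : ℝ) ≤ (p - 1 / 2) * (4 * K * (M : ℝ) ^ (3 / 4 : ℝ)) :=
            mul_le_mul_of_nonneg_left h2 hps
        _ = (p - 1 / 2) * (M : ℝ) ^ (3 / 4 : ℝ) * (4 * K) := by ring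
        _ ≤ a' := h5
  -- the induction
  have main : ∀ m : ℕ, m ≤ n → F4B p K0 m ∧
      (∀ q : ℤ × ℤ → ℝ, Cl p q → ∀ x y : ℤ × ℤ, IsUnit4 (y - x) → ∀ s : ℤ, M0 ≤ s → s ≤ m →
        c3 * (s : ℝ) ^ (-(5 / 4) : ℝ) ≤ uQ q x y s) := by
    intro m
    induction m with
    | zero =>
      intro _
      exact ⟨fun q _ x y m _ h1 h2 => absurd h2 (by push_cast; omega),
        fun q _ x y _ s h1 h2 => absurd h2 (by push_cast; omega)⟩
    | succ m ih =>
      intro hmn
      obtain ⟨ihB, ihL⟩ := ih (by omega)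
      set M : ℤ := ((m + 1 : ℕ) : ℤ) with hM
      have hMm : M - 1 = m := by rw [hM]; push_cast; ring
      rcases lt_or_ge M M0 with hMM | hMM
      · constructor
        · intro q hq x y r hxy hr1 hr2
          have hrr : (0 : ℝ) < r := by exact_mod_cast (by omega : 0 < r)
          have h1 : PrP q (Bq x r) (F4 x y r) ≤ 1 := PrP_le_one (Cl.pb hq p1) _ _
          have h2 : (r : ℝ) ^ (5 / 4 : ℝ) ≤ K0 := by
            refine le_trans ?_ K0b
            apply Real.rpow_le_rpow hrr.le _ (by norm_num)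
            exact_mod_cast (by omega : r ≤ M0)
          have h3 : (r : ℝ) ^ (5 / 4 : ℝ) * (r : ℝ) ^ (-(5 / 4) : ℝ) = 1 := by
            rw [← Real.rpow_add hrr]; norm_num
          have h4 : (0 : ℝ) < (r : ℝ) ^ (-(5 / 4) : ℝ) := by positivity
          calc PrP q (Bq x r) (F4 x y r) ≤ 1 := h1
            _ = (r : ℝ) ^ (5 / 4 : ℝ) * (r : ℝ) ^ (-(5 / 4) : ℝ) := h3.symm
            _ ≤ K0 * (r : ℝ) ^ (-(5 / 4) : ℝ) := mul_le_mul_of_nonneg_right h2 h4.le
        · intro q hq x y hxy s h1 h2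
          exact absurd h2 (by omega)
      · -- the inductive step
        have hM2 : 4 ≤ M := by omega
        have hMn : M ≤ n := by rw [hM]; exact_mod_cast hmn
        have hMr : (0 : ℝ) < M := by exact_mod_cast (by omega : 0 < M)
        have ihB' : F4B p K0 (M - 1) := by rw [hMm]; exact ihB
        have hRSN := hRS M (by omega) hMn ihB' (4 * K * M).toNat (by
          have : 1 ≤ 4 * K * M := by nlinarith
          omega) (by
          have : 0 ≤ 4 * K * M := by nlinarith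
          omega)
        have hRM : ∀ q : ℤ × ℤ → ℝ, Cl p q → RSM q c0 (4 * K * M) := by
          intro q hq
          have h0 : 1 ≤ 4 * K * M := by nlinarith
          exact hcl p (2 * (4 * K * M).toNat) (4 * K * M) hp p1 (by omega) (by push_cast; omega)
            hRSN q hq
        have hR8 : 4 * M ≤ K * M := by nlinarith
        have hR9 : 2 * M + 8 ≤ K * M := by omega
        have h16 : 4 * M ≤ 4 * K * M := by nlinarith
        set β : ℝ := (M : ℝ) ^ (-(5 / 4) : ℝ) with hβ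
        have βp : 0 < β := by positivity
        have hhalf := half_rpow (m := M) (by omega)
        -- the pair of estimates for one density and one edge
        have key : ∀ q : ℤ × ℤ → ℝ, Cl p q → ∀ x y : ℤ × ℤ, IsUnit4 (y - x) →
            uQ q x y M ≤ K0 * β ∧ c3 * β ≤ uQ q x y M := by
          intro q hq x y hxy
          classical
          set q' : ℤ × ℤ → ℝ := fun e => if e ∈ Bq x M then q e else 1 / 2 with hq'
          have hq'c : Cl p q' := by
            intro e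
            simp only [hq']
            split_ifs
            · exact hq e
            · exact ⟨le_rfl, hp⟩
          have hQ' : Pb q' := hq'c.pb p1
          have e1 : uQ q x y M = uQ q' x y M := uQ_congr fun e he => by
            simp only [hq']; rw [if_pos he]
          have hV : ∀ t : ℝ, 0 ≤ t → t ≤ 1 → ∀ k : ℤ, 8 ≤ k → k ≤ 2 * M + 8 →
              VB (qt q' t) x k (K * M) ≤
                L * (k : ℝ) ^ (5 / 4 : ℝ) * (ph (qt q' t) x y (K * M) + β) := by
            intro t ht0 ht1 k hk8 _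
            have hqt := hq'c.qt ht0 ht1
            exact win_V p1 K0p c3p hCin hΛ hk0 hIn' hM04 hMM hR8 ihB'
              (fun q hq x y hxy s h1 h2 => ihL q hq x y hxy s h1 (by omega)) hqt
              ((hRM _ hqt).mono h16) hi1a hi1b hxy k (by omega)
          obtain ⟨o1, o2⟩ := window_ode hp p1 K01 Lp.le βp.le (by omega) hR9 ihB' hq'c hxy
            (fun e he => by simp only [hq']; rw [if_neg he]) hV
          rw [← hG] at o1 o2
          set X : ℝ := G * ((p - 1 / 2) * (M : ℝ) ^ (3 / 4 : ℝ)) with hX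
          have hX0 : 0 ≤ X := by positivity
          have hXθ : X ≤ θ := by
            have h1 := (hwin M (by omega) hMn).trans (min_le_right _ _)
            rw [le_div_iff₀ Gp] at h1
            rw [hX]; linarith
          have hX1 : X ≤ 1 / 4 := hXθ.trans (min_le_left _ _)
          have hX2 : X ≤ c2 / 4 := hXθ.trans (min_le_right _ _)
          have hexp : Real.exp X * (1 - X) ≤ 1 := by
            have h1 : 1 - X ≤ Real.exp (-X) := by
              have := Real.add_one_le_exp (-X); linarith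
            calc Real.exp X * (1 - X) ≤ Real.exp X * Real.exp (-X) :=
                  mul_le_mul_of_nonneg_left h1 (Real.exp_pos _).le
              _ = 1 := by rw [← Real.exp_add]; simp
          have hexp2 : Real.exp X ≤ 2 := by
            have := Real.exp_pos X
            nlinarith
          -- density one half
          have hhc : Cl p (cp (1 / 2)) := hcp _ le_rfl hp
          have hhQ : Pb (cp (1 / 2) : ℤ × ℤ → ℝ) := hhc.pb p1
          have b1 : ph (cp (1 / 2)) x y (K * M) ≤ C1' * β := by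
            refine (ph_le_uQ hhQ hxy (r := M) (by omega) (by omega)).trans ?_
            rw [uQ_cp _ hxy]
            exact hup' M (by omega)
          have b2 : c2 * β ≤ ph (cp (1 / 2)) x y (K * M) := by
            have h1 := hOut' (cp (1 / 2)) x y M (by omega) hxy (hRM _ hhc)
            rw [uQ_cp _ hxy, uQ_cp _ hxy] at h1
            have h2 := hlo M (by omega)
            have h3 := hup' (M / 2) (by omega)
            have h4 : ε1 * uP (1 / 2) (M / 2) ≤ c1 / 2 * β := by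
              have h5 : uP (1 / 2) (M / 2) ≤ C1' * (4 * β) :=
                h3.trans (mul_le_mul_of_nonneg_left hhalf (by linarith))
              calc ε1 * uP (1 / 2) (M / 2) ≤ (c1 / (8 * C1')) * (C1' * (4 * β)) :=
                    mul_le_mul (min_le_right _ _) h5 (uP_nonneg (by norm_num) (by norm_num) _)
                      (by positivity)
                _ = c1 / 2 * β := by field_simp; ring
            have h6 : c1 / 2 * β ≤ Co * ph (cp (1 / 2)) x y (K * M) := by linarith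
            calc c2 * β = (c1 / 2 * β) / Co := by rw [hc2]; field_simp
              _ ≤ ph (cp (1 / 2)) x y (K * M) := by
                rw [div_le_iff₀ hCo]; linarith
          have hph0 : 0 ≤ ph (cp (1 / 2)) x y (K * M) := ph_nonneg hhQ _ _ _
          have hphq : 0 ≤ ph q' x y (K * M) := ph_nonneg hQ' _ _ _
          constructor
          · -- upper bound
            have h1 : ph q' x y (K * M) ≤ 2 * (C1' + 1) * β := by
              have h2 : ph q' x y (K * M) + β ≤ (C1' * β + β) * 2 :=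
                o1.trans (mul_le_mul (by linarith) hexp2 (Real.exp_pos _).le (by positivity))
              linarith
            have h2 := hOut' q' x y M (by omega) hxy (hRM _ hq'c)
            have h3 := ihB' q' hq'c x y (M / 2) hxy (by omega) (by omega)
            have h4 : uQ q' x y (M / 2) ≤ K0 * (4 * β) :=
              le_trans h3 (mul_le_mul_of_nonneg_left hhalf K0p.le)
            have h5 : ε1 * uQ q' x y (M / 2) ≤ 1 / 16 * (K0 * (4 * β)) :=
              mul_le_mul (min_le_left _ _) h4 (uQ_nonneg hQ' _ _ _) (by norm_num)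
            have h6 : Co * ph q' x y (K * M) ≤ Co * (2 * (C1' + 1) * β) :=
              mul_le_mul_of_nonneg_left h1 hCo.le
            have h7 : 4 * Co * (C1' + 1) * β ≤ K0 * β := mul_le_mul_of_nonneg_right K0a βp.le
            rw [e1]
            have h8 : 0 ≤ K0 * β := by positivity
            linarith
          · -- lower bound
            rw [e1]
            have h1 : ph q' x y (K * M) ≤ uQ q' x y M := ph_le_uQ hQ' hxy (by omega) (by omega)
            refine le_trans ?_ h1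
            have h2 : (ph (cp (1 / 2)) x y (K * M) + β) * (1 - X) ≤ ph q' x y (K * M) + β := by
              calc (ph (cp (1 / 2)) x y (K * M) + β) * (1 - X)
                  ≤ ((ph q' x y (K * M) + β) * Real.exp X) * (1 - X) :=
                    mul_le_mul_of_nonneg_right o2 (by linarith)
                _ = (ph q' x y (K * M) + β) * (Real.exp X * (1 - X)) := by ring
                _ ≤ (ph q' x y (K * M) + β) * 1 :=
                    mul_le_mul_of_nonneg_left hexp (by linarith)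
                _ = _ := mul_one _
            have h3 : c2 * β * (3 / 4) ≤ ph (cp (1 / 2)) x y (K * M) * (1 - X) :=
              mul_le_mul b2 (by linarith) (by norm_num) hph0
            have h4 : X * β ≤ c2 / 4 * β := mul_le_mul_of_nonneg_right hX2 βp.le
            have h5 : c3 * β = c2 * β / 2 := by rw [hc3]; ring
            rw [h5]
            nlinarith
        constructor
        · intro q hq x y r hxy hr1 hr2
          rcases lt_or_ge r M with h | h
          · exact ihB q hq x y r hxy hr1 (by omega)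
          · have : r = M := by omega
            rw [this]
            exact (key q hq x y hxy).1
        · intro q hq x y hxy s h1 h2
          rcases lt_or_ge s M with h | h
          · exact ihL q hq x y hxy s h1 (by omega)
          · have : s = M := by omega
            rw [this]
            exact (key q hq x y hxy).2
  obtain ⟨g1, g2⟩ := main n le_rfl
  refine ⟨g1, g2, ?_⟩
  refine hDS' p hp p1 n hn1 ?_ ?_
  · intro s hs1 hs2 r hr1 hr2
    have h1 := g1 (cp s) (hcp s hs1 hs2) (0, 0) (1, 0) r hu10 (by omega) (by omega)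
    have h2 : uP s r ≤ K0 * ((r : ℤ) : ℝ) ^ (-(5 / 4) : ℝ) := h1
    push_cast at h2
    refine h2.trans ?_
    have h3 : 0 ≤ (r : ℝ) ^ (-(5 / 4) : ℝ) := by positivity
    calc K0 * (r : ℝ) ^ (-(5 / 4) : ℝ) = K0 * 1 * (r : ℝ) ^ (-(5 / 4) : ℝ) := by ring
      _ ≤ _ := mul_le_mul_of_nonneg_right (mul_le_mul_of_nonneg_left h8K K0p.le) h3
  · refine han.trans ((min_le_left _ _).trans ?_)
    rw [div_le_iff₀ (by positivity)]
    nlinarith

end Pool.Agent.H47.NC
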