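import Mathlib
import Pool.Agent.H47.NC.Window
import Pool.Agent.H99.NC.Plane
import Pool.Agent.H63.Four.PlaneLB

set_option autoImplicit false
open Finset

/-! The four-strand probability at the critical density. -/

namespace Pool.Agent.H47.NC

open Pool.Agent.H75.Perc Pool.Agent.H99.NC
open Pool.Agent.H63.Perc (tr mem_tr tr_sub)
open Pool.Agent.H65.Perc (PConf planeMeasure)
open Pool.Agent.H63.Four (FourArm boxGraph cut Box fourArm_lower)

lemma phi_label {u v : ℤ × ℤ} (h : IsUnit4 (v - u)) :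
    phi (u + v) = ((0, 0), true) ↔ u + v = (1, 0) := by
  have hu := unit_cases h
  have h1 : (u + v).1 = u.1 + v.1 := rfl
  have h2 : (u + v).2 = u.2 + v.2 := rfl
  unfold phi
  constructor
  · intro h3
    rw [Prod.mk.injEq, Prod.mk.injEq, decide_eq_true_iff] at h3
    exact Prod.ext (by simp only; omega) (by simp only; omega)
  · intro h3
    rw [h3]
    simp

lemma boxAdj {N : ℕ} {ω : PConf} {u v : ℤ × ℤ} :
    (boxGraph N (cut ω)).Adj u v ↔
      Ad (((tr (Bq (0, 0) N) phi ω).erase ((0, 0) + (1, 0))) ∩ Bq (0, 0) N) u v := by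
  have h1 : boxGraph N (cut ω) = GD (Box N) (cut ω) := rfl
  have e0 : ((0, 0) : ℤ × ℤ) + (1, 0) = (1, 0) := by simp
  rw [h1, GD_adj, e0]
  have hbox : ∀ w : ℤ × ℤ, Box N w ↔ inB (-N) N (-N) N w := by
    intro w; unfold Box inB; rw [abs_le, abs_le]
  rw [hbox, hbox]
  unfold Ad
  constructor
  · rintro ⟨g1, g2, g3, g4⟩
    have hmem : u + v ∈ Bq (0, 0) (N : ℤ) := by
      unfold Bq; simp only [zero_sub, zero_add]
      exact add_mem_Bx g1 g2 g3
    have hne : u + v ≠ (1, 0) := by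
      intro h
      rw [(phi_label g1).2 h] at g4
      unfold cut at g4
      simp at g4
    have hval : ω (phi (u + v)) = true := by
      have : phi (u + v) ≠ ((0, 0), true) := fun h => hne ((phi_label g1).1 h)
      unfold cut at g4
      rwa [Function.update_of_ne this] at g4
    exact ⟨g1, mem_inter.2 ⟨mem_erase.2 ⟨hne, mem_tr.2 ⟨hmem, hval⟩⟩, hmem⟩⟩
  · rintro ⟨g1, g2⟩
    rw [mem_inter, mem_erase, mem_tr] at g2
    obtain ⟨⟨hne, -, hval⟩, hmem⟩ := g2
    have hmem' : u + v ∈ Bx (-N) N (-N) (N : ℤ) := by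
      unfold Bq at hmem; simpa using hmem
    have := (add_mem_Bx_iff g1).1 hmem'
    refine ⟨g1, this.1, this.2, ?_⟩
    have hn : phi (u + v) ≠ ((0, 0), true) := fun h => hne ((phi_label g1).1 h)
    unfold cut
    rw [Function.update_of_ne hn]
    exact hval

lemma boxReach {N : ℕ} {ω : PConf} {u v : ℤ × ℤ} :
    (boxGraph N (cut ω)).Reachable u v ↔
      Co (((tr (Bq (0, 0) N) phi ω).erase ((0, 0) + (1, 0))) ∩ Bq (0, 0) N) u v := by
  rw [SimpleGraph.reachable_iff_reflTransGen]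
  have : (boxGraph N (cut ω)).Adj =
      Ad (((tr (Bq (0, 0) N) phi ω).erase ((0, 0) + (1, 0))) ∩ Bq (0, 0) N) := by
    funext a b; exact propext boxAdj
  rw [this]
  rfl

lemma fourArm_iff {N : ℕ} (hN : 1 ≤ N) (ω : PConf) :
    FourArm N ω ↔ F4 (0, 0) (1, 0) N (tr (Bq (0, 0) N) phi ω) := by
  unfold FourArm F4
  simp only [boxReach]
  have key : ∀ u : ℤ × ℤ, inB (-N) N (-N) N u → ∀ ω' : Finset (ℤ × ℤ), (∃ v : ℤ × ℤ,
      ((N : ℤ) ≤ |v.1| ∨ (N : ℤ) ≤ |v.2|) ∧ Co (ω' ∩ Bq (0, 0) N) u v) ↔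
      ∃ v, bq (0, 0) N v ∧ Co (ω' ∩ Bq (0, 0) N) u v := by
    intro u hu ω'
    constructor
    · rintro ⟨v, h1, h2⟩
      refine ⟨v, ?_, h2⟩
      have h3 : inB (-N) N (-N) N v := by
        refine Co.inB (ω := ω' ∩ Bq (0, 0) N) ?_ hu h2
        unfold Bq; simp only [zero_sub, zero_add]; exact inter_subset_right
      unfold bq bdB inB at *
      simp only [zero_sub, zero_add]
      rcases abs_cases v.1 with ⟨e1, _⟩ | ⟨e1, _⟩ <;> rcases abs_cases v.2 with ⟨e2, _⟩ | ⟨e2, _⟩ <;>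
        rw [e1, e2] at h1 <;> omega
    · rintro ⟨v, h1, h2⟩
      refine ⟨v, ?_, h2⟩
      unfold bq bdB inB at h1
      simp only [zero_sub, zero_add] at h1
      rcases abs_cases v.1 with ⟨e1, _⟩ | ⟨e1, _⟩ <;> rcases abs_cases v.2 with ⟨e2, _⟩ | ⟨e2, _⟩ <;>
        rw [e1, e2] <;> omega
  rw [key (0, 0) (by unfold inB; simp), key (1, 0) (by unfold inB; simp; omega)]

/-- the four-arm probability of the plane in terms of the finite box -/
theorem uP_half {N : ℕ} (hN : 1 ≤ N) :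
    (planeMeasure {ω | FourArm N ω}).toReal = uP (1 / 2) N := by
  have h : {ω | FourArm N ω} = {ω | F4 (0, 0) (1, 0) N (tr (Bq (0, 0) N) phi ω)} := by
    ext ω
    exact fourArm_iff hN ω
  rw [h, ← planeP_half, planeP_tr (by norm_num) (by norm_num) (fun e he => (mem_Bq.1 he).2.2)]
  rfl

/-- **lower bound for the four-strand probability at the critical density** -/
theorem uP_half_lower : ∃ c : ℝ, 0 < c ∧ ∀ m : ℤ, 1 ≤ m →
    c * (m : ℝ) ^ (-(5 / 4) : ℝ) ≤ uP (1 / 2) m := by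
  obtain ⟨c, hc, h⟩ := fourArm_lower
  refine ⟨c, hc, fun m hm => ?_⟩
  obtain ⟨N, rfl⟩ : ∃ N : ℕ, (N : ℤ) = m := ⟨m.toNat, by omega⟩
  have h1 := h N (by omega)
  rw [uP_half (by omega)] at h1
  simpa using h1

/-- **upper bound for the four-strand probability**, from the outward step -/
theorem uP_half_upper {C : ℝ} {m0 : ℤ} (hC : 0 ≤ C)
    (h : ∀ m : ℤ, m0 ≤ m → uP (1 / 2) m ≤ C * (m : ℝ) ^ (-(5 / 4) : ℝ) +
      1 / 16 * uP (1 / 2) (m / 2)) :
    ∃ C1 : ℝ, ∀ m : ℤ, 1 ≤ m → uP (1 / 2) m ≤ C1 * (m : ℝ) ^ (-(5 / 4) : ℝ) := by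
  set M : ℤ := max m0 2 with hM
  have hMr : (0 : ℝ) < M := by exact_mod_cast (by omega : 0 < M)
  set C1 : ℝ := max (2 * C) ((M : ℝ) ^ (5 / 4 : ℝ)) with hC1
  have hC10 : 0 ≤ C1 := le_trans (by positivity) (le_max_left _ _)
  refine ⟨C1, ?_⟩
  have key : ∀ n : ℕ, ∀ m : ℤ, 1 ≤ m → m ≤ n → uP (1 / 2) m ≤ C1 * (m : ℝ) ^ (-(5 / 4) : ℝ) := by
    intro n
    induction n with
    | zero => intro m h1 h2; exact absurd h2 (by push_cast; omega)
    | succ n ih =>
      intro m h1 h2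
      have hmr : (0 : ℝ) < m := by exact_mod_cast (by omega : 0 < m)
      have hX : (0 : ℝ) < (m : ℝ) ^ (-(5 / 4) : ℝ) := by positivity
      rcases lt_or_ge m M with h3 | h3
      · have h4 : (m : ℝ) ^ (5 / 4 : ℝ) ≤ C1 := by
          refine le_trans ?_ (le_max_right _ _)
          exact Real.rpow_le_rpow hmr.le (by exact_mod_cast h3.le) (by norm_num)
        have h5 : (m : ℝ) ^ (5 / 4 : ℝ) * (m : ℝ) ^ (-(5 / 4) : ℝ) = 1 := by
          rw [← Real.rpow_add hmr]; norm_num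
        calc uP (1 / 2) m ≤ 1 := uP_le_one (by norm_num) (by norm_num) _
          _ = (m : ℝ) ^ (5 / 4 : ℝ) * (m : ℝ) ^ (-(5 / 4) : ℝ) := h5.symm
          _ ≤ _ := mul_le_mul_of_nonneg_right h4 hX.le
      · have h4 := h m (by omega)
        have h5 := ih (m / 2) (by omega) (by push_cast at h2; omega)
        have h6 := half_rpow (m := m) (by omega)
        have h7 : uP (1 / 2) (m / 2) ≤ C1 * (4 * (m : ℝ) ^ (-(5 / 4) : ℝ)) :=
          h5.trans (mul_le_mul_of_nonneg_left h6 hC10)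
        have h8 : 2 * C ≤ C1 := le_max_left _ _
        nlinarith
  intro m hm
  exact key m.toNat m hm (by omega)

end Pool.Agent.H47.NC
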