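import Mathlib
import Pool.Agent.H47.NC.Half
import Pool.Agent.H65.Four.Final
import Pool.Agent.H63.Four.Cyl

set_option autoImplicit false
open Finset

/-! The order `m^{-5/4}` of the four-arm probability at the critical density, from the outward step with
the cross event. -/

namespace Pool.Agent.H47.NC

open Pool.Agent.H75.Perc Pool.Agent.H99.NC
open Pool.Agent.H63.Bulk (bulkMeasure)
open Pool.Agent.H63.Four (Piv piv_bounds)

/-- **Outwards**, with the cross event of the edge `(1,0)`. -/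
def OutCS : Prop := ∀ c0 ε : ℝ, 0 < c0 → 0 < ε → ∃ (N : ℕ) (C : ℝ) (m0 : ℤ),
    0 < C ∧ 100 ≤ m0 ∧ ∀ (q : ℤ × ℤ → ℝ) (m : ℤ), m0 ≤ m → RSM q c0 m →
      ∃ w R : ℤ, 1 ≤ w ∧ 16 * w ≤ R ∧ R ≤ N * w ∧ m ≤ R ∧ R ≤ 17 * m ∧
        uQ q (0, 0) (1, 0) m ≤
          C * PrP q (Pool.Agent.H75.TwoArm.BB (R + 8 * w)) (Pool.Agent.H65.Four.CS R w) +
          ε * uQ q (0, 0) (1, 0) (m / 2)

lemma RSM_half : ∃ c0 : ℝ, 0 < c0 ∧ ∀ M : ℤ, RSM (cp (1 / 2)) c0 M := by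
  obtain ⟨δ, hδ, h⟩ := Pool.Agent.H75.TwoArm.hc_ratio 2
  obtain ⟨c0, hc0, H⟩ := class_RSM hδ
  refine ⟨c0, hc0, fun M => ?_⟩
  have h1 : RS δ (1 / 2) (M.toNat + 1) := by
    intro n hn _
    have e : (1 : ℝ) - 1 / 2 = 1 / 2 := by norm_num
    rw [e, fcP_half]
    exact h n n (by positivity) (by omega) (by push_cast; omega)
  exact H (1 / 2) (M.toNat + 1) M le_rfl (by norm_num) (by omega) (by push_cast; omega) h1 _
    (fun e => ⟨le_rfl, le_rfl⟩)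

/-- the recursion at the critical density -/
theorem uP_half_rec (hO : OutCS) : ∃ (C : ℝ) (m0 : ℤ), 0 ≤ C ∧ ∀ m : ℤ, m0 ≤ m →
    uP (1 / 2) m ≤ C * (m : ℝ) ^ (-(5 / 4) : ℝ) + 1 / 16 * uP (1 / 2) (m / 2) := by
  obtain ⟨c0, hc0, hR⟩ := RSM_half
  obtain ⟨N, C, m0, hC, hm0, H⟩ := hO c0 (1 / 16) hc0 (by norm_num)
  obtain ⟨C2, h2⟩ := Pool.Agent.H65.Four.CS_le_piv N
  obtain ⟨c3, C3, hc3, hC3, h3⟩ := piv_bounds
  refine ⟨C * (|C2| * C3), m0, by positivity, fun m hm => ?_⟩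
  obtain ⟨w, R, hw, hwR, hRN, hmR, hRm, key⟩ := H (cp (1 / 2)) m hm (hR m)
  have hu10 : IsUnit4 (((1, 0) : ℤ × ℤ) - (0, 0)) := by unfold IsUnit4; simp
  rw [uQ_cp _ hu10, uQ_cp _ hu10] at key
  have e1 : PrP (cp (1 / 2)) (Pool.Agent.H75.TwoArm.BB (R + 8 * w)) (Pool.Agent.H65.Four.CS R w) =
      Pr (Pool.Agent.H75.TwoArm.BB (R + 8 * w)) (Pool.Agent.H65.Four.CS R w) := PrP_half _ _
  rw [e1] at key
  have hn : (((64 * R).toNat : ℕ) : ℤ) = 64 * R := Int.toNat_of_nonneg (by omega)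
  have g1 := h2 w R hw hwR hRN (64 * R).toNat hn
  have g2 := (h3 (64 * R).toNat (by omega) (0, 0) true).2
  have mr : (0 : ℝ) < m := by exact_mod_cast (by omega : 0 < m)
  have g3 : (((64 * R).toNat : ℕ) : ℝ) ^ (-(5 / 4) : ℝ) ≤ (m : ℝ) ^ (-(5 / 4) : ℝ) := by
    apply Real.rpow_le_rpow_of_nonpos mr _ (by norm_num)
    have : (m : ℤ) ≤ (((64 * R).toNat : ℕ) : ℤ) := by rw [hn]; omega
    exact_mod_cast this
  have g4 : ((bulkMeasure (64 * R).toNat) {ω | Piv (64 * R).toNat (0, 0) true ω}).toReal ≤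
      C3 * (m : ℝ) ^ (-(5 / 4) : ℝ) := g2.trans (mul_le_mul_of_nonneg_left g3 hC3.le)
  have g5 : Pr (Pool.Agent.H75.TwoArm.BB (R + 8 * w)) (Pool.Agent.H65.Four.CS R w) ≤
      |C2| * (C3 * (m : ℝ) ^ (-(5 / 4) : ℝ)) := by
    refine g1.trans ((mul_le_mul_of_nonneg_right (le_abs_self C2) ENNReal.toReal_nonneg).trans ?_)
    exact mul_le_mul_of_nonneg_left g4 (abs_nonneg _)
  have g6 := mul_le_mul_of_nonneg_left g5 hC.le
  linarith

/-- **upper bound for the four-strand probability at the critical density** -/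
theorem uP_half_up (hO : OutCS) :
    ∃ C1 : ℝ, ∀ m : ℤ, 1 ≤ m → uP (1 / 2) m ≤ C1 * (m : ℝ) ^ (-(5 / 4) : ℝ) := by
  obtain ⟨C, m0, hC, h⟩ := uP_half_rec hO
  exact uP_half_upper hC h

end Pool.Agent.H47.NC
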