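import Pool.Agent.H47.NC.Rank

set_option autoImplicit false
set_option linter.unusedSectionVars false

/-!
# Packing of bases with capacities
-/

namespace Pool.Agent.H47.NC

open Finset Pool.Agent.H47.FC

section

variable {E ι κ : Type} [DecidableEq E] [Fintype E] [DecidableEq ι] [Fintype ι] [DecidableEq κ]

/-- slice of a set of pairs -/
def slice (A : Finset (E × ι)) (i : ι) : Finset E := univ.filter (fun e => (e, i) ∈ A)

/-- fibre of a set of pairs -/
def fib (A : Finset (E × ι)) (e : E) : Finset ι := univ.filter (fun i => (e, i) ∈ A)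

lemma mem_slice (A : Finset (E × ι)) (i : ι) (e : E) : e ∈ slice A i ↔ (e, i) ∈ A := by
  simp [slice]

lemma mem_fib (A : Finset (E × ι)) (e : E) (i : ι) : i ∈ fib A e ↔ (e, i) ∈ A := by
  simp [fib]

/-- sum of rank functions over slices -/
lemma isRk_slice (r : ι → Finset E → ℕ) (hr : ∀ i, IsRk (r i)) :
    IsRk (fun A : Finset (E × ι) => ∑ i, r i (slice A i)) := by
  refine ⟨?_, ?_, ?_, ?_⟩
  · show ∑ i, r i (slice ∅ i) = 0
    apply sum_eq_zero
    intro i _
    have : slice (∅ : Finset (E × ι)) i = ∅ := by ext e; simp [mem_slice]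
    rw [this, (hr i).empty]
  · rintro ⟨e, j⟩ A
    show ∑ i, r i (slice (insert (e, j) A) i) ≤ ∑ i, r i (slice A i) + 1
    rw [← add_sum_erase univ _ (mem_univ j),
      ← add_sum_erase univ (fun i => r i (slice A i)) (mem_univ j)]
    have h1 : slice (insert (e, j) A) j = insert e (slice A j) := by
      ext f; simp [mem_slice]
    have h2 : ∑ i ∈ univ.erase j, r i (slice (insert (e, j) A) i)
        = ∑ i ∈ univ.erase j, r i (slice A i) := by
      refine sum_congr rfl fun i hi => ?_
      have h3 : slice (insert (e, j) A) i = slice A i := by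
        ext f
        simp only [mem_slice, mem_insert, Prod.mk.injEq]
        constructor
        · rintro (⟨_, h⟩ | h)
          · exact absurd h (ne_of_mem_erase hi)
          · exact h
        · intro h; exact Or.inr h
      rw [h3]
    rw [h1, h2]
    have h4 := (hr j).step e (slice A j)
    show r j (insert e (slice A j)) + _ ≤ r j (slice A j) + _ + 1
    omega
  · intro A B hAB
    apply sum_le_sum
    intro i _
    apply (hr i).mono
    intro e he
    rw [mem_slice] at he ⊢
    exact hAB he
  · intro A B
    show ∑ i, r i (slice (A ∪ B) i) + ∑ i, r i (slice (A ∩ B) i)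
      ≤ ∑ i, r i (slice A i) + ∑ i, r i (slice B i)
    rw [← sum_add_distrib, ← sum_add_distrib]
    apply sum_le_sum
    intro i _
    have h1 : slice (A ∪ B) i = slice A i ∪ slice B i := by
      ext e; simp [mem_slice]
    have h2 : slice (A ∩ B) i = slice A i ∩ slice B i := by
      ext e; simp [mem_slice]
    rw [h1, h2]
    exact (hr i).sub _ _

/-- capacity rank function -/
lemma isRk_cap (π : ι → κ) (u : E → ℕ) :
    IsRk (fun A : Finset (E × ι) => ∑ e, min (u e) ((fib A e).image π).card) := by
  refine ⟨?_, ?_, ?_, ?_⟩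
  · show ∑ e, min (u e) ((fib (∅ : Finset (E × ι)) e).image π).card = 0
    apply sum_eq_zero
    intro e _
    have : fib (∅ : Finset (E × ι)) e = ∅ := by ext i; simp [mem_fib]
    rw [this, image_empty, card_empty, Nat.min_zero]
  · rintro ⟨e, j⟩ A
    show ∑ f, min (u f) ((fib (insert (e, j) A) f).image π).card
      ≤ ∑ f, min (u f) ((fib A f).image π).card + 1
    rw [← add_sum_erase univ _ (mem_univ e),
      ← add_sum_erase univ (fun f => min (u f) ((fib A f).image π).card) (mem_univ e)]
    have h1 : fib (insert (e, j) A) e = insert j (fib A e) := by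
      ext f; simp [mem_fib]
    have h2 : ∑ f ∈ univ.erase e, min (u f) ((fib (insert (e, j) A) f).image π).card
        = ∑ f ∈ univ.erase e, min (u f) ((fib A f).image π).card := by
      refine sum_congr rfl fun i hi => ?_
      have h3 : fib (insert (e, j) A) i = fib A i := by
        ext f
        simp only [mem_fib, mem_insert, Prod.mk.injEq]
        constructor
        · rintro (⟨h, _⟩ | h)
          · exact absurd h (ne_of_mem_erase hi)
          · exact h
        · intro h; exact Or.inr h
      rw [h3]
    rw [h1, h2, image_insert]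
    have h4 := card_insert_le (π j) ((fib A e).image π)
    show min (u e) (insert (π j) ((fib A e).image π)).card + _
      ≤ min (u e) ((fib A e).image π).card + _ + 1
    omega
  · intro A B hAB
    apply sum_le_sum
    intro e _
    have h1 : ((fib A e).image π).card ≤ ((fib B e).image π).card := by
      apply card_le_card
      apply image_subset_image
      intro i hi
      rw [mem_fib] at hi ⊢
      exact hAB hi
    omega
  · intro A B
    show ∑ e, min (u e) ((fib (A ∪ B) e).image π).card
        + ∑ e, min (u e) ((fib (A ∩ B) e).image π).card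
      ≤ ∑ e, min (u e) ((fib A e).image π).card + ∑ e, min (u e) ((fib B e).image π).card
    rw [← sum_add_distrib, ← sum_add_distrib]
    apply sum_le_sum
    intro e _
    have h1 : (fib (A ∪ B) e).image π = (fib A e).image π ∪ (fib B e).image π := by
      have : fib (A ∪ B) e = fib A e ∪ fib B e := by ext i; simp [mem_fib]
      rw [this, image_union]
    have h2 : ((fib (A ∩ B) e).image π).card ≤ ((fib A e).image π ∩ (fib B e).image π).card := by
      apply card_le_card
      have : fib (A ∩ B) e = fib A e ∩ fib B e := by ext i; simp [mem_fib]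
      rw [this]
      exact image_inter_subset _ _ _
    have h3 := card_union_add_card_inter ((fib A e).image π) ((fib B e).image π)
    have h4 := card_le_card (inter_subset_left (s₁ := (fib A e).image π) (s₂ := (fib B e).image π))
    have h5 := card_le_card (inter_subset_right (s₁ := (fib A e).image π) (s₂ := (fib B e).image π))
    rw [h1]
    omega

end

section

variable {V E ι κ : Type} [DecidableEq V] [Fintype V] [DecidableEq E] [Fintype E]
  [DecidableEq ι] [Fintype ι] [DecidableEq κ] (a b : E → V)

/-- **Packing theorem.** Bases `T i ⊆ S` modulo `K`, an element in at most `u e` of them and in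
bases with different labels only. -/
theorem packing (π : ι → κ) (K S : Finset E) (u : E → ℕ)
    (cond : ∀ A : ι → Finset E, (∀ i, A i ⊆ S) →
      ∑ _i : ι, rk a b (S ∪ K) ≤ ∑ i, rk a b (A i ∪ K)
        + ∑ e ∈ S, min (u e) ((univ.filter (fun i => e ∉ A i)).image π).card) :
    ∃ T : ι → Finset E, (∀ i, T i ⊆ S) ∧ (∀ i, rk a b (T i ∪ K) = rk a b (S ∪ K)) ∧
      (∀ i, (T i).card + rk a b K = rk a b (S ∪ K)) ∧
      ∀ e, ((univ.filter (fun i => e ∈ T i)).card ≤ u e ∧
        ∀ i j, e ∈ T i → e ∈ T j → π i = π j → i = j) := by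
  classical
  let r1 : Finset (E × ι) → ℕ := fun A => ∑ i, rkc a b K (slice A i)
  let r2 : Finset (E × ι) → ℕ := fun A => ∑ e, min (u e) ((fib A e).image π).card
  have h1 : IsRk r1 := isRk_slice (fun _ => rkc a b K) (fun _ => isRk_rkc a b K)
  have h2 : IsRk r2 := isRk_cap π u
  let G : Finset (E × ι) := S ×ˢ univ
  obtain ⟨I, hIG, hIc, hI1, hI2⟩ := matroid_inter G r1 r2 h1 h2 (∑ _i : ι, rkc a b K S) (by
    intro A hA
    have hAs : ∀ i, slice A i ⊆ S := by
      intro i e he
      rw [mem_slice] at he
      exact (mem_product.1 (hA he)).1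
    have h3 := cond (fun i => slice A i) hAs
    have h4 : ∑ _i : ι, rk a b (S ∪ K) = ∑ _i : ι, rkc a b K S + ∑ _i : ι, rk a b K := by
      rw [← sum_add_distrib]
      exact sum_congr rfl fun i _ => (rkc_add a b K S).symm
    have h5 : ∑ i, rk a b (slice A i ∪ K) = r1 A + ∑ _i : ι, rk a b K := by
      show _ = ∑ i, rkc a b K (slice A i) + _
      rw [← sum_add_distrib]
      exact sum_congr rfl fun i _ => (rkc_add a b K _).symm
    have h6 : ∑ e ∈ S, min (u e) ((univ.filter (fun i => e ∉ slice A i)).image π).card
        ≤ r2 (G \ A) := by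
      show _ ≤ ∑ e, min (u e) ((fib (G \ A) e).image π).card
      refine le_trans (le_of_eq ?_) (sum_le_sum_of_subset (subset_univ S))
      refine sum_congr rfl fun e he => ?_
      have h7 : univ.filter (fun i => e ∉ slice A i) = fib (G \ A) e := by
        ext i
        rw [mem_filter, mem_fib, mem_slice, mem_sdiff]
        simp only [mem_univ, true_and]
        constructor
        · intro h; exact ⟨mem_product.2 ⟨he, mem_univ _⟩, h⟩
        · intro h; exact h.2
      rw [h7]
    omega)
  have hcardI : I.card = ∑ e, (fib I e).card := by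
    have h3 : I.card = ∑ x ∈ I, 1 := by simp
    rw [h3, ← sum_fiberwise_of_maps_to (g := Prod.fst) (t := univ) (fun x _ => mem_univ _)]
    refine sum_congr rfl fun e _ => ?_
    rw [← card_eq_sum_ones]
    apply card_bij (fun x _ => x.2)
    · rintro ⟨f, i⟩ hx
      rw [mem_filter] at hx
      rw [mem_fib, ← hx.2]
      exact hx.1
    · rintro ⟨f, i⟩ hx ⟨g, j⟩ hy hij
      rw [mem_filter] at hx hy
      simp only at hij
      have h4 : f = e := hx.2
      have h5 : g = e := hy.2
      rw [h4, h5, hij]
    · intro i hi
      rw [mem_fib] at hi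
      exact ⟨(e, i), mem_filter.2 ⟨hi, rfl⟩, rfl⟩
  have hcardI2 : I.card = ∑ i, (slice I i).card := by
    have h3 : I.card = ∑ x ∈ I, 1 := by simp
    rw [h3, ← sum_fiberwise_of_maps_to (g := Prod.snd) (t := univ) (fun x _ => mem_univ _)]
    refine sum_congr rfl fun i _ => ?_
    rw [← card_eq_sum_ones]
    apply card_bij (fun x _ => x.1)
    · rintro ⟨f, j⟩ hx
      rw [mem_filter] at hx
      rw [mem_slice, ← hx.2]
      exact hx.1
    · rintro ⟨f, j⟩ hx ⟨g, j'⟩ hy hij
      rw [mem_filter] at hx hy
      simp only at hij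
      have h4 : j = i := hx.2
      have h5 : j' = i := hy.2
      rw [h4, h5, hij]
    · intro e he
      rw [mem_slice] at he
      exact ⟨(e, i), mem_filter.2 ⟨he, rfl⟩, rfl⟩
  have hTS : ∀ i, slice I i ⊆ S := by
    intro i e he
    rw [mem_slice] at he
    exact (mem_product.1 (hIG he)).1
  -- ranks
  have hle : ∀ i, rkc a b K (slice I i) ≤ rkc a b K S := fun i => (isRk_rkc a b K).mono (hTS i)
  have heq : ∀ i, rkc a b K (slice I i) = rkc a b K S := by
    have h3 : ∑ i, rkc a b K (slice I i) = ∑ _i : ι, rkc a b K S := hI1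
    intro i
    exact (sum_eq_sum_iff_of_le (fun i _ => hle i)).1 h3 i (mem_univ i)
  have hcle : ∀ i, rkc a b K (slice I i) ≤ (slice I i).card :=
    fun i => (isRk_rkc a b K).card_le _
  have hceq : ∀ i, rkc a b K (slice I i) = (slice I i).card := by
    have h3 : ∑ i, rkc a b K (slice I i) = ∑ i, (slice I i).card := by
      rw [← hcardI2, hIc]; exact hI1
    intro i
    exact (sum_eq_sum_iff_of_le (fun i _ => hcle i)).1 h3 i (mem_univ i)
  -- capacities
  have hfle : ∀ e, min (u e) ((fib I e).image π).card ≤ (fib I e).card := fun e =>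
    (min_le_right _ _).trans card_image_le
  have hfeq : ∀ e, min (u e) ((fib I e).image π).card = (fib I e).card := by
    have h3 : ∑ e, min (u e) ((fib I e).image π).card = ∑ e, (fib I e).card := by
      rw [← hcardI, hIc]; exact hI2
    intro e
    exact (sum_eq_sum_iff_of_le (fun e _ => hfle e)).1 h3 e (mem_univ e)
  refine ⟨fun i => slice I i, hTS, ?_, ?_, ?_⟩
  · intro i
    show rk a b (slice I i ∪ K) = _
    have h3 := rkc_add a b K (slice I i)
    have h4 := rkc_add a b K S
    have h5 := heq i
    omega
  · intro i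
    show (slice I i).card + _ = _
    have h4 := rkc_add a b K S
    have h5 := heq i
    have h6 := hceq i
    omega
  · intro e
    have h3 : univ.filter (fun i => e ∈ slice I i) = fib I e := by
      ext i
      rw [mem_filter, mem_slice, mem_fib]
      simp
    rw [h3]
    have h4 := hfeq e
    have h5 : ((fib I e).image π).card ≤ (fib I e).card := card_image_le
    refine ⟨by omega, ?_⟩
    have h6 : ((fib I e).image π).card = (fib I e).card := by omega
    intro i j hi hj hij
    rw [mem_slice] at hi hj
    exact (card_image_iff.1 h6) (mem_coe.2 ((mem_fib I e i).2 hi)) (mem_coe.2 ((mem_fib I e j).2 hj)) hij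

/-- **Three bases.** If every cut avoiding `K` has at least three edges in `S`, there are three
bases of `S` modulo `K` without a common element. -/
theorem three_bases (K S : Finset E)
    (hcut : ∀ X : Finset V, (∃ e ∈ S, Crs a b X e) → (∀ e ∈ K, ¬ Crs a b X e) →
      3 ≤ (S.filter (fun f => Crs a b X f)).card) :
    ∃ T : Fin 3 → Finset E, (∀ i, T i ⊆ S) ∧ (∀ i, sp a b (T i ∪ K) = sp a b (S ∪ K)) ∧
      (∀ i, (T i).card + rk a b K = rk a b (S ∪ K)) ∧ ∀ e, ∃ i, e ∉ T i := by
  classical
  obtain ⟨T, h1, h2, h3, h4⟩ := packing a b (id : Fin 3 → Fin 3) K S (fun _ => 2) (by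
    intro A hA
    have hA' : ∀ i, 3 * rk a b (S ∪ K) ≤ 3 * rk a b (A i ∪ K) + 2 * (S \ A i).card := by
      intro i
      have h5 := rank_cut a b S (A i ∪ K) (fun _ => 1) 3 (by
        intro X hX hX'
        rw [← card_eq_sum_ones]
        exact hcut X hX (fun e he => hX' e (mem_union_right _ he)))
      have h6 : S ∪ (A i ∪ K) = S ∪ K := by
        ext e
        simp only [mem_union]
        constructor
        · rintro (h | h | h)
          · exact Or.inl h
          · exact Or.inl (hA i h)
          · exact Or.inr h
        · rintro (h | h)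
          · exact Or.inl h
          · exact Or.inr (Or.inr h)
      rw [h6, ← card_eq_sum_ones] at h5
      have h7 : (S \ (A i ∪ K)).card ≤ (S \ A i).card :=
        card_le_card (sdiff_subset_sdiff (Subset.refl _) subset_union_left)
      omega
    have h5 : ∑ i : Fin 3, (S \ A i).card
        = ∑ e ∈ S, (univ.filter (fun i : Fin 3 => e ∉ A i)).card := by
      simp_rw [card_filter]
      rw [sum_comm]
      refine sum_congr rfl fun i _ => ?_
      rw [← card_filter]
      congr 1
      ext e
      rw [mem_sdiff, mem_filter]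
    have h6 : ∀ e ∈ S, 2 * (univ.filter (fun i : Fin 3 => e ∉ A i)).card
        ≤ 3 * min 2 ((univ.filter (fun i : Fin 3 => e ∉ A i)).image id).card := by
      intro e _
      rw [image_id]
      have : (univ.filter (fun i : Fin 3 => e ∉ A i)).card ≤ 3 := by
        refine (card_le_univ _).trans ?_
        simp
      omega
    have h7 := sum_le_sum h6
    rw [← mul_sum, ← mul_sum, ← h5] at h7
    simp only [sum_const, card_univ, Fintype.card_fin, smul_eq_mul]
    have h8 := hA' 0
    have h9 := hA' 1
    have h10 := hA' 2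
    rw [Fin.sum_univ_three] at h7
    rw [Fin.sum_univ_three]
    omega)
  refine ⟨T, h1, ?_, h3, ?_⟩
  · intro i
    exact sp_eq_of_rk a b (union_subset_union_left (h1 i)) (h2 i)
  · intro e
    by_contra hcon
    push Not at hcon
    have h5 := (h4 e).1
    have h6 : univ.filter (fun i => e ∈ T i) = univ := by
      ext i; simp [hcon i]
    rw [h6, card_univ, Fintype.card_fin] at h5
    omega

/-- edge sets all of whose nonempty cuts have at least `c` elements -/
def CutGe (H : Finset E) (c : ℕ) : Prop :=
  ∀ X : Finset V, (∃ e ∈ H, Crs a b X e) → c ≤ (H.filter (fun f => Crs a b X f)).card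

/-- symmetric differences of cuts -/
lemma crs_symmDiff (X Y : Finset V) (e : E) :
    Crs a b (symmDiff X Y) e ↔ ¬ (Crs a b X e ↔ Crs a b Y e) := by
  unfold Crs
  simp only [mem_symmDiff]
  tauto

/-- **Eight flow theorem** (Jaeger, Kilpatrick): the edges of a bridgeless graph are covered by
three even sets. -/
theorem eight_flow (R : Finset E) (hR : CutGe a b R 2) :
    ∃ C : Fin 3 → Finset E, (∀ i, EvenM a b (C i)) ∧ (∀ i, C i ⊆ R) ∧ ∀ e ∈ R, ∃ i, e ∈ C i := by
  classical
  -- `{e, f}` is a cut of `R`
  let P : E → E → Prop := fun e f => ∃ X : Finset V,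
    R.filter (fun g => Crs a b X g) = {e, f}
  let good : Finset E → Prop := fun S => S ⊆ R ∧ ∀ e ∈ R, e ∉ S → ∃ f ∈ S, f ≠ e ∧ P e f
  have hgR : good R := ⟨Subset.refl _, fun e he h => absurd he h⟩
  obtain ⟨S, hS, hmin⟩ : ∃ S, good S ∧ ∀ S', good S' → S.card ≤ S'.card := by
    obtain ⟨S, hS, hmin⟩ := exists_min_image (univ.filter good) card ⟨R, mem_filter.2 ⟨mem_univ _, hgR⟩⟩
    exact ⟨S, (mem_filter.1 hS).2, fun S' hS' => hmin S' (mem_filter.2 ⟨mem_univ _, hS'⟩)⟩
  obtain ⟨hSR, hSd⟩ := hS
  have hSK : S ∪ R \ S = R := union_sdiff_of_subset hSR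
  have hcut : ∀ X : Finset V, (∃ e ∈ S, Crs a b X e) → (∀ e ∈ R \ S, ¬ Crs a b X e) →
      3 ≤ (S.filter (fun f => Crs a b X f)).card := by
    intro X hX hX'
    obtain ⟨e, heS, heX⟩ := hX
    have h1 : R.filter (fun g => Crs a b X g) = S.filter (fun g => Crs a b X g) := by
      ext g
      rw [mem_filter, mem_filter]
      constructor
      · rintro ⟨h2, h3⟩
        refine ⟨?_, h3⟩
        by_contra h4
        exact hX' g (mem_sdiff.2 ⟨h2, h4⟩) h3
      · rintro ⟨h2, h3⟩; exact ⟨hSR h2, h3⟩
    have h2 := hR X ⟨e, hSR heS, heX⟩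
    rw [h1] at h2
    by_contra h3
    have h4 : (S.filter (fun f => Crs a b X f)).card = 2 := by omega
    obtain ⟨f, g, hfg, hfgX⟩ := card_eq_two.1 h4
    have hfS : f ∈ S ∧ Crs a b X f := by
      have : f ∈ S.filter (fun f => Crs a b X f) := by rw [hfgX]; exact mem_insert_self _ _
      exact mem_filter.1 this
    have hgS : g ∈ S ∧ Crs a b X g := by
      have : g ∈ S.filter (fun f => Crs a b X f) := by
        rw [hfgX]; exact mem_insert_of_mem (mem_singleton_self _)
      exact mem_filter.1 this
    have h5 : good (S.erase f) := by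
      refine ⟨(erase_subset _ _).trans hSR, ?_⟩
      intro x hx hxS
      by_cases hxf : x = f
      · subst hxf
        refine ⟨g, mem_erase.2 ⟨hfg.symm, hgS.1⟩, hfg.symm, X, ?_⟩
        rw [h1, hfgX]
      · have hxS' : x ∉ S := fun h => hxS (mem_erase.2 ⟨hxf, h⟩)
        obtain ⟨y, hyS, hyx, Y, hY⟩ := hSd x hx hxS'
        by_cases hyf : y = f
        · subst hyf
          have hxg : g ≠ x := fun h => hxS' (h ▸ hgS.1)
          refine ⟨g, mem_erase.2 ⟨hfg.symm, hgS.1⟩, hxg, symmDiff X Y, ?_⟩
          ext z
          rw [mem_filter, crs_symmDiff]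
          have hX1 : z ∈ R → (Crs a b X z ↔ z = y ∨ z = g) := by
            intro hz
            have h6 : z ∈ R.filter (fun g => Crs a b X g) ↔ z ∈ ({y, g} : Finset E) := by
              rw [h1, hfgX]
            rw [mem_filter, mem_insert, mem_singleton] at h6
            rw [← h6]
            exact ⟨fun h => ⟨hz, h⟩, fun h => h.2⟩
          have hY1 : z ∈ R → (Crs a b Y z ↔ z = x ∨ z = y) := by
            intro hz
            have h6 : z ∈ R.filter (fun g => Crs a b Y g) ↔ z ∈ ({x, y} : Finset E) := by
              rw [hY]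
            rw [mem_filter, mem_insert, mem_singleton] at h6
            rw [← h6]
            exact ⟨fun h => ⟨hz, h⟩, fun h => h.2⟩
          rw [mem_insert, mem_singleton]
          constructor
          · rintro ⟨hz, h7⟩
            rw [hX1 hz, hY1 hz] at h7
            by_contra h8
            push Not at h8
            apply h7
            constructor
            · rintro (h9 | h9)
              · exact Or.inr h9
              · exact absurd h9 h8.2
            · rintro (h9 | h9)
              · exact absurd h9 h8.1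
              · exact Or.inl h9
          · rintro (rfl | rfl)
            · refine ⟨hx, ?_⟩
              rw [hX1 hx, hY1 hx]
              intro h9
              rcases h9.2 (Or.inl rfl) with h10 | h10
              · exact hyx h10.symm
              · exact hxg h10.symm
            · have hzR : z ∈ R := hSR hgS.1
              refine ⟨hzR, ?_⟩
              rw [hX1 hzR, hY1 hzR]
              intro h9
              rcases h9.1 (Or.inr rfl) with h10 | h10
              · exact hxg h10
              · exact hfg h10.symm
        · exact ⟨y, mem_erase.2 ⟨hyf, hyS⟩, hyx, Y, hY⟩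
    have h6 := hmin _ h5
    rw [card_erase_of_mem hfS.1] at h6
    have h7 := card_pos.2 ⟨f, hfS.1⟩
    omega
  obtain ⟨T, hTS, hTsp, -, hTe⟩ := three_bases a b (R \ S) S hcut
  have hC : ∀ i : Fin 3, ∃ D : Finset E, EvenM a b D ∧ S \ T i ⊆ D ∧ D ⊆ R := by
    intro i
    obtain ⟨D, h1, h2, h3⟩ := exists_even a b (T := T i ∪ R \ S) (S := S \ T i) (by
      intro e he
      rw [hTsp i, hSK]
      exact vec_mem a b (hSR (mem_sdiff.1 he).1)) (by
      rw [Finset.disjoint_left]
      intro e h1 h2
      rw [mem_sdiff] at h1
      rcases mem_union.1 h2 with h2 | h2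
      · exact h1.2 h2
      · exact (mem_sdiff.1 h2).2 h1.1)
    refine ⟨D, h1, h2, ?_⟩
    intro e he
    rcases mem_union.1 (h3 he) with h4 | h4
    · exact hSR (mem_sdiff.1 h4).1
    · rcases mem_union.1 h4 with h4 | h4
      · exact hSR (hTS i h4)
      · exact (mem_sdiff.1 h4).1
  choose C hC1 hC2 hC3 using hC
  refine ⟨C, hC1, hC3, ?_⟩
  intro e he
  by_cases heS : e ∈ S
  · obtain ⟨i, hi⟩ := hTe e
    exact ⟨i, hC2 i (mem_sdiff.2 ⟨heS, hi⟩)⟩
  · obtain ⟨f, hfS, hfe, X, hX⟩ := hSd e he heS
    obtain ⟨i, hi⟩ := hTe f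
    have hfC : f ∈ C i := hC2 i (mem_sdiff.2 ⟨hfS, hi⟩)
    refine ⟨i, ?_⟩
    by_contra heC
    have h1 := even_crs a b (hC1 i) X
    have h2 : (C i).filter (fun g => Crs a b X g) = {f} := by
      ext z
      rw [mem_filter, mem_singleton]
      constructor
      · rintro ⟨h3, h4⟩
        have h5 : z ∈ R.filter (fun g => Crs a b X g) := mem_filter.2 ⟨hC3 i h3, h4⟩
        rw [hX, mem_insert, mem_singleton] at h5
        rcases h5 with rfl | h5
        · exact absurd h3 heC
        · exact h5
      · rintro rfl
        refine ⟨hfC, ?_⟩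
        have h5 : z ∈ R.filter (fun g => Crs a b X g) := by
          rw [hX]; exact mem_insert_of_mem (mem_singleton_self _)
        exact (mem_filter.1 h5).2
    rw [h2, card_singleton] at h1
    exact absurd h1 (by decide)

end

end Pool.Agent.H47.NC
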