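import Pool.Agent.H47.NC.Inter
import Pool.Agent.H47.FC.Seymour

set_option autoImplicit false
set_option linter.unusedSectionVars false

/-!
# Graphic rank over `ZMod 2` and packing of bases
-/

namespace Pool.Agent.H47.NC

open Finset Pool.Agent.H47.FC

section

variable {V E : Type} [DecidableEq V] [Fintype V] [DecidableEq E] [Fintype E] (a b : E → V)

/-- edge vector -/
def vec (e : E) : V → ZMod 2 := dl (a e) + dl (b e)

/-- span of an edge set -/
def sp (F : Finset E) : Submodule (ZMod 2) (V → ZMod 2) :=
  Submodule.span (ZMod 2) (vec a b '' (F : Set E))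

/-- rank of an edge set -/
noncomputable def rk (F : Finset E) : ℕ := Module.finrank (ZMod 2) (sp a b F)

lemma sp_mono {A B : Finset E} (h : A ⊆ B) : sp a b A ≤ sp a b B :=
  Submodule.span_mono (Set.image_mono (coe_subset.2 h))

lemma sp_union (A B : Finset E) : sp a b (A ∪ B) = sp a b A ⊔ sp a b B := by
  unfold sp
  rw [coe_union, Set.image_union, Submodule.span_union]

lemma vec_mem {F : Finset E} {e : E} (h : e ∈ F) : vec a b e ∈ sp a b F :=
  Submodule.subset_span (Set.mem_image_of_mem _ (mem_coe.2 h))

lemma rk_mono {A B : Finset E} (h : A ⊆ B) : rk a b A ≤ rk a b B :=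
  Submodule.finrank_mono (sp_mono a b h)

lemma rk_insert (e : E) (A : Finset E) : rk a b (insert e A) ≤ rk a b A + 1 := by
  unfold rk
  rw [insert_eq, sp_union]
  have h1 := Submodule.finrank_add_le_finrank_add_finrank (sp a b {e}) (sp a b A)
  have h2 : Module.finrank (ZMod 2) (sp a b {e}) ≤ 1 := by
    unfold sp
    rw [coe_singleton, Set.image_singleton]
    exact (finrank_span_le_card ({vec a b e} : Set (V → ZMod 2))).trans (by simp)
  omega

lemma rk_sub (A B : Finset E) : rk a b (A ∪ B) + rk a b (A ∩ B) ≤ rk a b A + rk a b B := by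
  unfold rk
  rw [sp_union]
  have h1 := Submodule.finrank_sup_add_finrank_inf_eq (sp a b A) (sp a b B)
  have h2 : Module.finrank (ZMod 2) (sp a b (A ∩ B)) ≤
      Module.finrank (ZMod 2) (sp a b A ⊓ sp a b B : Submodule (ZMod 2) (V → ZMod 2)) :=
    Submodule.finrank_mono (le_inf (sp_mono a b inter_subset_left) (sp_mono a b inter_subset_right))
  omega

lemma sp_eq_of_rk {A B : Finset E} (h : A ⊆ B) (hr : rk a b A = rk a b B) :
    sp a b A = sp a b B := Submodule.eq_of_le_of_finrank_eq (sp_mono a b h) hr

/-- contracted rank -/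
noncomputable def rkc (K F : Finset E) : ℕ := rk a b (F ∪ K) - rk a b K

lemma rkc_add (K F : Finset E) : rkc a b K F + rk a b K = rk a b (F ∪ K) := by
  unfold rkc
  have := rk_mono a b (subset_union_right (s₁ := F) (s₂ := K))
  omega

lemma isRk_rkc (K : Finset E) : IsRk (rkc a b K) := by
  refine ⟨?_, ?_, ?_, ?_⟩
  · unfold rkc; rw [empty_union]; omega
  · intro x A
    have h1 := rkc_add a b K (insert x A)
    have h2 := rkc_add a b K A
    have h3 := rk_insert a b x (A ∪ K)
    rw [insert_union] at h1
    omega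
  · intro A B hAB
    have h1 := rkc_add a b K A
    have h2 := rkc_add a b K B
    have h3 := rk_mono a b (union_subset_union_left (t := K) hAB)
    omega
  · intro A B
    have h1 := rkc_add a b K A
    have h2 := rkc_add a b K B
    have h3 := rkc_add a b K (A ∪ B)
    have h4 := rkc_add a b K (A ∩ B)
    have h5 := rk_sub a b (A ∪ K) (B ∪ K)
    have h6 : A ∪ K ∪ (B ∪ K) = A ∪ B ∪ K := by
      ext x; simp only [mem_union]; tauto
    have h7 : (A ∪ K) ∩ (B ∪ K) = A ∩ B ∪ K := by
      ext x; simp only [mem_union, mem_inter]; tauto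
    rw [h6, h7] at h5
    omega

/-- joins exist inside spans -/
lemma exists_join_of_mem {F : Finset E} {x : V → ZMod 2} (h : x ∈ sp a b F) :
    ∃ Q ⊆ F, bd a b Q = x := by
  unfold sp at h
  induction h using Submodule.span_induction with
  | mem x hx =>
    obtain ⟨e, he, rfl⟩ := hx
    exact ⟨{e}, singleton_subset_iff.2 (mem_coe.1 he), bd_singleton a b e⟩
  | zero => exact ⟨∅, empty_subset _, bd_empty a b⟩
  | add x y _ _ h1 h2 =>
    obtain ⟨Q, hQ, hQx⟩ := h1
    obtain ⟨Q', hQ', hQy⟩ := h2
    refine ⟨symmDiff Q Q', ?_, by rw [bd_symmDiff, hQx, hQy]⟩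
    intro e he
    rw [mem_symmDiff] at he
    rcases he with he | he
    · exact hQ he.1
    · exact hQ' he.1
  | smul c x _ h1 =>
    obtain ⟨Q, hQ, hQx⟩ := h1
    have hc : c = 0 ∨ c = 1 := by
      revert c; decide
    rcases hc with rfl | rfl
    · exact ⟨∅, empty_subset _, by rw [bd_empty, zero_smul]⟩
    · exact ⟨Q, hQ, by rw [hQx, one_smul]⟩

lemma bd_mem {F : Finset E} {Q : Finset E} (h : Q ⊆ F) : bd a b Q ∈ sp a b F := by
  unfold bd
  exact Submodule.sum_mem _ (fun e he => vec_mem a b (h he))

/-- even sets with prescribed part outside a spanning set -/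
lemma exists_even {T S : Finset E} (hS : ∀ e ∈ S, vec a b e ∈ sp a b T) (hd : Disjoint S T) :
    ∃ D : Finset E, EvenM a b D ∧ S ⊆ D ∧ D ⊆ S ∪ T := by
  have h1 : bd a b S ∈ sp a b T := by
    unfold bd
    exact Submodule.sum_mem _ (fun e he => hS e he)
  obtain ⟨Q, hQ, hQx⟩ := exists_join_of_mem a b h1
  refine ⟨S ∪ Q, ?_, subset_union_left, union_subset_union_right hQ⟩
  unfold EvenM
  rw [bd_union a b (disjoint_of_subset_right hQ hd), hQx, add_self2]

/-- crossing is detected by the vector -/
lemma crs_sum (X : Finset V) (e : E) : (∑ v ∈ X, vec a b e v) = if Crs a b X e then 1 else 0 := by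
  unfold vec Crs
  simp only [Pi.add_apply, sum_add_distrib, sum_dl]
  by_cases h1 : a e ∈ X <;> by_cases h2 : b e ∈ X <;> simp [h1, h2]
  exact CharTwo.add_self_eq_zero _

/-- a functional vanishing on the span -/
lemma sum_zero_of_mem {F : Finset E} {X : Finset V} (h : ∀ e ∈ F, ¬ Crs a b X e)
    {x : V → ZMod 2} (hx : x ∈ sp a b F) : ∑ v ∈ X, x v = 0 := by
  unfold sp at hx
  induction hx using Submodule.span_induction with
  | mem x hx =>
    obtain ⟨e, he, rfl⟩ := hx
    rw [crs_sum, if_neg (h e (mem_coe.1 he))]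
  | zero => simp
  | add x y _ _ h1 h2 =>
    simp only [Pi.add_apply, sum_add_distrib, h1, h2, add_zero]
  | smul c x _ h1 =>
    simp only [Pi.smul_apply, ← smul_sum, h1, smul_zero]

/-- if an edge is spanned and crosses, some spanning edge crosses -/
lemma exists_crs {F : Finset E} {X : Finset V} {e : E} (he : vec a b e ∈ sp a b F)
    (hc : Crs a b X e) : ∃ f ∈ F, Crs a b X f := by
  by_contra hcon
  push Not at hcon
  have h1 := sum_zero_of_mem a b hcon he
  rw [crs_sum, if_pos hc] at h1
  exact one_ne_zero h1

/-- even sets meet cuts evenly -/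
lemma even_crs {D : Finset E} (hD : EvenM a b D) (X : Finset V) :
    Even (D.filter (fun e => Crs a b X e)).card := by
  have h1 : (((D.filter (fun e => Crs a b X e)).card : ℕ) : ZMod 2) = 0 := by
    rw [natCast_card_filter]
    have h2 : ∑ e ∈ D, (if Crs a b X e then (1 : ZMod 2) else 0) = ∑ v ∈ X, bd a b D v := by
      rw [sum_congr rfl (fun e _ => (crs_sum a b X e).symm), sum_comm]
      refine sum_congr rfl fun v _ => ?_
      rw [bd, Finset.sum_apply]
      rfl
    rw [h2]
    unfold EvenM at hD
    rw [hD]
    simp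
  rw [even_iff_two_dvd]
  exact (ZMod.natCast_eq_zero_iff _ _).1 h1

/-- vertex classes of an edge set -/
noncomputable def cls (A : Finset E) (u : V) : Finset V := by
  classical
  exact univ.filter (fun v => dl u + dl v ∈ sp a b A)

lemma mem_cls (A : Finset E) (u v : V) : v ∈ cls a b A u ↔ dl u + dl v ∈ sp a b A := by
  unfold cls
  simp

lemma self_mem_cls (A : Finset E) (u : V) : u ∈ cls a b A u := by
  rw [mem_cls, add_self2]; exact Submodule.zero_mem _

lemma cls_eq {A : Finset E} {u v : V} (h : v ∈ cls a b A u) : cls a b A v = cls a b A u := by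
  rw [mem_cls] at h
  ext x
  rw [mem_cls, mem_cls]
  constructor
  · intro h1
    have h2 := Submodule.add_mem _ h h1
    have h3 : dl u + dl v + (dl v + dl x) = dl u + dl x + (dl v + dl v) := by abel
    rw [h3, add_self2, add_zero] at h2
    exact h2
  · intro h1
    have h2 := Submodule.add_mem _ h h1
    have h3 : dl u + dl v + (dl u + dl x) = dl v + dl x + (dl u + dl u) := by abel
    rw [h3, add_self2, add_zero] at h2
    exact h2

lemma not_crs_cls {A : Finset E} (u : V) {e : E} (h : vec a b e ∈ sp a b A) :
    ¬ Crs a b (cls a b A u) e := by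
  unfold Crs
  rw [not_not]
  have h0 : b e ∈ cls a b A (a e) := by rw [mem_cls]; exact h
  have h1 := cls_eq a b h0
  constructor
  · intro h2
    have h3 := cls_eq a b h2
    rw [← h3, ← h1]; exact self_mem_cls a b A (b e)
  · intro h2
    have h3 := cls_eq a b h2
    rw [← h3, h1]; exact self_mem_cls a b A (a e)

/-- **Rank bound from cuts.** -/
lemma rank_cut (H A : Finset E) (w : E → ℕ) (c : ℕ)
    (hcut : ∀ X : Finset V, (∃ e ∈ H, Crs a b X e) → (∀ e ∈ A, ¬ Crs a b X e) →
      c ≤ ∑ f ∈ H.filter (fun f => Crs a b X f), w f) :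
    c * rk a b (H ∪ A) ≤ c * rk a b A + 2 * ∑ f ∈ H \ A, w f := by
  classical
  let 𝒞 : Finset (Finset V) := (univ.image (fun u => cls a b A u)).filter
    (fun C => ∃ e ∈ H, Crs a b C e)
  -- weight count
  have hw : c * 𝒞.card ≤ 2 * ∑ f ∈ H \ A, w f := by
    have h1 : ∑ C ∈ 𝒞, c ≤ ∑ C ∈ 𝒞, ∑ f ∈ H.filter (fun f => Crs a b C f), w f := by
      apply sum_le_sum
      intro C hC
      rw [mem_filter, mem_image] at hC
      obtain ⟨⟨u, -, rfl⟩, hex⟩ := hC
      exact hcut _ hex (fun e he => not_crs_cls a b u (vec_mem a b he))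
    rw [sum_const, smul_eq_mul, mul_comm] at h1
    refine h1.trans ?_
    have h2 : ∑ C ∈ 𝒞, ∑ f ∈ H.filter (fun f => Crs a b C f), w f
        = ∑ f ∈ H, (𝒞.filter (fun C => Crs a b C f)).card * w f := by
      simp_rw [sum_filter]
      rw [sum_comm]
      refine sum_congr rfl fun f _ => ?_
      rw [← sum_filter, sum_const, smul_eq_mul]
    rw [h2, mul_sum]
    have h3 : ∀ f ∈ H, (𝒞.filter (fun C => Crs a b C f)).card * w f
        ≤ if f ∈ H \ A then 2 * w f else 0 := by
      intro f hf
      by_cases hfA : f ∈ A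
      · rw [if_neg (fun h => (mem_sdiff.1 h).2 hfA)]
        have h4 : 𝒞.filter (fun C => Crs a b C f) = ∅ := by
          rw [filter_eq_empty_iff]
          intro C hC
          rw [mem_filter, mem_image] at hC
          obtain ⟨⟨u, -, rfl⟩, -⟩ := hC
          exact not_crs_cls a b u (vec_mem a b hfA)
        rw [h4, card_empty, zero_mul]
      · rw [if_pos (mem_sdiff.2 ⟨hf, hfA⟩)]
        apply Nat.mul_le_mul_right
        have h4 : 𝒞.filter (fun C => Crs a b C f) ⊆ {cls a b A (a f), cls a b A (b f)} := by
          intro C hC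
          rw [mem_filter, mem_filter, mem_image] at hC
          obtain ⟨⟨⟨u, -, rfl⟩, -⟩, hcr⟩ := hC
          rw [mem_insert, mem_singleton]
          by_cases h5 : a f ∈ cls a b A u
          · left; exact (cls_eq a b h5).symm
          · right
            have h6 : b f ∈ cls a b A u := by
              by_contra h6
              exact hcr ⟨fun h => absurd h h5, fun h => absurd h h6⟩
            exact (cls_eq a b h6).symm
        exact (card_le_card h4).trans card_le_two
    refine (sum_le_sum h3).trans ?_
    rw [← sum_filter]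
    apply sum_le_sum_of_subset
    intro f hf
    exact (mem_filter.1 hf).2
  -- rank count
  have hr : rk a b (H ∪ A) ≤ rk a b A + 𝒞.card := by
    let ρ : Finset V → (V → ZMod 2) := fun C => if h : C.Nonempty then dl h.choose else 0
    have hρ : ∀ u : V, dl u + ρ (cls a b A u) ∈ sp a b A := by
      intro u
      have hne : (cls a b A u).Nonempty := ⟨u, self_mem_cls a b A u⟩
      have h1 : ρ (cls a b A u) = dl hne.choose := dif_pos hne
      rw [h1]
      exact (mem_cls a b A u _).1 hne.choose_spec
    have h1 : sp a b (H ∪ A) ≤ sp a b A ⊔ Submodule.span (ZMod 2) ((𝒞.image ρ : Finset _) : Set (V → ZMod 2)) := by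
      unfold sp
      rw [Submodule.span_le]
      rintro _ ⟨e, he, rfl⟩
      rw [mem_coe, mem_union] at he
      by_cases hA : vec a b e ∈ sp a b A
      · exact Submodule.mem_sup_left hA
      · have heH : e ∈ H := by
          rcases he with he | he
          · exact he
          · exact absurd (vec_mem a b he) hA
        have hb : b e ∉ cls a b A (a e) := by rw [mem_cls]; exact hA
        have ha : a e ∉ cls a b A (b e) := by
          rw [mem_cls, add_comm]; exact hA
        have hc1 : cls a b A (a e) ∈ 𝒞 := by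
          rw [mem_filter, mem_image]
          refine ⟨⟨a e, mem_univ _, rfl⟩, e, heH, ?_⟩
          intro h
          exact hb (h.1 (self_mem_cls a b A _))
        have hc2 : cls a b A (b e) ∈ 𝒞 := by
          rw [mem_filter, mem_image]
          refine ⟨⟨b e, mem_univ _, rfl⟩, e, heH, ?_⟩
          intro h
          exact ha (h.2 (self_mem_cls a b A _))
        have h2 : vec a b e = (dl (a e) + ρ (cls a b A (a e))) + (dl (b e) + ρ (cls a b A (b e)))
            + (ρ (cls a b A (a e)) + ρ (cls a b A (b e))) := by
          unfold vec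
          have h3 : (dl (a e) + ρ (cls a b A (a e))) + (dl (b e) + ρ (cls a b A (b e)))
            + (ρ (cls a b A (a e)) + ρ (cls a b A (b e))) = dl (a e) + dl (b e)
              + (ρ (cls a b A (a e)) + ρ (cls a b A (a e))) + (ρ (cls a b A (b e)) + ρ (cls a b A (b e))) := by
            abel
          rw [h3, add_self2, add_self2, add_zero, add_zero]
        have hmem : ∀ C ∈ 𝒞, ρ C ∈ Submodule.span (ZMod 2) ((𝒞.image ρ : Finset _) : Set (V → ZMod 2)) := by
          intro C hC
          exact Submodule.subset_span (mem_coe.2 (mem_image_of_mem _ hC))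
        show vec a b e ∈ _
        rw [h2]
        apply Submodule.add_mem
        · exact Submodule.mem_sup_left (Submodule.add_mem _ (hρ _) (hρ _))
        · exact Submodule.mem_sup_right (Submodule.add_mem _ (hmem _ hc1) (hmem _ hc2))
    unfold rk
    refine (Submodule.finrank_mono h1).trans ?_
    refine (Submodule.finrank_add_le_finrank_add_finrank _ _).trans ?_
    apply Nat.add_le_add_left
    exact (finrank_span_finset_le_card _).trans card_image_le
  calc c * rk a b (H ∪ A) ≤ c * (rk a b A + 𝒞.card) := Nat.mul_le_mul_left _ hr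
    _ = c * rk a b A + c * 𝒞.card := by ring
    _ ≤ _ := Nat.add_le_add_left hw _

end

end Pool.Agent.H47.NC
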