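import Mathlib
import Pool.Agent.H47.NC.Uq

set_option autoImplicit false
open Finset

/-! Expected number of pivotal edges of a square crossing above the window: a multiscale
Efron–Stein argument. -/

namespace Pool.Agent.H47.NC

open Pool.Agent.H75.Perc Pool.Agent.H99.NC

/-! ### Cells -/

/-- labels of the cell with index `z` at scale `g` -/
noncomputable def cell (g : ℤ) (z : ℤ × ℤ) : Finset (ℤ × ℤ) :=
  ((Icc (4 * (g * z.1)) (4 * (g * z.1) + 4 * g - 1)) ×ˢ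
    (Icc (4 * (g * z.2)) (4 * (g * z.2) + 4 * g - 1))).filter (fun l => (l.1 + l.2) % 2 = 1)

/-- centre of the cell -/
def ctr (g : ℤ) (z : ℤ × ℤ) : ℤ × ℤ := (2 * (g * z.1) + g, 2 * (g * z.2) + g)

/-- index set -/
noncomputable def Zi (n : ℤ) : Finset (ℤ × ℤ) :=
  (Icc (-(26 * n)) (26 * n - 1)) ×ˢ (Icc (-(26 * n)) (26 * n - 1))

lemma mem_cell' {g : ℤ} {z e : ℤ × ℤ} : e ∈ cell g z ↔
    (4 * (g * z.1) ≤ e.1 ∧ e.1 ≤ 4 * (g * z.1) + 4 * g - 1) ∧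
    (4 * (g * z.2) ≤ e.2 ∧ e.2 ≤ 4 * (g * z.2) + 4 * g - 1) ∧ (e.1 + e.2) % 2 = 1 := by
  unfold cell
  simp only [mem_filter, mem_product, mem_Icc]
  tauto

lemma div_cell {g : ℤ} (hg : 1 ≤ g) (a z : ℤ) :
    (4 * (g * z) ≤ a ∧ a ≤ 4 * (g * z) + 4 * g - 1) ↔ a / (4 * g) = z := by
  have h4 : 0 < 4 * g := by omega
  constructor
  · rintro ⟨h1, h2⟩
    apply le_antisymm
    · have : a / (4 * g) < z + 1 := by
        rw [Int.ediv_lt_iff_lt_mul h4]; nlinarith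
      omega
    · rw [Int.le_ediv_iff_mul_le h4]; nlinarith
  · rintro rfl
    have h1 := Int.mul_ediv_add_emod a (4 * g)
    have h2 := Int.emod_nonneg a h4.ne'
    have h3 := Int.emod_lt_of_pos a h4
    constructor <;> nlinarith

lemma mem_cell {g : ℤ} (hg : 1 ≤ g) {z e : ℤ × ℤ} : e ∈ cell g z ↔
    (e.1 / (4 * g) = z.1 ∧ e.2 / (4 * g) = z.2) ∧ (e.1 + e.2) % 2 = 1 := by
  rw [mem_cell', div_cell hg, div_cell hg]
  tauto

lemma mem_Zi {n : ℤ} {z : ℤ × ℤ} : z ∈ Zi n ↔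
    (-(26 * n) ≤ z.1 ∧ z.1 ≤ 26 * n - 1) ∧ (-(26 * n) ≤ z.2 ∧ z.2 ≤ 26 * n - 1) := by
  unfold Zi
  simp only [mem_product, mem_Icc]

lemma Zi_bd {g n T : ℤ} (hg : 1 ≤ g) (hT : g * n = T) {z : ℤ × ℤ} (hz : z ∈ Zi n) :
    (-(26 * T) ≤ g * z.1 ∧ g * z.1 ≤ 26 * T - g) ∧ (-(26 * T) ≤ g * z.2 ∧ g * z.2 ≤ 26 * T - g) := by
  rw [mem_Zi] at hz
  obtain ⟨⟨h1, h2⟩, ⟨h3, h4⟩⟩ := hz
  subst hT
  have e1 := mul_le_mul_of_nonneg_left h1 (by omega : 0 ≤ g)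
  have e2 := mul_le_mul_of_nonneg_left h2 (by omega : 0 ≤ g)
  have e3 := mul_le_mul_of_nonneg_left h3 (by omega : 0 ≤ g)
  have e4 := mul_le_mul_of_nonneg_left h4 (by omega : 0 ≤ g)
  refine ⟨⟨?_, ?_⟩, ⟨?_, ?_⟩⟩ <;> nlinarith

lemma cell_disj {g : ℤ} (hg : 1 ≤ g) {z z' : ℤ × ℤ} (h : z ≠ z') :
    Disjoint (cell g z) (cell g z') := by
  rw [disjoint_left]
  intro e h1 h2
  rw [mem_cell hg] at h1 h2
  exact h (Prod.ext (h1.1.1.symm.trans h2.1.1) (h1.1.2.symm.trans h2.1.2))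

lemma cell_sub_Bq (g : ℤ) (z : ℤ × ℤ) : cell g z ⊆ Bq (ctr g z) g := by
  intro e he
  rw [mem_cell'] at he
  rw [mem_Bq]
  unfold ctr
  simp only
  omega

lemma Bq_sub_cell {g r : ℤ} (hr : r < g) (z : ℤ × ℤ) : Bq (ctr g z) r ⊆ cell g z := by
  intro e he
  rw [mem_cell']
  rw [mem_Bq] at he
  unfold ctr at he
  simp only at he
  omega

lemma cell_sub_E {g n T N : ℤ} (hg : 1 ≤ g) (hT : g * n = T) (hN : 52 * T ≤ N) {z : ℤ × ℤ}
    (hz : z ∈ Zi n) : cell g z ⊆ Bx (-N) N (-N) N := by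
  intro e he
  rw [mem_cell'] at he
  rw [mem_Bx]
  have := Zi_bd hg hT hz
  omega

lemma cells_sub_E {g n T N : ℤ} (hg : 1 ≤ g) (hT : g * n = T) (hN : 52 * T ≤ N) :
    (Zi n).biUnion (cell g) ⊆ Bx (-N) N (-N) N :=
  biUnion_subset.2 fun _ hz => cell_sub_E hg hT hN hz

lemma Bq_sub_cells {g n T M : ℤ} (hg : 1 ≤ g) (hT : g * n = T) (hM : M < 52 * T) :
    Bq (0, 0) M ⊆ (Zi n).biUnion (cell g) := by
  intro e he
  rw [mem_Bq] at he
  simp only at he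
  rw [mem_biUnion]
  refine ⟨(e.1 / (4 * g), e.2 / (4 * g)), ?_, ?_⟩
  · rw [mem_Zi]
    have h4 : 0 < 4 * g := by omega
    have key : ∀ a : ℤ, -(104 * T) < a → a < 104 * T →
        -(26 * n) ≤ a / (4 * g) ∧ a / (4 * g) ≤ 26 * n - 1 := by
      intro a h1 h2
      constructor
      · rw [Int.le_ediv_iff_mul_le h4]; nlinarith
      · have : a / (4 * g) < 26 * n := by
          rw [Int.ediv_lt_iff_lt_mul h4]; nlinarith
        omega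
    exact ⟨key _ (by omega) (by omega), key _ (by omega) (by omega)⟩
  · rw [mem_cell hg]
    exact ⟨⟨rfl, rfl⟩, he.2.2⟩

/-- the sub-cells of a cell -/
noncomputable def sub8 (n : ℤ) (z : ℤ × ℤ) : Finset (ℤ × ℤ) :=
  (Zi (16 * n)).filter (fun z' => (z'.1 / 16, z'.2 / 16) = z)

lemma cell_refine {g n : ℤ} (hg : 1 ≤ g) {z : ℤ × ℤ} (hz : z ∈ Zi n) :
    cell (16 * g) z = (sub8 n z).biUnion (cell g) := by
  rw [mem_Zi] at hz
  ext e
  have h8 : ∀ a : ℤ, a / (4 * (16 * g)) = a / (4 * g) / 16 := by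
    intro a
    rw [Int.ediv_ediv_of_nonneg (by omega : (0:ℤ) ≤ 4 * g)]
    congr 1
    ring
  rw [mem_cell (by omega), mem_biUnion, h8, h8]
  constructor
  · rintro ⟨⟨h1, h2⟩, h3⟩
    refine ⟨(e.1 / (4 * g), e.2 / (4 * g)), ?_, ?_⟩
    · unfold sub8
      rw [mem_filter, mem_Zi]
      refine ⟨?_, Prod.ext h1 h2⟩
      simp only
      omega
    · rw [mem_cell hg]
      exact ⟨⟨rfl, rfl⟩, h3⟩
  · rintro ⟨z', h1, h2⟩
    rw [mem_cell hg] at h2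
    unfold sub8 at h1
    rw [mem_filter] at h1
    have h3 := congrArg Prod.fst h1.2
    have h4 := congrArg Prod.snd h1.2
    simp only at h3 h4
    rw [h2.1.1, h2.1.2]
    exact ⟨⟨h3, h4⟩, h2.2⟩

lemma sub8_card (n : ℤ) (z : ℤ × ℤ) : (sub8 n z).card ≤ 256 := by
  have h : sub8 n z ⊆ (Icc (16 * z.1) (16 * z.1 + 15)) ×ˢ (Icc (16 * z.2) (16 * z.2 + 15)) := by
    intro z' hz'
    unfold sub8 at hz'
    rw [mem_filter] at hz'
    have h3 := congrArg Prod.fst hz'.2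
    have h4 := congrArg Prod.snd hz'.2
    simp only at h3 h4
    rw [mem_product, mem_Icc, mem_Icc]
    omega
  refine (card_le_card h).trans ?_
  rw [card_product, Int.card_Icc, Int.card_Icc]
  have e1 : (16 * z.1 + 15 + 1 - 16 * z.1) = 16 := by ring
  have e2 : (16 * z.2 + 15 + 1 - 16 * z.2) = 16 := by ring
  rw [e1, e2]
  decide

lemma sum_sub8 (n : ℤ) (F : ℤ × ℤ → ℝ) :
    ∑ z ∈ Zi n, ∑ z' ∈ sub8 n z, F z' = ∑ z' ∈ Zi (16 * n), F z' := by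
  unfold sub8
  refine sum_fiberwise_of_maps_to (fun z' hz' => ?_) F
  rw [mem_Zi] at hz' ⊢
  simp only
  omega

lemma Zi_one_card : (Zi 1).card = 2704 := by
  unfold Zi
  rw [card_product, Int.card_Icc]
  have e : (26 * (1 : ℤ) - 1 + 1 - -(26 * 1)).toNat = 52 := by rfl
  rw [e]

lemma cell_card {h : ℤ} (hh : 1 ≤ h) (z : ℤ × ℤ) : (h : ℝ) ^ 2 ≤ (cell h z).card := by
  have h1 : ((Icc 0 (h - 1)) ×ˢ (Icc 0 (h - 1))).card ≤ (cell h z).card := by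
    apply card_le_card_of_injOn
      (fun u : ℤ × ℤ => (4 * (h * z.1) + 2 * u.1, 4 * (h * z.2) + 2 * u.2 + 1))
    · intro u hu
      rw [mem_coe, mem_product, mem_Icc, mem_Icc] at hu
      rw [mem_coe, mem_cell']
      simp only
      omega
    · intro u _ v _ huv
      simp only [Prod.mk.injEq] at huv
      exact Prod.ext (by omega) (by omega)
  rw [card_product, Int.card_Icc] at h1
  have h2 : (h : ℝ) ^ 2 = (((h - 1 + 1 - 0).toNat * (h - 1 + 1 - 0).toNat : ℕ) : ℝ) := by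
    have e1 : ((h - 1 + 1 - 0).toNat : ℤ) = h := by omega
    have e2 : (((h - 1 + 1 - 0).toNat : ℕ) : ℝ) = (h : ℝ) := by
      exact_mod_cast e1
    push_cast
    rw [e2]
    ring
  rw [h2]
  exact_mod_cast h1

/-! ### The two multiscale sums -/

/-- sum of the expected conditional variances -/
noncomputable def WW (q : ℤ × ℤ → ℝ) (N g n : ℤ) : ℝ :=
  ∑ z ∈ Zi n, Ex q (Bx (-N) N (-N) N) (cV q (cell g z) (fun ω => ind (HC (-N) N (-N) N ω)))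

/-- sum of the probabilities of pivotal blocks -/
noncomputable def SS (q : ℤ × ℤ → ℝ) (N g n : ℤ) : ℝ :=
  ∑ z ∈ Zi n, VD q (-N) N (-N) N (ctr g z) (2 * g)

lemma WW_refine {q : ℤ × ℤ → ℝ} (hq : Pb q) {N g n T : ℤ} (hg : 1 ≤ g) (hT : g * (16 * n) = T)
    (hN : 52 * T ≤ N) : WW q N (16 * g) n ≤ WW q N g (16 * n) := by
  unfold WW
  rw [← sum_sub8]
  refine sum_le_sum fun z hz => ?_
  rw [cell_refine hg hz]
  refine cV_refine hq (sub8 n z) (cell g) (fun i _ j _ hij => cell_disj hg hij) ?_ _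
  refine biUnion_subset.2 fun z' hz' => cell_sub_E hg hT hN ?_
  unfold sub8 at hz'
  exact (mem_filter.1 hz').1

lemma WW_base {q : ℤ × ℤ → ℝ} (hq : Pb q) {N g n T M : ℤ} (hg : 1 ≤ g) (hT : g * n = T)
    (hN : 52 * T ≤ N) (hM : M < 52 * T) :
    Ex q (Bx (-N) N (-N) N) (cV q (Bq (0, 0) M) (fun ω => ind (HC (-N) N (-N) N ω))) ≤
      WW q N g n := by
  refine (cV_mono hq (Bq_sub_cells hg hT hM) (cells_sub_E hg hT hN) _).trans ?_
  exact cV_refine hq (Zi n) (cell g) (fun i _ j _ hij => cell_disj hg hij)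
    (cells_sub_E hg hT hN) _

lemma WW_nonneg {q : ℤ × ℤ → ℝ} (hq : Pb q) (N g n : ℤ) : 0 ≤ WW q N g n :=
  sum_nonneg fun _ _ => Ex_nonneg hq fun _ _ => cV_nonneg hq _ _ _

lemma WW_le_SS {q : ℤ × ℤ → ℝ} (hq : Pb q) {N g n : ℤ} (hg : 1 ≤ g) :
    WW q N g n ≤ SS q N g n := by
  unfold WW SS
  refine sum_le_sum fun z _ => ?_
  unfold VD PrP
  refine Ex_mono hq fun ω _ => ?_
  refine (cV_ind_le (cell g z) _ ω).trans ?_
  have h1 : ind (Infl (cell g z) (fun ω => HC (-N) N (-N) N ω) ω) ≤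
      ind (BP (HC (-N) N (-N) N) (Bq (ctr g z) (2 * g)) ω) := by
    refine ind_mono fun h => ?_
    have h2 := (Infl_inc (HC_inc (-N) N (-N) N) ω).1 h
    exact BP_mono (HC_inc _ _ _ _) ((cell_sub_Bq g z).trans (Bq_sub (by omega))) h2
  have h2 := ind_nonneg (Infl (cell g z) (fun ω => HC (-N) N (-N) N ω) ω)
  linarith

lemma SS_top {q : ℤ × ℤ → ℝ} (hq : Pb q) (N g : ℤ) : SS q N g 1 ≤ 2704 := by
  unfold SS
  have h := sum_le_card_nsmul (Zi 1) (fun z => VD q (-N) N (-N) N (ctr g z) (2 * g)) 1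
    (fun z _ => VD_le_one hq _ _ _ _ _ _)
  rw [Zi_one_card] at h
  simpa using h

lemma SS_big {q : ℤ × ℤ → ℝ} (hq : Pb q) {N g n : ℤ} (hg : 1 ≤ g) :
    ∑ z ∈ Zi (16 * n), VD q (-N) N (-N) N (ctr g z) (16 * g) ≤ 256 * SS q N (16 * g) n := by
  unfold SS
  rw [← sum_sub8, mul_sum]
  refine sum_le_sum fun z hz => ?_
  have h1 : ∀ z' ∈ sub8 n z, VD q (-N) N (-N) N (ctr g z') (16 * g) ≤
      VD q (-N) N (-N) N (ctr (16 * g) z) (2 * (16 * g)) := by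
    intro z' hz'
    unfold sub8 at hz'
    rw [mem_filter] at hz'
    have h3 := congrArg Prod.fst hz'.2
    have h4 := congrArg Prod.snd hz'.2
    simp only at h3 h4
    unfold VD
    refine PrP_mono hq fun ω _ hb => BP_mono (HC_inc _ _ _ _) ?_ hb
    have key : ∀ a b : ℤ, b / 16 = a →
        16 * (g * a) ≤ g * b ∧ g * b ≤ 16 * (g * a) + 15 * g := by
      intro a b hab
      have h5 : 16 * a ≤ b ∧ b ≤ 16 * a + 15 := by omega
      have e1 := mul_le_mul_of_nonneg_left h5.1 (by omega : 0 ≤ g)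
      have e2 := mul_le_mul_of_nonneg_left h5.2 (by omega : 0 ≤ g)
      constructor <;> nlinarith
    have k1 := key _ _ h3
    have k2 := key _ _ h4
    have m1 : 16 * g * z.1 = 16 * (g * z.1) := by ring
    have m2 : 16 * g * z.2 = 16 * (g * z.2) := by ring
    unfold Bq ctr
    simp only [m1, m2]
    apply Bx_sub <;> omega
  have h2 := sum_le_card_nsmul (sub8 n z) _ _ h1
  refine h2.trans ?_
  rw [nsmul_eq_mul]
  exact mul_le_mul_of_nonneg_right (by exact_mod_cast sub8_card n z) (VD_nonneg hq _ _ _ _ _ _)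

/-- The separated part at scale `g`. -/
def Sep (q : ℤ × ℤ → ℝ) (N g n : ℤ) (ε ε' C : ℝ) (Λ : ℤ) (σ : ℤ × ℤ → ℝ) : Prop :=
  (∀ z ∈ Zi n, 0 ≤ σ z) ∧
  (∀ z ∈ Zi n, VD q (-N) N (-N) N (ctr g z) (2 * g) ≤
    σ z + ε * VD q (-N) N (-N) N (ctr g z) (16 * g)) ∧
  (∀ z ∈ Zi n, ∀ x' y' : ℤ × ℤ, IsUnit4 (y' - x') → |x'.1 - (ctr g z).1| ≤ g →
    |x'.2 - (ctr g z).2| ≤ g →
      0 ≤ uQ q x' y' (4 * g / Λ) - ε' * uQ q x' y' (4 * g / Λ / 2) →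
      σ z * (uQ q x' y' (4 * g / Λ) - ε' * uQ q x' y' (4 * g / Λ / 2)) ≤
        C * PrP q (Bx (-N) N (-N) N) (Piv (HC (-N) N (-N) N) (x' + y'))) ∧
  (∀ z ∈ Zi n, σ z ≤ C * Ex q (Bx (-N) N (-N) N)
    (cV q (cell g z) (fun ω => ind (HC (-N) N (-N) N ω))))

lemma Sep.sum_le {q : ℤ × ℤ → ℝ} {N g n : ℤ} {ε ε' C : ℝ} {Λ : ℤ} {σ : ℤ × ℤ → ℝ}
    (h : Sep q N g n ε ε' C Λ σ) : ∑ z ∈ Zi n, σ z ≤ C * WW q N g n := by
  unfold WW
  rw [mul_sum]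
  exact sum_le_sum fun z hz => h.2.2.2 z hz

lemma Sep.SS_le {q : ℤ × ℤ → ℝ} (hq : Pb q) {N g n : ℤ} (hg : 1 ≤ g) {ε ε' C : ℝ} (hε : 0 ≤ ε)
    {Λ : ℤ} {σ : ℤ × ℤ → ℝ} (h : Sep q N g (16 * n) ε ε' C Λ σ) :
    SS q N g (16 * n) ≤ ∑ z ∈ Zi (16 * n), σ z + 256 * ε * SS q N (16 * g) n := by
  have h1 : SS q N g (16 * n) ≤ ∑ z ∈ Zi (16 * n), (σ z + ε * VD q (-N) N (-N) N (ctr g z) (16 * g)) :=
    sum_le_sum fun z hz => h.2.1 z hz
  rw [sum_add_distrib, ← mul_sum] at h1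
  have h2 := mul_le_mul_of_nonneg_left (SS_big hq (N := N) (n := n) hg) hε
  linarith

lemma Sep.SS_le_card {q : ℤ × ℤ → ℝ} (hq : Pb q) {N g n : ℤ} {ε ε' C : ℝ} (hε : 0 ≤ ε)
    {Λ : ℤ} {σ : ℤ × ℤ → ℝ} (h : Sep q N g n ε ε' C Λ σ) :
    SS q N g n ≤ ∑ z ∈ Zi n, σ z + (Zi n).card * ε := by
  have h1 : SS q N g n ≤ ∑ z ∈ Zi n, (σ z + ε * 1) :=
    sum_le_sum fun z hz => (h.2.1 z hz).trans
      (add_le_add le_rfl (mul_le_mul_of_nonneg_left (VD_le_one hq _ _ _ _ _ _) hε))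
  rw [sum_add_distrib, sum_const, nsmul_eq_mul] at h1
  linarith

lemma Sep.SS_le_top {q : ℤ × ℤ → ℝ} (hq : Pb q) {N g : ℤ} {ε ε' C : ℝ} (hε : 0 ≤ ε)
    {Λ : ℤ} {σ : ℤ × ℤ → ℝ} (h : Sep q N g 1 ε ε' C Λ σ) :
    SS q N g 1 ≤ ∑ z ∈ Zi 1, σ z + 2704 * ε := by
  have h1 := h.SS_le_card hq hε
  rw [Zi_one_card] at h1
  exact h1

/-- existence of the separated part -/
lemma sep_exists (hIn : InStep) {c0 ε ε' : ℝ} (h1 : 0 < c0) (h2 : 0 < ε) (h3 : 0 < ε') :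
    ∃ (Λ : ℤ) (C : ℝ) (g0 : ℤ), 1 ≤ Λ ∧ 0 < C ∧ 1 ≤ g0 ∧
      ∀ (q : ℤ × ℤ → ℝ) (N g n T : ℤ), g0 ≤ g → g * n = T → 100 * T = N → g ≤ T →
        RSM q c0 (32 * g) → ∃ σ, Sep q N g n ε ε' C Λ σ := by
  obtain ⟨Λ, C, k0, hΛ, hC, hk0, h⟩ := hIn c0 ε ε' h1 h2 h3
  refine ⟨Λ, C, k0, hΛ, hC, hk0, fun q N g n T hg hT hN hgT hR => ?_⟩
  have hg1 : 1 ≤ g := hk0.trans hg
  have hq : Pb q := hR.1
  refine ⟨fun z => max 0 (VD q (-N) N (-N) N (ctr g z) (2 * g) -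
    ε * VD q (-N) N (-N) N (ctr g z) (16 * g)), fun z _ => le_max_left _ _, fun z _ => ?_,
    fun z hz x' y' hxy a1 a2 hu => ?_, fun z hz => ?_⟩
  · have := le_max_right 0 (VD q (-N) N (-N) N (ctr g z) (2 * g) -
      ε * VD q (-N) N (-N) N (ctr g z) (16 * g))
    linarith
  · have hb := Zi_bd hg1 hT hz
    have hc1 : (ctr g z).1 = 2 * (g * z.1) + g := rfl
    have hc2 : (ctr g z).2 = 2 * (g * z.2) + g := rfl
    obtain ⟨hJ, -⟩ := h q (-N) N (-N) N (ctr g z) (4 * g) (by omega)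
      (by rw [show 8 * (4 * g) = 32 * g by ring]; exact hR)
      (by rw [hc1]; omega) (by rw [hc1]; omega) (by rw [hc2]; omega) (by rw [hc2]; omega)
    obtain ⟨σ, s1, s2, s3⟩ := hJ x' y' hxy (by rw [show 4 * g / 4 = g by omega]; exact a1)
        (by rw [show 4 * g / 4 = g by omega]; exact a2)
    rw [show 4 * g / 2 = 2 * g by omega, show 4 * (4 * g) = 16 * g by ring] at s2
    exact (mul_le_mul_of_nonneg_right (max_le s1 (by linarith)) hu).trans s3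
  · have hb := Zi_bd hg1 hT hz
    have hc1 : (ctr g z).1 = 2 * (g * z.1) + g := rfl
    have hc2 : (ctr g z).2 = 2 * (g * z.2) + g := rfl
    obtain ⟨-, σ, s1, s2, s3⟩ := h q (-N) N (-N) N (ctr g z) (4 * g) (by omega)
      (by rw [show 8 * (4 * g) = 32 * g by ring]; exact hR)
      (by rw [hc1]; omega) (by rw [hc1]; omega) (by rw [hc2]; omega) (by rw [hc2]; omega)
    rw [show 4 * g / 2 = 2 * g by omega, show 4 * (4 * g) = 16 * g by ring] at s2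
    refine (max_le s1 (by linarith)).trans (s3.trans (mul_le_mul_of_nonneg_left ?_ hC.le))
    exact cV_mono hq (Bq_sub_cell (by omega) z) (cell_sub_E hg1 hT (by omega) hz) _

/-- the sums of the probabilities are comparable with the sums of the variances -/
lemma SS_le_WW {q : ℤ × ℤ → ℝ} (hq : Pb q) {N h : ℤ} (hh : 1 ≤ h) {C cb ε' : ℝ} {Λ : ℤ}
    (hC : 0 < C) (hcb : 0 < cb)
    (hsep : ∀ (g : ℤ) (j : ℕ), h ≤ g → 100 * (g * 16 ^ j) = N →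
      ∃ σ, Sep q N g (16 ^ j) (1 / 512) ε' C Λ σ)
    (hbase : ∀ (g : ℤ) (j : ℕ), h ≤ g → 100 * (g * 16 ^ j) = N → cb ≤ WW q N g (16 ^ j)) :
    ∀ (j : ℕ) (g : ℤ), h ≤ g → 100 * (g * 16 ^ j) = N →
      SS q N g (16 ^ j) ≤ max (2 * C) (2704 / cb) * WW q N g (16 ^ j) := by
  intro j
  induction j with
  | zero =>
    intro g hg hN
    have h1 := SS_top hq N g
    have h2 := hbase g 0 hg hN
    rw [pow_zero] at h2 ⊢
    refine h1.trans ?_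
    calc (2704 : ℝ) = 2704 / cb * cb := by field_simp
      _ ≤ max (2 * C) (2704 / cb) * WW q N g 1 :=
          mul_le_mul (le_max_right _ _) h2 hcb.le (le_trans (by positivity) (le_max_left _ _))
  | succ j ih =>
    intro g hg hN
    have e1 : (16 : ℤ) ^ (j + 1) = 16 * 16 ^ j := by ring
    have hN' : 100 * (16 * g * 16 ^ j) = N := by rw [← hN, e1]; ring
    have h1 := ih (16 * g) (by omega) hN'
    obtain ⟨σ, hσ⟩ := hsep g (j + 1) hg hN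
    rw [e1] at hσ hN ⊢
    have h2 := hσ.SS_le hq (by omega) (by norm_num)
    have h3 := hσ.sum_le
    have hT : g * (16 * 16 ^ j) * 100 = N := by rw [← hN]; ring
    have hT0 : 0 ≤ g * (16 * 16 ^ j) := mul_nonneg (by omega) (by positivity)
    have h4 := WW_refine hq (N := N) (n := 16 ^ j) (show 1 ≤ g by omega) rfl (by omega)
    have h5 : 2 * C ≤ max (2 * C) (2704 / cb) := le_max_left _ _
    have h6 := WW_nonneg hq N g (16 * 16 ^ j)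
    have h7 : 0 ≤ max (2 * C) (2704 / cb) := le_trans (by positivity) h5
    have h8 := mul_le_mul_of_nonneg_left h4 h7
    have h9 := mul_le_mul_of_nonneg_right h5 h6
    nlinarith

/-- the separated part is large -/
lemma sigma_large {q : ℤ × ℤ → ℝ} (hq : Pb q) {N h : ℤ} (hh : 1 ≤ h) {A C cb ε ε' : ℝ} {Λ : ℤ}
    (hε : 0 ≤ ε) (h1 : 256 * ε * A ≤ 1 / 2) (h2 : 2704 * ε ≤ cb / 2)
    (J : ℕ) (hN : 100 * (h * 16 ^ J) = N)
    (hSS : ∀ (j : ℕ) (g : ℤ), h ≤ g → 100 * (g * 16 ^ j) = N →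
      SS q N g (16 ^ j) ≤ A * WW q N g (16 ^ j))
    (hbase : cb ≤ WW q N h (16 ^ J))
    {σ : ℤ × ℤ → ℝ} (hσ : Sep q N h (16 ^ J) ε ε' C Λ σ) :
    cb / 2 ≤ ∑ z ∈ Zi (16 ^ J), σ z := by
  cases J with
  | zero =>
    rw [pow_zero] at hσ hbase ⊢
    have h3 := hσ.SS_le_top hq hε
    have h4 := WW_le_SS hq (N := N) (n := 1) hh
    linarith
  | succ j =>
    have e1 : (16 : ℤ) ^ (j + 1) = 16 * 16 ^ j := by ring
    have hN' : 100 * (16 * h * 16 ^ j) = N := by rw [← hN, e1]; ring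
    have h3 := hSS j (16 * h) (by omega) hN'
    rw [e1] at hσ hbase hN ⊢
    have h4 := hσ.SS_le hq hh hε
    have h5 := WW_le_SS hq (N := N) (n := 16 * 16 ^ j) hh
    have hT : h * (16 * 16 ^ j) * 100 = N := by rw [← hN]; ring
    have hT0 : 0 ≤ h * (16 * 16 ^ j) := mul_nonneg (by omega) (by positivity)
    have h6 := WW_refine hq (N := N) (n := 16 ^ j) hh rfl (by omega)
    have h7 : 256 * ε * SS q N (16 * h) (16 ^ j) ≤ 1 / 2 * WW q N h (16 * 16 ^ j) := by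
      calc 256 * ε * SS q N (16 * h) (16 ^ j) ≤ 256 * ε * (A * WW q N (16 * h) (16 ^ j)) :=
            mul_le_mul_of_nonneg_left h3 (by positivity)
        _ = (256 * ε * A) * WW q N (16 * h) (16 ^ j) := by ring
        _ ≤ 1 / 2 * WW q N h (16 * 16 ^ j) :=
            mul_le_mul h1 h6 (WW_nonneg hq _ _ _) (by norm_num)
    linarith

lemma rpow_aux {h : ℝ} (hh : 0 < h) :
    h ^ (3 / 4 : ℝ) / 8 ≤ h ^ 2 * (4 * h) ^ (-(5 / 4) : ℝ) := by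
  have e1 : h ^ 2 * h ^ (-(5 / 4) : ℝ) = h ^ (3 / 4 : ℝ) := by
    rw [← Real.rpow_natCast h 2, ← Real.rpow_add hh]
    norm_num
  have e2 : (1 : ℝ) / 8 ≤ (4 : ℝ) ^ (-(5 / 4) : ℝ) := by
    have : (1 : ℝ) / 8 = (4 : ℝ) ^ (-(3 / 2) : ℝ) := by
      rw [show (4 : ℝ) = 2 ^ (2 : ℕ) by norm_num, ← Real.rpow_natCast, ← Real.rpow_mul (by norm_num)]
      norm_num
    rw [this]
    exact Real.rpow_le_rpow_of_exponent_le (by norm_num) (by norm_num)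
  rw [Real.mul_rpow (by norm_num) hh.le]
  calc h ^ (3 / 4 : ℝ) / 8 = 1 / 8 * (h ^ 2 * h ^ (-(5 / 4) : ℝ)) := by rw [e1]; ring
    _ ≤ (4 : ℝ) ^ (-(5 / 4) : ℝ) * (h ^ 2 * h ^ (-(5 / 4) : ℝ)) :=
        mul_le_mul_of_nonneg_right e2 (by positivity)
    _ = _ := by ring

lemma three54 : (3 : ℝ) ^ (5 / 4 : ℝ) ≤ 4 := by
  have h1 : ((3 : ℝ) ^ (5 / 4 : ℝ)) ^ (4 : ℕ) = 243 := by
    rw [← Real.rpow_natCast, ← Real.rpow_mul (by norm_num)]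
    norm_num
  by_contra hcon
  push Not at hcon
  have h2 : (4 : ℝ) ^ (4 : ℕ) < ((3 : ℝ) ^ (5 / 4 : ℝ)) ^ (4 : ℕ) :=
    pow_lt_pow_left₀ hcon (by norm_num) (by norm_num)
  rw [h1] at h2
  norm_num at h2

/-- the edges of a cell -/
lemma cell_piv {p c3 K0 : ℝ} (hc3 : 0 < c3) (hK0 : 0 < K0) {M0 : ℤ} {N g n : ℤ} (hg : 1 ≤ g)
    {ε C : ℝ} (hC : 0 < C) {Λ : ℤ} (hΛ : 1 ≤ Λ) (hg0 : Λ * max M0 1 ≤ g)
    (hu : ∀ m : ℤ, M0 ≤ m → 1 ≤ m → m ≤ 4 * g →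
        c3 * (m : ℝ) ^ (-(5 / 4) : ℝ) ≤ uP p m ∧ uP p m ≤ K0 * (m : ℝ) ^ (-(5 / 4) : ℝ))
    {σ : ℤ × ℤ → ℝ} (hσ : Sep (cp p) N g n ε (c3 / (8 * K0)) C Λ σ) {z : ℤ × ℤ} (hz : z ∈ Zi n)
    {e : ℤ × ℤ} (he : e ∈ cell g z) :
    σ z * (c3 / (2 * C) * (4 * (g : ℝ)) ^ (-(5 / 4) : ℝ)) ≤
      PrP (cp p) (Bx (-N) N (-N) N) (Piv (HC (-N) N (-N) N) e) := by
  rw [mem_cell'] at he
  have hun : IsUnit4 (hi e - lo e) := unit_lo_hi he.2.2
  have hl1 : (lo e).1 = e.1 / 2 := rfl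
  have hl2 : (lo e).2 = e.2 / 2 := rfl
  have hc1 : (ctr g z).1 = 2 * (g * z.1) + g := rfl
  have hc2 : (ctr g z).2 = 2 * (g * z.2) + g := rfl
  have h1 := hσ.2.2.1 z hz (lo e) (hi e) hun (by rw [hl1, hc1, abs_le]; omega)
    (by rw [hl2, hc2, abs_le]; omega)
  rw [lo_add_hi, uQ_cp p hun, uQ_cp p hun] at h1
  obtain ⟨s, hs⟩ : ∃ s : ℤ, s = 4 * g / Λ := ⟨_, rfl⟩
  rw [← hs] at h1
  have hΛ0 : 0 < Λ := by omega
  have hs1 : 4 * max M0 1 ≤ s := by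
    rw [hs, Int.le_ediv_iff_mul_le hΛ0]
    nlinarith
  have hM1 : 1 ≤ max M0 1 := le_max_right _ _
  have hM0 : M0 ≤ max M0 1 := le_max_left _ _
  have hs2 : s ≤ 4 * g := by
    rw [hs]
    exact Int.ediv_le_self _ (by omega)
  have u1 := (hu s (by omega) (by omega) hs2).1
  have u2 := (hu (s / 2) (by omega) (by omega) (by omega)).2
  have hsr : (0 : ℝ) < s := by exact_mod_cast (by omega : 0 < s)
  have hs3 : (s : ℝ) ≤ 3 * ((s / 2 : ℤ) : ℝ) := by exact_mod_cast (by omega : s ≤ 3 * (s / 2))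
  have u3 := rpow_cmp (a := 5 / 4) (by norm_num) hsr (by norm_num) hs3
  have hX : 0 < (s : ℝ) ^ (-(5 / 4) : ℝ) := Real.rpow_pos_of_pos hsr _
  have u4 : uP p (s / 2) ≤ K0 * (4 * (s : ℝ) ^ (-(5 / 4) : ℝ)) :=
    u2.trans (mul_le_mul_of_nonneg_left
      (u3.trans (mul_le_mul_of_nonneg_right three54 hX.le)) hK0.le)
  have u5 : c3 / (8 * K0) * uP p (s / 2) ≤ c3 / 2 * (s : ℝ) ^ (-(5 / 4) : ℝ) := by
    calc c3 / (8 * K0) * uP p (s / 2) ≤ c3 / (8 * K0) * (K0 * (4 * (s : ℝ) ^ (-(5 / 4) : ℝ))) :=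
          mul_le_mul_of_nonneg_left u4 (by positivity)
      _ = c3 / 2 * (s : ℝ) ^ (-(5 / 4) : ℝ) := by field_simp; ring
  have hgr : (0 : ℝ) < g := by exact_mod_cast (by omega : 0 < g)
  have u6 : (4 * (g : ℝ)) ^ (-(5 / 4) : ℝ) ≤ (s : ℝ) ^ (-(5 / 4) : ℝ) :=
    Real.rpow_le_rpow_of_nonpos hsr (by exact_mod_cast hs2) (by norm_num)
  have u7 : c3 / 2 * (4 * (g : ℝ)) ^ (-(5 / 4) : ℝ) ≤
      uP p s - c3 / (8 * K0) * uP p (s / 2) := by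
    have := mul_le_mul_of_nonneg_left u6 (by positivity : 0 ≤ c3 / 2)
    linarith
  have h2 := mul_le_mul_of_nonneg_left u7 (hσ.1 z hz)
  have h3 := h2.trans (h1 (le_trans (by positivity) u7))
  have h4 : σ z * (c3 / (2 * C) * (4 * (g : ℝ)) ^ (-(5 / 4) : ℝ)) =
      σ z * (c3 / 2 * (4 * (g : ℝ)) ^ (-(5 / 4) : ℝ)) / C := by
    field_simp
  rw [h4, div_le_iff₀ hC, mul_comm _ C]
  exact h3

/-- NC-A1: expected number of pivotal edges of a square crossing, at any scale above `h`. -/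
theorem above_piv (hIn : InStep) {δ c3 K0 : ℝ} (hδ : 0 < δ) (hc3 : 0 < c3) (hK0 : 0 < K0) (M0 : ℤ) :
    ∃ (c : ℝ) (h0 : ℤ), 0 < c ∧ 1 ≤ h0 ∧ ∀ (p : ℝ) (h : ℤ) (J N : ℕ), 1 / 2 ≤ p → p ≤ 1 →
      h0 ≤ h → (N : ℤ) = 100 * 16 ^ J * h → RS δ p (2 * N) →
      (∀ m : ℤ, M0 ≤ m → 1 ≤ m → m ≤ 4 * h →
        c3 * (m : ℝ) ^ (-(5 / 4) : ℝ) ≤ uP p m ∧ uP p m ≤ K0 * (m : ℝ) ^ (-(5 / 4) : ℝ)) →
      c * (h : ℝ) ^ (3 / 4 : ℝ) ≤ ∑ e ∈ Bx (-N) N (-N) N,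
        PrP (cp p) (Bx (-N) N (-N) N) (Piv (HC (-N) N (-N) N) e) := by
  obtain ⟨c0, hc0, hRSM⟩ := class_RSM hδ
  obtain ⟨cb, hcb, hbase⟩ := base_case hδ
  obtain ⟨Λ, C, g0, hΛ, hC, hg0, hsep⟩ := sep_exists hIn (ε := 1 / 512) (ε' := 1) hc0
    (by norm_num) (by norm_num)
  obtain ⟨A, hA⟩ : ∃ A : ℝ, A = max (2 * C) (2704 / cb) := ⟨_, rfl⟩
  have hA0 : 0 < A := by rw [hA]; exact lt_of_lt_of_le (by positivity) (le_max_left _ _)
  obtain ⟨ε, hε⟩ : ∃ ε : ℝ, ε = min (1 / (512 * A)) (cb / 5408) := ⟨_, rfl⟩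
  have hε0 : 0 < ε := by rw [hε]; exact lt_min (by positivity) (by positivity)
  have hε1 : 256 * ε * A ≤ 1 / 2 := by
    have : ε ≤ 1 / (512 * A) := by rw [hε]; exact min_le_left _ _
    calc 256 * ε * A ≤ 256 * (1 / (512 * A)) * A := by
          apply mul_le_mul_of_nonneg_right _ hA0.le
          linarith
      _ = 1 / 2 := by field_simp; norm_num
  have hε2 : 2704 * ε ≤ cb / 2 := by
    have : ε ≤ cb / 5408 := by rw [hε]; exact min_le_right _ _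
    linarith
  obtain ⟨Λ', C', g0', hΛ', hC', hg0', hsep'⟩ := sep_exists hIn (ε := ε) (ε' := c3 / (8 * K0)) hc0
    hε0 (by positivity)
  refine ⟨c3 * cb / (32 * C'), max (max g0 g0') (Λ' * max M0 1), by positivity,
    hg0.trans ((le_max_left _ _).trans (le_max_left _ _)), ?_⟩
  intro p h J N hp p1 hh hN hRS hu
  have b1 : g0 ≤ h := ((le_max_left _ _).trans (le_max_left _ _)).trans hh
  have b2 : g0' ≤ h := ((le_max_right _ _).trans (le_max_left _ _)).trans hh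
  have b3 : Λ' * max M0 1 ≤ h := (le_max_right _ _).trans hh
  have h1 : 1 ≤ h := hg0.trans b1
  have p0 : 0 ≤ p := by linarith
  have hq := cp_Pb p0 p1
  have hCl : Cl p (cp p) := fun e => ⟨hp, le_rfl⟩
  have h8 : (1 : ℤ) ≤ 16 ^ J := one_le_pow₀ (by norm_num)
  have hN60 : 100 * (h * 16 ^ J) = (N : ℤ) := by rw [hN]; ring
  have hhT : h ≤ h * 16 ^ J := le_mul_of_one_le_right (by omega) h8
  have hN1 : 1 ≤ N := by omega
  have hR : ∀ g T : ℤ, 100 * T = (N : ℤ) → g ≤ T → RSM (cp p) c0 (32 * g) := fun g T h2 h3 =>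
    hRSM p (2 * N) (32 * g) hp p1 (by omega) (by push_cast; omega) hRS (cp p) hCl
  -- lower bound of the variances
  have hWW : ∀ (g : ℤ) (j : ℕ), h ≤ g → 100 * (g * 16 ^ j) = (N : ℤ) →
      cb ≤ WW (cp p) (N : ℤ) g (16 ^ j) := by
    intro g j hg hNg
    obtain ⟨M, hM⟩ : ∃ M : ℕ, (M : ℤ) = 52 * (g * 16 ^ j) - 1 := ⟨(52 * (g * 16 ^ j) - 1).toNat, by
      rw [Int.toNat_of_nonneg]
      omega⟩
    have h2 := hbase p N M hp p1 hN1 (by omega) (by omega) hRS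
    have e1 : Bq (0, 0) (N : ℤ) = Bx (-(N : ℤ)) N (-(N : ℤ)) N := by unfold Bq; simp
    rw [e1] at h2
    refine le_trans h2 ?_
    exact WW_base hq (by omega) rfl (by omega) (by omega)
  have hSS : ∀ (j : ℕ) (g : ℤ), h ≤ g → 100 * (g * 16 ^ j) = (N : ℤ) →
      SS (cp p) N g (16 ^ j) ≤ A * WW (cp p) N g (16 ^ j) := by
    rw [hA]
    refine SS_le_WW (ε' := 1) (Λ := Λ) hq h1 hC hcb (fun g j hg hNg => ?_) hWW
    have h8j : (1 : ℤ) ≤ 16 ^ j := one_le_pow₀ (by norm_num)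
    have hgT : g ≤ g * 16 ^ j := le_mul_of_one_le_right (by omega) h8j
    exact hsep (cp p) N g (16 ^ j) (g * 16 ^ j) (b1.trans hg) rfl hNg hgT (hR g _ hNg hgT)
  obtain ⟨σ, hσ⟩ := hsep' (cp p) N h (16 ^ J) (h * 16 ^ J) b2 rfl hN60 hhT (hR h _ hN60 hhT)
  have hlarge := sigma_large hq h1 hε0.le hε1 hε2 J hN60 hSS
    (hWW h J le_rfl hN60) hσ
  -- sum over the edges
  have hhr : (0 : ℝ) < h := by exact_mod_cast (by omega : 0 < h)
  have hX : 0 < (4 * (h : ℝ)) ^ (-(5 / 4) : ℝ) := Real.rpow_pos_of_pos (by positivity) _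
  have hsum : ∑ z ∈ Zi (16 ^ J), ∑ e ∈ cell h z,
      PrP (cp p) (Bx (-(N : ℤ)) N (-N) N) (Piv (HC (-(N : ℤ)) N (-N) N) e) ≤
      ∑ e ∈ Bx (-(N : ℤ)) N (-N) N,
        PrP (cp p) (Bx (-(N : ℤ)) N (-N) N) (Piv (HC (-(N : ℤ)) N (-N) N) e) := by
    rw [← sum_biUnion (fun i _ j _ hij => cell_disj h1 hij)]
    exact sum_le_sum_of_subset_of_nonneg (cells_sub_E h1 rfl (by omega))
      fun e _ _ => PrP_nonneg hq _ _
  refine le_trans ?_ hsum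
  have hz : ∀ z ∈ Zi (16 ^ J), σ z * (c3 / (2 * C') * ((h : ℝ) ^ 2 * (4 * (h : ℝ)) ^ (-(5 / 4) : ℝ))) ≤
      ∑ e ∈ cell h z,
        PrP (cp p) (Bx (-(N : ℤ)) N (-N) N) (Piv (HC (-(N : ℤ)) N (-N) N) e) := by
    intro z hz
    have h2 := card_nsmul_le_sum (cell h z)
      (fun e => PrP (cp p) (Bx (-(N : ℤ)) N (-N) N) (Piv (HC (-(N : ℤ)) N (-N) N) e))
      (σ z * (c3 / (2 * C') * (4 * (h : ℝ)) ^ (-(5 / 4) : ℝ)))
      (fun e he => cell_piv hc3 hK0 h1 hC' hΛ' b3 hu hσ hz he)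
    refine le_trans ?_ h2
    rw [nsmul_eq_mul]
    have h3 := cell_card h1 z
    have h4 : 0 ≤ σ z * (c3 / (2 * C') * (4 * (h : ℝ)) ^ (-(5 / 4) : ℝ)) :=
      mul_nonneg (hσ.1 z hz) (by positivity)
    have h5 := mul_le_mul_of_nonneg_right h3 h4
    refine le_trans (le_of_eq ?_) h5
    ring
  refine le_trans ?_ (sum_le_sum hz)
  rw [← sum_mul]
  have h6 := rpow_aux hhr
  calc c3 * cb / (32 * C') * (h : ℝ) ^ (3 / 4 : ℝ)
      = cb / 2 * (c3 / (2 * C') * ((h : ℝ) ^ (3 / 4 : ℝ) / 8)) := by field_simp; norm_num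
    _ ≤ (∑ z ∈ Zi (16 ^ J), σ z) *
        (c3 / (2 * C') * ((h : ℝ) ^ 2 * (4 * (h : ℝ)) ^ (-(5 / 4) : ℝ))) := by
        apply mul_le_mul hlarge _ (by positivity) (by linarith)
        exact mul_le_mul_of_nonneg_left h6 (by positivity)

end Pool.Agent.H47.NC
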