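import Mathlib
import Pool.Agent.H99.NC.RswP

set_option autoImplicit false
open Finset

/-! Squares of side `2 n` are crossed with probability bounded below if the squares of sides `n`
and `4 n` are. -/

namespace Pool.Agent.H47.NC

open Pool.Agent.H75.Perc Pool.Agent.H99.NC

/-- A horizontal crossing of `[0,N] × [0,M]` crosses one of the windows
`[0,N] × [k t, k t + N]` horizontally or one of the rectangles `[0,N] × [(k+1) t, k t + N]`
vertically. -/
lemma window {N M t : ℤ} (ht : 1 ≤ t) (htN : t ≤ N) {ω : Finset (ℤ × ℤ)}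
    (h : HC 0 N 0 M ω) : ∃ k ∈ range ((M / t).toNat + 1),
      HC 0 N (k * t) (k * t + N) ω ∨ VC 0 N ((k + 1) * t) (k * t + N) ω := by
  obtain ⟨p, q, hp, hp1, hq1, hpq⟩ := h
  set W := ω ∩ Bx 0 N 0 M with hW
  have hWs : W ⊆ Bx 0 N 0 M := inter_subset_right
  obtain ⟨v0, hv0, hmin⟩ : ∃ v0, Co W p v0 ∧ ∀ v, Co W p v → v0.2 ≤ v.2 := by
    classical
    have hex : ∃ j : ℕ, ∃ v, Co W p v ∧ v.2 = j := ⟨p.2.toNat, p, Co.refl _ _, by
      unfold inB at hp; omega⟩
    obtain ⟨v0, hv0, hv0j⟩ := Nat.find_spec hex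
    refine ⟨v0, hv0, fun v hv => ?_⟩
    have h1 := hv.inB hWs hp
    have h2 : Nat.find hex ≤ v.2.toNat := Nat.find_min' hex ⟨v, hv, by unfold inB at h1; omega⟩
    unfold inB at h1
    omega
  have hv0B := hv0.inB hWs hp
  have ht0 : 0 < t := by omega
  have e1 := Int.mul_ediv_add_emod v0.2 t
  have e2 := Int.emod_nonneg v0.2 (ne_of_gt ht0)
  have e3 := Int.emod_lt_of_pos v0.2 ht0
  have hkn : 0 ≤ v0.2 / t := Int.ediv_nonneg hv0B.2.1 ht0.le
  have hkM : v0.2 / t ≤ M / t := Int.ediv_le_ediv ht0 hv0B.2.2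
  refine ⟨(v0.2 / t).toNat, ?_, ?_⟩
  · rw [mem_range]; omega
  have hk : (((v0.2 / t).toNat : ℕ) : ℤ) = v0.2 / t := Int.toNat_of_nonneg hkn
  rw [hk]
  set k := v0.2 / t with hkdef
  have e1' : k * t = v0.2 - v0.2 % t := by rw [mul_comm]; omega
  have e4 : (k + 1) * t = k * t + t := by ring
  rw [e4]
  set a := k * t with ha
  by_cases hall : ∀ v, Co W p v → v.2 ≤ a + N
  · left
    have hin : ∀ v, Co W p v → inB 0 N a (a + N) v := by
      intro v hv
      have h1 := hv.inB hWs hp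
      have h2 := hmin v hv
      have h3 := hall v hv
      unfold inB at h1 ⊢
      omega
    have hco : ∀ v, Co W p v → Co (ω ∩ Bx 0 N a (a + N)) p v := by
      intro v hv
      induction hv with
      | refl => exact Co.refl _ _
      | @tail b c hab hbc ih =>
        refine Relation.ReflTransGen.tail ih ⟨hbc.1, mem_inter.2 ⟨(mem_inter.1 hbc.2).1, ?_⟩⟩
        exact add_mem_Bx hbc.1 (hin _ hab) (hin _ (Relation.ReflTransGen.tail hab hbc))
    exact ⟨p, q, hin p (Co.refl _ _), hp1, hq1, hco q hpq⟩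
  · right
    push Not at hall
    obtain ⟨v, hv, hvN⟩ := hall
    have hvB := hv.inB hWs hp
    obtain ⟨z, z', hz, hz', had, hcx, -⟩ := exit_co (X := inB 0 N (a + t) M) (hv.symm.trans hv0)
      (by unfold inB at hvB ⊢; omega) (by unfold inB; omega)
    have hzz := unit_cases had.1
    have hz'B := (had.inB hWs).2
    have hc1 := (hcx.box (fun z hz => hz) (by unfold inB at hvB ⊢; omega)).symm
    have hzt : z.2 = a + t := by
      unfold inB at hz hz' hz'B
      omega
    obtain ⟨u, u', hu, hu', had2, hcx2, -⟩ := exit_co (X := inB 0 N (a + t) (a + N)) hc1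
      (by unfold inB at hz ⊢; omega) (by unfold inB; omega)
    have huu := unit_cases had2.1
    have hu'B := (had2.inB inter_subset_right).2
    have hc2 := hcx2.box (fun z hz => hz) (by unfold inB at hz ⊢; omega)
    have hut : u.2 = a + N := by
      unfold inB at hu hu' hu'B
      omega
    refine ⟨z, u, by unfold inB at hz ⊢; omega, hzt, hut, hc2.mono ?_⟩
    refine inter_subset_inter_right ?_
    exact inter_subset_left.trans inter_subset_left

lemma fcP_window {p : ℝ} (p0 : 0 ≤ p) (p1 : p ≤ 1) {N M t : ℤ} (ht : 1 ≤ t) (htN : t ≤ N)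
    (hM : 0 ≤ M) :
    fcP p N M ≤ ((M / t).toNat + 1 : ℕ) * (fcP p N N + fcP p (N - t) N) := by
  have hq := cp_Pb p0 p1
  have e0 : fcP p N M = PrP (cp p) (Bx 0 N 0 (M + N)) (HC 0 N 0 M) := by
    rw [PrP_HC' p (Bx_sub le_rfl le_rfl le_rfl (by omega))]; simp
  rw [e0]
  refine (PrP_mono hq (B := fun ω => ∃ k ∈ range ((M / t).toNat + 1),
      (HC 0 N (k * t) (k * t + N) ω ∨ VC 0 N ((k + 1) * t) (k * t + N) ω))
    fun ω _ h => window ht htN h).trans ?_
  refine (PrP_exists_le hq _ _ (fun (k : ℕ) ω =>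
    HC 0 N (k * t) (k * t + N) ω ∨ VC 0 N ((k + 1) * t) (k * t + N) ω)).trans ?_
  refine (sum_le_card_nsmul _ _ (fcP p N N + fcP p (N - t) N) ?_).trans (le_of_eq ?_)
  · intro k hk
    rw [mem_range] at hk
    have ht0 : 0 < t := by omega
    have hkM : (k : ℤ) * t ≤ M := by
      have h1 : (k : ℤ) ≤ M / t := by
        have := Int.ediv_nonneg hM ht0.le
        omega
      exact (Int.le_ediv_iff_mul_le ht0).1 h1
    have hk0 : 0 ≤ (k : ℤ) * t := mul_nonneg (by omega) (by omega)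
    refine (PrP_or_le hq _ _ _).trans ?_
    rw [PrP_HC' p (Bx_sub le_rfl le_rfl hk0 (by omega)),
      PrP_VC p (Bx_sub le_rfl le_rfl (by nlinarith) (by omega))]
    refine le_of_eq ?_
    congr 2 <;> ring
  · rw [card_range, nsmul_eq_mul]

lemma p_lower {p : ℝ} (p0 : 0 ≤ p) (p1 : p ≤ 1) {n : ℕ} (hn : 1 ≤ n) :
    fcP p n n ≤ (2 * (n : ℝ) + 1) ^ 2 * p := by
  have hq := cp_Pb p0 p1
  have e0 : fcP p n n = PrP (cp p) (Bx 0 n 0 n) (HC 0 n 0 n) := rfl
  rw [e0]
  refine (PrP_mono hq (B := fun ω => ∃ e ∈ Bx 0 n 0 n, e ∈ ω) ?_).trans ?_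
  · rintro ω hω ⟨a, b, h1, h2, h3, h4⟩
    have hne : a ≠ b := by
      rintro rfl
      omega
    rcases Relation.ReflTransGen.cases_head h4 with h5 | ⟨c, h5, -⟩
    · exact absurd h5 hne
    · exact ⟨a + c, hω (mem_inter.1 h5.2).1, (mem_inter.1 h5.2).1⟩
  · refine (PrP_exists_le hq _ _ (fun e ω => e ∈ ω)).trans ?_
    rw [sum_congr rfl (fun e he => PrP_mem (cp p) he)]
    unfold cp
    rw [sum_const, nsmul_eq_mul]
    refine mul_le_mul_of_nonneg_right ?_ p0
    have h1 : (Bx 0 (n : ℤ) 0 n).card ≤ (2 * n + 1) * (2 * n + 1) := by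
      unfold Bx
      refine (card_filter_le _ _).trans ?_
      rw [card_product, Int.card_Icc]
      apply le_of_eq
      congr 1
    calc ((Bx 0 (n : ℤ) 0 n).card : ℝ) ≤ (((2 * n + 1) * (2 * n + 1) : ℕ) : ℝ) := by
          exact_mod_cast h1
      _ = _ := by push_cast; ring

/-- Squares of side `2 n` are crossed if squares of sides `n` and `4 n` are (density `p`
arbitrary). -/
theorem near_square {δ : ℝ} (hδ : 0 < δ) : ∃ c : ℝ, 0 < c ∧ ∀ p : ℝ, 0 ≤ p → p ≤ 1 → ∀ n : ℕ, 1 ≤ n →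
    δ ≤ fcP p n n → δ ≤ fcP p (4 * n) (4 * n) → c ≤ fcP p (2 * n) (2 * n) := by
  refine ⟨min ((δ / 225) ^ 14) (min (δ / 130) ((δ * (δ / 130 / 2)) ^ 2 * δ)), ?_, ?_⟩
  · refine lt_min (by positivity) (lt_min (by positivity) (by positivity))
  intro p p0 p1 n hn h1 h4
  rcases lt_or_ge n 8 with h8 | h8
  · refine (min_le_left _ _).trans ?_
    have h5 := fcP_pow p0 p1 (2 * n) (h := 2 * n) (by omega)
    push_cast at h5
    refine le_trans ?_ h5
    have h6 := p_lower p0 p1 hn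
    have h7 : (n : ℝ) ≤ 7 := by
      have : n ≤ 7 := by omega
      exact_mod_cast this
    have h9 : δ / 225 ≤ p := by
      have : (2 * (n : ℝ) + 1) ^ 2 ≤ 225 := by
        have h0 : (0 : ℝ) ≤ n := Nat.cast_nonneg n
        nlinarith
      have h10 : (2 * (n : ℝ) + 1) ^ 2 * p ≤ 225 * p := mul_le_mul_of_nonneg_right this p0
      linarith
    calc (δ / 225) ^ 14 ≤ p ^ 14 := pow_le_pow_left₀ (by positivity) h9 14
      _ ≤ p ^ (2 * n) := pow_le_pow_of_le_one p0 p1 (by omega)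
  · refine (min_le_right _ _).trans ?_
    obtain ⟨t, ht1, ht2⟩ : ∃ t : ℕ, 8 * t ≤ n ∧ n < 8 * t + 8 := ⟨n / 8, by omega, by omega⟩
    have h5 := fcP_window p0 p1 (N := 2 * n) (M := 4 * n) (t := t) (by omega) (by omega) (by omega)
    have h6 : fcP p (4 * n) (4 * n) ≤ fcP p (2 * n) (4 * n) :=
      fcP_anti p0 p1 (by omega) (by omega)
    have hK : ((4 * (n : ℤ) / t).toNat + 1 : ℕ) ≤ 65 := by
      have ht0 : (0 : ℤ) < t := by omega
      have : 4 * (n : ℤ) / t ≤ 64 := by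
        apply Int.ediv_le_of_le_mul ht0
        omega
      omega
    have hK' : (((4 * (n : ℤ) / t).toNat + 1 : ℕ) : ℝ) ≤ 65 := by exact_mod_cast hK
    have hx := fcP_nonneg p0 p1 (2 * n) (2 * n)
    have hy := fcP_nonneg p0 p1 (2 * n - t) (2 * n)
    have h7 : δ ≤ 65 * (fcP p (2 * n) (2 * n) + fcP p (2 * n - t) (2 * n)) :=
      (h4.trans (h6.trans h5)).trans (mul_le_mul_of_nonneg_right hK' (by linarith))
    rcases le_or_gt (δ / 130) (fcP p (2 * n) (2 * n)) with h9 | h9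
    · exact (min_le_left _ _).trans h9
    · refine (min_le_right _ _).trans ?_
      have h10 : δ / 130 ≤ fcP p (2 * n - t) (2 * n) := by linarith
      obtain ⟨m, hm⟩ : ∃ m : ℕ, n = m + t := ⟨n - t, by omega⟩
      have h11 := fcP_step (n := n) (m := m) p0 p1 (by omega)
      have e1 : (n : ℤ) + m = 2 * n - t := by omega
      rw [e1] at h11
      have h12 : fcP p (n + 2 * m) (2 * n) ≤ fcP p (2 * n) (2 * n) :=
        fcP_anti p0 p1 (by omega) (by omega)
      refine le_trans ?_ (h11.trans h12)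
      have h13 : δ * (δ / 130 / 2) ≤ fcP p n n * (fcP p (2 * n - t) (2 * n) / 2) :=
        mul_le_mul h1 (by linarith) (by positivity) (hδ.le.trans h1)
      exact mul_le_mul (pow_le_pow_left₀ (by positivity) h13 2) h1 hδ.le (by positivity)

end Pool.Agent.H47.NC
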