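import Mathlib
import Pool.Agent.H47.NC.Uq
import Pool.Agent.H47.NC.NearSq

set_option autoImplicit false
open Finset

/-! The length scale above the window. -/

namespace Pool.Agent.H47.NC

open Pool.Agent.H75.Perc Pool.Agent.H99.NC

/-- If no square of side at most `L` is crossed with very high probability, then all dual squares of
side at most `L` are crossed with probability bounded below. -/
lemma rs_of_bad : ∃ δ' : ℝ, 0 < δ' ∧ ∀ p : ℝ, 1 / 2 ≤ p → p ≤ 1 → ∀ L : ℕ, 1 ≤ L →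
    (∀ n : ℕ, 1 ≤ n → n ≤ L → ¬ (1 - (1 / 1250) ^ 2 ≤ fcP p n n ∧
      1 - (1 / 1250) ^ 2 ≤ fcP p (2 * n) (2 * n))) → RS δ' p L := by
  set ε : ℝ := (1 / 1250) ^ 2 with hε
  have hε0 : 0 < ε := by rw [hε]; norm_num
  obtain ⟨c, hc, hns⟩ := near_square hε0
  set c1 : ℝ := min c (ε / 25) with hc1
  have hc10 : 0 < c1 := lt_min hc (by positivity)
  refine ⟨min c1 ((c1 ^ 5 / 4 * c1) ^ 2 * c1), lt_min hc10 (by positivity), ?_⟩
  intro p hp p1 L hL hbad
  have q0 : 0 ≤ 1 - p := by linarith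
  have q1 : 1 - p ≤ 1 := by linarith
  have key : ∀ n : ℕ, 1 ≤ n → 1 - fcP p n n ≤ fcP (1 - p) n n := by
    intro n hn
    obtain ⟨w, rfl⟩ : ∃ w, n = w + 1 := ⟨n - 1, by omega⟩
    have h1 := fcP_dual p w (w + 1)
    push_cast at h1 ⊢
    have h2 : fcP (1 - p) ((w : ℤ) + 1 + 1) w ≤ fcP (1 - p) ((w : ℤ) + 1) w :=
      fcP_anti q0 q1 (by omega) (by omega)
    have h3 : fcP (1 - p) ((w : ℤ) + 1) w ≤ fcP (1 - p) ((w : ℤ) + 1) ((w : ℤ) + 1) :=
      fcP_mono q0 q1 (by omega)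
    linarith
  have hor : ∀ n : ℕ, 1 ≤ n → n ≤ L → ε ≤ fcP (1 - p) n n ∨ ε ≤ fcP (1 - p) (2 * n) (2 * n) := by
    intro n hn hnL
    by_contra hcon
    push Not at hcon
    refine hbad n hn hnL ⟨?_, ?_⟩
    · have := key n hn; linarith [hcon.1]
    · have := key (2 * n) (by omega)
      push_cast at this
      linarith [hcon.2]
  have hp25 : ε / 25 ≤ 1 - p := by
    rcases hor 1 le_rfl hL with h | h
    · have := p_lower q0 q1 (n := 1) le_rfl
      push_cast at this h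
      norm_num at this h
      linarith
    · have := p_lower q0 q1 (n := 2) (by norm_num)
      push_cast at this h
      norm_num at this h
      linarith
  have hpow : ∀ i : ℕ, 2 ^ i ≤ L → c1 ≤ fcP (1 - p) ((2 ^ i : ℕ) : ℤ) ((2 ^ i : ℕ) : ℤ) := by
    intro i hi
    rcases i with _ | i
    · refine (min_le_right _ _).trans (hp25.trans ?_)
      have := fcP_pow q0 q1 1 (h := 1) (by norm_num)
      simpa using this
    · rcases le_or_gt ε (fcP (1 - p) ((2 ^ (i + 1) : ℕ) : ℤ) ((2 ^ (i + 1) : ℕ) : ℤ)) with h | h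
      · refine (min_le_right _ _).trans (le_trans ?_ h)
        linarith
      · have h2 : 1 ≤ 2 ^ i := Nat.one_le_two_pow
        have e2 : ((2 ^ (i + 1) : ℕ) : ℤ) = 2 * ((2 ^ i : ℕ) : ℤ) := by push_cast; ring
        have hA : ε ≤ fcP (1 - p) ((2 ^ i : ℕ) : ℤ) ((2 ^ i : ℕ) : ℤ) := by
          rcases hor (2 ^ i) h2 (by rw [pow_succ] at hi; omega) with h3 | h3
          · exact h3
          · rw [e2] at h; linarith
        have hB : ε ≤ fcP (1 - p) (4 * ((2 ^ i : ℕ) : ℤ)) (4 * ((2 ^ i : ℕ) : ℤ)) := by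
          rcases hor (2 ^ (i + 1)) (by omega) hi with h3 | h3
          · linarith
          · rw [e2] at h3
            have e4 : 2 * (2 * ((2 ^ i : ℕ) : ℤ)) = 4 * ((2 ^ i : ℕ) : ℤ) := by ring
            rw [e4] at h3
            exact h3
        rw [e2]
        exact (min_le_left _ _).trans (hns (1 - p) q0 q1 (2 ^ i) h2 hA hB)
  intro n hn hnL
  obtain ⟨i, hi1, hi2⟩ : ∃ i : ℕ, 2 ^ i ≤ n ∧ n < 2 ^ (i + 1) :=
    ⟨Nat.log 2 n, Nat.pow_log_le_self 2 (by omega), Nat.lt_pow_succ_log_self (by norm_num) n⟩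
  rcases i with _ | i
  · have hn1 : n = 1 := by
      norm_num at hi2
      omega
    subst hn1
    refine (min_le_left _ _).trans ?_
    have := hpow 0 (by simpa using hL)
    simpa using this
  · refine (min_le_right _ _).trans ?_
    have h2 : 1 ≤ 2 ^ i := Nat.one_le_two_pow
    have ha := hpow i (by rw [pow_succ] at hi1; omega)
    have hb := hpow (i + 1) (by omega)
    have e2 : ((2 ^ (i + 1) : ℕ) : ℤ) = 2 * ((2 ^ i : ℕ) : ℤ) := by push_cast; ring
    rw [e2] at hb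
    have h5 := fcP_long q0 q1 hc10.le h2 ha hb 2
    refine h5.trans ?_
    have e3 : (2 ^ (i + 1 + 1) : ℕ) = 4 * 2 ^ i := by ring
    have e4 : (2 ^ (i + 1) : ℕ) = 2 * 2 ^ i := by ring
    rw [e3] at hi2
    rw [e4] at hi1
    refine (fcP_anti q0 q1 (w' := (n : ℤ)) (by omega) ?_).trans (fcP_mono q0 q1 ?_)
    · push_cast
      have : ((n : ℤ)) < 4 * ((2 ^ i : ℕ) : ℤ) := by exact_mod_cast hi2
      push_cast at this
      linarith
    · have : 2 * ((2 ^ i : ℕ) : ℤ) ≤ n := by exact_mod_cast hi1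
      exact this

lemma rs_anti {δ p s : ℝ} {L : ℕ} (h : RS δ p L) (hs : 1 / 2 ≤ s) (hsp : s ≤ p) (p1 : p ≤ 1) :
    RS δ s L := by
  intro n h1 h2
  exact (h n h1 h2).trans (fcP_mono_p (by linarith) (by linarith) (by linarith) _ _)

/-- integration of `c / x` -/
lemma log_int {g G : ℝ → ℝ} {c s1 s2 : ℝ} (hc : 0 < c) (hs1 : 1 / 2 < s1) (hs : s1 ≤ s2)
    (hg : ∀ s, HasDerivAt g (G s) s) (h0 : 0 ≤ g s1) (h1 : g s2 ≤ 1)
    (hG : ∀ s, s1 ≤ s → s ≤ s2 → c / (s - 1 / 2) ≤ G s) :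
    s2 - 1 / 2 ≤ Real.exp (1 / c) * (s1 - 1 / 2) := by
  have hd : ∀ s, 1 / 2 < s → HasDerivAt (fun s => g s - c * Real.log (s - 1 / 2))
      (G s - c * (1 / (s - 1 / 2))) s := by
    intro s hs
    refine (hg s).sub (HasDerivAt.const_mul c ?_)
    have h3 : HasDerivAt (fun s : ℝ => s - 1 / 2) 1 s := (hasDerivAt_id s).sub_const _
    exact h3.log (by linarith)
  have hm : MonotoneOn (fun s => g s - c * Real.log (s - 1 / 2)) (Set.Icc s1 s2) := by
    refine monotoneOn_of_deriv_nonneg (convex_Icc s1 s2) ?_ ?_ ?_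
    · intro s hs
      exact (hd s (by linarith [hs.1])).continuousAt.continuousWithinAt
    · intro s hs
      rw [interior_Icc] at hs
      exact (hd s (by linarith [hs.1])).differentiableAt.differentiableWithinAt
    · intro s hs
      rw [interior_Icc] at hs
      rw [(hd s (by linarith [hs.1])).deriv]
      have := hG s hs.1.le hs.2.le
      have e : c * (1 / (s - 1 / 2)) = c / (s - 1 / 2) := by ring
      rw [e]
      linarith
  have h2 := hm (Set.left_mem_Icc.2 hs) (Set.right_mem_Icc.2 hs) hs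
  simp only at h2
  have h3 : Real.log (s2 - 1 / 2) ≤ 1 / c + Real.log (s1 - 1 / 2) := by
    have h4 : c * (Real.log (s2 - 1 / 2) - Real.log (s1 - 1 / 2)) ≤ 1 := by
      linarith
    have h5 : Real.log (s2 - 1 / 2) - Real.log (s1 - 1 / 2) ≤ 1 / c := by
      rw [le_div_iff₀ hc]; linarith
    linarith
  calc s2 - 1 / 2 = Real.exp (Real.log (s2 - 1 / 2)) := (Real.exp_log (by linarith)).symm
    _ ≤ Real.exp (1 / c + Real.log (s1 - 1 / 2)) := Real.exp_le_exp.2 h3
    _ = _ := by rw [Real.exp_add, Real.exp_log (by linarith)]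

/-- NC-A2: the length scale above the window. -/
theorem above_int {a : ℝ} (ha : 0 < a)
    (hA : ∀ δ : ℝ, 0 < δ → ∃ (c : ℝ) (h0 : ℤ), 0 < c ∧ 1 ≤ h0 ∧
      ∀ (p : ℝ) (h : ℤ) (J N : ℕ), 1 / 2 ≤ p → p ≤ 1 → h0 ≤ h → (N : ℤ) = 100 * 16 ^ J * h →
      RS δ p (2 * N) → (p - 1 / 2) * (h : ℝ) ^ (3 / 4 : ℝ) ≤ a →
      c * (h : ℝ) ^ (3 / 4 : ℝ) ≤ ∑ e ∈ Bx (-N) N (-N) N,
        PrP (cp p) (Bx (-N) N (-N) N) (Piv (HC (-N) N (-N) N) e)) :
    ∃ K : ℝ, 0 < K ∧ ∀ p : ℝ, 1 / 2 < p → p ≤ 1 → ∃ n : ℕ, 1 ≤ n ∧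
      (n : ℝ) ≤ K * (p - 1 / 2) ^ (-(4 / 3) : ℝ) ∧ 1 - (1 / 1250) ^ 2 ≤ fcP p n n ∧
      1 - (1 / 1250) ^ 2 ≤ fcP p (2 * n) (2 * n) := by
  obtain ⟨δ, hδ, hbad⟩ := rs_of_bad
  obtain ⟨c, h0, hc, hh0, hH⟩ := hA δ hδ
  obtain ⟨H0, rfl⟩ : ∃ H0 : ℕ, h0 = (H0 : ℤ) := ⟨h0.toNat, by omega⟩
  have hH0 : 1 ≤ H0 := by omega
  have hH0r : (1 : ℝ) ≤ H0 := by exact_mod_cast hH0
  -- constants
  set A0 : ℝ := (H0 : ℝ) ^ (3 / 4 : ℝ) with hA0
  have hA00 : 0 < A0 := Real.rpow_pos_of_pos (by linarith) _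
  set r : ℝ := (16 : ℝ) ^ (3 / 4 : ℝ) with hr
  have hr0 : 0 < r := Real.rpow_pos_of_pos (by norm_num) _
  have hr1 : 1 ≤ r := Real.one_le_rpow (by norm_num) (by norm_num)
  set c1 : ℝ := c * a / r with hc1
  have hc10 : 0 < c1 := by positivity
  set C2 : ℝ := Real.exp (1 / c1) * a * (3200 : ℝ) ^ (3 / 4 : ℝ) with hC2
  have hC20 : 0 < C2 := by
    have := Real.rpow_pos_of_pos (show (0 : ℝ) < 3200 by norm_num) (3 / 4)
    have := Real.exp_pos (1 / c1)
    positivity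
  set B : ℝ := C2 * (1 + A0 / a) + 1 with hB
  have hB0 : 0 < B := by positivity
  set K : ℝ := max (200 * (H0 : ℝ) + 1) (B ^ (4 / 3 : ℝ)) with hK
  have hK0 : 0 < K := lt_of_lt_of_le (by positivity) (le_max_left _ _)
  have hKB : B ≤ K ^ (3 / 4 : ℝ) := by
    calc B = (B ^ (4 / 3 : ℝ)) ^ (3 / 4 : ℝ) := by
          rw [← Real.rpow_mul hB0.le]; norm_num
      _ ≤ K ^ (3 / 4 : ℝ) := Real.rpow_le_rpow (Real.rpow_nonneg hB0.le _) (le_max_right _ _)
          (by norm_num)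
  refine ⟨K, hK0, fun p hp p1 => ?_⟩
  by_contra hcon
  push Not at hcon
  set x : ℝ := p - 1 / 2 with hx
  have hx0 : 0 < x := by linarith
  have hx1 : x ≤ 1 := by linarith
  set y : ℝ := x ^ (-(4 / 3) : ℝ) with hy
  have hy1 : 1 ≤ y := Real.one_le_rpow_of_pos_of_le_one_of_nonpos hx0 hx1 (by norm_num)
  set N1 : ℝ := K * y with hN1
  have hN1K : K ≤ N1 := by nlinarith
  have hN10 : 0 < N1 := by linarith
  have hN1p : N1 ^ (3 / 4 : ℝ) = K ^ (3 / 4 : ℝ) / x := by
    rw [hN1, Real.mul_rpow hK0.le (by linarith), hy, ← Real.rpow_mul hx0.le]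
    have : (-(4 / 3) * (3 / 4) : ℝ) = -1 := by norm_num
    rw [this, Real.rpow_neg_one]
    rfl
  set L : ℕ := ⌊N1⌋₊ with hL
  have hLN : (L : ℝ) ≤ N1 := Nat.floor_le hN10.le
  have hNL : N1 < L + 1 := Nat.lt_floor_add_one N1
  have hL200 : 200 * H0 ≤ L := by
    have h1 : 200 * (H0 : ℝ) + 1 ≤ K := le_max_left _ _
    have h2 : (200 * (H0 : ℝ)) < L := by linarith
    have h3 : ((200 * H0 : ℕ) : ℝ) < L := by push_cast; exact h2
    exact_mod_cast h3.le
  have hL1 : 1 ≤ L := by omega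
  have hRS : RS δ p L := by
    refine hbad p hp.le p1 L hL1 fun n hn hnL hgood => ?_
    have h1 : (n : ℝ) ≤ N1 := le_trans (by exact_mod_cast hnL) hLN
    exact absurd hgood.2 (not_le.2 (hcon n hn h1 hgood.1))
  -- the largest `J`
  obtain ⟨J0, hJ1, hJ2⟩ : ∃ J : ℕ, 200 * 16 ^ J * H0 ≤ L ∧ L < 200 * 16 ^ (J + 1) * H0 := by
    have hex : ∃ J : ℕ, L < 200 * 16 ^ J * H0 := by
      refine ⟨L, ?_⟩
      have h1 : L < 16 ^ L := Nat.lt_pow_self (by norm_num)
      calc L < 16 ^ L := h1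
        _ = 1 * 16 ^ L * 1 := by ring
        _ ≤ 200 * 16 ^ L * H0 := by gcongr; norm_num
    classical
    have h2 := Nat.find_spec hex
    have h3 : Nat.find hex ≠ 0 := by
      intro h0
      rw [h0] at h2
      simp at h2
      omega
    refine ⟨Nat.find hex - 1, ?_, ?_⟩
    · have := Nat.find_min hex (m := Nat.find hex - 1) (by omega)
      omega
    · have e : Nat.find hex - 1 + 1 = Nat.find hex := by omega
      rw [e]; exact h2
  set N : ℕ := 100 * 16 ^ J0 * H0 with hN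
  have h2N : 2 * N ≤ L := by
    rw [hN]
    refine le_trans (le_of_eq ?_) hJ1
    ring
  have hRSN : ∀ s : ℝ, 1 / 2 ≤ s → s ≤ p → RS δ s (2 * N) := by
    intro s hs hsp n h1 h2
    exact rs_anti hRS hs hsp p1 n h1 (h2.trans h2N)
  -- scales
  set A : ℕ → ℝ := fun i => r ^ i * A0 with hAdef
  have hApos : ∀ i, 0 < A i := fun i => by rw [hAdef]; positivity
  have hAsucc : ∀ i, A (i + 1) = r * A i := fun i => by simp only [hAdef]; ring
  have hAeq : ∀ i : ℕ, (((16 ^ i * (H0 : ℤ) : ℤ)) : ℝ) ^ (3 / 4 : ℝ) = A i := by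
    intro i
    push_cast
    rw [Real.mul_rpow (by positivity) (by positivity)]
    simp only [hAdef]
    congr 1
    rw [hr, ← Real.rpow_natCast, ← Real.rpow_natCast, ← Real.rpow_mul (by norm_num),
      ← Real.rpow_mul (by norm_num), mul_comm]
  set G : ℝ → ℝ := fun s => ∑ e ∈ Bx (-N) N (-N) N,
        PrP (cp s) (Bx (-N) N (-N) N) (Piv (HC (-N) N (-N) N) e) with hG
  set g : ℝ → ℝ := fun s => PrP (cp s) (Bx (-N) N (-N) N) (HC (-N) N (-N) N) with hg
  have hder : ∀ s, HasDerivAt g (G s) s := fun s =>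
    russo_const (Bx (-N) N (-N) N) (HC_inc (-N) N (-N) N) s
  have hGA : ∀ s : ℝ, 1 / 2 ≤ s → s ≤ p → ∀ i ≤ J0, (s - 1 / 2) * A i ≤ a → c * A i ≤ G s := by
    intro s hs hsp i hi hsa
    have h1 := hH s (16 ^ i * (H0 : ℤ)) (J0 - i) N hs (by linarith) ?_ ?_ (hRSN s hs hsp) ?_
    · rw [hAeq] at h1
      exact h1
    · have : (1 : ℤ) ≤ 16 ^ i := one_le_pow₀ (by norm_num)
      nlinarith
    · rw [hN]
      have e : J0 = (J0 - i) + i := by omega
      push_cast
      conv_lhs => rw [e, pow_add]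
      ring
    · rw [hAeq]; exact hsa
  have hGx : ∀ s : ℝ, 1 / 2 < s → s ≤ p → a ≤ (s - 1 / 2) * A J0 → (s - 1 / 2) * A 0 ≤ a →
      c1 / (s - 1 / 2) ≤ G s := by
    intro s hs hsp h1 h2
    have hz : 0 < s - 1 / 2 := by linarith
    -- there is a suitable `i`
    have hex : ∃ i ≤ J0, (s - 1 / 2) * A i ≤ a ∧ a ≤ (s - 1 / 2) * (r * A i) := by
      by_contra hno
      push Not at hno
      have hall : ∀ i ≤ J0, (s - 1 / 2) * A i ≤ a := by
        intro i
        induction i with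
        | zero => intro _; exact h2
        | succ i ih =>
          intro hi
          have h3 := hno i (by omega) (ih (by omega))
          rw [hAsucc]
          exact h3.le
      have h4 := hno J0 le_rfl (hall J0 le_rfl)
      have h5 : (s - 1 / 2) * A J0 ≤ (s - 1 / 2) * (r * A J0) := by
        have := hApos J0
        have h6 : A J0 ≤ r * A J0 := by nlinarith
        exact mul_le_mul_of_nonneg_left h6 hz.le
      linarith
    obtain ⟨i, hi, h3, h4⟩ := hex
    refine le_trans ?_ (hGA s hs.le hsp i hi h3)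
    rw [hc1, div_le_iff₀ hz, div_le_iff₀ hr0]
    calc c * a ≤ c * ((s - 1 / 2) * (r * A i)) := mul_le_mul_of_nonneg_left h4 hc.le
      _ = _ := by ring
  -- the conclusion of the integration
  have hmin : min x (a / A 0) ≤ Real.exp (1 / c1) * (a / A J0) := by
    rcases le_or_gt (a / A J0) (min x (a / A 0)) with hle | hgt
    · have h3 : 0 < a / A J0 := div_pos ha (hApos J0)
      have h4 := log_int (g := g) (G := G) (c := c1) (s1 := 1 / 2 + a / A J0)
        (s2 := 1 / 2 + min x (a / A 0)) hc10 (by linarith) (by linarith) hder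
        (PrP_nonneg (cp_Pb (by positivity) ?_) _ _) (PrP_le_one (cp_Pb ?_ ?_) _ _) ?_
      · have e1 : 1 / 2 + min x (a / A 0) - 1 / 2 = min x (a / A 0) := by ring
        have e2 : 1 / 2 + a / A J0 - 1 / 2 = a / A J0 := by ring
        rw [e1, e2] at h4
        exact h4
      · have : min x (a / A 0) ≤ x := min_le_left _ _
        linarith
      · have : 0 < min x (a / A 0) := lt_min hx0 (div_pos ha (hApos 0))
        linarith
      · have : min x (a / A 0) ≤ x := min_le_left _ _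
        linarith
      · intro s hs1 hs2
        have hmx : min x (a / A 0) ≤ x := min_le_left _ _
        have hma : min x (a / A 0) ≤ a / A 0 := min_le_right _ _
        refine hGx s (by linarith) (by linarith) ?_ ?_
        · have : a / A J0 ≤ s - 1 / 2 := by linarith
          rwa [div_le_iff₀ (hApos J0)] at this
        · have : s - 1 / 2 ≤ a / A 0 := by linarith
          rwa [le_div_iff₀ (hApos 0)] at this
    · have h3 : 0 < a / A J0 := div_pos ha (hApos J0)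
      have h4 : 1 ≤ Real.exp (1 / c1) := Real.one_le_exp (by positivity)
      nlinarith
  -- the size of `A J0`
  have hAJ : N1 ^ (3 / 4 : ℝ) ≤ (3200 : ℝ) ^ (3 / 4 : ℝ) * A J0 := by
    rw [← hAeq, ← Real.mul_rpow (by norm_num) (by positivity)]
    refine Real.rpow_le_rpow hN10.le ?_ (by norm_num)
    have h1 : L + 1 ≤ 200 * 16 ^ (J0 + 1) * H0 := hJ2
    have h2 : ((L + 1 : ℕ) : ℝ) ≤ ((200 * 16 ^ (J0 + 1) * H0 : ℕ) : ℝ) := by exact_mod_cast h1
    push_cast at h2 ⊢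
    refine hNL.le.trans (h2.trans (le_of_eq ?_))
    ring
  have hmin2 : min x (a / A 0) * N1 ^ (3 / 4 : ℝ) ≤ C2 := by
    have hm0 : 0 < min x (a / A 0) := lt_min hx0 (div_pos ha (hApos 0))
    have hE : 0 < Real.exp (1 / c1) := Real.exp_pos _
    calc min x (a / A 0) * N1 ^ (3 / 4 : ℝ) ≤ min x (a / A 0) * ((3200 : ℝ) ^ (3 / 4 : ℝ) * A J0) :=
          mul_le_mul_of_nonneg_left hAJ hm0.le
      _ ≤ (Real.exp (1 / c1) * (a / A J0)) * ((3200 : ℝ) ^ (3 / 4 : ℝ) * A J0) := by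
          refine mul_le_mul_of_nonneg_right hmin ?_
          have := hApos J0
          positivity
      _ = C2 := by
          rw [hC2]
          have := (hApos J0).ne'
          field_simp
  have hA0eq : A 0 = A0 := by simp [hAdef]
  rcases le_total x (a / A 0) with h5 | h5
  · rw [min_eq_left h5, hN1p, mul_div_cancel₀ _ hx0.ne'] at hmin2
    have : C2 * (1 + A0 / a) ≥ C2 := by
      have : 0 < A0 / a := div_pos hA00 ha
      nlinarith
    linarith
  · rw [min_eq_right h5, hA0eq] at hmin2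
    have h6 : K ^ (3 / 4 : ℝ) ≤ N1 ^ (3 / 4 : ℝ) := Real.rpow_le_rpow hK0.le hN1K (by norm_num)
    have h7 : a / A0 * B ≤ C2 := by
      refine le_trans (mul_le_mul_of_nonneg_left (hKB.trans h6) (by positivity)) hmin2
    have h8 : a / A0 * B = C2 * (a / A0 + 1) + a / A0 := by
      rw [hB]
      field_simp
    have h9 : 0 < a / A0 := div_pos ha hA00
    nlinarith

end Pool.Agent.H47.NC
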