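import Mathlib
import Pool.Agent.H47.NC.Uq
import Pool.Agent.H47.NC.NearSq

set_option autoImplicit false
open Finset

/-! Specification of the part above the window. -/

namespace Pool.Agent.H47.NC

open Pool.Agent.H75.Perc Pool.Agent.H99.NC

/-- NC-A1: expected number of pivotal edges of a square crossing, at any scale above `h`. -/
theorem above_piv (hIn : InStep) {δ c3 K0 : ℝ} (hδ : 0 < δ) (hc3 : 0 < c3) (hK0 : 0 < K0) (M0 : ℤ) :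
    ∃ (c : ℝ) (h0 : ℤ), 0 < c ∧ 1 ≤ h0 ∧ ∀ (p : ℝ) (h : ℤ) (J N : ℕ), 1 / 2 ≤ p → p ≤ 1 →
      h0 ≤ h → (N : ℤ) = 100 * 16 ^ J * h → RS δ p (2 * N) →
      (∀ m : ℤ, M0 ≤ m → 1 ≤ m → m ≤ 4 * h →
        c3 * (m : ℝ) ^ (-(5 / 4) : ℝ) ≤ uP p m ∧ uP p m ≤ K0 * (m : ℝ) ^ (-(5 / 4) : ℝ)) →
      c * (h : ℝ) ^ (3 / 4 : ℝ) ≤ ∑ e ∈ Bx (-N) N (-N) N,
        PrP (cp p) (Bx (-N) N (-N) N) (Piv (HC (-N) N (-N) N) e) := by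
  sorry

/-- NC-A2: the length scale above the window. -/
theorem above_int {a : ℝ} (ha : 0 < a)
    (hA : ∀ δ : ℝ, 0 < δ → ∃ (c : ℝ) (h0 : ℤ), 0 < c ∧ 1 ≤ h0 ∧
      ∀ (p : ℝ) (h : ℤ) (J N : ℕ), 1 / 2 ≤ p → p ≤ 1 → h0 ≤ h → (N : ℤ) = 100 * 16 ^ J * h →
      RS δ p (2 * N) → (p - 1 / 2) * (h : ℝ) ^ (3 / 4 : ℝ) ≤ a →
      c * (h : ℝ) ^ (3 / 4 : ℝ) ≤ ∑ e ∈ Bx (-N) N (-N) N,
        PrP (cp p) (Bx (-N) N (-N) N) (Piv (HC (-N) N (-N) N) e)) :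
    ∃ K : ℝ, 0 < K ∧ ∀ p : ℝ, 1 / 2 < p → p ≤ 1 → ∃ n : ℕ, 1 ≤ n ∧
      (n : ℝ) ≤ K * (p - 1 / 2) ^ (-(4 / 3) : ℝ) ∧ 1 - (1 / 1250) ^ 2 ≤ fcP p n n ∧
      1 - (1 / 1250) ^ 2 ≤ fcP p (2 * n) (2 * n) := by
  sorry

end Pool.Agent.H47.NC
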