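import Pool.Agent.H47.NC.UnitR

set_option autoImplicit false
set_option linter.unusedSectionVars false

/-!
# Absorbing the rounding error of a fractional cover
-/

namespace Pool.Agent.H47.NC

open Finset Pool.Agent.H47.FC

section

variable {V E : Type} [DecidableEq V] [Fintype V] [DecidableEq E] [Fintype E] (a b : E → V)

/-- fractional covers with small support -/
theorem seymour_sparse (w : E → ℕ) (hw : ∀ (X : Finset V) (e : E), Crs a b X e →
    2 * w e ≤ ∑ f ∈ univ.filter (fun f => Crs a b X f), w f) :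
    ∃ lam : Finset E → ℚ, (∀ D, 0 ≤ lam D) ∧ (∀ D, ¬ EvenM a b D → lam D = 0) ∧
      (∀ e, (w e : ℚ) = ∑ D : Finset E, if e ∈ D then lam D else 0) ∧
      (univ.filter (fun D => lam D ≠ 0)).card ≤ (univ.filter (fun e => w e ≠ 0)).card := by
  classical
  let good : (Finset E → ℚ) → Prop := fun lam => (∀ D, 0 ≤ lam D) ∧
    (∀ D, ¬ EvenM a b D → lam D = 0) ∧ ∀ e, (w e : ℚ) = ∑ D : Finset E, if e ∈ D then lam D else 0
  obtain ⟨lam, ⟨h1, h2, h3⟩, hmin⟩ : ∃ lam, good lam ∧ ∀ lam', good lam' →
      (univ.filter (fun D => lam D ≠ 0)).card ≤ (univ.filter (fun D => lam' D ≠ 0)).card := by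
    obtain ⟨lam0, h0⟩ := seymour a b w hw
    have hex : ∃ n : ℕ, ∃ lam, good lam ∧ (univ.filter (fun D => lam D ≠ 0)).card = n :=
      ⟨_, lam0, h0, rfl⟩
    obtain ⟨lam, hl, hn⟩ := Nat.find_spec hex
    refine ⟨lam, hl, fun lam' hl' => ?_⟩
    rw [hn]
    exact Nat.find_min' hex ⟨lam', hl', rfl⟩
  refine ⟨lam, h1, h2, h3, ?_⟩
  by_contra hcon
  push Not at hcon
  let P : Type := {D : Finset E // lam D ≠ 0}
  let F : Type := {e : E // w e ≠ 0}
  let L : (P → ℚ) →ₗ[ℚ] (F → ℚ) :=
    { toFun := fun g e => ∑ D : P, if e.1 ∈ D.1 then g D else 0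
      map_add' := by
        intro g g'
        funext e
        rw [Pi.add_apply, ← sum_add_distrib]
        refine sum_congr rfl fun D _ => ?_
        by_cases h : e.1 ∈ D.1
        · rw [if_pos h, if_pos h, if_pos h]; rfl
        · rw [if_neg h, if_neg h, if_neg h, add_zero]
      map_smul' := by
        intro c g
        funext e
        rw [Pi.smul_apply, smul_eq_mul, RingHom.id_apply, mul_sum]
        refine sum_congr rfl fun D _ => ?_
        by_cases h : e.1 ∈ D.1
        · rw [if_pos h, if_pos h]; rfl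
        · rw [if_neg h, if_neg h, mul_zero] }
  have hker : LinearMap.ker L ≠ ⊥ := by
    apply LinearMap.ker_ne_bot_of_finrank_lt
    rw [Module.finrank_fintype_fun_eq_card, Module.finrank_fintype_fun_eq_card]
    have e1 : Fintype.card P = (univ.filter (fun D => lam D ≠ 0)).card := Fintype.card_subtype _
    have e2 : Fintype.card F = (univ.filter (fun e => w e ≠ 0)).card := Fintype.card_subtype _
    omega
  obtain ⟨g, hg, hg0⟩ := Submodule.exists_mem_ne_zero_of_ne_bot hker
  rw [LinearMap.mem_ker] at hg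
  -- some coordinate is positive, up to sign
  obtain ⟨g, hg, D0, hD0⟩ : ∃ g : P → ℚ, L g = 0 ∧ ∃ D, 0 < g D := by
    obtain ⟨D, hD⟩ := Function.ne_iff.1 hg0
    rcases lt_or_gt_of_ne hD with h | h
    · refine ⟨-g, by rw [map_neg, hg, neg_zero], D, ?_⟩
      have : (-g) D = - g D := rfl
      rw [this]
      have h' : g D < 0 := h
      linarith
    · exact ⟨g, hg, D, h⟩
  obtain ⟨D1, hD1, hmin1⟩ := exists_min_image (univ.filter (fun D : P => 0 < g D))
    (fun D => lam D.1 / g D) ⟨D0, mem_filter.2 ⟨mem_univ _, hD0⟩⟩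
  rw [mem_filter] at hD1
  let t : ℚ := lam D1.1 / g D1
  have ht : 0 ≤ t := div_nonneg (h1 _) hD1.2.le
  let G : Finset E → ℚ := fun D => if h : lam D ≠ 0 then g ⟨D, h⟩ else 0
  have hG : ∀ (D : Finset E) (h : lam D ≠ 0), G D = g ⟨D, h⟩ := fun D h => dif_pos h
  have hG0 : ∀ D : Finset E, lam D = 0 → G D = 0 := fun D h => dif_neg (fun h' => h' h)
  let lam' : Finset E → ℚ := fun D => lam D - t * G D
  have hl' : ∀ D, 0 ≤ lam' D := by
    intro D
    show 0 ≤ lam D - t * G D
    by_cases h : lam D = 0
    · rw [h, hG0 D h, mul_zero, sub_zero]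
    · rw [hG D h]
      by_cases hgD : 0 < g ⟨D, h⟩
      · have h4 : t ≤ lam D / g ⟨D, h⟩ := hmin1 ⟨D, h⟩ (mem_filter.2 ⟨mem_univ _, hgD⟩)
        rw [le_div_iff₀ hgD] at h4
        linarith
      · push Not at hgD
        have h4 := h1 D
        have h5 : t * g ⟨D, h⟩ ≤ 0 := mul_nonpos_of_nonneg_of_nonpos ht hgD
        linarith
  have hsumG : ∀ e, ∑ D : Finset E, (if e ∈ D then G D else 0) = 0 := by
    intro e
    by_cases hwe : w e = 0
    · apply sum_eq_zero
      intro D _
      by_cases heD : e ∈ D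
      · rw [if_pos heD]
        apply hG0
        have h4 := h3 e
        rw [hwe] at h4
        have h5 := (sum_eq_zero_iff_of_nonneg (s := univ)
          (f := fun D : Finset E => if e ∈ D then lam D else 0) (by
            intro D _
            show 0 ≤ if e ∈ D then lam D else 0
            by_cases h : e ∈ D
            · rw [if_pos h]; exact h1 D
            · rw [if_neg h])).1 (by simpa using h4.symm) D (mem_univ _)
        simpa [heD] using h5
      · rw [if_neg heD]
    · have h4 := congrFun hg ⟨e, hwe⟩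
      have h5 : ∑ D : P, (if e ∈ D.1 then g D else 0) = 0 := h4
      refine Eq.trans ?_ h5
      rw [← sum_filter_add_sum_filter_not univ (fun D : Finset E => lam D ≠ 0)]
      have h6 : ∑ D ∈ univ.filter (fun D : Finset E => ¬ lam D ≠ 0), (if e ∈ D then G D else 0) = 0 := by
        apply sum_eq_zero
        intro D hD
        have h7 : lam D = 0 := not_not.1 (mem_filter.1 hD).2
        rw [hG0 D h7]
        split_ifs <;> rfl
      rw [h6, add_zero]
      rw [← sum_subtype_of_mem (p := fun D : Finset E => lam D ≠ 0)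
        (f := fun D : Finset E => if e ∈ D then G D else 0) (s := univ.filter (fun D : Finset E => lam D ≠ 0))
        (fun D hD => (mem_filter.1 hD).2)]
      refine sum_bij (fun D _ => D) ?_ ?_ ?_ ?_
      · intro D _; exact mem_univ _
      · intro D _ D' _ h; exact h
      · intro D _
        refine ⟨D, ?_, rfl⟩
        rw [mem_subtype, mem_filter]
        exact ⟨mem_univ _, D.2⟩
      · intro D _
        rw [hG D.1 D.2]
  have hgood : good lam' := by
    refine ⟨hl', ?_, ?_⟩
    · intro D hD
      have h4 := h2 D hD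
      show lam D - t * G D = 0
      rw [h4, hG0 D h4, mul_zero, sub_zero]
    · intro e
      have h4 : ∑ D : Finset E, (if e ∈ D then lam' D else 0)
          = ∑ D : Finset E, (if e ∈ D then lam D else 0) - t * ∑ D : Finset E, (if e ∈ D then G D else 0) := by
        rw [mul_sum, ← sum_sub_distrib]
        refine sum_congr rfl fun D _ => ?_
        by_cases h : e ∈ D
        · rw [if_pos h, if_pos h, if_pos h]
        · rw [if_neg h, if_neg h, if_neg h, mul_zero, sub_zero]
      rw [h4, hsumG, mul_zero, sub_zero]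
      exact h3 e
  have h4 := hmin lam' hgood
  have h5 : (univ.filter (fun D => lam' D ≠ 0)).card < (univ.filter (fun D => lam D ≠ 0)).card := by
    apply card_lt_card
    rw [ssubset_iff_of_subset]
    · refine ⟨D1.1, mem_filter.2 ⟨mem_univ _, D1.2⟩, ?_⟩
      intro h
      apply (mem_filter.1 h).2
      show lam D1.1 - t * G D1.1 = 0
      rw [hG D1.1 D1.2]
      show lam D1.1 - lam D1.1 / g D1 * g D1 = 0
      rw [div_mul_cancel₀ _ hD1.2.ne', sub_self]
    · intro D hD
      rw [mem_filter] at hD ⊢
      refine ⟨mem_univ _, fun h => hD.2 ?_⟩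
      show lam D - t * G D = 0
      rw [h, hG0 D h, mul_zero, sub_zero]
  omega

/-- an even set contains both or none of the edges of a 2-edge-cut -/
lemma pair_mem {D : Finset E} (hD : EvenM a b D) {e f : E} {Y : Finset V}
    (hY : univ.filter (fun h => Crs a b Y h) = {e, f}) : e ∈ D ↔ f ∈ D := by
  classical
  by_cases hef : e = f
  · rw [hef]
  have h2 := even_crs a b hD Y
  have h3 : D.filter (fun g => Crs a b Y g) = D.filter (fun g => g = e ∨ g = f) := by
    apply filter_congr
    intro g _
    have h4 : g ∈ univ.filter (fun g => Crs a b Y g) ↔ g ∈ ({e, f} : Finset E) := by rw [hY]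
    rw [mem_filter, mem_insert, mem_singleton] at h4
    rw [← h4]
    exact ⟨fun h => ⟨mem_univ _, h⟩, fun h => h.2⟩
  rw [h3] at h2
  by_cases he : e ∈ D <;> by_cases hf : f ∈ D
  · exact ⟨fun _ => hf, fun _ => he⟩
  · exfalso
    have h5 : D.filter (fun g => g = e ∨ g = f) = {e} := by
      ext g
      rw [mem_filter, mem_singleton]
      constructor
      · rintro ⟨h6, h7 | h7⟩
        · exact h7
        · rw [h7] at h6; exact absurd h6 hf
      · rintro rfl; exact ⟨he, Or.inl rfl⟩
    rw [h5, card_singleton] at h2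
    exact absurd h2 (by decide)
  · exfalso
    have h5 : D.filter (fun g => g = e ∨ g = f) = {f} := by
      ext g
      rw [mem_filter, mem_singleton]
      constructor
      · rintro ⟨h6, h7 | h7⟩
        · rw [h7] at h6; exact absurd h6 he
        · exact h7
      · rintro rfl; exact ⟨hf, Or.inr rfl⟩
    rw [h5, card_singleton] at h2
    exact absurd h2 (by decide)
  · exact ⟨fun h => absurd h he, fun h => absurd h hf⟩

/-- multiples of even sets -/
lemma cov_mult (n : Finset E → ℕ) (hn : ∀ D, ¬ EvenM a b D → n D = 0) :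
    Cov a b (fun e => ∑ D : Finset E, if e ∈ D then n D else 0) := by
  classical
  refine ⟨Σ D : Finset E, Fin (n D), inferInstance, fun j => j.1, ?_, ?_⟩
  · rintro ⟨D, i⟩
    by_contra h
    have h1 := hn D h
    have h2 := i.2
    omega
  · intro e
    show (univ.filter (fun j : Σ D : Finset E, Fin (n D) => e ∈ j.1)).card = _
    rw [card_filter, Fintype.sum_sigma]
    refine sum_congr rfl fun D _ => ?_
    show ∑ _i : Fin (n D), (if e ∈ D then 1 else 0) = _
    by_cases h : e ∈ D
    · rw [if_pos h, if_pos h, sum_const, card_univ, Fintype.card_fin, smul_eq_mul, mul_one]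
    · rw [if_neg h, if_neg h, sum_const_zero]

/-- **Absorption.**  A weight `w` with values in `4ℤ` that exceeds an admissible weight `β` by a
locally near-constant amount is a sum of even sets. -/
theorem absorb (w β r : E → ℕ) (hw4 : ∀ e, 4 ∣ w e) (hβ : ∀ (X : Finset V) (e : E), Crs a b X e →
      2 * β e ≤ ∑ f ∈ univ.filter (fun f => Crs a b X f), β f)
    (hr : ∀ e, β e + 32 * r e ≤ w e)
    (hpair : ∀ e f, (∃ Y : Finset V, univ.filter (fun g => Crs a b Y g) = {e, f}) → w e = w f)
    (h : ∀ e, 0 < w e → ∃ Hs : Finset E,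
      (∀ X : Finset V, NoPair a b X → Crs a b X e → ∃ f ∈ Hs, Crs a b X f) ∧
      (∀ X : Finset V, NoPair a b X → (∃ f ∈ Hs, Crs a b X f) →
        3 ≤ (Hs.filter (fun f => Crs a b X f)).card) ∧
      ∀ f ∈ Hs, r e ≤ r f ∧
        w e + 4 * (univ.filter (fun g => β g ≠ 0)).card + 32 * r e ≤ 72 * r f + β e) :
    Cov a b w := by
  classical
  obtain ⟨lam, h1, h2, h3, h4⟩ := seymour_sparse a b β hβ
  let n : Finset E → ℕ := fun D => ⌊lam D / 4⌋₊
  have hn1 : ∀ D, 4 * (n D : ℚ) ≤ lam D := by
    intro D
    have h5 : ((⌊lam D / 4⌋₊ : ℕ) : ℚ) ≤ lam D / 4 := Nat.floor_le (div_nonneg (h1 D) (by norm_num))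
    have h6 : (n D : ℚ) = ((⌊lam D / 4⌋₊ : ℕ) : ℚ) := rfl
    rw [h6]
    linarith
  have hn2 : ∀ D, lam D ≤ 4 * (n D : ℚ) + (if lam D ≠ 0 then 4 else 0) := by
    intro D
    by_cases h0 : lam D = 0
    · rw [if_neg (fun h => h h0), h0]
      positivity
    · rw [if_pos h0]
      have h5 : lam D / 4 < ((⌊lam D / 4⌋₊ : ℕ) : ℚ) + 1 := Nat.lt_floor_add_one _
      have h6 : (n D : ℚ) = ((⌊lam D / 4⌋₊ : ℕ) : ℚ) := rfl
      rw [h6]
      linarith
  have hn0 : ∀ D, ¬ EvenM a b D → 4 * n D = 0 := by
    intro D hD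
    have h5 := h2 D hD
    have h6 : n D = 0 := by
      show ⌊lam D / 4⌋₊ = 0
      rw [h5]
      simp
    rw [h6]
  let B : E → ℕ := fun e => ∑ D : Finset E, if e ∈ D then 4 * n D else 0
  have hBcov : Cov a b B := cov_mult a b (fun D => 4 * n D) hn0
  have hBq : ∀ e, (B e : ℚ) = ∑ D : Finset E, if e ∈ D then 4 * (n D : ℚ) else 0 := by
    intro e
    show ((∑ D : Finset E, if e ∈ D then 4 * n D else 0 : ℕ) : ℚ) = _
    push_cast
    rfl
  have hB1 : ∀ e, B e ≤ β e := by
    intro e
    have h5 : (B e : ℚ) ≤ (β e : ℚ) := by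
      rw [hBq e, h3 e]
      refine sum_le_sum fun D _ => ?_
      by_cases hD : e ∈ D
      · rw [if_pos hD, if_pos hD]; exact hn1 D
      · rw [if_neg hD, if_neg hD]
    exact_mod_cast h5
  have hB2 : ∀ e, β e ≤ B e + 4 * (univ.filter (fun g => β g ≠ 0)).card := by
    intro e
    have h5 : (β e : ℚ) ≤ (B e : ℚ) + 4 * ((univ.filter (fun D => lam D ≠ 0)).card : ℚ) := by
      rw [hBq e, h3 e]
      have h6 : (4 * ((univ.filter (fun D => lam D ≠ 0)).card : ℚ))
          = ∑ D : Finset E, (if lam D ≠ 0 then (4 : ℚ) else 0) := by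
        rw [← sum_filter, sum_const, nsmul_eq_mul, mul_comm]
      rw [h6, ← sum_add_distrib]
      refine sum_le_sum fun D _ => ?_
      by_cases hD : e ∈ D
      · rw [if_pos hD, if_pos hD]; exact hn2 D
      · rw [if_neg hD, if_neg hD, zero_add]
        split_ifs <;> norm_num
    have h7 : β e ≤ B e + 4 * (univ.filter (fun D => lam D ≠ 0)).card := by exact_mod_cast h5
    omega
  have hB4 : ∀ e, 4 ∣ B e := by
    intro e
    apply dvd_sum
    intro D _
    split_ifs
    · exact dvd_mul_right _ _
    · exact dvd_zero _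
  have hBw : ∀ e, B e ≤ w e := fun e => (hB1 e).trans (by have := hr e; omega)
  have hAcov := near_r2 a b (fun e => w e - B e) r (fun e => Nat.dvd_sub (hw4 e) (hB4 e))
    (fun e => by have := hr e; have := hB1 e; omega) (by
      intro e f hY
      have h5 := hpair e f hY
      obtain ⟨Y, hY⟩ := hY
      have h6 : B e = B f := by
        refine sum_congr rfl fun D _ => ?_
        by_cases hD : EvenM a b D
        · have h7 := pair_mem a b hD hY
          by_cases he : e ∈ D
          · rw [if_pos he, if_pos (h7.1 he)]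
          · rw [if_neg he, if_neg (fun h => he (h7.2 h))]
        · rw [hn0 D hD]
          split_ifs <;> rfl
      show w e - B e = w f - B f
      rw [h5, h6]) (by
      intro e he
      have he' : 0 < w e - B e := he
      obtain ⟨Hs, h5, h6, h7⟩ := h e (by omega)
      refine ⟨Hs, h5, h6, ?_⟩
      intro f hf
      refine ⟨(h7 f hf).1, ?_⟩
      have h8 := (h7 f hf).2
      have h9 := hB2 e
      have h10 := hBw e
      show w e - B e + 32 * r e ≤ 72 * r f
      omega)
  have hsum := Cov.sumF a b (fun (i : Bool) e => if i then w e - B e else B e) (by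
    intro i
    cases i
    · exact hBcov
    · exact hAcov)
  have h5 : (fun e => ∑ i : Bool, (if i then w e - B e else B e)) = w := by
    funext e
    rw [Fintype.sum_bool]
    have := hBw e
    show w e - B e + B e = w e
    omega
  rw [h5] at hsum
  exact hsum

end

end Pool.Agent.H47.NC
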