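import Mathlib
import Pool.Agent.H47.NC.Basic
import Pool.Agent.H75.Perc.VGeo

set_option autoImplicit false
open Finset

/-! An open arch above an edge near the boundary prevents the edge from being pivotal. -/

namespace Pool.Agent.H47.NC

open Pool.Agent.H75.Perc Pool.Agent.H99.NC

/-- no vertex of the arch lies strictly inside the small half box -/
lemma arch_vertex {j l : ℤ} {ω1 : Finset (ℤ × ℤ)} (h1 : ω1 ⊆ Bx (-l) l 0 l)
    (h2 : ∀ e ∈ ω1, e ∉ Bx (-j) j 0 j) {s : ℤ} (hs : s ≤ -j) (hsl : -l ≤ s) (hj : 1 ≤ j)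
    (hjl : j ≤ l) {w : ℤ × ℤ} (hw : Co ω1 (s, 0) w) :
    inB (-l) l 0 l w ∧ ¬ (-j < w.1 ∧ w.1 < j ∧ w.2 < j) := by
  have hin : inB (-l) l 0 l w := hw.inB h1 (by unfold inB; simp only; omega)
  refine ⟨hin, ?_⟩
  rintro ⟨h3, h4, h5⟩
  rcases Relation.ReflTransGen.cases_tail hw with h | ⟨w', hw', h⟩
  · have h6 : w.1 = s := by rw [h]
    omega
  · have hin' : inB (-l) l 0 l w' := (show Co ω1 (s, 0) w' from hw').inB h1
      (by unfold inB; simp only; omega)
    have h6 := unit_cases h.1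
    unfold inB at hin hin'
    exact h2 _ h.2 (add_mem_Bx h.1 (by unfold inB; omega) (by unfold inB; omega))

/-- a path from the small half box to the outside of the big half box meets the arch -/
lemma cross_arch {a b d j l : ℤ} {ω0 ω1 : Finset (ℤ × ℤ)} (h0 : ω0 ⊆ Bx a b 0 d)
    (h1 : ω1 ⊆ Bx (-l) l 0 l) (h01 : ω1 ⊆ ω0)
    (h2 : ∀ e ∈ ω1, e ∉ Bx (-j) j 0 j) {s t : ℤ} (hsl : -l ≤ s) (hs : s ≤ -j) (ht : j ≤ t)
    (htl : t ≤ l) (hj : 1 ≤ j) (hjl : j ≤ l) (harch : Co ω1 (s, 0) (t, 0)) {v q : ℤ × ℤ}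
    (hv : -j < v.1 ∧ v.1 < j ∧ 0 ≤ v.2 ∧ v.2 < j) (hq : ¬ inB (-l) l 0 l q)
    (hvq : Co ω0 v q) : Co ω0 v (s, 0) := by
  have hvin : inB (-l) l 0 l v := by unfold inB; omega
  obtain ⟨z, z', hz, hz', had, hcx, hco⟩ := exit_co (X := inB (-l) l 0 l) hvq hvin hq
  have hz'2 : 0 ≤ z'.2 := ((Ad.inB h0 had).2).2.1
  have hzu := unit_cases had.1
  set A : ℤ × ℤ → Prop := fun w => (w.2 = -1 ∧ -(l + 1) ≤ w.1 ∧ w.1 ≤ s) ∨ Co ω1 (s, 0) w ∨
    (w.2 = -1 ∧ t ≤ w.1 ∧ w.1 ≤ l + 1) with hA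
  set B : ℤ × ℤ → Prop := fun w => (w.1 = v.1 ∧ -2 ≤ w.2 ∧ w.2 ≤ v.2) ∨
    CoX ω0 (inB (-l) l 0 l) v w ∨ (w.1 = z'.1 ∧ z'.2 ≤ w.2 ∧ w.2 ≤ l + 1) with hB
  have hbox : ∀ w, Co ω1 (s, 0) w → inB (-l) l 0 l w ∧ ¬ (-j < w.1 ∧ w.1 < j ∧ w.2 < j) :=
    fun w hw => arch_vertex h1 h2 hs hsl hj hjl hw
  have hboxX : ∀ w, CoX ω0 (inB (-l) l 0 l) v w → inB (-l) l 0 l w :=
    fun w hw => CoX.mem (X := inB (-l) l 0 l) hw hvin
  have hzin := hboxX z hcx
  have hz'o : z'.1 = -(l + 1) ∨ z'.1 = l + 1 ∨ z'.2 = l + 1 := by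
    unfold inB at hzin hz'
    omega
  have hz'r : -(l + 1) ≤ z'.1 ∧ z'.1 ≤ l + 1 ∧ z'.2 ≤ l + 1 := by
    unfold inB at hzin
    omega
  -- the king path
  have hP : Relation.ReflTransGen (fun u v => King (v - u) ∧ A v) (-(l + 1), -1) (l + 1, -1) := by
    have c1 := row_path A (-(l + 1)) (-1) (s + (l + 1)).toNat (by
      intro i hi
      left
      refine ⟨rfl, ?_, ?_⟩ <;> simp only <;> omega)
    have e1 : (-(l + 1) + ((s + (l + 1)).toNat : ℤ), (-1 : ℤ)) = (s, -1) := by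
      refine Prod.ext ?_ rfl
      simp only
      omega
    rw [e1] at c1
    have c2 : Relation.ReflTransGen (fun u v => King (v - u) ∧ A v) (s, -1) (s, 0) := by
      refine Relation.ReflTransGen.single ⟨?_, Or.inr (Or.inl (Co.refl _ _))⟩
      unfold King
      simp
    have c3 : ∀ w, Co ω1 (s, 0) w →
        Relation.ReflTransGen (fun u v => King (v - u) ∧ A v) (s, 0) w := by
      intro w hw
      induction hw with
      | refl => exact Relation.ReflTransGen.refl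
      | tail hab hbc ih =>
        exact Relation.ReflTransGen.tail ih ⟨hbc.1.king,
          Or.inr (Or.inl (Relation.ReflTransGen.tail hab hbc))⟩
    have c4 : Relation.ReflTransGen (fun u v => King (v - u) ∧ A v) (t, 0) (t, -1) := by
      refine Relation.ReflTransGen.single ⟨?_, Or.inr (Or.inr ⟨rfl, le_rfl, by omega⟩)⟩
      unfold King
      simp
    have c5 := row_path A t (-1) (l + 1 - t).toNat (by
      intro i hi
      right
      right
      refine ⟨rfl, ?_, ?_⟩ <;> simp only <;> omega)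
    have e5 : (t + ((l + 1 - t).toNat : ℤ), (-1 : ℤ)) = (l + 1, -1) := by
      refine Prod.ext ?_ rfl
      simp only
      omega
    rw [e5] at c5
    exact (c1.trans c2).trans ((c3 _ harch).trans (c4.trans c5))
  -- the lattice path
  have hQ : Relation.ReflTransGen (fun u v => IsUnit4 (v - u) ∧ B v) (v.1, -2) (z'.1, l + 1) := by
    have c1 := col_path B v.1 (-2) (v.2 + 2).toNat (by
      intro i hi
      left
      refine ⟨rfl, ?_, ?_⟩ <;> simp only <;> omega)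
    have e1 : (v.1, -2 + ((v.2 + 2).toNat : ℤ)) = v := by
      refine Prod.ext rfl ?_
      simp only
      omega
    rw [e1] at c1
    have c2 : Relation.ReflTransGen (fun u v => IsUnit4 (v - u) ∧ B v) v z :=
      Relation.ReflTransGen.mono (fun a b hab => ⟨hab.1.1, Or.inr (Or.inl hab.2)⟩) _ _ hcx.self
    have c3 : Relation.ReflTransGen (fun u v => IsUnit4 (v - u) ∧ B v) z z' :=
      Relation.ReflTransGen.single ⟨had.1, Or.inr (Or.inr ⟨rfl, le_rfl, hz'r.2.2⟩)⟩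
    have c4 := col_path B z'.1 z'.2 (l + 1 - z'.2).toNat (by
      intro i hi
      right
      right
      refine ⟨rfl, ?_, ?_⟩ <;> simp only <;> omega)
    have e4 : (z'.1, z'.2 + ((l + 1 - z'.2).toNat : ℤ)) = (z'.1, l + 1) := by
      refine Prod.ext rfl ?_
      simp only
      omega
    rw [e4] at c4
    exact (c1.trans c2).trans (c3.trans c4)
  obtain ⟨w, hwA, hwB⟩ := cross_set (A := A) (B := B) (a := -(l + 1)) (b := l + 1) (c := -2)
    (d := l + 1) hP (Or.inl ⟨rfl, le_rfl, by simp only; omega⟩) hQ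
    (Or.inl ⟨rfl, le_rfl, by simp only; omega⟩)
    (fun w hw => by
      rcases hw with hw | hw | hw
      · omega
      · have := (hbox w hw).1
        unfold inB at this
        omega
      · omega)
    (fun w hw => by
      rcases hw with hw | hw | hw
      · omega
      · have := hboxX w hw
        unfold inB at this
        omega
      · omega) rfl rfl rfl rfl
  rcases hwB with hwB | hwB | hwB
  · exfalso
    rcases hwA with hwA | hwA | hwA
    · omega
    · have := hbox w hwA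
      unfold inB at this
      omega
    · omega
  · rcases hwA with hwA | hwA | hwA
    · exfalso
      have := hboxX w hwB
      unfold inB at this
      omega
    · exact hwB.co.trans (hwA.mono h01).symm
    · exfalso
      have := hboxX w hwB
      unfold inB at this
      omega
  · exfalso
    rcases hwA with hwA | hwA | hwA
    · omega
    · have := (hbox w hwA).1
      unfold inB at this
      omega
    · omega

/-- N2: an arch around a pivotal edge is impossible. -/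
theorem arch_block {a b d j l : ℤ} {A1 A2 : ℤ × ℤ → Prop} {x y : ℤ × ℤ} {ω : Finset (ℤ × ℤ)}
    (ha : a < -l) (hb : l < b) (hd : l < d) (hj : 1 ≤ j) (hjl : j ≤ l)
    (hA1 : ∀ v, A1 v → bdB a b 0 d v) (hA2 : ∀ v, A2 v → bdB a b 0 d v)
    (hc : ∀ t, -l ≤ t → t ≤ l → (A1 (t, 0) ↔ A1 (0, 0)) ∧ (A2 (t, 0) ↔ A2 (0, 0)))
    (hxy : IsUnit4 (y - x)) (hx : -j < x.1 ∧ x.1 < j ∧ 0 ≤ x.2 ∧ x.2 < j)
    (hy : -j < y.1 ∧ y.1 < j ∧ 0 ≤ y.2 ∧ y.2 < j)
    (hp : Piv (QC a b 0 d A1 A2) (x + y) ω) : ¬ Arch j l ω := by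
  rintro ⟨s, t, hsl, hs, ht, htl, harch⟩
  have he : x + y ∈ Bx a b 0 d := add_mem_Bx hxy (by unfold inB; omega) (by unfold inB; omega)
  have hej : x + y ∈ Bx (-j) j 0 j :=
    add_mem_Bx hxy (by unfold inB; omega) (by unfold inB; omega)
  set ω0 : Finset (ℤ × ℤ) := (ω ∩ Bx a b 0 d).erase (x + y) with hω0
  set ω1 : Finset (ℤ × ℤ) := (ω ∩ Bx (-l) l 0 l) \ Bx (-j) j 0 j with hω1
  have h0 : ω0 ⊆ Bx a b 0 d := fun e he => (mem_inter.1 (mem_of_mem_erase he)).2
  have h1 : ω1 ⊆ Bx (-l) l 0 l := fun e he => (mem_inter.1 (mem_sdiff.1 he).1).2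
  have h2 : ∀ e ∈ ω1, e ∉ Bx (-j) j 0 j := fun e he => (mem_sdiff.1 he).2
  have h01 : ω1 ⊆ ω0 := by
    intro e hee
    have h3 := mem_sdiff.1 hee
    have h4 := mem_inter.1 h3.1
    refine mem_erase.2 ⟨?_, mem_inter.2 ⟨h4.1, Bx_sub ha.le hb.le le_rfl hd.le h4.2⟩⟩
    rintro rfl
    exact h3.2 hej
  -- translate pivotality
  have hn : ¬ QC a b 0 d A1 A2 (ω.erase (x + y)) := hp.2
  have hn' : ¬ RC (fun p => inB a b 0 d p ∧ A1 p) A2 ω0 := by
    intro h
    apply hn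
    rw [QC_RC]
    have : (ω.erase (x + y)) ∩ Bx a b 0 d = ω0 := by
      rw [hω0, erase_inter]
    rw [this]
    exact h
  have hpiv : Piv (RC (fun p => inB a b 0 d p ∧ A1 p) A2) (x + y) (ω ∩ Bx a b 0 d) := by
    refine ⟨?_, hn'⟩
    have h3 := hp.1
    rw [QC_RC, insert_inter_of_mem he] at h3
    exact h3
  obtain ⟨hxy', p, q, ⟨hpin, hpA⟩, hqA, hcon⟩ := piv_ends hxy hpiv
  -- symmetric formulation
  have key : ∀ u v : ℤ × ℤ, (-j < u.1 ∧ u.1 < j ∧ 0 ≤ u.2 ∧ u.2 < j) →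
      (-j < v.1 ∧ v.1 < j ∧ 0 ≤ v.2 ∧ v.2 < j) → ¬ Co ω0 u v → Co ω0 p u → Co ω0 v q → False := by
    intro u v hu hv huv hpu hvq
    have seg : ∀ w, bdB a b 0 d w → inB (-l) l 0 l w → w = (w.1, 0) ∧ -l ≤ w.1 ∧ w.1 ≤ l := by
      intro w hw1 hw2
      unfold bdB inB at hw1
      unfold inB at hw2
      refine ⟨Prod.ext rfl ?_, by omega, by omega⟩
      simp only
      omega
    have hA1s : inB (-l) l 0 l p → A1 (s, 0) := by
      intro hpl
      obtain ⟨h3, h4, h5⟩ := seg p (hA1 p hpA) hpl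
      rw [h3] at hpA
      exact ((hc s hsl (by omega)).1).2 (((hc p.1 h4 h5).1).1 hpA)
    have hA2s : inB (-l) l 0 l q → A2 (s, 0) := by
      intro hql
      obtain ⟨h3, h4, h5⟩ := seg q (hA2 q hqA) hql
      rw [h3] at hqA
      exact ((hc s hsl (by omega)).2).2 (((hc q.1 h4 h5).2).1 hqA)
    have hsin : inB a b 0 d (s, 0) := by unfold inB; simp only; omega
    by_cases hpl : inB (-l) l 0 l p
    · by_cases hql : inB (-l) l 0 l q
      · exact hn' ⟨(s, 0), (s, 0), ⟨hsin, hA1s hpl⟩, hA2s hql, Co.refl _ _⟩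
      · have h3 := cross_arch h0 h1 h01 h2 hsl hs ht htl hj hjl harch hv hql hvq
        exact hn' ⟨(s, 0), q, ⟨hsin, hA1s hpl⟩, hqA, h3.symm.trans hvq⟩
    · have h3 := cross_arch h0 h1 h01 h2 hsl hs ht htl hj hjl harch hu hpl hpu.symm
      by_cases hql : inB (-l) l 0 l q
      · exact hn' ⟨p, (s, 0), ⟨hpin, hpA⟩, hA2s hql, hpu.trans h3⟩
      · have h4 := cross_arch h0 h1 h01 h2 hsl hs ht htl hj hjl harch hv hql hvq
        exact huv (h3.trans h4.symm)
  rcases hcon with ⟨h3, h4⟩ | ⟨h3, h4⟩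
  · exact key x y hx hy hxy' h3 h4
  · exact key y x hy hx (fun h => hxy' h.symm) h3 h4

end Pool.Agent.H47.NC
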