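import Mathlib
import Pool.Agent.H47.NC.Window
import Pool.Agent.H47.NC.Above1
import Pool.Agent.H47.NC.Above2
import Pool.Agent.H47.NC.ArchGeo
import Pool.Agent.H47.NC.ArchProb
import Pool.Agent.H47.NC.HalfRec
import Pool.Agent.H68.NC.Final

set_option autoImplicit false
open Finset

/-! The exponent `5/36` of the percolation probability from the two gluing statements and the order of
the four-arm probability at the critical point. -/

namespace Pool.Agent.H47.NC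

open Pool.Agent.H75.Perc Pool.Agent.H99.NC Pool.Agent.H68.NC

lemma exists_NoArch : ∃ C : ℝ, 1 ≤ C ∧ NoArch C := by
  obtain ⟨C, hC, h⟩ := noArch_half
  refine ⟨max C 1, le_max_right _ _, fun j l hj hjl => (h j l hj hjl).trans ?_⟩
  apply mul_le_mul_of_nonneg_right (le_max_left _ _)
  positivity

lemma archBlock : ArchBlock := fun ha hb hd hj hjl h1 h2 hc hxy hx hy hp =>
  arch_block ha hb hd hj hjl h1 h2 hc hxy hx hy hp

/-- **Closure of the scaling argument.** -/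
theorem closure (hOut : OutStep) (hIn : InStep) {c1 C1 : ℝ} (hc1 : 0 < c1)
    (hlo : ∀ m : ℤ, 1 ≤ m → c1 * (m : ℝ) ^ (-(5 / 4) : ℝ) ≤ uP (1 / 2) m)
    (hup : ∀ m : ℤ, 1 ≤ m → uP (1 / 2) m ≤ C1 * (m : ℝ) ^ (-(5 / 4) : ℝ)) :
    WinArm ∧ LBound := by
  obtain ⟨C, hC, hN⟩ := exists_NoArch
  obtain ⟨a, K0, c3, δ, M0, ha, hK0, hc3, hδ, hM0, hw⟩ :=
    window_stab hC hN archBlock hOut hIn hc1 hlo hup
  constructor
  · obtain ⟨C2, hC2, h2⟩ := one_arm_window_q K0 a (by linarith)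
    refine ⟨a, C2, ha, hC2, fun p hp p1 n hn hpn => ?_⟩
    obtain ⟨g1, -, -⟩ := hw p n hp p1 hn hpn
    have h3 := h2 p n hn hp p1 hpn g1
    unfold pi1
    rw [oneArm_PrP (by linarith) p1 n, oneArm_PrP (by norm_num) (by norm_num) n, PrP_half]
    exact h3
  · refine above_int (a := a / 4) (by positivity) fun δ' hδ' => ?_
    obtain ⟨c, h0, hc, hh0, h3⟩ := above_piv hIn hδ' hc3 (K0 := K0) (by linarith) M0
    refine ⟨c, h0, hc, hh0, fun p h J N hp p1 hh hN hRS hph => h3 p h J N hp p1 hh hN hRS ?_⟩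
    have hh1 : 1 ≤ h := hh0.trans hh
    have hcl : Cl p (cp p) := fun e => ⟨hp, le_rfl⟩
    have hu10 : IsUnit4 (((1, 0) : ℤ × ℤ) - (0, 0)) := by unfold IsUnit4; simp
    obtain ⟨g1, g2, -⟩ := hw p (4 * h).toNat hp p1 (by omega) (by
      have e : (((4 * h).toNat : ℕ) : ℝ) = 4 * h := by
        have : (((4 * h).toNat : ℕ) : ℤ) = 4 * h := by omega
        exact_mod_cast this
      rw [e, Real.mul_rpow (by norm_num) (by
        have : (0 : ℤ) ≤ h := by omega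
        exact_mod_cast this)]
      have h4 : (4 : ℝ) ^ (3 / 4 : ℝ) ≤ 4 := by
        calc (4 : ℝ) ^ (3 / 4 : ℝ) ≤ 4 ^ (1 : ℝ) :=
              Real.rpow_le_rpow_of_exponent_le (by norm_num) (by norm_num)
          _ = 4 := Real.rpow_one 4
      have h5 : 0 ≤ (p - 1 / 2) * (h : ℝ) ^ (3 / 4 : ℝ) := by
        have : (0 : ℝ) ≤ h := by exact_mod_cast (by omega : (0 : ℤ) ≤ h)
        have : 0 ≤ p - 1 / 2 := by linarith
        positivity
      calc (p - 1 / 2) * ((4 : ℝ) ^ (3 / 4 : ℝ) * (h : ℝ) ^ (3 / 4 : ℝ))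
          = (4 : ℝ) ^ (3 / 4 : ℝ) * ((p - 1 / 2) * (h : ℝ) ^ (3 / 4 : ℝ)) := by ring
        _ ≤ 4 * ((p - 1 / 2) * (h : ℝ) ^ (3 / 4 : ℝ)) := mul_le_mul_of_nonneg_right h4 h5
        _ ≤ a := by linarith)
    intro m hm0 hm1 hm2
    constructor
    · have := g2 (cp p) hcl (0, 0) (1, 0) hu10 m hm0 (by omega)
      rwa [uQ_cp p hu10] at this
    · exact g1 (cp p) hcl (0, 0) (1, 0) m hu10 hm1 (by omega)

/-- **The exponent `5/36`** from the three gluing statements. -/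
theorem theta_order (hOut : OutStep) (hIn : InStep) (hCS : OutCS) :
    ∃ c C : ℝ, 0 < c ∧ 0 < C ∧ ∀ p : ℝ, 1 / 2 < p → p ≤ 1 →
      c * (p - 1 / 2) ^ (5 / 36 : ℝ) ≤ theta p ∧ theta p ≤ C * (p - 1 / 2) ^ (5 / 36 : ℝ) := by
  obtain ⟨c1, hc1, hlo⟩ := uP_half_lower
  obtain ⟨C1, hup⟩ := uP_half_up hCS
  obtain ⟨h1, h2⟩ := closure hOut hIn hc1 hlo hup
  exact theta_bounds h1 h2

end Pool.Agent.H47.NC
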