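import Pool.Agent.H47.NC.Pack

set_option autoImplicit false
set_option linter.unusedSectionVars false

/-!
# The colouring lemma and the partition of DeVos, Johnson and Seymour
-/

namespace Pool.Agent.H47.NC

open Finset Pool.Agent.H47.FC

/-- greedy 3-colouring -/
lemma three_col {E : Type} [DecidableEq E] (key : E → ℕ) (hinj : Function.Injective key)
    (p q : E → E) : ∀ n : ℕ, ∃ c : E → Fin 3, ∀ f, key f < n →
      (key (p f) < key f → c f ≠ c (p f)) ∧ (key (q f) < key f → c f ≠ c (q f)) := by
  intro n
  induction n with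
  | zero => exact ⟨fun _ => 0, fun f hf => absurd hf (Nat.not_lt_zero _)⟩
  | succ n ih =>
    obtain ⟨c, hc⟩ := ih
    by_cases hex : ∃ f, key f = n
    · obtain ⟨f, hf⟩ := hex
      obtain ⟨x, hx1, hx2⟩ : ∃ x : Fin 3, x ≠ c (p f) ∧ x ≠ c (q f) := by
        generalize c (p f) = u
        generalize c (q f) = v
        revert u v
        decide
      refine ⟨Function.update c f x, ?_⟩
      intro g hg
      by_cases hgf : g = f
      · subst hgf
        rw [Function.update_self]
        constructor
        · intro h1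
          have h2 : p g ≠ g := fun h => by rw [h] at h1; exact lt_irrefl _ h1
          rw [Function.update_of_ne h2]
          exact hx1
        · intro h1
          have h2 : q g ≠ g := fun h => by rw [h] at h1; exact lt_irrefl _ h1
          rw [Function.update_of_ne h2]
          exact hx2
      · have h0 : key g < n := by
          have h1 : key g ≠ n := fun h => hgf (hinj (h.trans hf.symm))
          omega
        rw [Function.update_of_ne hgf]
        obtain ⟨h1, h2⟩ := hc g h0
        constructor
        · intro h3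
          have h4 : p g ≠ f := fun h => by rw [h, hf] at h3; omega
          rw [Function.update_of_ne h4]
          exact h1 h3
        · intro h3
          have h4 : q g ≠ f := fun h => by rw [h, hf] at h3; omega
          rw [Function.update_of_ne h4]
          exact h2 h3
    · refine ⟨c, fun g hg => hc g ?_⟩
      have : key g ≠ n := fun h => hex ⟨g, h⟩
      omega

section

variable {V E : Type} [DecidableEq V] [Fintype V] [DecidableEq E] [Fintype E] (a b : E → V)

lemma not_mem_of_card {T : Finset E} (h : T.card = rk a b T) {t : E} (ht : t ∈ T) :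
    vec a b t ∉ sp a b (T.erase t) := by
  intro hmem
  have h1 : sp a b T = sp a b (T.erase t) := by
    apply le_antisymm
    · unfold sp
      rw [Submodule.span_le]
      rintro _ ⟨e, he, rfl⟩
      by_cases het : e = t
      · rw [het]; exact hmem
      · exact vec_mem a b (mem_erase.2 ⟨het, mem_coe.1 he⟩)
    · exact sp_mono a b (erase_subset _ _)
  have h2 : rk a b T = rk a b (T.erase t) := by unfold rk; rw [h1]
  have h3 : rk a b (T.erase t) ≤ (T.erase t).card := by
    unfold rk sp
    rw [← coe_image]
    exact (finrank_span_finset_le_card _).trans card_image_le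
  rw [card_erase_of_mem ht] at h3
  have := card_pos.2 ⟨t, ht⟩
  omega

/-- if two vertices in one class are separated, some edge crosses -/
lemma exists_crs_pair {A : Finset E} {x y : V} (h : dl x + dl y ∈ sp a b A) {X : Finset V}
    (hx : x ∈ X) (hy : y ∉ X) : ∃ f ∈ A, Crs a b X f := by
  by_contra hcon
  push Not at hcon
  have h1 := sum_zero_of_mem a b hcon h
  simp only [Pi.add_apply, sum_add_distrib, sum_dl, if_pos hx, if_neg hy, add_zero] at h1
  exact one_ne_zero h1

/-- **Laminar sides** of a forest. -/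
theorem laminar_sides (T : Finset E) (hind : ∀ t ∈ T, vec a b t ∉ sp a b (T.erase t)) :
    ∃ X : E → Finset V, (∀ t ∈ T, Crs a b (X t) t) ∧
      (∀ t ∈ T, ∀ g ∈ T, g ≠ t → ¬ Crs a b (X t) g) ∧
      (∀ t ∈ T, ∀ t' ∈ T, ∀ x, x ∈ X t → x ∈ X t' → X t ⊆ X t' ∨ X t' ⊆ X t) := by
  classical
  -- roots
  let ρ : V → V := fun v => (⟨v, self_mem_cls a b T v⟩ : (cls a b T v).Nonempty).choose
  have hρ1 : ∀ v, ρ v ∈ cls a b T v := fun v =>
    (⟨v, self_mem_cls a b T v⟩ : (cls a b T v).Nonempty).choose_spec
  have hρ2 : ∀ u v, cls a b T u = cls a b T v → ρ u = ρ v := by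
    intro u v h
    have : ∀ (A B : Finset V) (hA : A.Nonempty) (hB : B.Nonempty), A = B → hA.choose = hB.choose := by
      intro A B hA hB hAB
      subst hAB
      rfl
    exact this _ _ _ _ h
  have hside : ∀ t ∈ T, ∃ X : Finset V, Crs a b X t ∧ (∀ g ∈ T, g ≠ t → ¬ Crs a b X g) ∧
      (∀ v, ρ v ∉ X) ∧ (∀ x ∈ X, ∀ y ∈ X, dl x + dl y ∈ sp a b (T.erase t)) := by
    intro t ht
    have hmemT : ∀ u v, v ∈ cls a b (T.erase t) u → v ∈ cls a b T u := by
      intro u v h
      rw [mem_cls] at h ⊢
      exact sp_mono a b (erase_subset _ _) h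
    have hpair : ∀ u, ∀ x ∈ cls a b (T.erase t) u, ∀ y ∈ cls a b (T.erase t) u,
        dl x + dl y ∈ sp a b (T.erase t) := by
      intro u x hx y hy
      rw [← mem_cls, cls_eq a b hx]
      exact hy
    have hgen : ∀ g ∈ T, g ≠ t → ∀ u, ¬ Crs a b (cls a b (T.erase t) u) g := by
      intro g hg hgt u
      exact not_crs_cls a b u (vec_mem a b (mem_erase.2 ⟨hgt, hg⟩))
    have hab : b t ∉ cls a b (T.erase t) (a t) := by
      rw [mem_cls]; exact hind t ht
    have hba : a t ∉ cls a b (T.erase t) (b t) := by
      rw [mem_cls, add_comm]; exact hind t ht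
    have hT1 : cls a b T (b t) = cls a b T (a t) := by
      apply cls_eq
      rw [mem_cls]
      exact vec_mem a b ht
    -- roots of vertices in a side
    have hroot : ∀ u v, ρ v ∈ cls a b (T.erase t) u → cls a b T u = cls a b T (a t) →
        ρ v = ρ (a t) := by
      intro u v h hu
      apply hρ2
      have h1 := cls_eq a b (hmemT u _ h)
      have h2 := cls_eq a b (hρ1 v)
      rw [← h2, h1, hu]
    by_cases hr : ρ (a t) ∈ cls a b (T.erase t) (a t)
    · refine ⟨cls a b (T.erase t) (b t), ?_, fun g hg hgt => hgen g hg hgt _, ?_, hpair _⟩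
      · intro h
        exact hba (h.2 (self_mem_cls a b _ _))
      · intro v hv
        have h1 := hroot _ v hv hT1
        rw [h1] at hv
        have h2 := cls_eq a b hr
        have h3 := cls_eq a b hv
        apply hba
        rw [← h3, h2]
        exact self_mem_cls a b _ _
    · refine ⟨cls a b (T.erase t) (a t), ?_, fun g hg hgt => hgen g hg hgt _, ?_, hpair _⟩
      · intro h
        exact hab (h.1 (self_mem_cls a b _ _))
      · intro v hv
        have h1 := hroot _ v hv rfl
        rw [h1] at hv
        exact hr hv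
  choose! X hX1 hX2 hX3 hX4 using hside
  refine ⟨X, hX1, hX2, ?_⟩
  intro t ht t' ht' x hx hx'
  by_cases htt : t = t'
  · subst htt; exact Or.inl (Subset.refl _)
  by_contra hcon
  rw [not_or] at hcon
  obtain ⟨h1, h2⟩ := hcon
  rw [not_subset] at h1 h2
  obtain ⟨u, hu, hu'⟩ := h1
  obtain ⟨v, hv, hv'⟩ := h2
  -- `t` has both ends in `X t'`
  have ht1 : a t ∈ X t' ∧ b t ∈ X t' := by
    obtain ⟨f, hf, hcf⟩ := exists_crs_pair a b (hX4 t' ht' x hx' v hv)
      (X := X t ∩ X t') (mem_inter.2 ⟨hx, hx'⟩) (fun h => hv' (mem_inter.1 h).1)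
    have hfT := mem_of_mem_erase hf
    have hft' := ne_of_mem_erase hf
    have hn := hX2 t' ht' f hfT hft'
    unfold Crs at hn hcf
    rw [not_not] at hn
    have hft : f = t := by
      by_contra hft
      have hn2 := hX2 t ht f hfT hft
      unfold Crs at hn2
      rw [not_not] at hn2
      apply hcf
      rw [mem_inter, mem_inter, hn, hn2]
    subst hft
    rw [mem_inter, mem_inter] at hcf
    tauto
  have ht2 : a t' ∈ X t ∧ b t' ∈ X t := by
    obtain ⟨f, hf, hcf⟩ := exists_crs_pair a b (hX4 t ht x hx u hu)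
      (X := X t ∩ X t') (mem_inter.2 ⟨hx, hx'⟩) (fun h => hu' (mem_inter.1 h).2)
    have hfT := mem_of_mem_erase hf
    have hft' := ne_of_mem_erase hf
    have hn := hX2 t ht f hfT hft'
    unfold Crs at hn hcf
    rw [not_not] at hn
    have hft : f = t' := by
      by_contra hft
      have hn2 := hX2 t' ht' f hfT hft
      unfold Crs at hn2
      rw [not_not] at hn2
      apply hcf
      rw [mem_inter, mem_inter, hn, hn2]
    subst hft
    rw [mem_inter, mem_inter] at hcf
    tauto
  -- the union is not crossed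
  have hun : ∀ g ∈ T, ¬ Crs a b (X t ∪ X t') g := by
    intro g hg hcg
    unfold Crs at hcg
    rw [mem_union, mem_union] at hcg
    by_cases h3 : g = t
    · subst h3; tauto
    by_cases h4 : g = t'
    · subst h4; tauto
    have h5 := hX2 t ht g hg h3
    have h6 := hX2 t' ht' g hg h4
    unfold Crs at h5 h6
    tauto
  have h7 := sum_zero_of_mem a b hun ((mem_cls a b T x _).1 (hρ1 x))
  simp only [Pi.add_apply, sum_add_distrib, sum_dl] at h7
  rw [if_pos (mem_union_left _ hx), if_neg (by
    rw [mem_union]
    rintro (h | h)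
    · exact hX3 t ht x h
    · exact hX3 t' ht' x h), add_zero] at h7
  exact one_ne_zero h7

/-- **Colouring lemma.** The edges outside a spanning forest of a 3-edge-connected graph can be
3-coloured such that no fundamental cut is monochromatic. -/
theorem color_lemma (H T : Finset E) (hTH : T ⊆ H) (hsp : sp a b T = sp a b H)
    (hcard : T.card = rk a b T) (hcut : CutGe a b H 3) :
    ∃ c : E → Fin 3, ∀ X : Finset V, (T.filter (fun f => Crs a b X f)).card = 1 →
      ∃ f ∈ H \ T, ∃ g ∈ H \ T, Crs a b X f ∧ Crs a b X g ∧ c f ≠ c g := by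
  classical
  obtain ⟨S, hS1, hS2, hS3⟩ := laminar_sides a b T (fun t ht => not_mem_of_card a b hcard ht)
  -- cut of `t` outside `T`
  let K : E → Finset E := fun t => (H \ T).filter (fun f => Crs a b (S t) f)
  have hK : ∀ t ∈ T, 2 ≤ (K t).card := by
    intro t ht
    have h1 := hcut (S t) ⟨t, hTH ht, hS1 t ht⟩
    have h2 : H.filter (fun f => Crs a b (S t) f) ⊆ insert t (K t) := by
      intro f hf
      rw [mem_filter] at hf
      rw [mem_insert]
      by_cases hft : f = t
      · exact Or.inl hft
      · right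
        rw [mem_filter, mem_sdiff]
        refine ⟨⟨hf.1, fun hfT => ?_⟩, hf.2⟩
        exact hS2 t ht f hfT hft hf.2
    have h3 := card_le_card h2
    have h4 := card_insert_le t (K t)
    omega
  -- keys
  let lv : E → ℕ := fun f => (T.filter (fun u => a f ∈ S u ∧ b f ∈ S u)).card
  let N := Fintype.card E
  let idx : E → ℕ := fun e => (Fintype.equivFin E e).1
  have hidx : ∀ e, idx e < N := fun e => (Fintype.equivFin E e).2
  have hidxinj : ∀ e f, idx e = idx f → e = f := by
    intro e f h
    exact (Fintype.equivFin E).injective (Fin.ext h)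
  let key : E → ℕ := fun e => lv e * N + idx e
  have hkey_lv : ∀ e f, key e < key f → lv e ≤ lv f := by
    intro e f h
    by_contra hlt
    push Not at hlt
    have h1 : (lv f + 1) * N ≤ lv e * N := Nat.mul_le_mul_right N hlt
    have h2 := hidx f
    have h3 : key e < key f := h
    show False
    have h4 : key e = lv e * N + idx e := rfl
    have h5 : key f = lv f * N + idx f := rfl
    rw [add_mul, one_mul] at h1
    omega
  have hkinj : Function.Injective key := by
    intro e f h
    have h1 := hidx e
    have h2 := hidx f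
    have h3 : lv e * N + idx e = lv f * N + idx f := h
    have h4 : lv e = lv f := by
      rcases lt_trichotomy (lv e) (lv f) with h5 | h5 | h5
      · exfalso
        have h6 : (lv e + 1) * N ≤ lv f * N := Nat.mul_le_mul_right N h5
        rw [add_mul, one_mul] at h6
        omega
      · exact h5
      · exfalso
        have h6 : (lv f + 1) * N ≤ lv e * N := Nat.mul_le_mul_right N h5
        rw [add_mul, one_mul] at h6
        omega
    rw [h4] at h3
    exact hidxinj e f (by omega)
  -- first and second elements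
  have hfirst : ∀ t ∈ T, ∃ g ∈ K t, ∀ f ∈ K t, key g ≤ key f := by
    intro t ht
    have hne : (K t).Nonempty := card_pos.1 (by have := hK t ht; omega)
    exact exists_min_image _ _ hne
  choose! fst hfst1 hfst2 using hfirst
  have hsecond : ∀ t ∈ T, ∃ g ∈ (K t).erase (fst t), ∀ f ∈ (K t).erase (fst t), key g ≤ key f := by
    intro t ht
    have hne : ((K t).erase (fst t)).Nonempty := by
      apply card_pos.1
      rw [card_erase_of_mem (hfst1 t ht)]
      have := hK t ht
      omega
    exact exists_min_image _ _ hne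
  choose! snd hsnd1 hsnd2 using hsecond
  have hlt : ∀ t ∈ T, key (fst t) < key (snd t) := by
    intro t ht
    have h1 := hfst2 t ht (snd t) (mem_of_mem_erase (hsnd1 t ht))
    have h2 : key (fst t) ≠ key (snd t) := fun h => ne_of_mem_erase (hsnd1 t ht) (hkinj h).symm
    omega
  -- main claim
  have hclaim : ∀ t ∈ T, ∀ t' ∈ T, snd t = snd t' → S t ⊆ S t' →
      ((a (snd t) ∈ S t ∧ a (snd t) ∈ S t') ∨ (b (snd t) ∈ S t ∧ b (snd t) ∈ S t')) →
      fst t = fst t' := by
    intro t ht t' ht' hst hsub hend
    set f := snd t with hf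
    have hfK : f ∈ K t := mem_of_mem_erase (hsnd1 t ht)
    have hfK' : f ∈ K t' := by rw [hst]; exact mem_of_mem_erase (hsnd1 t' ht')
    have hgK : fst t ∈ K t := hfst1 t ht
    have hcf : Crs a b (S t) f := (mem_filter.1 hfK).2
    have hcf' : Crs a b (S t') f := (mem_filter.1 hfK').2
    have hcg : Crs a b (S t) (fst t) := (mem_filter.1 hgK).2
    have hgK' : fst t ∈ K t' := by
      rw [mem_filter]
      refine ⟨(mem_filter.1 hgK).1, ?_⟩
      by_contra hng
      have hng' : a (fst t) ∈ S t' ↔ b (fst t) ∈ S t' := not_not.1 hng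
      have hboth : a (fst t) ∈ S t' ∧ b (fst t) ∈ S t' := by
        unfold Crs at hcg
        by_cases h1 : a (fst t) ∈ S t
        · exact ⟨hsub h1, hng'.1 (hsub h1)⟩
        · have h2 : b (fst t) ∈ S t := by
            by_contra h2
            exact hcg ⟨fun h => absurd h h1, fun h => absurd h h2⟩
          exact ⟨hng'.2 (hsub h2), hsub h2⟩
      have h3 : lv f < lv (fst t) := by
        apply card_lt_card
        rw [ssubset_iff_of_subset]
        · refine ⟨t', mem_filter.2 ⟨ht', hboth⟩, ?_⟩
          intro h4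
          rw [mem_filter] at h4
          apply hcf'
          exact ⟨fun _ => h4.2.2, fun _ => h4.2.1⟩
        · intro u hu
          rw [mem_filter] at hu ⊢
          refine ⟨hu.1, ?_⟩
          have h5 : ∃ z, z ∈ S t' ∧ z ∈ S u := by
            rcases hend with h6 | h6
            · exact ⟨_, h6.2, hu.2.1⟩
            · exact ⟨_, h6.2, hu.2.2⟩
          obtain ⟨z, hz1, hz2⟩ := h5
          rcases hS3 t' ht' u hu.1 z hz1 hz2 with h7 | h7
          · exact ⟨h7 hboth.1, h7 hboth.2⟩
          · exfalso
            apply hcf'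
            exact ⟨fun _ => h7 hu.2.2, fun _ => h7 hu.2.1⟩
      have h4 := hkey_lv _ _ (hlt t ht)
      rw [← hf] at h4
      omega
    by_contra hne
    have h5 := hsnd2 t' ht' (fst t) (mem_erase.2 ⟨hne, hgK'⟩)
    have h6 := hlt t ht
    rw [← hst] at h5
    rw [← hf] at h6
    omega
  -- partners
  let p : E → E := fun f => if h : ∃ t ∈ T, snd t = f ∧ a f ∈ S t then fst h.choose else f
  let q : E → E := fun f => if h : ∃ t ∈ T, snd t = f ∧ b f ∈ S t then fst h.choose else f
  obtain ⟨M, hM⟩ : ∃ M, ∀ e, key e < M := by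
    refine ⟨∑ e, key e + 1, fun e => ?_⟩
    have := single_le_sum (f := key) (fun _ _ => Nat.zero_le _) (mem_univ e)
    omega
  obtain ⟨c, hc⟩ := three_col key hkinj p q M
  refine ⟨c, ?_⟩
  intro X hX
  obtain ⟨t, ht⟩ := card_eq_one.1 hX
  have htT : t ∈ T ∧ Crs a b X t := by
    have : t ∈ T.filter (fun f => Crs a b X f) := by rw [ht]; exact mem_singleton_self _
    exact mem_filter.1 this
  have hcrs : ∀ f ∈ H, Crs a b (S t) f → Crs a b X f := by
    intro f hf hcf
    by_contra hnf
    have h1 : Crs a b (symmDiff X (S t)) f := by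
      rw [crs_symmDiff]
      intro h; exact hnf (h.2 hcf)
    obtain ⟨g, hg, hcg⟩ := exists_crs a b (F := T) (by rw [hsp]; exact vec_mem a b hf) h1
    rw [crs_symmDiff] at hcg
    apply hcg
    by_cases hgt : g = t
    · subst hgt
      exact ⟨fun _ => hS1 _ htT.1, fun _ => htT.2⟩
    · constructor
      · intro h
        exfalso
        apply hgt
        have : g ∈ T.filter (fun f => Crs a b X f) := mem_filter.2 ⟨hg, h⟩
        rw [ht, mem_singleton] at this
        exact this
      · intro h
        exact absurd h (hS2 t htT.1 g hg hgt)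
  have hsK : snd t ∈ K t := mem_of_mem_erase (hsnd1 t htT.1)
  have hfK : fst t ∈ K t := hfst1 t htT.1
  refine ⟨snd t, (mem_filter.1 hsK).1, fst t, (mem_filter.1 hfK).1,
    hcrs _ (mem_sdiff.1 (mem_filter.1 hsK).1).1 (mem_filter.1 hsK).2,
    hcrs _ (mem_sdiff.1 (mem_filter.1 hfK).1).1 (mem_filter.1 hfK).2, ?_⟩
  have hcs := hc (snd t) (hM _)
  have hcr : Crs a b (S t) (snd t) := (mem_filter.1 hsK).2
  by_cases ha : a (snd t) ∈ S t
  · have hex : ∃ t' ∈ T, snd t' = snd t ∧ a (snd t) ∈ S t' := ⟨t, htT.1, rfl, ha⟩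
    have hp : p (snd t) = fst hex.choose := dif_pos hex
    obtain ⟨h1, h2, h3⟩ := hex.choose_spec
    have h4 : fst hex.choose = fst t := by
      rcases hS3 _ h1 t htT.1 _ h3 ha with h5 | h5
      · exact hclaim _ h1 t htT.1 h2 h5 (Or.inl (by rw [h2]; exact ⟨h3, ha⟩))
      · exact (hclaim t htT.1 _ h1 h2.symm h5 (Or.inl ⟨ha, h3⟩)).symm
    have h5 := hcs.1
    rw [hp, h4] at h5
    exact h5 (hlt t htT.1)
  · have hb : b (snd t) ∈ S t := by
      by_contra hb
      exact hcr ⟨fun h => absurd h ha, fun h => absurd h hb⟩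
    have hex : ∃ t' ∈ T, snd t' = snd t ∧ b (snd t) ∈ S t' := ⟨t, htT.1, rfl, hb⟩
    have hp : q (snd t) = fst hex.choose := dif_pos hex
    obtain ⟨h1, h2, h3⟩ := hex.choose_spec
    have h4 : fst hex.choose = fst t := by
      rcases hS3 _ h1 t htT.1 _ h3 hb with h5 | h5
      · exact hclaim _ h1 t htT.1 h2 h5 (Or.inr (by rw [h2]; exact ⟨h3, hb⟩))
      · exact (hclaim t htT.1 _ h1 h2.symm h5 (Or.inr ⟨hb, h3⟩)).symm
    have h5 := hcs.2
    rw [hp, h4] at h5
    exact h5 (hlt t htT.1)

/-- **Partition theorem** (DeVos, Johnson, Seymour). The edges of a 3-edge-connected graph have a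
partition into nine classes such that deleting any class leaves a 2-edge-connected graph. -/
theorem partition_nine (H : Finset E) (hcut : CutGe a b H 3) :
    ∃ d : E → Fin 3 × Fin 3, ∀ p : Fin 3 × Fin 3,
      CutGe a b (H.filter (fun e => d e ≠ p)) 2 ∧
      sp a b (H.filter (fun e => d e ≠ p)) = sp a b H := by
  classical
  obtain ⟨T, hT1, hT2, hT3, hT4⟩ := three_bases a b ∅ H (fun X hX _ => hcut X hX)
  have hT2' : ∀ i, sp a b (T i) = sp a b H := by
    intro i
    have := hT2 i
    rw [union_empty, union_empty] at this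
    exact this
  have hT3' : ∀ i, (T i).card = rk a b (T i) := by
    intro i
    have h1 := hT3 i
    rw [union_empty] at h1
    have h2 : rk a b (∅ : Finset E) = 0 := by
      unfold rk sp
      rw [coe_empty, Set.image_empty, Submodule.span_empty, finrank_bot]
    have h3 : rk a b (T i) = rk a b H := by unfold rk; rw [hT2' i]
    omega
  choose io hio using hT4
  choose c hc using fun i => color_lemma a b H (T i) (hT1 i) (hT2' i) (hT3' i) hcut
  refine ⟨fun e => (io e, c (io e) e), ?_⟩
  rintro ⟨i, j⟩
  set R := H.filter (fun e => ((io e, c (io e) e) : Fin 3 × Fin 3) ≠ (i, j)) with hR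
  have hTR : T i ⊆ R := by
    intro e he
    rw [hR, mem_filter]
    refine ⟨hT1 i he, fun h => ?_⟩
    rw [Prod.mk.injEq] at h
    have := hio e
    rw [h.1] at this
    exact this he
  have hspR : sp a b R = sp a b H := by
    apply le_antisymm
    · exact sp_mono a b (filter_subset _ _)
    · rw [← hT2' i]; exact sp_mono a b hTR
  refine ⟨?_, hspR⟩
  rintro X ⟨e, heR, heX⟩
  have heH : e ∈ H := (mem_filter.1 heR).1
  obtain ⟨t, htT, htX⟩ := exists_crs a b (F := T i) (by rw [hT2' i]; exact vec_mem a b heH) heX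
  by_cases h1 : 2 ≤ ((T i).filter (fun f => Crs a b X f)).card
  · exact h1.trans (card_le_card (filter_subset_filter _ hTR))
  · have h2 : ((T i).filter (fun f => Crs a b X f)).card = 1 := by
      have h0 : 0 < ((T i).filter (fun f => Crs a b X f)).card :=
        card_pos.2 ⟨t, mem_filter.2 ⟨htT, htX⟩⟩
      omega
    obtain ⟨f, hf, g, hg, hfX, hgX, hfg⟩ := hc i X h2
    obtain ⟨x, hx, hxX, hxj⟩ : ∃ x ∈ H \ T i, Crs a b X x ∧ c i x ≠ j := by
      by_cases h3 : c i f = j
      · exact ⟨g, hg, hgX, fun h => hfg (h3.trans h.symm)⟩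
      · exact ⟨f, hf, hfX, h3⟩
    rw [mem_sdiff] at hx
    have hxR : x ∈ R := by
      rw [hR, mem_filter]
      refine ⟨hx.1, fun h => ?_⟩
      rw [Prod.mk.injEq] at h
      rw [h.1] at h
      exact hxj h.2
    have hxt : t ≠ x := fun h => hx.2 (h ▸ htT)
    have h3 : ({t, x} : Finset E) ⊆ R.filter (fun f => Crs a b X f) := by
      intro y hy
      rw [mem_insert, mem_singleton] at hy
      rcases hy with rfl | rfl
      · exact mem_filter.2 ⟨hTR htT, htX⟩
      · exact mem_filter.2 ⟨hxR, hxX⟩
    have h4 := card_le_card h3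
    rw [card_pair hxt] at h4
    exact h4

end

end Pool.Agent.H47.NC
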