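import Pool.Agent.H47.NC.Unit

set_option autoImplicit false
set_option linter.unusedSectionVars false

/-!
# Near-constant weights in the presence of 2-edge-cuts
-/

namespace Pool.Agent.H47.NC

open Finset Pool.Agent.H47.FC

section

variable {V E : Type} [DecidableEq V] [Fintype V] [DecidableEq E] [Fintype E] (a b : E → V)

/-- minimal sets of representatives for the 2-edge-cuts -/
lemma exists_reps (R : Finset E) : ∃ S ⊆ R,
    (∀ e ∈ R, e ∉ S → ∃ f ∈ S, f ≠ e ∧ ∃ X : Finset V,
      R.filter (fun g => Crs a b X g) = {e, f}) ∧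
    (∀ f ∈ S, ∀ g ∈ S, f ≠ g → ∀ X : Finset V, R.filter (fun g => Crs a b X g) ≠ {f, g}) := by
  classical
  let good : Finset E → Prop := fun S => S ⊆ R ∧ ∀ e ∈ R, e ∉ S → ∃ f ∈ S, f ≠ e ∧
    ∃ X : Finset V, R.filter (fun g => Crs a b X g) = {e, f}
  have hgR : good R := ⟨Subset.refl _, fun e he h => absurd he h⟩
  obtain ⟨S, hS, hmin⟩ : ∃ S, good S ∧ ∀ S', good S' → S.card ≤ S'.card := by
    obtain ⟨S, hS, hmin⟩ := exists_min_image (univ.filter good) card ⟨R, mem_filter.2 ⟨mem_univ _, hgR⟩⟩
    exact ⟨S, (mem_filter.1 hS).2, fun S' hS' => hmin S' (mem_filter.2 ⟨mem_univ _, hS'⟩)⟩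
  obtain ⟨hSR, hSd⟩ := hS
  refine ⟨S, hSR, hSd, ?_⟩
  intro f hf g hg hfg X hX
  have h5 : good (S.erase f) := by
    refine ⟨(erase_subset _ _).trans hSR, ?_⟩
    intro x hx hxS
    by_cases hxf : x = f
    · subst hxf
      exact ⟨g, mem_erase.2 ⟨hfg.symm, hg⟩, hfg.symm, X, hX⟩
    · have hxS' : x ∉ S := fun h => hxS (mem_erase.2 ⟨hxf, h⟩)
      obtain ⟨y, hyS, hyx, Y, hY⟩ := hSd x hx hxS'
      by_cases hyf : y = f
      · subst hyf
        have hxg : g ≠ x := fun h => hxS' (h ▸ hg)
        refine ⟨g, mem_erase.2 ⟨hfg.symm, hg⟩, hxg, symmDiff X Y, ?_⟩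
        ext z
        rw [mem_filter, crs_symmDiff]
        have hX1 : z ∈ R → (Crs a b X z ↔ z = y ∨ z = g) := by
          intro hz
          have h6 : z ∈ R.filter (fun g => Crs a b X g) ↔ z ∈ ({y, g} : Finset E) := by
            rw [hX]
          rw [mem_filter, mem_insert, mem_singleton] at h6
          rw [← h6]
          exact ⟨fun h => ⟨hz, h⟩, fun h => h.2⟩
        have hY1 : z ∈ R → (Crs a b Y z ↔ z = x ∨ z = y) := by
          intro hz
          have h6 : z ∈ R.filter (fun g => Crs a b Y g) ↔ z ∈ ({x, y} : Finset E) := by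
            rw [hY]
          rw [mem_filter, mem_insert, mem_singleton] at h6
          rw [← h6]
          exact ⟨fun h => ⟨hz, h⟩, fun h => h.2⟩
        rw [mem_insert, mem_singleton]
        constructor
        · rintro ⟨hz, h7⟩
          rw [hX1 hz, hY1 hz] at h7
          by_contra h8
          push Not at h8
          apply h7
          constructor
          · rintro (h9 | h9)
            · exact Or.inr h9
            · exact absurd h9 h8.2
          · rintro (h9 | h9)
            · exact absurd h9 h8.1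
            · exact Or.inl h9
        · rintro (rfl | rfl)
          · refine ⟨hx, ?_⟩
            rw [hX1 hx, hY1 hx]
            intro h9
            rcases h9.2 (Or.inl rfl) with h10 | h10
            · exact hyx h10.symm
            · exact hxg h10.symm
          · have hzR : z ∈ R := hSR hg
            refine ⟨hzR, ?_⟩
            rw [hX1 hzR, hY1 hzR]
            intro h9
            rcases h9.1 (Or.inr rfl) with h10 | h10
            · exact hxg h10
            · exact hfg h10.symm
      · exact ⟨y, mem_erase.2 ⟨hyf, hyS⟩, hyx, Y, hY⟩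
  have h6 := hmin _ h5
  rw [card_erase_of_mem hf] at h6
  have h7 := card_pos.2 ⟨f, hf⟩
  omega

/-- lifting even sets from a contraction -/
lemma lift_even (K : Finset E) (π : V → V) (hπ : ∀ v, dl v + dl (π v) ∈ sp a b K)
    {D : Finset E} (hD : EvenM (fun e => π (a e)) (fun e => π (b e)) D) (hdis : Disjoint D K) :
    ∃ Q ⊆ K, EvenM a b (D ∪ Q) := by
  have h1 : bd a b D = ∑ e ∈ D, ((dl (a e) + dl (π (a e))) + (dl (b e) + dl (π (b e)))) := by
    have h2 : bd a b D = bd a b D + bd (fun e => π (a e)) (fun e => π (b e)) D := by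
      unfold EvenM at hD
      rw [hD, add_zero]
    rw [h2]
    unfold bd
    rw [← sum_add_distrib]
    refine sum_congr rfl fun e _ => ?_
    abel
  have h2 : bd a b D ∈ sp a b K := by
    rw [h1]
    exact Submodule.sum_mem _ (fun e _ => Submodule.add_mem _ (hπ _) (hπ _))
  obtain ⟨Q, hQ, hQx⟩ := exists_join_of_mem a b h2
  refine ⟨Q, hQ, ?_⟩
  unfold EvenM
  rw [bd_union a b (disjoint_of_subset_right hQ hdis), hQx, add_self2]

/-- **Locally near-constant weights.** -/
theorem near_gen (m : E → ℕ)
    (hpair : ∀ e f, (∃ Y : Finset V, univ.filter (fun g => Crs a b Y g) = {e, f}) → m e = m f)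
    (h : ∀ e, 0 < m e → ∃ Hs : Finset E, e ∈ Hs ∧ (∀ f ∈ Hs, 4 * m e ≤ 5 * m f) ∧
      ∀ X : Finset V, (∃ f ∈ Hs, Crs a b X f) → 3 ≤ (Hs.filter (fun f => Crs a b X f)).card ∨
        ((Hs.filter (fun f => Crs a b X f)).card = 2 ∧
          ∃ Y : Finset V, univ.filter (fun g => Crs a b Y g) = Hs.filter (fun f => Crs a b X f))) :
    Cov a b (fun e => 32 * m e) := by
  classical
  obtain ⟨S, -, hS1, hS2⟩ := exists_reps a b (univ : Finset E)
  let K : Finset E := univ \ S
  have hKmem : ∀ e, e ∈ K ↔ e ∉ S := fun e => by simp [K]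
  let π : V → V := fun v => (⟨v, self_mem_cls a b K v⟩ : (cls a b K v).Nonempty).choose
  have hπ1 : ∀ v, π v ∈ cls a b K v := fun v =>
    (⟨v, self_mem_cls a b K v⟩ : (cls a b K v).Nonempty).choose_spec
  have hπ2 : ∀ u v, cls a b K u = cls a b K v → π u = π v := by
    intro u v h
    have : ∀ (A B : Finset V) (hA : A.Nonempty) (hB : B.Nonempty), A = B → hA.choose = hB.choose := by
      intro A B hA hB hAB
      subst hAB
      rfl
    exact this _ _ _ _ h
  have hπ3 : ∀ v, dl v + dl (π v) ∈ sp a b K := fun v => (mem_cls a b K v _).1 (hπ1 v)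
  let a' : E → V := fun e => π (a e)
  let b' : E → V := fun e => π (b e)
  let pre : Finset V → Finset V := fun X => univ.filter (fun v => π v ∈ X)
  have hcrs : ∀ X e, Crs a' b' X e ↔ Crs a b (pre X) e := by
    intro X e
    unfold Crs
    simp [pre, a', b']
  have hKn : ∀ e ∈ K, ∀ X, ¬ Crs a' b' X e := by
    intro e he X
    have h1 : b e ∈ cls a b K (a e) := by rw [mem_cls]; exact vec_mem a b he
    have h2 := hπ2 _ _ (cls_eq a b h1)
    unfold Crs
    rw [not_not]
    show π (a e) ∈ X ↔ π (b e) ∈ X
    rw [h2]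
  let m' : E → ℕ := fun e => if e ∈ S then m e else 0
  obtain ⟨J, hJ, D, hD1, hD2⟩ := near_three a' b' m' (by
    intro e he
    have heS : e ∈ S := by
      by_contra hn
      have : m' e = 0 := if_neg hn
      omega
    have hme : m' e = m e := if_pos heS
    rw [hme] at he
    obtain ⟨Hs, h1, h2, h3⟩ := h e he
    refine ⟨Hs.filter (fun f => f ∈ S), mem_filter.2 ⟨h1, heS⟩, ?_, ?_⟩
    · rintro X ⟨f, hf, hfX⟩
      have h4 : (Hs.filter (fun f => f ∈ S)).filter (fun f => Crs a' b' X f)
          = Hs.filter (fun f => Crs a b (pre X) f) := by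
        ext g
        rw [mem_filter, mem_filter, mem_filter, hcrs]
        constructor
        · rintro ⟨⟨h5, h6⟩, h7⟩; exact ⟨h5, h7⟩
        · rintro ⟨h5, h7⟩
          refine ⟨⟨h5, ?_⟩, h7⟩
          by_contra h6
          exact hKn g ((hKmem g).2 h6) X ((hcrs X g).2 h7)
      rw [h4]
      rcases h3 (pre X) ⟨f, (mem_filter.1 hf).1, (hcrs X f).1 hfX⟩ with h5 | ⟨h5, Y, hY⟩
      · exact h5
      · exfalso
        obtain ⟨x, y, hxy, hxyX⟩ := card_eq_two.1 h5
        have hx : x ∈ S := by
          have : x ∈ Hs.filter (fun f => Crs a b (pre X) f) := by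
            rw [hxyX]; exact mem_insert_self _ _
          rw [← h4] at this
          exact (mem_filter.1 (mem_filter.1 this).1).2
        have hy : y ∈ S := by
          have : y ∈ Hs.filter (fun f => Crs a b (pre X) f) := by
            rw [hxyX]; exact mem_insert_of_mem (mem_singleton_self _)
          rw [← h4] at this
          exact (mem_filter.1 (mem_filter.1 this).1).2
        exact hS2 x hx y hy hxy Y (hY.trans hxyX)
    · intro f hf
      rw [mem_filter] at hf
      have : m' f = m f := if_pos hf.2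
      rw [hme, this]
      exact h2 f hf.1)
  have hDK : ∀ j, Disjoint (D j) K := by
    intro j
    rw [Finset.disjoint_left]
    intro e he heK
    have h1 := hD2 e
    have h2 : m' e = 0 := if_neg ((hKmem e).1 heK)
    have h3 : (univ.filter (fun j => e ∈ D j)).card = 0 := by
      rw [h1]; show 32 * m' e = 0; rw [h2]
    rw [card_eq_zero] at h3
    have h4 : j ∈ univ.filter (fun j => e ∈ D j) := mem_filter.2 ⟨mem_univ _, he⟩
    rw [h3] at h4
    exact absurd h4 (notMem_empty _)
  choose Q hQ1 hQ2 using fun j => lift_even a b K π hπ3 (hD1 j) (hDK j)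
  have hcS : ∀ e ∈ S, (univ.filter (fun j => e ∈ D j ∪ Q j)).card = 32 * m e := by
    intro e heS
    have h1 : univ.filter (fun j => e ∈ D j ∪ Q j) = univ.filter (fun j => e ∈ D j) := by
      ext j
      rw [mem_filter, mem_filter, mem_union]
      constructor
      · rintro ⟨h2, h3 | h3⟩
        · exact ⟨h2, h3⟩
        · exact absurd heS ((hKmem e).1 (hQ1 j h3))
      · rintro ⟨h2, h3⟩; exact ⟨h2, Or.inl h3⟩
    rw [h1, hD2 e]
    show 32 * m' e = 32 * m e
    have : m' e = m e := if_pos heS
    rw [this]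
  refine ⟨J, hJ, fun j => D j ∪ Q j, hQ2, ?_⟩
  intro e
  by_cases heS : e ∈ S
  · exact hcS e heS
  · obtain ⟨f, hf, hfe, Y, hY⟩ := hS1 e (mem_univ _) heS
    have h1 : univ.filter (fun j => e ∈ D j ∪ Q j) = univ.filter (fun j => f ∈ D j ∪ Q j) := by
      ext j
      rw [mem_filter, mem_filter]
      have h2 := even_crs a b (hQ2 j) Y
      have h3 : (D j ∪ Q j).filter (fun g => Crs a b Y g) = (D j ∪ Q j).filter (fun g => g = e ∨ g = f) := by
        apply filter_congr
        intro g _
        have h4 : g ∈ univ.filter (fun g => Crs a b Y g) ↔ g ∈ ({e, f} : Finset E) := by rw [hY]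
        rw [mem_filter, mem_insert, mem_singleton] at h4
        rw [← h4]
        exact ⟨fun h => ⟨mem_univ _, h⟩, fun h => h.2⟩
      rw [h3] at h2
      by_cases he : e ∈ D j ∪ Q j <;> by_cases hf' : f ∈ D j ∪ Q j
      · exact ⟨fun _ => ⟨mem_univ _, hf'⟩, fun _ => ⟨mem_univ _, he⟩⟩
      · exfalso
        have h5 : (D j ∪ Q j).filter (fun g => g = e ∨ g = f) = {e} := by
          ext g
          rw [mem_filter, mem_singleton]
          constructor
          · rintro ⟨h6, h7 | h7⟩
            · exact h7
            · rw [h7] at h6; exact absurd h6 hf'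
          · rintro rfl; exact ⟨he, Or.inl rfl⟩
        rw [h5, card_singleton] at h2
        exact absurd h2 (by decide)
      · exfalso
        have h5 : (D j ∪ Q j).filter (fun g => g = e ∨ g = f) = {f} := by
          ext g
          rw [mem_filter, mem_singleton]
          constructor
          · rintro ⟨h6, h7 | h7⟩
            · rw [h7] at h6; exact absurd h6 he
            · exact h7
          · rintro rfl; exact ⟨hf', Or.inr rfl⟩
        rw [h5, card_singleton] at h2
        exact absurd h2 (by decide)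
      · exact ⟨fun h => absurd h.2 he, fun h => absurd h.2 hf'⟩
    show (univ.filter (fun j => e ∈ D j ∪ Q j)).card = 32 * m e
    rw [h1, hcS f hf, hpair e f ⟨Y, hY⟩]

end

end Pool.Agent.H47.NC
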