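import Pool.Agent.H47.NC.Four
import Pool.Agent.H47.NC.Contr

set_option autoImplicit false
set_option linter.unusedSectionVars false

/-!
# Contracting 2-edge-cuts
-/

namespace Pool.Agent.H47.NC

open Finset Pool.Agent.H47.FC

section

variable {V E : Type} [DecidableEq V] [Fintype V] [DecidableEq E] [Fintype E] (a b : E → V)

/-- the cut given by `X` contains no 2-edge-cut -/
def NoPair (X : Finset V) : Prop :=
  ∀ f g, f ≠ g → Crs a b X f → Crs a b X g →
    ¬ ∃ Y : Finset V, univ.filter (fun h => Crs a b Y h) = {f, g}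

/-- **Contraction of 2-edge-cuts.** -/
theorem contr_gen (w : E → ℕ)
    (hpair : ∀ e f, (∃ Y : Finset V, univ.filter (fun g => Crs a b Y g) = {e, f}) → w e = w f)
    (h : ∀ (a' b' : E → V) (S : Finset E) (pre : Finset V → Finset V),
      (∀ X e, Crs a' b' X e ↔ Crs a b (pre X) e) →
      (∀ X, ∀ e, e ∉ S → ¬ Crs a' b' X e) →
      (∀ X, NoPair a b (pre X)) →
      Cov a' b' (fun e => if e ∈ S then w e else 0)) :
    Cov a b w := by
  classical
  obtain ⟨S, -, hS1, hS2⟩ := exists_reps a b (univ : Finset E)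
  let K : Finset E := univ \ S
  have hKmem : ∀ e, e ∈ K ↔ e ∉ S := fun e => by simp [K]
  let π : V → V := fun v => (⟨v, self_mem_cls a b K v⟩ : (cls a b K v).Nonempty).choose
  have hπ1 : ∀ v, π v ∈ cls a b K v := fun v =>
    (⟨v, self_mem_cls a b K v⟩ : (cls a b K v).Nonempty).choose_spec
  have hπ2 : ∀ u v, cls a b K u = cls a b K v → π u = π v := by
    intro u v h
    have : ∀ (A B : Finset V) (hA : A.Nonempty) (hB : B.Nonempty), A = B → hA.choose = hB.choose := by
      intro A B hA hB hAB
      subst hAB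
      rfl
    exact this _ _ _ _ h
  have hπ3 : ∀ v, dl v + dl (π v) ∈ sp a b K := fun v => (mem_cls a b K v _).1 (hπ1 v)
  let a' : E → V := fun e => π (a e)
  let b' : E → V := fun e => π (b e)
  let pre : Finset V → Finset V := fun X => univ.filter (fun v => π v ∈ X)
  have hcrs : ∀ X e, Crs a' b' X e ↔ Crs a b (pre X) e := by
    intro X e
    unfold Crs
    simp [pre, a', b']
  have hKn : ∀ e ∈ K, ∀ X, ¬ Crs a' b' X e := by
    intro e he X
    have h1 : b e ∈ cls a b K (a e) := by rw [mem_cls]; exact vec_mem a b he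
    have h2 := hπ2 _ _ (cls_eq a b h1)
    unfold Crs
    rw [not_not]
    show π (a e) ∈ X ↔ π (b e) ∈ X
    rw [h2]
  obtain ⟨J, hJ, D, hD1, hD2⟩ := h a' b' S pre hcrs
    (fun X e he => hKn e ((hKmem e).2 he) X) (by
    intro X f g hfg hf hg hY
    have hfS : f ∈ S := by
      by_contra hn
      exact hKn f ((hKmem f).2 hn) X ((hcrs X f).2 hf)
    have hgS : g ∈ S := by
      by_contra hn
      exact hKn g ((hKmem g).2 hn) X ((hcrs X g).2 hg)
    obtain ⟨Y, hY⟩ := hY
    exact hS2 f hfS g hgS hfg Y hY)
  have hDK : ∀ j, Disjoint (D j) K := by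
    intro j
    rw [Finset.disjoint_left]
    intro e he heK
    have h1 := hD2 e
    have h2 : (if e ∈ S then w e else 0) = 0 := if_neg ((hKmem e).1 heK)
    have h3 : (univ.filter (fun j => e ∈ D j)).card = 0 := by
      rw [h1]; exact h2
    rw [card_eq_zero] at h3
    have h4 : j ∈ univ.filter (fun j => e ∈ D j) := mem_filter.2 ⟨mem_univ _, he⟩
    rw [h3] at h4
    exact absurd h4 (notMem_empty _)
  choose Q hQ1 hQ2 using fun j => lift_even a b K π hπ3 (hD1 j) (hDK j)
  have hcS : ∀ e ∈ S, (univ.filter (fun j => e ∈ D j ∪ Q j)).card = w e := by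
    intro e heS
    have h1 : univ.filter (fun j => e ∈ D j ∪ Q j) = univ.filter (fun j => e ∈ D j) := by
      ext j
      rw [mem_filter, mem_filter, mem_union]
      constructor
      · rintro ⟨h2, h3 | h3⟩
        · exact ⟨h2, h3⟩
        · exact absurd heS ((hKmem e).1 (hQ1 j h3))
      · rintro ⟨h2, h3⟩; exact ⟨h2, Or.inl h3⟩
    rw [h1, hD2 e]
    exact if_pos heS
  refine ⟨J, hJ, fun j => D j ∪ Q j, hQ2, ?_⟩
  intro e
  by_cases heS : e ∈ S
  · exact hcS e heS
  · obtain ⟨f, hf, hfe, Y, hY⟩ := hS1 e (mem_univ _) heS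
    have h1 : univ.filter (fun j => e ∈ D j ∪ Q j) = univ.filter (fun j => f ∈ D j ∪ Q j) := by
      ext j
      rw [mem_filter, mem_filter]
      have h2 := even_crs a b (hQ2 j) Y
      have h3 : (D j ∪ Q j).filter (fun g => Crs a b Y g) = (D j ∪ Q j).filter (fun g => g = e ∨ g = f) := by
        apply filter_congr
        intro g _
        have h4 : g ∈ univ.filter (fun g => Crs a b Y g) ↔ g ∈ ({e, f} : Finset E) := by rw [hY]
        rw [mem_filter, mem_insert, mem_singleton] at h4
        rw [← h4]
        exact ⟨fun h => ⟨mem_univ _, h⟩, fun h => h.2⟩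
      rw [h3] at h2
      by_cases he : e ∈ D j ∪ Q j <;> by_cases hf' : f ∈ D j ∪ Q j
      · exact ⟨fun _ => ⟨mem_univ _, hf'⟩, fun _ => ⟨mem_univ _, he⟩⟩
      · exfalso
        have h5 : (D j ∪ Q j).filter (fun g => g = e ∨ g = f) = {e} := by
          ext g
          rw [mem_filter, mem_singleton]
          constructor
          · rintro ⟨h6, h7 | h7⟩
            · exact h7
            · rw [h7] at h6; exact absurd h6 hf'
          · rintro rfl; exact ⟨he, Or.inl rfl⟩
        rw [h5, card_singleton] at h2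
        exact absurd h2 (by decide)
      · exfalso
        have h5 : (D j ∪ Q j).filter (fun g => g = e ∨ g = f) = {f} := by
          ext g
          rw [mem_filter, mem_singleton]
          constructor
          · rintro ⟨h6, h7 | h7⟩
            · rw [h7] at h6; exact absurd h6 he
            · exact h7
          · rintro rfl; exact ⟨hf', Or.inr rfl⟩
        rw [h5, card_singleton] at h2
        exact absurd h2 (by decide)
      · exact ⟨fun h => absurd h.2 he, fun h => absurd h.2 hf'⟩
    rw [h1, hcS f hf, hpair e f ⟨Y, hY⟩]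

/-- **Locally near-constant weights**, second form. -/
theorem near_gen2 (m : E → ℕ)
    (hpair : ∀ e f, (∃ Y : Finset V, univ.filter (fun g => Crs a b Y g) = {e, f}) → m e = m f)
    (h : ∀ e, 0 < m e → ∃ Hs : Finset E, e ∈ Hs ∧ (∀ f ∈ Hs, 4 * m e ≤ 5 * m f) ∧
      ∀ X : Finset V, NoPair a b X → (∃ f ∈ Hs, Crs a b X f) →
        3 ≤ (Hs.filter (fun f => Crs a b X f)).card) :
    Cov a b (fun e => 32 * m e) := by
  classical
  refine contr_gen a b (fun e => 32 * m e) (fun e f hY => by rw [hpair e f hY]) ?_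
  intro a' b' S pre hcrs hKn hnp
  let m' : E → ℕ := fun e => if e ∈ S then m e else 0
  have hcov := near_three a' b' m' (by
    intro e he
    have heS : e ∈ S := by
      by_contra hn
      have : m' e = 0 := if_neg hn
      omega
    have hme : m' e = m e := if_pos heS
    rw [hme] at he
    obtain ⟨Hs, h1, h2, h3⟩ := h e he
    refine ⟨Hs.filter (fun f => f ∈ S), mem_filter.2 ⟨h1, heS⟩, ?_, ?_⟩
    · rintro X ⟨f, hf, hfX⟩
      have h4 : (Hs.filter (fun f => f ∈ S)).filter (fun f => Crs a' b' X f)
          = Hs.filter (fun f => Crs a b (pre X) f) := by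
        ext g
        rw [mem_filter, mem_filter, mem_filter, hcrs]
        constructor
        · rintro ⟨⟨h5, h6⟩, h7⟩; exact ⟨h5, h7⟩
        · rintro ⟨h5, h7⟩
          refine ⟨⟨h5, ?_⟩, h7⟩
          by_contra h6
          exact hKn X g h6 ((hcrs X g).2 h7)
      rw [h4]
      exact h3 (pre X) (hnp X) ⟨f, (mem_filter.1 hf).1, (hcrs X f).1 hfX⟩
    · intro f hf
      rw [mem_filter] at hf
      have : m' f = m f := if_pos hf.2
      rw [hme, this]
      exact h2 f hf.1)
  have h1 : (fun e => 32 * m' e) = fun e => if e ∈ S then 32 * m e else 0 := by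
    funext e
    by_cases he : e ∈ S
    · have : m' e = m e := if_pos he
      rw [if_pos he, this]
    · have : m' e = 0 := if_neg he
      rw [if_neg he, this, mul_zero]
  rw [← h1]
  exact hcov

/-- **The fourfold cut condition**, second form. -/
theorem four_gen2 (r s : E → ℕ)
    (hpair : ∀ e f, (∃ Y : Finset V, univ.filter (fun g => Crs a b Y g) = {e, f}) →
      2 * r e + 4 * s e = 2 * r f + 4 * s f)
    (h : ∀ e, 0 < r e + s e → ∃ H : Finset E,
      (∀ X : Finset V, NoPair a b X → Crs a b X e → ∃ f ∈ H, Crs a b X f) ∧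
      ∀ X : Finset V, NoPair a b X → (∃ f ∈ H, Crs a b X f) →
        4 * (r e + s e) ≤ ∑ f ∈ H.filter (fun f => Crs a b X f), r f) :
    Cov a b (fun e => 2 * r e + 4 * s e) := by
  classical
  refine contr_gen a b (fun e => 2 * r e + 4 * s e) hpair ?_
  intro a' b' S pre hcrs hKn hnp
  let r' : E → ℕ := fun e => if e ∈ S then r e else 0
  let s' : E → ℕ := fun e => if e ∈ S then s e else 0
  have hcov := four_gen a' b' r' s' (by
    intro e he
    have heS : e ∈ S := by
      by_contra hn
      have h1 : r' e = 0 := if_neg hn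
      have h2 : s' e = 0 := if_neg hn
      omega
    have hre : r' e = r e := if_pos heS
    have hse : s' e = s e := if_pos heS
    rw [hre, hse] at he
    obtain ⟨H, h1, h2⟩ := h e he
    refine ⟨H.filter (fun f => f ∈ S), ?_, ?_⟩
    · have h4 : b' e ∈ cls a' b' (H.filter (fun f => f ∈ S)) (a' e) := by
        by_contra hb
        have h5 : Crs a' b' (cls a' b' (H.filter (fun f => f ∈ S)) (a' e)) e := fun h =>
          hb (h.1 (self_mem_cls a' b' _ (a' e)))
        obtain ⟨f, hf, hfX⟩ := h1 _ (hnp _) ((hcrs _ e).1 h5)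
        have h6 := (hcrs _ f).2 hfX
        have hfS : f ∈ S := by
          by_contra hn
          exact hKn _ f hn h6
        exact not_crs_cls a' b' (a' e) (vec_mem a' b' (mem_filter.2 ⟨hf, hfS⟩)) h6
      exact (mem_cls a' b' _ _ _).1 h4
    · rintro X ⟨f, hf, hfX⟩
      rw [hre, hse]
      refine (h2 (pre X) (hnp X) ⟨f, (mem_filter.1 hf).1, (hcrs X f).1 hfX⟩).trans ?_
      have h4 : (H.filter (fun f => f ∈ S)).filter (fun f => Crs a' b' X f)
          = H.filter (fun f => Crs a b (pre X) f) := by
        ext g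
        rw [mem_filter, mem_filter, mem_filter, hcrs]
        constructor
        · rintro ⟨⟨h5, h6⟩, h7⟩; exact ⟨h5, h7⟩
        · rintro ⟨h5, h7⟩
          refine ⟨⟨h5, ?_⟩, h7⟩
          by_contra h6
          exact hKn X g h6 ((hcrs X g).2 h7)
      rw [← h4]
      apply le_of_eq
      refine sum_congr rfl fun g hg => ?_
      have hgS : g ∈ S := (mem_filter.1 (mem_filter.1 hg).1).2
      exact (if_pos hgS).symm)
  have h1 : (fun e => 2 * r' e + 4 * s' e) = fun e => if e ∈ S then 2 * r e + 4 * s e else 0 := by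
    funext e
    by_cases he : e ∈ S
    · have h2 : r' e = r e := if_pos he
      have h3 : s' e = s e := if_pos he
      rw [if_pos he, h2, h3]
    · have h2 : r' e = 0 := if_neg he
      have h3 : s' e = 0 := if_neg he
      rw [if_neg he, h2, h3]
  rw [← h1]
  exact hcov

end

end Pool.Agent.H47.NC
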