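import Pool.Agent.H47.NC.Graph
import Pool.Agent.H35.FC.Cycles

set_option autoImplicit false
set_option linter.unusedSectionVars false

/-!
# From sums of even sets to circuit covers of simple graphs
-/

namespace Pool.Agent.H47.NC

open Finset Pool.Agent.H47.FC

variable {V : Type} [DecidableEq V] [Fintype V] (G : SimpleGraph V) [DecidableRel G.Adj]
  (w : Sym2 V → ℕ)

/-- sums of even sets give circuit covers -/
theorem cover_of_cov (h : Cov (ea G w) (eb G w) (fun e => w e.1)) :
    ∃ (n : ℕ) (c : Fin n → Σ v : V, G.Walk v v), (∀ i, (c i).2.IsCycle) ∧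
      ∀ e ∈ G.edgeSet, (Finset.univ.filter (fun i => e ∈ (c i).2.edges)).card = w e := by
  classical
  obtain ⟨J, hJ, D, hD1, hD2⟩ := h
  obtain ⟨n, c, hc1, hc2⟩ := Pool.Agent.H35.FC.cycles_of_even_family G
    (fun j => (D j).map (Function.Embedding.subtype _)) (by
      intro j e he
      rw [mem_map] at he
      obtain ⟨f, -, rfl⟩ := he
      exact f.2.1) (by
      intro j v
      exact even_deg G w (hD1 j) v)
  refine ⟨n, c, hc1, ?_⟩
  intro e he
  rw [hc2 e]
  by_cases hw : w e = 0
  · rw [hw, card_eq_zero, filter_eq_empty_iff]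
    intro j _ hj
    rw [mem_map] at hj
    obtain ⟨f, -, hf⟩ := hj
    apply f.2.2
    have : (f : Sym2 V) = e := hf
    rw [this]; exact hw
  · have h1 := hD2 ⟨e, he, hw⟩
    simp only at h1
    rw [← h1]
    congr 1
    ext j
    rw [mem_filter, mem_filter, mem_map]
    constructor
    · rintro ⟨h2, f, hf, hfe⟩
      refine ⟨h2, ?_⟩
      have : f = ⟨e, he, hw⟩ := Subtype.ext hfe
      rw [← this]; exact hf
    · rintro ⟨h2, h3⟩
      exact ⟨h2, ⟨e, he, hw⟩, h3, rfl⟩

end Pool.Agent.H47.NC
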