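import Pool.Agent.H47.NC.UnitR
import Pool.Agent.H47.NC.Walks

set_option autoImplicit false
set_option linter.unusedSectionVars false

/-!
# Translation to simple graphs
-/

namespace Pool.Agent.H47.NC

open Finset Pool.Agent.H47.FC

variable {V : Type} [Fintype V] [DecidableEq V] (G : SimpleGraph V) [DecidableRel G.Adj]
  (w : Sym2 V → ℕ)

/-- admissibility in multigraph form -/
lemma adm_mult (hadm : ∀ (X : Finset V) (x y : V), x ∈ X → y ∉ X → G.Adj x y →
    2 * w s(x, y) ≤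
      ∑ p ∈ (Finset.univ : Finset (V × V)).filter
          (fun p => p.1 ∈ X ∧ p.2 ∉ X ∧ G.Adj p.1 p.2), w s(p.1, p.2))
    (X : Finset V) (e : Ed G w) (he : Crs (ea G w) (eb G w) X e) :
    2 * w e.1 ≤ ∑ f ∈ univ.filter (fun f : Ed G w => Crs (ea G w) (eb G w) X f), w f.1 := by
  classical
  rw [← pair_sum G w X]
  have h1 := ea_eb G w e
  have h2 := adj_ea_eb G w e
  by_cases hx : ea G w e ∈ X
  · have hy : eb G w e ∉ X := fun hy => he ⟨fun _ => hy, fun _ => hx⟩
    have h3 := hadm X (ea G w e) (eb G w e) hx hy h2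
    have h4 : s(ea G w e, eb G w e) = e.1 := h1
    rw [h4] at h3
    exact h3
  · have hy : eb G w e ∈ X := by
      by_contra hy
      exact he ⟨fun h => absurd h hx, fun h => absurd h hy⟩
    have h3 := hadm X (eb G w e) (ea G w e) hy hx h2.symm
    have h4 : s(eb G w e, ea G w e) = e.1 := by rw [Sym2.eq_swap]; exact h1
    rw [h4] at h3
    exact h3

/-- the two edges of a 2-edge-cut have the same weight -/
lemma pair_eq (hadm : ∀ (X : Finset V) (x y : V), x ∈ X → y ∉ X → G.Adj x y →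
    2 * w s(x, y) ≤
      ∑ p ∈ (Finset.univ : Finset (V × V)).filter
          (fun p => p.1 ∈ X ∧ p.2 ∉ X ∧ G.Adj p.1 p.2), w s(p.1, p.2))
    (e f : Ed G w) (h : ∃ Y : Finset V,
      univ.filter (fun g : Ed G w => Crs (ea G w) (eb G w) Y g) = {e, f}) : w e.1 = w f.1 := by
  classical
  obtain ⟨Y, hY⟩ := h
  by_cases hef : e = f
  · rw [hef]
  have he : Crs (ea G w) (eb G w) Y e := by
    have : e ∈ univ.filter (fun g : Ed G w => Crs (ea G w) (eb G w) Y g) := by
      rw [hY]; exact mem_insert_self _ _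
    exact (mem_filter.1 this).2
  have hf : Crs (ea G w) (eb G w) Y f := by
    have : f ∈ univ.filter (fun g : Ed G w => Crs (ea G w) (eb G w) Y g) := by
        rw [hY]; exact mem_insert_of_mem (mem_singleton_self _)
    exact (mem_filter.1 this).2
  have h1 := adm_mult G w hadm Y e he
  have h2 := adm_mult G w hadm Y f hf
  rw [hY, sum_pair hef] at h1 h2
  omega

/-- cuts without 2-edge-cuts -/
lemma noPair_iff (X : Finset V) (hX : NoPair (ea G w) (eb G w) X) :
    ¬ ∃ f g : Sym2 V, f ≠ g ∧ CrossesS X f ∧ CrossesS X g ∧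
      ∃ Y : Finset V, ∀ h, (h ∈ G.edgeSet ∧ w h ≠ 0 ∧ CrossesS Y h) ↔ (h = f ∨ h = g) := by
  rintro ⟨f, g, hfg, hf, hg, Y, hY⟩
  have hf' := (hY f).2 (Or.inl rfl)
  have hg' := (hY g).2 (Or.inr rfl)
  let f' : Ed G w := ⟨f, hf'.1, hf'.2.1⟩
  let g' : Ed G w := ⟨g, hg'.1, hg'.2.1⟩
  refine hX f' g' (fun h => hfg (congrArg Subtype.val h)) ((crs_iff G w X f').2 hf)
    ((crs_iff G w X g').2 hg) ⟨Y, ?_⟩
  ext h
  rw [mem_filter, mem_insert, mem_singleton, crs_iff]
  constructor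
  · rintro ⟨-, h1⟩
    rcases (hY h.1).1 ⟨h.2.1, h.2.2, h1⟩ with h2 | h2
    · exact Or.inl (Subtype.ext h2)
    · exact Or.inr (Subtype.ext h2)
  · rintro (rfl | rfl)
    · exact ⟨mem_univ _, hf'.2.2⟩
    · exact ⟨mem_univ _, hg'.2.2⟩

end Pool.Agent.H47.NC
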