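import Pool.Agent.H47.NC.Final
import Pool.Agent.H47.NC.Absorb

set_option autoImplicit false
set_option linter.unusedSectionVars false

/-!
# Translation to simple graphs, second weight
-/

namespace Pool.Agent.H47.NC

open Finset Pool.Agent.H47.FC

variable {V : Type} [Fintype V] [DecidableEq V] (G : SimpleGraph V) [DecidableRel G.Adj]
  (w β : Sym2 V → ℕ)

/-- admissibility of a smaller weight in multigraph form -/
lemma adm_mult2 (hadm : ∀ (X : Finset V) (x y : V), x ∈ X → y ∉ X → G.Adj x y →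
    2 * β s(x, y) ≤
      ∑ p ∈ (Finset.univ : Finset (V × V)).filter
          (fun p => p.1 ∈ X ∧ p.2 ∉ X ∧ G.Adj p.1 p.2), β s(p.1, p.2))
    (hle : ∀ e ∈ G.edgeSet, β e ≤ w e)
    (X : Finset V) (e : Ed G w) (he : Crs (ea G w) (eb G w) X e) :
    2 * β e.1 ≤ ∑ f ∈ univ.filter (fun f : Ed G w => Crs (ea G w) (eb G w) X f), β f.1 := by
  classical
  by_cases h0 : β e.1 = 0
  · rw [h0]; exact Nat.zero_le _
  let e' : Ed G β := ⟨e.1, e.2.1, h0⟩
  have h1 := adm_mult G β hadm X e' ((crs_iff G β X e').2 ((crs_iff G w X e).1 he))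
  refine h1.trans ?_
  have hne : ∀ f : Ed G β, w f.1 ≠ 0 := fun f h => f.2.2 (by
    have := hle f.1 f.2.1
    omega)
  let ι : Ed G β → Ed G w := fun f => ⟨f.1, f.2.1, hne f⟩
  have hι : Function.Injective ι := by
    intro f g h
    have h' : (ι f).1 = (ι g).1 := by rw [h]
    exact Subtype.ext h'
  have h2 : ∑ f ∈ univ.filter (fun f : Ed G β => Crs (ea G β) (eb G β) X f), β f.1
      = ∑ f ∈ (univ.filter (fun f : Ed G β => Crs (ea G β) (eb G β) X f)).image ι, β f.1 := by
    rw [sum_image (fun _ _ _ _ h => hι h)]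
  rw [h2]
  apply sum_le_sum_of_subset
  intro f hf
  rw [mem_image] at hf
  obtain ⟨g, hg, rfl⟩ := hf
  rw [mem_filter] at hg ⊢
  exact ⟨mem_univ _, (crs_iff G w X (ι g)).2 ((crs_iff G β X g).1 hg.2)⟩

/-- the number of edges of positive weight -/
lemma card_pos_edges (hle : ∀ e ∈ G.edgeSet, β e ≤ w e) :
    (univ.filter (fun e : Ed G w => β e.1 ≠ 0)).card
      = (univ.filter (fun e : Sym2 V => e ∈ G.edgeSet ∧ β e ≠ 0)).card := by
  classical
  apply card_bij (fun e _ => e.1)
  · intro e he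
    rw [mem_filter] at he ⊢
    exact ⟨mem_univ _, e.2.1, he.2⟩
  · intro e _ f _ h
    exact Subtype.ext h
  · intro e he
    rw [mem_filter] at he
    have h1 : w e ≠ 0 := by
      have := hle e he.2.1
      have := he.2.2
      omega
    exact ⟨⟨e, he.2.1, h1⟩, mem_filter.2 ⟨mem_univ _, he.2.2⟩, rfl⟩

end Pool.Agent.H47.NC
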