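import Pool.Agent.H47.NC.Unit

set_option autoImplicit false
set_option linter.unusedSectionVars false

/-!
# Weights satisfying a fourfold cut condition
-/

namespace Pool.Agent.H47.NC

open Finset Pool.Agent.H47.FC

section

variable {V E : Type} [DecidableEq V] [Fintype V] [DecidableEq E] [Fintype E] (a b : E → V)

/-- four symmetric differences -/
def mix4 (D C0 C1 : Finset E) (x : Bool × Bool) : Finset E :=
  symmDiff (symmDiff D (if x.1 then C0 else ∅)) (if x.2 then C1 else ∅)

lemma even_mix4 {D C0 C1 : Finset E} (h : EvenM a b D) (h0 : EvenM a b C0) (h1 : EvenM a b C1)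
    (x : Bool × Bool) : EvenM a b (mix4 D C0 C1 x) := by
  unfold EvenM at *
  unfold mix4
  rw [bd_symmDiff, bd_symmDiff, h]
  have h3 : ∀ (C : Finset E) (y : Bool), bd a b C = 0 → bd a b (if y then C else ∅) = 0 := by
    intro C y hC
    cases y
    · simp [bd_empty]
    · simpa using hC
  rw [h3 _ _ h0, h3 _ _ h1]
  simp

lemma card_bool4 : ∀ d c0 c1 : Bool,
    (univ.filter (fun x : Bool × Bool =>
      (xor (xor d (x.1 && c0)) (x.2 && c1)) = true)).card
      = if (c0 || c1) = true then 2 else if d = true then 4 else 0 := by decide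

lemma card_mix4 (D C0 C1 : Finset E) (e : E) :
    (univ.filter (fun x => e ∈ mix4 D C0 C1 x)).card
      = if e ∈ C0 ∨ e ∈ C1 then 2 else if e ∈ D then 4 else 0 := by
  have h1 : univ.filter (fun x => e ∈ mix4 D C0 C1 x)
      = univ.filter (fun x : Bool × Bool =>
      (xor (xor (decide (e ∈ D)) (x.1 && decide (e ∈ C0))) (x.2 && decide (e ∈ C1))) = true) := by
    ext ⟨x, y⟩
    simp only [mem_filter, mem_univ, true_and, mix4, mem_symmDiff]
    by_cases hD : e ∈ D <;> by_cases h0 : e ∈ C0 <;> by_cases h1 : e ∈ C1 <;>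
      cases x <;> cases y <;> simp [hD, h0, h1]
  rw [h1, card_bool4]
  by_cases hD : e ∈ D <;> by_cases h0 : e ∈ C0 <;> by_cases h1 : e ∈ C1 <;> simp [hD, h0, h1]

/-- **One layer.** -/
lemma layer_cov (R S B0 B1 : Finset E) (h0 : B0 ⊆ R) (h1 : B1 ⊆ R) (hdis : Disjoint B0 B1)
    (hSR : Disjoint S R) (hsp0 : ∀ e ∈ R ∪ S, vec a b e ∈ sp a b B0)
    (hsp1 : ∀ e ∈ R ∪ S, vec a b e ∈ sp a b B1) :
    Cov a b (fun e => (if e ∈ R then 2 else 0) + (if e ∈ S then 4 else 0)) := by
  classical
  obtain ⟨C0, hC0, hC0', hC0''⟩ := exists_even a b (T := B0) (S := R \ B0)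
    (fun e he => hsp0 e (mem_union_left _ (mem_sdiff.1 he).1)) disjoint_sdiff.symm
  obtain ⟨C1, hC1, hC1', hC1''⟩ := exists_even a b (T := B1) (S := R \ B1)
    (fun e he => hsp1 e (mem_union_left _ (mem_sdiff.1 he).1)) disjoint_sdiff.symm
  obtain ⟨D, hD, hD', hD''⟩ := exists_even a b (T := B0) (S := S)
    (fun e he => hsp0 e (mem_union_right _ he)) (disjoint_of_subset_right h0 hSR)
  refine ⟨Bool × Bool, inferInstance, mix4 D C0 C1, even_mix4 a b hD hC0 hC1, ?_⟩
  intro e
  rw [card_mix4]
  have hsub0 : ∀ e ∈ C0, e ∈ R := by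
    intro f hf
    rcases mem_union.1 (hC0'' hf) with h | h
    · exact (mem_sdiff.1 h).1
    · exact h0 h
  have hsub1 : ∀ e ∈ C1, e ∈ R := by
    intro f hf
    rcases mem_union.1 (hC1'' hf) with h | h
    · exact (mem_sdiff.1 h).1
    · exact h1 h
  by_cases heR : e ∈ R
  · have h2 : e ∈ C0 ∨ e ∈ C1 := by
      by_cases h3 : e ∈ B0
      · right
        apply hC1'
        rw [mem_sdiff]
        exact ⟨heR, fun h => (Finset.disjoint_left.1 hdis h3) h⟩
      · left; exact hC0' (mem_sdiff.2 ⟨heR, h3⟩)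
    have heS : e ∉ S := fun h => (Finset.disjoint_left.1 hSR h) heR
    rw [if_pos h2]
    show 2 = (if e ∈ R then 2 else 0) + (if e ∈ S then 4 else 0)
    rw [if_pos heR, if_neg heS]
  · have h2 : ¬ (e ∈ C0 ∨ e ∈ C1) := by
      rintro (h | h)
      · exact heR (hsub0 e h)
      · exact heR (hsub1 e h)
    rw [if_neg h2]
    show _ = (if e ∈ R then 2 else 0) + (if e ∈ S then 4 else 0)
    rw [if_neg heR, zero_add]
    by_cases heS : e ∈ S
    · rw [if_pos heS, if_pos (hD' heS)]
    · rw [if_neg heS, if_neg]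
      intro h
      rcases mem_union.1 (hD'' h) with h3 | h3
      · exact heS h3
      · exact heR (h0 h3)

/-- all nonempty cuts of `H` have `r`-weight at least `c` -/
def CutW (r : E → ℕ) (H : Finset E) (c : ℕ) : Prop :=
  ∀ X : Finset V, (∃ e ∈ H, Crs a b X e) → c ≤ ∑ f ∈ H.filter (fun f => Crs a b X f), r f

/-- packing at one level -/
lemma level_pack (r : E → ℕ) (m : ℕ) (hm : 0 < m) (S K : Finset E) (hdis : Disjoint S K)
    (hcut : CutW a b r (S ∪ K) (4 * m)) (hr : ∀ e ∈ S, r e ≤ m) :
    ∃ T : ℕ → Bool → Finset E, (∀ l x, T l x ⊆ S) ∧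
      (∀ l < m, ∀ x, sp a b (T l x ∪ K) = sp a b (S ∪ K)) ∧
      (∀ e l x y, e ∈ T l x → e ∈ T l y → x = y) ∧
      (∀ e, ((range m).filter (fun l => ∃ x, e ∈ T l x)).card ≤ r e) := by
  classical
  obtain ⟨T, hT1, hT2, -, hT4⟩ := packing a b (Prod.fst : Fin m × Bool → Fin m) K S r (by
    intro A hA
    let A' : Fin m → Finset E := fun l => A (l, false) ∩ A (l, true)
    have hA' : ∀ l, A' l ⊆ S := fun l => inter_subset_left.trans (hA _)
    let j : E → ℕ := fun e => (univ.filter (fun l : Fin m => e ∉ A' l)).card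
    have hj : ∀ e, j e ≤ m := by
      intro e
      refine (card_le_univ _).trans ?_
      rw [Fintype.card_fin]
    have himg : ∀ e, (univ.filter (fun i : Fin m × Bool => e ∉ A i)).image Prod.fst
        = univ.filter (fun l : Fin m => e ∉ A' l) := by
      intro e
      ext l
      rw [mem_image, mem_filter]
      constructor
      · rintro ⟨⟨l', x⟩, h1, rfl⟩
        rw [mem_filter] at h1
        refine ⟨mem_univ _, fun h2 => ?_⟩
        rw [mem_inter] at h2
        cases x
        · exact h1.2 h2.1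
        · exact h1.2 h2.2
      · rintro ⟨-, h1⟩
        rw [mem_inter, not_and_or] at h1
        rcases h1 with h1 | h1
        · exact ⟨(l, false), mem_filter.2 ⟨mem_univ _, h1⟩, rfl⟩
        · exact ⟨(l, true), mem_filter.2 ⟨mem_univ _, h1⟩, rfl⟩
    have hrank : ∀ l, 2 * m * rk a b (S ∪ K) ≤ 2 * m * rk a b (A' l ∪ K)
        + ∑ f ∈ S \ A' l, r f := by
      intro l
      have h1 := rank_cut a b S (A' l ∪ K) r (4 * m) (by
        rintro X ⟨e, heS, heX⟩ hX'
        have h2 := hcut X ⟨e, mem_union_left _ heS, heX⟩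
        have h3 : (S ∪ K).filter (fun f => Crs a b X f) = S.filter (fun f => Crs a b X f) := by
          ext f
          rw [mem_filter, mem_filter, mem_union]
          constructor
          · rintro ⟨h4 | h4, h5⟩
            · exact ⟨h4, h5⟩
            · exact absurd h5 (hX' f (mem_union_right _ h4))
          · rintro ⟨h4, h5⟩; exact ⟨Or.inl h4, h5⟩
        rw [h3] at h2
        exact h2)
      have h2 : S ∪ (A' l ∪ K) = S ∪ K := by
        rw [← union_assoc, union_eq_left.2 (hA' l)]
      have h3 : ∑ f ∈ S \ (A' l ∪ K), r f ≤ ∑ f ∈ S \ A' l, r f :=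
        sum_le_sum_of_subset (sdiff_subset_sdiff (Subset.refl _) subset_union_left)
      rw [h2] at h1
      have h4 : 2 * (2 * m * rk a b (S ∪ K)) ≤ 2 * (2 * m * rk a b (A' l ∪ K))
          + 2 * ∑ f ∈ S \ A' l, r f := by
        calc 2 * (2 * m * rk a b (S ∪ K)) = 4 * m * rk a b (S ∪ K) := by ring
          _ ≤ 4 * m * rk a b (A' l ∪ K) + 2 * ∑ f ∈ S \ (A' l ∪ K), r f := h1
          _ ≤ 4 * m * rk a b (A' l ∪ K) + 2 * ∑ f ∈ S \ A' l, r f := by omega
          _ = _ := by ring
      omega
    have hsum := sum_le_sum (fun l (_ : l ∈ (univ : Finset (Fin m))) => hrank l)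
    rw [sum_add_distrib, ← mul_sum, ← mul_sum] at hsum
    have h5 : ∑ l : Fin m, ∑ f ∈ S \ A' l, r f = ∑ f ∈ S, r f * j f := by
      have h6 : ∀ l : Fin m, ∑ f ∈ S \ A' l, r f = ∑ f ∈ S, if f ∉ A' l then r f else 0 := by
        intro l
        rw [← sum_filter]
        refine sum_congr ?_ fun _ _ => rfl
        ext f
        rw [mem_sdiff, mem_filter]
      rw [sum_congr rfl (fun l _ => h6 l), sum_comm]
      refine sum_congr rfl fun f _ => ?_
      rw [← sum_filter, sum_const, smul_eq_mul, mul_comm]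
    have h6 : ∑ f ∈ S, r f * j f ≤ m * ∑ f ∈ S, min (r f) (j f) := by
      rw [mul_sum]
      apply sum_le_sum
      intro f hf
      have h7 := hr f hf
      have h8 := hj f
      rcases le_total (r f) (j f) with h9 | h9
      · rw [min_eq_left h9, mul_comm m]
        exact Nat.mul_le_mul_left _ h8
      · rw [min_eq_right h9]
        exact Nat.mul_le_mul_right _ h7
    rw [h5] at hsum
    have h7 : m * (2 * ∑ _l : Fin m, rk a b (S ∪ K)) ≤ m * (2 * ∑ l : Fin m, rk a b (A' l ∪ K)
        + ∑ f ∈ S, min (r f) (j f)) := by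
      calc m * (2 * ∑ _l : Fin m, rk a b (S ∪ K)) = 2 * m * ∑ _l : Fin m, rk a b (S ∪ K) := by ring
        _ ≤ _ := hsum
        _ ≤ 2 * m * ∑ l : Fin m, rk a b (A' l ∪ K) + m * ∑ f ∈ S, min (r f) (j f) := by omega
        _ = _ := by ring
    have h8 := Nat.le_of_mul_le_mul_left h7 hm
    have h9 : ∑ _i : Fin m × Bool, rk a b (S ∪ K) = 2 * ∑ _l : Fin m, rk a b (S ∪ K) := by
      rw [Fintype.sum_prod_type, mul_sum]
      refine sum_congr rfl fun l _ => ?_
      rw [Fintype.sum_bool]; ring
    have h10 : 2 * ∑ l : Fin m, rk a b (A' l ∪ K) ≤ ∑ i : Fin m × Bool, rk a b (A i ∪ K) := by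
      rw [Fintype.sum_prod_type, mul_sum]
      apply sum_le_sum
      intro l _
      rw [Fintype.sum_bool]
      have h11 := rk_mono a b (union_subset_union_left (t := K)
        (inter_subset_left (s₁ := A (l, false)) (s₂ := A (l, true))))
      have h12 := rk_mono a b (union_subset_union_left (t := K)
        (inter_subset_right (s₁ := A (l, false)) (s₂ := A (l, true))))
      show 2 * rk a b (A (l, false) ∩ A (l, true) ∪ K) ≤ _
      omega
    have h11 : ∑ e ∈ S, min (r e) ((univ.filter (fun i : Fin m × Bool => e ∉ A i)).image Prod.fst).card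
        = ∑ f ∈ S, min (r f) (j f) := by
      refine sum_congr rfl fun e _ => ?_
      rw [himg e]
    rw [h9, h11]
    omega)
  let T' : ℕ → Bool → Finset E := fun l x => if h : l < m then T (⟨l, h⟩, x) else ∅
  have hT' : ∀ l x e, e ∈ T' l x → ∃ h : l < m, e ∈ T (⟨l, h⟩, x) := by
    intro l x e he
    by_cases h : l < m
    · refine ⟨h, ?_⟩
      have : T' l x = T (⟨l, h⟩, x) := dif_pos h
      rw [this] at he
      exact he
    · have : T' l x = ∅ := dif_neg h
      rw [this] at he
      exact absurd he (notMem_empty _)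
  refine ⟨T', ?_, ?_, ?_, ?_⟩
  · intro l x e he
    obtain ⟨h, he'⟩ := hT' l x e he
    exact hT1 _ he'
  · intro l hl x
    have : T' l x = T (⟨l, hl⟩, x) := dif_pos hl
    rw [this]
    exact sp_eq_of_rk a b (union_subset_union_left (hT1 _)) (hT2 _)
  · intro e l x y hx hy
    obtain ⟨h, hx'⟩ := hT' l x e hx
    obtain ⟨_, hy'⟩ := hT' l y e hy
    have := (hT4 e).2 _ _ hx' hy' rfl
    exact (Prod.mk.injEq _ _ _ _ ▸ this : _ ∧ _).2
  · intro e
    refine le_trans ?_ (hT4 e).1
    have h1 : (range m).filter (fun l => ∃ x, e ∈ T' l x)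
        ⊆ (univ.filter (fun i => e ∈ T i)).image (fun i => i.1.1) := by
      intro l hl
      rw [mem_filter, mem_range] at hl
      obtain ⟨hlm, x, hx⟩ := hl
      obtain ⟨h, hx'⟩ := hT' l x e hx
      rw [mem_image]
      exact ⟨(⟨l, h⟩, x), mem_filter.2 ⟨mem_univ _, hx'⟩, rfl⟩
    exact (card_le_card h1).trans card_image_le

/-- **Fourfold cut condition** with free part. -/
theorem four_gen (r s : E → ℕ)
    (h : ∀ e, 0 < r e + s e → ∃ H : Finset E, vec a b e ∈ sp a b H ∧
      CutW a b r H (4 * (r e + s e))) :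
    Cov a b (fun e => 2 * r e + 4 * s e) := by
  classical
  let M : ℕ := ∑ e, (r e + s e)
  have hM : ∀ e, r e + s e ≤ M := fun e =>
    single_le_sum (f := fun e => r e + s e) (fun _ _ => Nat.zero_le _) (mem_univ e)
  let Hn : ℕ → Finset E := fun n => univ.filter (fun e => ∃ H : Finset E, e ∈ H ∧
    CutW a b r H (4 * n))
  let Hs : ℕ → Finset E := fun n => if n ≤ M then Hn n else ∅
  have hHs1 : ∀ n, n ≤ M → Hs n = Hn n := fun n hn => if_pos hn
  have hHs2 : ∀ n, M < n → Hs n = ∅ := fun n hn => if_neg (by omega)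
  have hcutn : ∀ n, CutW a b r (Hn n) (4 * n) := by
    rintro n X ⟨e, he, heX⟩
    obtain ⟨H, h1, h2⟩ := (mem_filter.1 he).2
    refine (h2 X ⟨e, h1, heX⟩).trans (sum_le_sum_of_subset (filter_subset_filter _ ?_))
    intro f hf
    exact mem_filter.2 ⟨mem_univ _, H, hf, h2⟩
  have hcuts : ∀ n, CutW a b r (Hs n) (4 * n) := by
    intro n
    by_cases hn : n ≤ M
    · rw [hHs1 n hn]; exact hcutn n
    · rw [hHs2 n (by omega)]
      rintro X ⟨e, he, -⟩
      exact absurd he (notMem_empty _)
  have hanti : ∀ n, Hs (n + 1) ⊆ Hs n := by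
    intro n e he
    by_cases hn : n + 1 ≤ M
    · rw [hHs1 _ hn, mem_filter] at he
      obtain ⟨-, H, h1, h2⟩ := he
      rw [hHs1 n (by omega), mem_filter]
      exact ⟨mem_univ _, H, h1, fun X hX => le_trans (by omega) (h2 X hX)⟩
    · rw [hHs2 _ (by omega)] at he
      exact absurd he (notMem_empty _)
  have hanti' : ∀ n m, n ≤ m → Hs m ⊆ Hs n := by
    intro n m hnm
    induction hnm with
    | refl => exact Subset.refl _
    | step _ ih => exact (hanti _).trans ih
  have hmem : ∀ e, 0 < r e + s e → e ∈ Hs (r e + s e) := by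
    intro e he
    rw [hHs1 _ (hM e), mem_filter]
    obtain ⟨H, h1, h2⟩ := h e he
    refine ⟨mem_univ _, insert e H, mem_insert_self _ _, ?_⟩
    rintro X ⟨f, hf, hfX⟩
    obtain ⟨g, hg, hgX⟩ : ∃ g ∈ H, Crs a b X g := by
      rcases mem_insert.1 hf with rfl | hf
      · exact exists_crs a b h1 hfX
      · exact ⟨f, hf, hfX⟩
    exact (h2 X ⟨g, hg, hgX⟩).trans (sum_le_sum_of_subset (filter_subset_filter _ (subset_insert _ _)))
  -- the pieces
  let Q : ℕ → Finset E := fun m => Hs m \ Hs (m + 1)
  have hQK : ∀ m, Q m ∪ Hs (m + 1) = Hs m := fun m => sdiff_union_of_subset (hanti m)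
  have hQr : ∀ m, ∀ e ∈ Q m, r e + s e ≤ m := by
    intro m e he
    by_contra hlt
    push Not at hlt
    have h1 := hmem e (by omega)
    exact (mem_sdiff.1 he).2 (hanti' _ _ (by omega : m + 1 ≤ r e + s e) h1)
  have hpk : ∀ m, 0 < m → ∃ T : ℕ → Bool → Finset E, (∀ l x, T l x ⊆ Q m) ∧
      (∀ l < m, ∀ x, sp a b (T l x ∪ Hs (m + 1)) = sp a b (Q m ∪ Hs (m + 1))) ∧
      (∀ e l x y, e ∈ T l x → e ∈ T l y → x = y) ∧
      (∀ e, ((range m).filter (fun l => ∃ x, e ∈ T l x)).card ≤ r e) := by
    intro m hm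
    apply level_pack a b r m hm _ _ sdiff_disjoint
    · rw [hQK]; exact hcuts m
    · intro e he
      have := hQr m e he
      omega
  choose! T hT1 hT2 hT3 hT4 using hpk
  -- level of an edge
  let lev : E → ℕ := fun e => Nat.findGreatest (fun n => e ∈ Hs n) M
  have hlev : ∀ m e, 0 < m → e ∈ Q m → lev e = m := by
    intro m e hm he
    have hmM : m ≤ M := by
      by_contra hlt
      have h1 := (mem_sdiff.1 he).1
      rw [hHs2 m (by omega)] at h1
      exact absurd h1 (notMem_empty _)
    apply le_antisymm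
    · by_contra hlt
      push Not at hlt
      have h0 : lev e ≠ 0 := by omega
      have h1 : e ∈ Hs (lev e) := Nat.findGreatest_of_ne_zero rfl h0
      exact (mem_sdiff.1 he).2 (hanti' _ _ (by omega : m + 1 ≤ lev e) h1)
    · exact Nat.le_findGreatest hmM (mem_sdiff.1 he).1
  have hlevH : ∀ e, 0 < lev e → e ∈ Hs (lev e) := by
    intro e he
    have h0 : lev e ≠ 0 := by omega
    exact Nat.findGreatest_of_ne_zero rfl h0
  have hlevr : ∀ e, r e + s e ≤ lev e := by
    intro e
    by_cases h0 : r e + s e = 0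
    · omega
    · exact Nat.le_findGreatest (hM e) (hmem e (by omega))
  have hlevM : ∀ e, lev e ≤ M := fun e => Nat.findGreatest_le M
  -- choice of layers
  have hch : ∀ e, ∃ RS : Finset ℕ × Finset ℕ, RS.1 ⊆ range (lev e) ∧ RS.2 ⊆ range (lev e) ∧
      Disjoint RS.1 RS.2 ∧ RS.1.card = r e ∧ RS.2.card = s e ∧
      ∀ l < lev e, (∃ x, e ∈ T (lev e) l x) → l ∈ RS.1 := by
    intro e
    by_cases h0 : lev e = 0
    · have := hlevr e
      refine ⟨(∅, ∅), empty_subset _, empty_subset _, disjoint_bot_left, ?_, ?_, ?_⟩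
      · show (∅ : Finset ℕ).card = r e
        rw [card_empty]; omega
      · show (∅ : Finset ℕ).card = s e
        rw [card_empty]; omega
      · intro l hl; omega
    · have h1 := hT4 (lev e) (by omega) e
      have h2 := hlevr e
      obtain ⟨R, hR1, hR2, hR3⟩ := exists_subsuperset_card_eq
        (s := (range (lev e)).filter (fun l => ∃ x, e ∈ T (lev e) l x)) (t := range (lev e))
        (n := r e) (filter_subset _ _) h1 (by rw [card_range]; omega)
      obtain ⟨S', hS1, hS2⟩ := exists_subset_card_eq (s := range (lev e) \ R) (n := s e) (by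
        rw [card_sdiff_of_subset hR2, card_range]; omega)
      refine ⟨(R, S'), hR2, hS1.trans sdiff_subset, ?_, hR3, hS2, ?_⟩
      · rw [Finset.disjoint_left]
        intro x hx hx'
        exact (mem_sdiff.1 (hS1 hx')).2 hx
      · intro l hl hx
        exact hR1 (mem_filter.2 ⟨mem_range.2 hl, hx⟩)
  choose RS hRS1 hRS2 hRS3 hRS4 hRS5 hRS6 using hch
  -- one layer
  have hlayer : ∀ n < M, Cov a b (fun e => (if n ∈ (RS e).1 then 2 else 0)
      + (if n ∈ (RS e).2 then 4 else 0)) := by
    intro n hn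
    let B : Bool → Finset E := fun x => univ.filter (fun e => n < lev e ∧ e ∈ T (lev e) n x)
    have hB : ∀ x, ∀ m, n < m → T m n x ⊆ B x := by
      intro x m hm e he
      have h1 := hlev m e (by omega) (hT1 m (by omega) n x he)
      exact mem_filter.2 ⟨mem_univ _, by rw [h1]; exact hm, by rw [h1]; exact he⟩
    have hspB : ∀ x, ∀ d m, m + d = M + 1 → n < m → sp a b (Hs m) ≤ sp a b (B x) := by
      intro x d
      induction d with
      | zero =>
        intro m hm _
        rw [hHs2 m (by omega)]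
        unfold sp
        rw [coe_empty, Set.image_empty, Submodule.span_empty]
        exact bot_le
      | succ d ih =>
        intro m hm hnm
        rw [← hQK m, ← hT2 m (by omega) n hnm x, sp_union]
        apply sup_le
        · exact sp_mono a b (hB x m hnm)
        · exact ih (m + 1) (by omega) (by omega)
    have hspB' : ∀ x, sp a b (Hs (n + 1)) ≤ sp a b (B x) := fun x =>
      hspB x (M - n) (n + 1) (by omega) (by omega)
    have hin : ∀ e, n < lev e → vec a b e ∈ sp a b (Hs (n + 1)) := by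
      intro e he
      exact vec_mem a b (hanti' _ _ (by omega : n + 1 ≤ lev e) (hlevH e (by omega)))
    have hcov := layer_cov a b (univ.filter (fun e => n ∈ (RS e).1))
      (univ.filter (fun e => n ∈ (RS e).2)) (B false) (B true) (by
        intro e he
        have h1 := (mem_filter.1 he).2
        exact mem_filter.2 ⟨mem_univ _, hRS6 e n h1.1 ⟨false, h1.2⟩⟩) (by
        intro e he
        have h1 := (mem_filter.1 he).2
        exact mem_filter.2 ⟨mem_univ _, hRS6 e n h1.1 ⟨true, h1.2⟩⟩) (by
        rw [Finset.disjoint_left]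
        intro e he he'
        have h1 := (mem_filter.1 he).2
        have h2 := (mem_filter.1 he').2
        have h3 := hT3 (lev e) (by omega) e n false true h1.2 h2.2
        exact absurd h3 (by decide)) (by
        rw [Finset.disjoint_left]
        intro e he he'
        exact Finset.disjoint_left.1 (hRS3 e) (mem_filter.1 he').2 (mem_filter.1 he).2) (by
        intro e he
        apply hspB' false
        apply hin
        rcases mem_union.1 he with h1 | h1
        · exact mem_range.1 (hRS1 e (mem_filter.1 h1).2)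
        · exact mem_range.1 (hRS2 e (mem_filter.1 h1).2)) (by
        intro e he
        apply hspB' true
        apply hin
        rcases mem_union.1 he with h1 | h1
        · exact mem_range.1 (hRS1 e (mem_filter.1 h1).2)
        · exact mem_range.1 (hRS2 e (mem_filter.1 h1).2))
    have h1 : (fun e => (if e ∈ univ.filter (fun e => n ∈ (RS e).1) then 2 else 0)
        + (if e ∈ univ.filter (fun e => n ∈ (RS e).2) then 4 else 0))
        = (fun e => (if n ∈ (RS e).1 then 2 else 0) + (if n ∈ (RS e).2 then 4 else 0)) := by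
      funext e
      simp only [mem_filter, mem_univ, true_and]
    rw [h1] at hcov
    exact hcov
  obtain ⟨J, hJ, D, hD1, hD2⟩ := Cov.sum a b (n := M) _ hlayer
  refine ⟨J, hJ, D, hD1, ?_⟩
  intro e
  rw [hD2 e]
  show ∑ n ∈ range M, ((if n ∈ (RS e).1 then 2 else 0) + (if n ∈ (RS e).2 then 4 else 0))
    = 2 * r e + 4 * s e
  rw [sum_add_distrib]
  have h1 : ∀ (F : Finset ℕ) (c : ℕ), F ⊆ range (lev e) →
      ∑ n ∈ range M, (if n ∈ F then c else 0) = F.card * c := by
    intro F c hF
    rw [← sum_filter, sum_const, smul_eq_mul]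
    congr 2
    ext n
    rw [mem_filter, mem_range]
    constructor
    · exact fun h => h.2
    · intro h
      have h2 := mem_range.1 (hF h)
      have h3 := hlevM e
      exact ⟨by omega, h⟩
  rw [h1 _ _ (hRS1 e), h1 _ _ (hRS2 e), hRS4, hRS5]
  ring

end

end Pool.Agent.H47.NC
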