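import Pool.Agent.H47.NC.Contr

set_option autoImplicit false
set_option linter.unusedSectionVars false

/-!
# From simple graphs to multigraphs
-/

namespace Pool.Agent.H47.NC

open Finset Pool.Agent.H47.FC

section

variable {V : Type} [DecidableEq V] [Fintype V] (G : SimpleGraph V) [DecidableRel G.Adj]
  (w : Sym2 V → ℕ)

/-- edges of positive weight -/
abbrev Ed : Type := {e : Sym2 V // e ∈ G.edgeSet ∧ w e ≠ 0}

/-- first end -/
noncomputable def ea (e : Ed G w) : V := (Quot.out e.1).1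
/-- second end -/
noncomputable def eb (e : Ed G w) : V := (Quot.out e.1).2

lemma ea_eb (e : Ed G w) : s(ea G w e, eb G w e) = e.1 := by
  unfold ea eb
  exact Quot.out_eq e.1

lemma adj_ea_eb (e : Ed G w) : G.Adj (ea G w e) (eb G w e) := by
  rw [← SimpleGraph.mem_edgeSet, ea_eb]
  exact e.2.1

lemma mem_iff_ea_eb (e : Ed G w) (v : V) : v ∈ e.1 ↔ v = ea G w e ∨ v = eb G w e := by
  rw [← ea_eb, Sym2.mem_iff]

/-- an unordered pair crosses a vertex set -/
def CrossesS (X : Finset V) (e : Sym2 V) : Prop := (∃ x ∈ e, x ∈ X) ∧ ∃ y ∈ e, y ∉ X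

lemma crossesS_mk (X : Finset V) (x y : V) : CrossesS X s(x, y) ↔ ¬ (x ∈ X ↔ y ∈ X) := by
  unfold CrossesS
  simp only [Sym2.mem_iff]
  constructor
  · rintro ⟨⟨u, rfl | rfl, hu⟩, ⟨v, rfl | rfl, hv⟩⟩ <;> tauto
  · intro h
    by_cases hx : x ∈ X
    · exact ⟨⟨x, Or.inl rfl, hx⟩, ⟨y, Or.inr rfl, fun hy => h ⟨fun _ => hy, fun _ => hx⟩⟩⟩
    · refine ⟨⟨y, Or.inr rfl, ?_⟩, ⟨x, Or.inl rfl, hx⟩⟩
      by_contra hy
      exact h ⟨fun h' => absurd h' hx, fun h' => absurd h' hy⟩

lemma crs_iff (X : Finset V) (e : Ed G w) : Crs (ea G w) (eb G w) X e ↔ CrossesS X e.1 := by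
  rw [← ea_eb, crossesS_mk]
  rfl

/-- even sets have even degrees -/
lemma even_deg {D : Finset (Ed G w)} (hD : EvenM (ea G w) (eb G w) D) (v : V) :
    Even ((D.map (Function.Embedding.subtype _)).filter (fun e => v ∈ e)).card := by
  have h1 : ((D.map (Function.Embedding.subtype _)).filter (fun e => v ∈ e)).card
      = (D.filter (fun e => v ∈ e.1)).card := by
    rw [filter_map, card_map]
    rfl
  rw [h1]
  have h2 : (((D.filter (fun e => v ∈ e.1)).card : ℕ) : ZMod 2) = 0 := by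
    rw [natCast_card_filter]
    have h3 := congrFun hD v
    unfold bd at h3
    rw [Finset.sum_apply] at h3
    have h3' : ∑ e ∈ D, (dl (ea G w e) + dl (eb G w e)) v = (0 : ZMod 2) := h3
    refine Eq.trans (sum_congr rfl fun e _ => ?_) h3'
    have h4 := (adj_ea_eb G w e).ne
    rw [if_congr (mem_iff_ea_eb G w e v) rfl rfl]
    simp only [Pi.add_apply, dl]
    by_cases h5 : v = ea G w e
    · have h6 : v ≠ eb G w e := fun h => h4 (h5.symm.trans h)
      rw [if_pos (Or.inl h5), if_pos h5, if_neg h6, add_zero]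
    · by_cases h6 : v = eb G w e
      · rw [if_pos (Or.inr h6), if_neg h5, if_pos h6, zero_add]
      · rw [if_neg (by rintro (h | h) <;> contradiction), if_neg h5, if_neg h6, add_zero]
  rw [even_iff_two_dvd]
  exact (ZMod.natCast_eq_zero_iff _ _).1 h2

/-- the pair sum of the frozen statement is the cut sum -/
lemma pair_sum (X : Finset V) :
    ∑ p ∈ (Finset.univ : Finset (V × V)).filter
              (fun p => p.1 ∈ X ∧ p.2 ∉ X ∧ G.Adj p.1 p.2), w s(p.1, p.2)
      = ∑ e ∈ univ.filter (fun e : Ed G w => Crs (ea G w) (eb G w) X e), w e.1 := by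
  classical
  symm
  rw [← sum_filter_ne_zero (s := (Finset.univ : Finset (V × V)).filter
              (fun p => p.1 ∈ X ∧ p.2 ∉ X ∧ G.Adj p.1 p.2))]
  refine sum_bij (fun e _ => if ea G w e ∈ X then (ea G w e, eb G w e) else (eb G w e, ea G w e))
    ?_ ?_ ?_ ?_
  · intro e he
    rw [mem_filter] at he
    have h1 := adj_ea_eb G w e
    have h2 := he.2
    unfold Crs at h2
    have h3 := ea_eb G w e
    by_cases hx : ea G w e ∈ X
    · have hy : eb G w e ∉ X := fun hy => h2 ⟨fun _ => hy, fun _ => hx⟩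
      rw [if_pos hx, mem_filter, mem_filter]
      exact ⟨⟨mem_univ _, hx, hy, h1⟩, by rw [h3]; exact e.2.2⟩
    · have hy : eb G w e ∈ X := by
        by_contra hy
        exact h2 ⟨fun h => absurd h hx, fun h => absurd h hy⟩
      rw [if_neg hx, mem_filter, mem_filter]
      exact ⟨⟨mem_univ _, hy, hx, h1.symm⟩, by rw [Sym2.eq_swap, h3]; exact e.2.2⟩
  · intro e _ f _ hef
    apply Subtype.ext
    rw [← ea_eb G w e, ← ea_eb G w f]
    have h0 : ∀ g : Ed G w, s((if ea G w g ∈ X then (ea G w g, eb G w g) else (eb G w g, ea G w g)).1,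
        (if ea G w g ∈ X then (ea G w g, eb G w g) else (eb G w g, ea G w g)).2)
        = s(ea G w g, eb G w g) := by
      intro g
      split_ifs
      · rfl
      · exact Sym2.eq_swap
    rw [← h0 e, ← h0 f]
    rw [hef]
  · rintro ⟨x, y⟩ hp
    rw [mem_filter, mem_filter] at hp
    obtain ⟨⟨-, hx, hy, hadj⟩, hw⟩ := hp
    simp only at hx hy hadj hw
    let e : Ed G w := ⟨s(x, y), hadj, hw⟩
    have h1 : s(ea G w e, eb G w e) = s(x, y) := ea_eb G w e
    refine ⟨e, mem_filter.2 ⟨mem_univ _, ?_⟩, ?_⟩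
    · rw [crs_iff]
      show CrossesS X s(x, y)
      rw [crossesS_mk]
      intro h
      exact hy (h.1 hx)
    · rw [Sym2.eq_iff] at h1
      rcases h1 with ⟨h2, h3⟩ | ⟨h2, h3⟩
      · rw [h2, h3, if_pos hx]
      · rw [h2, h3, if_neg hy]
  · intro e he
    rw [← ea_eb G w e]
    split_ifs
    · rfl
    · rw [Sym2.eq_swap]

end

end Pool.Agent.H47.NC
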