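import Mathlib

set_option autoImplicit false

/-!
# Matroid intersection for rank functions
-/

namespace Pool.Agent.H47.NC

open Finset

/-- rank functions of (finite) matroids -/
structure IsRk {α : Type} [DecidableEq α] (r : Finset α → ℕ) : Prop where
  empty : r ∅ = 0
  step : ∀ (x : α) (A : Finset α), r (insert x A) ≤ r A + 1
  mono : ∀ {A B : Finset α}, A ⊆ B → r A ≤ r B
  sub : ∀ A B : Finset α, r (A ∪ B) + r (A ∩ B) ≤ r A + r B

section

variable {α : Type} [DecidableEq α]

lemma IsRk.zero_of {r : Finset α → ℕ} (hr : IsRk r) (A : Finset α)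
    (h : ∀ x ∈ A, r {x} = 0) : r A = 0 := by
  induction A using Finset.induction_on with
  | empty => exact hr.empty
  | insert x A hx ih =>
    have h1 := hr.sub {x} A
    have h2 := ih (fun y hy => h y (mem_insert_of_mem hy))
    have h3 := h x (mem_insert_self _ _)
    rw [← insert_eq] at h1
    omega

lemma IsRk.card_le {r : Finset α → ℕ} (hr : IsRk r) (A : Finset α) : r A ≤ A.card := by
  induction A using Finset.induction_on with
  | empty => rw [hr.empty]; exact Nat.zero_le _
  | insert x A hx ih =>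
    rw [card_insert_of_notMem hx]
    exact (hr.step x A).trans (by omega)

lemma IsRk.contract {r : Finset α → ℕ} (hr : IsRk r) (s : α) (hs : r {s} = 1) :
    IsRk (fun A => r (insert s A) - 1) := by
  have h1 : ∀ A, 1 ≤ r (insert s A) := fun A => by
    rw [← hs]
    exact hr.mono (singleton_subset_iff.2 (mem_insert_self _ _))
  refine ⟨?_, ?_, ?_, ?_⟩
  · show r (insert s ∅) - 1 = 0
    rw [insert_empty, hs]
  · intro x A
    show r (insert s (insert x A)) - 1 ≤ r (insert s A) - 1 + 1
    have h2 := hr.step x (insert s A)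
    rw [insert_comm] at h2
    have := h1 A
    omega
  · intro A B hAB
    show r (insert s A) - 1 ≤ r (insert s B) - 1
    exact Nat.sub_le_sub_right (hr.mono (insert_subset_insert _ hAB)) 1
  · intro A B
    show r (insert s (A ∪ B)) - 1 + (r (insert s (A ∩ B)) - 1)
      ≤ r (insert s A) - 1 + (r (insert s B) - 1)
    have h2 := hr.sub (insert s A) (insert s B)
    have h3 : insert s A ∪ insert s B = insert s (A ∪ B) := by
      ext x; simp only [mem_union, mem_insert]; tauto
    have h4 : insert s A ∩ insert s B = insert s (A ∩ B) := by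
      ext x; simp only [mem_inter, mem_insert]; tauto
    rw [h3, h4] at h2
    have := h1 A
    have := h1 B
    have := h1 (A ∪ B)
    have := h1 (A ∩ B)
    omega

/-- **Matroid intersection theorem.** -/
theorem matroid_inter (S : Finset α) : ∀ (r1 r2 : Finset α → ℕ), IsRk r1 → IsRk r2 →
    ∀ k : ℕ, (∀ A ⊆ S, k ≤ r1 A + r2 (S \ A)) →
    ∃ I ⊆ S, I.card = k ∧ r1 I = k ∧ r2 I = k := by
  induction S using Finset.strongInduction with
  | H S ih =>
    intro r1 r2 h1 h2 k hk
    rcases Nat.eq_zero_or_pos k with rfl | hkpos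
    · exact ⟨∅, empty_subset _, card_empty, h1.empty, h2.empty⟩
    obtain ⟨s, hsS, hs1, hs2⟩ : ∃ s ∈ S, r1 {s} = 1 ∧ r2 {s} = 1 := by
      by_contra hcon
      push Not at hcon
      have h3 := hk (S.filter (fun s => r1 {s} = 0)) (filter_subset _ _)
      have h4 : r1 (S.filter (fun s => r1 {s} = 0)) = 0 :=
        h1.zero_of _ (fun x hx => (mem_filter.1 hx).2)
      have h5 : r2 (S \ S.filter (fun s => r1 {s} = 0)) = 0 := by
        apply h2.zero_of
        intro x hx
        rw [mem_sdiff, mem_filter, not_and] at hx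
        have h6 := hx.2 hx.1
        have h7 := h1.card_le {x}
        have h8 := h2.card_le {x}
        rw [card_singleton] at h7 h8
        have h9 := hcon x hx.1 (by omega)
        omega
      omega
    set S' := S.erase s with hS'
    have hsub : S' ⊂ S := erase_ssubset hsS
    have hsS' : s ∉ S' := notMem_erase _ _
    by_cases hdel : ∀ A ⊆ S', k ≤ r1 A + r2 (S' \ A)
    · obtain ⟨I, hI, h3⟩ := ih S' hsub r1 r2 h1 h2 k hdel
      exact ⟨I, hI.trans hsub.1, h3⟩
    push Not at hdel
    obtain ⟨A, hA, hAk⟩ := hdel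
    by_cases hcon : ∀ B ⊆ S', k - 1 ≤ (r1 (insert s B) - 1) + (r2 (insert s (S' \ B)) - 1)
    · obtain ⟨I, hI, h3, h4, h5⟩ := ih S' hsub _ _ (h1.contract s hs1) (h2.contract s hs2) (k - 1)
        hcon
      have hsI : s ∉ I := fun h => hsS' (hI h)
      have h6 : 1 ≤ r1 (insert s I) := by
        rw [← hs1]; exact h1.mono (singleton_subset_iff.2 (mem_insert_self _ _))
      have h7 : 1 ≤ r2 (insert s I) := by
        rw [← hs2]; exact h2.mono (singleton_subset_iff.2 (mem_insert_self _ _))
      refine ⟨insert s I, insert_subset hsS (hI.trans hsub.1), ?_, ?_, ?_⟩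
      · rw [card_insert_of_notMem hsI]; omega
      · have h8 : r1 (insert s I) - 1 = k - 1 := h4
        omega
      · have h8 : r2 (insert s I) - 1 = k - 1 := h5
        omega
    push Not at hcon
    obtain ⟨B, hB, hBk⟩ := hcon
    exfalso
    have h6 : ∀ C : Finset α, 1 ≤ r1 (insert s C) := fun C => by
      rw [← hs1]; exact h1.mono (singleton_subset_iff.2 (mem_insert_self _ _))
    have h7 : ∀ C : Finset α, 1 ≤ r2 (insert s C) := fun C => by
      rw [← hs2]; exact h2.mono (singleton_subset_iff.2 (mem_insert_self _ _))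
    have h8 := h1.sub A (insert s B)
    have h9 := h2.sub (S' \ A) (insert s (S' \ B))
    have e1 : A ∪ insert s B = insert s (A ∪ B) := by
      ext x; simp only [mem_union, mem_insert]; tauto
    have e2 : A ∩ insert s B = A ∩ B := by
      ext x; simp only [mem_inter, mem_insert]
      constructor
      · rintro ⟨h, rfl | h'⟩
        · exact absurd (hA h) hsS'
        · exact ⟨h, h'⟩
      · rintro ⟨h, h'⟩; exact ⟨h, Or.inr h'⟩
    have e3 : S' \ A ∪ insert s (S' \ B) = S \ (A ∩ B) := by
      ext x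
      simp only [hS', mem_union, mem_insert, mem_sdiff, mem_erase, mem_inter]
      constructor
      · rintro (⟨⟨h, h'⟩, h''⟩ | h | ⟨⟨h, h'⟩, h''⟩)
        · exact ⟨h', fun h3 => h'' h3.1⟩
        · subst h; exact ⟨hsS, fun h3 => hsS' (hA h3.1)⟩
        · exact ⟨h', fun h3 => h'' h3.2⟩
      · rintro ⟨h, h'⟩
        by_cases hxs : x = s
        · exact Or.inr (Or.inl hxs)
        · by_cases hxA : x ∈ A
          · exact Or.inr (Or.inr ⟨⟨hxs, h⟩, fun h3 => h' ⟨hxA, h3⟩⟩)
          · exact Or.inl ⟨⟨hxs, h⟩, hxA⟩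
    have e4 : S' \ A ∩ insert s (S' \ B) = S \ insert s (A ∪ B) := by
      ext x
      simp only [hS', mem_union, mem_insert, mem_sdiff, mem_erase, mem_inter]
      constructor
      · rintro ⟨⟨⟨h, h'⟩, h''⟩, h3 | ⟨⟨h4, h5⟩, h6⟩⟩
        · exact absurd h3 h
        · exact ⟨h', fun h7 => by rcases h7 with h7 | h7 | h7 <;> tauto⟩
      · rintro ⟨h, h'⟩
        push Not at h'
        exact ⟨⟨⟨h'.1, h⟩, h'.2.1⟩, Or.inr ⟨⟨h'.1, h⟩, h'.2.2⟩⟩
    rw [e1, e2] at h8
    rw [e3, e4] at h9
    have h10 := hk (A ∩ B) (inter_subset_left.trans (hA.trans hsub.1))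
    have h11 := hk (insert s (A ∪ B)) (insert_subset hsS (union_subset (hA.trans hsub.1)
      (hB.trans hsub.1)))
    have := h6 B
    have := h7 (S' \ B)
    omega

end

end Pool.Agent.H47.NC
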