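import Pool.Agent.H47.NC.Color

set_option autoImplicit false
set_option linter.unusedSectionVars false

/-!
# Near-constant weights
-/

namespace Pool.Agent.H47.NC

open Finset Pool.Agent.H47.FC

section

variable {V E : Type} [DecidableEq V] [Fintype V] [DecidableEq E] [Fintype E] (a b : E → V)

/-- `w` is a sum of even sets -/
def Cov (w : E → ℕ) : Prop := ∃ (J : Type) (_ : Fintype J) (D : J → Finset E),
  (∀ j, EvenM a b (D j)) ∧ ∀ e, (univ.filter (fun j => e ∈ D j)).card = w e

lemma Cov.zero : Cov a b (fun _ => 0) := by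
  refine ⟨Empty, inferInstance, fun j => j.elim, fun j => j.elim, fun e => ?_⟩
  rw [card_eq_zero]
  ext j
  exact j.elim

lemma Cov.sum {n : ℕ} (w : ℕ → E → ℕ) (h : ∀ i < n, Cov a b (w i)) :
    Cov a b (fun e => ∑ i ∈ range n, w i e) := by
  classical
  choose! J hJ D hD1 hD2 using h
  let hJ' : ∀ i : Fin n, Fintype (J i) := fun i => hJ i i.2
  refine ⟨Σ i : Fin n, J i, inferInstance, fun x => D x.1 x.2, fun x => hD1 x.1 x.1.2 x.2, ?_⟩
  intro e
  show (univ.filter (fun x : Σ i : Fin n, J i => e ∈ D x.1 x.2)).card = ∑ i ∈ range n, w i e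
  rw [card_filter, Fintype.sum_sigma, ← Fin.sum_univ_eq_sum_range (fun i => w i e) n]
  refine sum_congr rfl fun i _ => ?_
  rw [← hD2 i i.2 e, card_filter]

/-- eight symmetric differences -/
def mix (D C0 C1 C2 : Finset E) (x : Bool × Bool × Bool) : Finset E :=
  symmDiff (symmDiff (symmDiff D (if x.1 then C0 else ∅)) (if x.2.1 then C1 else ∅))
    (if x.2.2 then C2 else ∅)

lemma even_mix {D C0 C1 C2 : Finset E} (h : EvenM a b D) (h0 : EvenM a b C0) (h1 : EvenM a b C1)
    (h2 : EvenM a b C2) (x : Bool × Bool × Bool) : EvenM a b (mix D C0 C1 C2 x) := by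
  unfold EvenM at *
  unfold mix
  rw [bd_symmDiff, bd_symmDiff, bd_symmDiff, h]
  have h3 : ∀ (C : Finset E) (y : Bool), bd a b C = 0 → bd a b (if y then C else ∅) = 0 := by
    intro C y hC
    cases y
    · simp [bd_empty]
    · simpa using hC
  rw [h3 _ _ h0, h3 _ _ h1, h3 _ _ h2]
  simp

lemma card_bool : ∀ d c0 c1 c2 : Bool,
    (univ.filter (fun x : Bool × Bool × Bool =>
      (xor (xor (xor d (x.1 && c0)) (x.2.1 && c1)) (x.2.2 && c2)) = true)).card
      = if (c0 || c1 || c2) = true then 4 else if d = true then 8 else 0 := by decide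

lemma card_mix (D C0 C1 C2 : Finset E) (e : E) :
    (univ.filter (fun x => e ∈ mix D C0 C1 C2 x)).card
      = if e ∈ C0 ∨ e ∈ C1 ∨ e ∈ C2 then 4 else if e ∈ D then 8 else 0 := by
  have h1 : univ.filter (fun x => e ∈ mix D C0 C1 C2 x)
      = univ.filter (fun x : Bool × Bool × Bool =>
      (xor (xor (xor (decide (e ∈ D)) (x.1 && decide (e ∈ C0))) (x.2.1 && decide (e ∈ C1)))
        (x.2.2 && decide (e ∈ C2))) = true) := by
    ext ⟨x, y, z⟩
    simp only [mem_filter, mem_univ, true_and, mix, mem_symmDiff]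
    by_cases hD : e ∈ D <;> by_cases h0 : e ∈ C0 <;> by_cases h1 : e ∈ C1 <;>
      by_cases h2 : e ∈ C2 <;> cases x <;> cases y <;> cases z <;> simp [hD, h0, h1, h2]
  rw [h1, card_bool]
  by_cases hD : e ∈ D <;> by_cases h0 : e ∈ C0 <;> by_cases h1 : e ∈ C1 <;>
      by_cases h2 : e ∈ C2 <;> simp [hD, h0, h1, h2]

/-- **Unit lemma.** `32` on a 3-edge-connected graph plus `8` on an arbitrary set of its edges. -/
theorem unit_cov (H S : Finset E) (hS : S ⊆ H) (hcut : CutGe a b H 3) :
    Cov a b (fun e => (if e ∈ H then 32 else 0) + (if e ∈ S then 8 else 0)) := by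
  classical
  obtain ⟨d, hd⟩ := partition_nine a b H hcut
  choose C hC1 hC2 hC3 using fun p => eight_flow a b _ (hd p).1
  have hD : ∀ p, ∃ D : Finset E, EvenM a b D ∧ S.filter (fun e => d e = p) ⊆ D ∧
      D ⊆ S.filter (fun e => d e = p) ∪ H.filter (fun e => d e ≠ p) := by
    intro p
    apply exists_even
    · intro e he
      rw [(hd p).2]
      exact vec_mem a b (hS (mem_filter.1 he).1)
    · rw [Finset.disjoint_left]
      intro e h1 h2
      exact (mem_filter.1 h2).2 (mem_filter.1 h1).2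
  choose D hD1 hD2 hD3 using hD
  refine ⟨(Fin 3 × Fin 3) × (Bool × Bool × Bool), inferInstance,
    fun x => mix (D x.1) (C x.1 0) (C x.1 1) (C x.1 2) x.2,
    fun x => even_mix a b (hD1 _) (hC1 _ _) (hC1 _ _) (hC1 _ _) _, ?_⟩
  intro e
  rw [card_filter, Fintype.sum_prod_type]
  have h1 : ∀ p : Fin 3 × Fin 3, (∑ x : Bool × Bool × Bool,
      if e ∈ mix (D p) (C p 0) (C p 1) (C p 2) x then 1 else 0)
      = (if d e = p then (if e ∈ S then 8 else 0) else (if e ∈ H then 4 else 0)) := by
    intro p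
    rw [← card_filter, card_mix]
    by_cases hR : e ∈ H.filter (fun e => d e ≠ p)
    · obtain ⟨i, hi⟩ := hC3 p e hR
      have h2 : e ∈ C p 0 ∨ e ∈ C p 1 ∨ e ∈ C p 2 := by
        fin_cases i
        · exact Or.inl hi
        · exact Or.inr (Or.inl hi)
        · exact Or.inr (Or.inr hi)
      rw [if_pos h2]
      rw [mem_filter] at hR
      rw [if_neg hR.2, if_pos hR.1]
    · have h2 : ¬ (e ∈ C p 0 ∨ e ∈ C p 1 ∨ e ∈ C p 2) := by
        rintro (h | h | h)
        · exact hR (hC2 p _ h)
        · exact hR (hC2 p _ h)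
        · exact hR (hC2 p _ h)
      rw [if_neg h2]
      by_cases hp : d e = p
      · rw [if_pos hp]
        by_cases heS : e ∈ S
        · rw [if_pos heS, if_pos (hD2 p (mem_filter.2 ⟨heS, hp⟩))]
        · rw [if_neg heS, if_neg]
          intro h3
          rcases mem_union.1 (hD3 p h3) with h4 | h4
          · exact heS (mem_filter.1 h4).1
          · exact hR h4
      · rw [if_neg hp]
        have heH : e ∉ H := fun h => hR (mem_filter.2 ⟨h, hp⟩)
        rw [if_neg heH, if_neg]
        intro h3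
        rcases mem_union.1 (hD3 p h3) with h4 | h4
        · exact heH (hS (mem_filter.1 h4).1)
        · exact hR h4
  rw [sum_congr rfl (fun p _ => h1 p), ← add_sum_erase univ _ (mem_univ (d e))]
  rw [if_pos rfl]
  have h2 : ∑ p ∈ univ.erase (d e), (if d e = p then (if e ∈ S then 8 else 0)
      else (if e ∈ H then 4 else 0)) = ∑ p ∈ univ.erase (d e), (if e ∈ H then 4 else 0) := by
    refine sum_congr rfl fun p hp => ?_
    rw [if_neg (ne_of_mem_erase hp).symm]
  rw [h2, sum_const, card_erase_of_mem (mem_univ _), card_univ]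
  simp only [Fintype.card_prod, Fintype.card_fin, smul_eq_mul]
  by_cases heH : e ∈ H
  · rw [if_pos heH, if_pos heH]; omega
  · rw [if_neg heH, if_neg heH]; omega

/-- **Locally near-constant weights**, 3-edge-connected form. -/
theorem near_three (m : E → ℕ)
    (h : ∀ e, 0 < m e → ∃ Hs : Finset E, e ∈ Hs ∧ CutGe a b Hs 3 ∧ ∀ f ∈ Hs, 4 * m e ≤ 5 * m f) :
    Cov a b (fun e => 32 * m e) := by
  classical
  let U : ℕ → Finset E := fun n => univ.filter (fun e => ∃ Hs : Finset E, e ∈ Hs ∧
    CutGe a b Hs 3 ∧ ∀ f ∈ Hs, n ≤ m f)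
  have hU : ∀ n, CutGe a b (U n) 3 := by
    rintro n X ⟨e, he, heX⟩
    obtain ⟨Hs, h1, h2, h3⟩ := (mem_filter.1 he).2
    refine (h2 X ⟨e, h1, heX⟩).trans (card_le_card (filter_subset_filter _ ?_))
    intro f hf
    exact mem_filter.2 ⟨mem_univ _, Hs, hf, h2, h3⟩
  have hUm : ∀ n e, e ∈ U n → n ≤ m e := by
    intro n e he
    obtain ⟨Hs, h1, h2, h3⟩ := (mem_filter.1 he).2
    exact h3 e h1
  have hUanti : ∀ n n' e, n' ≤ n → e ∈ U n → e ∈ U n' := by
    intro n n' e hn he
    obtain ⟨Hs, h1, h2, h3⟩ := (mem_filter.1 he).2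
    exact mem_filter.2 ⟨mem_univ _, Hs, h1, h2, fun f hf => hn.trans (h3 f hf)⟩
  obtain ⟨M, hM⟩ : ∃ M, ∀ e, m e ≤ M :=
    ⟨∑ e, m e, fun e => single_le_sum (f := m) (fun _ _ => Nat.zero_le _) (mem_univ e)⟩
  let N : E → ℕ := fun e => Nat.findGreatest (fun n => e ∈ U n) M
  have hN1 : ∀ e n, n ≤ M → e ∈ U n → n ≤ N e := fun e n hn he => Nat.le_findGreatest hn he
  have hN2 : ∀ e n, 0 < n → n ≤ N e → e ∈ U n := by
    intro e n hn hle
    have h1 : N e ≠ 0 := by omega
    have h2 : e ∈ U (N e) := Nat.findGreatest_of_ne_zero rfl h1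
    exact hUanti _ _ _ hle h2
  have hNM : ∀ e, N e ≤ M := fun e => Nat.findGreatest_le M
  have hNm : ∀ e, N e ≤ m e := by
    intro e
    by_cases h0 : N e = 0
    · omega
    · exact hUm _ _ (hN2 e (N e) (by omega) le_rfl)
  have hkey : ∀ e, 4 * m e ≤ 5 * N e := by
    intro e
    by_cases h0 : m e = 0
    · omega
    obtain ⟨Hs, h1, h2, h3⟩ := h e (by omega)
    have h4 : e ∈ U ((4 * m e + 4) / 5) := by
      refine mem_filter.2 ⟨mem_univ _, Hs, h1, h2, ?_⟩
      intro f hf
      have := h3 f hf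
      omega
    have h5 := hUm _ _ h4
    have h6 := hN1 e _ (h5.trans (hM e)) h4
    omega
  let S : ℕ → Finset E := fun n => (U (n + 1)).filter (fun e => n + 1 ≤ 4 * (m e - N e))
  have hcov := Cov.sum a b (n := M) (fun n e => (if e ∈ U (n + 1) then 32 else 0)
    + (if e ∈ S n then 8 else 0)) (fun n _ => unit_cov a b (U (n + 1)) (S n) (filter_subset _ _) (hU _))
  obtain ⟨J, hJ, D, hD1, hD2⟩ := hcov
  refine ⟨J, hJ, D, hD1, ?_⟩
  intro e
  rw [hD2 e]
  show ∑ n ∈ range M, ((if e ∈ U (n + 1) then 32 else 0) + (if e ∈ S n then 8 else 0)) = 32 * m e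
  rw [sum_add_distrib]
  have h1 : ∑ n ∈ range M, (if e ∈ U (n + 1) then 32 else 0) = 32 * N e := by
    rw [← sum_filter, sum_const, smul_eq_mul]
    have h2 : (range M).filter (fun n => e ∈ U (n + 1)) = range (N e) := by
      ext n
      rw [mem_filter, mem_range, mem_range]
      constructor
      · rintro ⟨h3, h4⟩
        have := hN1 e (n + 1) (by omega) h4
        omega
      · intro h3
        have := hNM e
        exact ⟨by omega, hN2 e (n + 1) (by omega) (by omega)⟩
    rw [h2, card_range, mul_comm]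
  have h2 : ∑ n ∈ range M, (if e ∈ S n then 8 else 0) = 8 * (4 * (m e - N e)) := by
    rw [← sum_filter, sum_const, smul_eq_mul]
    have h3 : (range M).filter (fun n => e ∈ S n) = range (4 * (m e - N e)) := by
      ext n
      rw [mem_filter, mem_range, mem_range]
      have h6 := hkey e
      have h7 := hNm e
      have h8 := hNM e
      constructor
      · rintro ⟨h4, h5⟩
        have := (mem_filter.1 h5).2
        omega
      · intro h4
        refine ⟨by omega, mem_filter.2 ⟨hN2 e (n + 1) (by omega) (by omega), by omega⟩⟩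
    rw [h3, card_range, mul_comm]
  rw [h1, h2]
  have := hkey e
  have := hNm e
  omega

end

end Pool.Agent.H47.NC
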