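import Pool.Agent.H47.NC.Contr2

set_option autoImplicit false
set_option linter.unusedSectionVars false

/-!
# Near-constant weights with a free part
-/

namespace Pool.Agent.H47.NC

open Finset Pool.Agent.H47.FC

section

variable {V E : Type} [DecidableEq V] [Fintype V] [DecidableEq E] [Fintype E] (a b : E → V)

lemma Cov.sumF {ι : Type} [Fintype ι] (w : ι → E → ℕ) (h : ∀ i, Cov a b (w i)) :
    Cov a b (fun e => ∑ i, w i e) := by
  classical
  choose J hJ D hD1 hD2 using h
  refine ⟨Σ i : ι, J i, inferInstance, fun x => D x.1 x.2, fun x => hD1 x.1 x.2, ?_⟩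
  intro e
  show (univ.filter (fun x : Σ i : ι, J i => e ∈ D x.1 x.2)).card = ∑ i, w i e
  rw [card_filter, Fintype.sum_sigma]
  refine sum_congr rfl fun i _ => ?_
  rw [← hD2 i e, card_filter]

/-- one layer with a 2-edge-connected base -/
lemma layer8 (R S : Finset E) (hR : CutGe a b R 2) (hS : ∀ e ∈ S, vec a b e ∈ sp a b R)
    (hdis : Disjoint S R) :
    Cov a b (fun e => (if e ∈ R then 4 else 0) + (if e ∈ S then 8 else 0)) := by
  classical
  obtain ⟨C, hC1, hC2, hC3⟩ := eight_flow a b R hR
  obtain ⟨D, hD1, hD2, hD3⟩ := exists_even a b (T := R) (S := S) hS hdis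
  refine ⟨Bool × Bool × Bool, inferInstance, mix D (C 0) (C 1) (C 2),
    even_mix a b hD1 (hC1 _) (hC1 _) (hC1 _), ?_⟩
  intro e
  show _ = (if e ∈ R then 4 else 0) + (if e ∈ S then 8 else 0)
  rw [card_mix]
  by_cases heR : e ∈ R
  · obtain ⟨i, hi⟩ := hC3 e heR
    have h2 : e ∈ C 0 ∨ e ∈ C 1 ∨ e ∈ C 2 := by
      fin_cases i
      · exact Or.inl hi
      · exact Or.inr (Or.inl hi)
      · exact Or.inr (Or.inr hi)
    have heS : e ∉ S := fun h => (Finset.disjoint_left.1 hdis h) heR
    rw [if_pos h2, if_pos heR, if_neg heS]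
  · have h2 : ¬ (e ∈ C 0 ∨ e ∈ C 1 ∨ e ∈ C 2) := by
      rintro (h | h | h)
      · exact heR (hC2 _ h)
      · exact heR (hC2 _ h)
      · exact heR (hC2 _ h)
    rw [if_neg h2, if_neg heR, zero_add]
    by_cases heS : e ∈ S
    · rw [if_pos heS, if_pos (hD2 heS)]
    · rw [if_neg heS, if_neg]
      intro h
      rcases mem_union.1 (hD3 h) with h3 | h3
      · exact heS h3
      · exact heR h3

/-- edges in the closure can be added to a 2-edge-connected graph -/
lemma cutGe_union {R A : Finset E} {c : ℕ} (hR : CutGe a b R c) (hA : ∀ e ∈ A, vec a b e ∈ sp a b R) :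
    CutGe a b (R ∪ A) c := by
  rintro X ⟨e, he, heX⟩
  have h1 : ∃ f ∈ R, Crs a b X f := by
    rcases mem_union.1 he with h | h
    · exact ⟨e, h, heX⟩
    · exact exists_crs a b (hA e h) heX
  exact (hR X h1).trans (card_le_card (filter_subset_filter _ subset_union_left))

/-- filling up -/
lemma sum_fill (c Y k : ℕ) : ∑ n ∈ range k, min c (Y - c * n) = min Y (c * k) := by
  induction k with
  | zero => simp
  | succ k ih =>
    rw [sum_range_succ, ih, Nat.mul_succ]
    omega

lemma sum_fill_fin (c Y k : ℕ) : ∑ i : Fin k, min c (Y - c * i.1) = min Y (c * k) := by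
  rw [Fin.sum_univ_eq_sum_range (fun n => min c (Y - c * n)) k, sum_fill]

/-- **Unit lemma with free edges.** -/
theorem unit_cov2 (H : Finset E) (hcut : CutGe a b H 3) (x : E → ℕ) (hx4 : ∀ e, 4 ∣ x e)
    (hxH : ∀ e ∈ H, x e ≤ 8) (hx : ∀ e, x e ≤ 72) (hxs : ∀ e, x e ≠ 0 → vec a b e ∈ sp a b H) :
    Cov a b (fun e => (if e ∈ H then 32 else 0) + x e) := by
  classical
  obtain ⟨d, hd⟩ := partition_nine a b H hcut
  let idx : Fin 3 × Fin 3 ≃ Fin 9 := finProdFinEquiv
  -- the weight of the free part in the layer `p`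
  let y : Fin 3 × Fin 3 → E → ℕ := fun p e =>
    if e ∈ H then (if d e = p then x e else 0) else min 8 (x e - 8 * (idx p).1)
  have hy : ∀ p e, y p e = 0 ∨ y p e = 4 ∨ y p e = 8 := by
    intro p e
    have h1 := hx4 e
    show (if e ∈ H then (if d e = p then x e else 0) else min 8 (x e - 8 * (idx p).1)) = 0 ∨ _
    show _ ∨ (if e ∈ H then (if d e = p then x e else 0) else min 8 (x e - 8 * (idx p).1)) = 4 ∨ _
    show _ ∨ _ ∨ (if e ∈ H then (if d e = p then x e else 0) else min 8 (x e - 8 * (idx p).1)) = 8
    by_cases heH : e ∈ H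
    · have h2 := hxH e heH
      rw [if_pos heH]
      by_cases hp : d e = p
      · rw [if_pos hp]; omega
      · rw [if_neg hp]; omega
    · rw [if_neg heH]
      omega
  have hysum : ∀ e, ∑ p, y p e = x e := by
    intro e
    by_cases heH : e ∈ H
    · have h1 : ∀ p, y p e = if d e = p then x e else 0 := fun p => if_pos heH
      rw [sum_congr rfl (fun p _ => h1 p), sum_ite_eq, if_pos (mem_univ _)]
    · have h1 : ∀ p, y p e = min 8 (x e - 8 * (idx p).1) := fun p => if_neg heH
      rw [sum_congr rfl (fun p _ => h1 p),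
        idx.sum_comp (fun i : Fin 9 => min 8 (x e - 8 * i.1)), sum_fill_fin]
      have := hx e
      omega
  have hyx : ∀ p e, y p e ≠ 0 → x e ≠ 0 := by
    intro p e h1 h2
    apply h1
    show (if e ∈ H then (if d e = p then x e else 0) else min 8 (x e - 8 * (idx p).1)) = 0
    rw [h2]
    by_cases heH : e ∈ H
    · rw [if_pos heH]
      by_cases hp : d e = p
      · rw [if_pos hp]
      · rw [if_neg hp]
    · rw [if_neg heH]
      omega
  let B : Fin 3 × Fin 3 → Finset E := fun p => H.filter (fun e => d e ≠ p)
  have hyB : ∀ p e, e ∈ B p → y p e = 0 := by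
    intro p e he
    rw [mem_filter] at he
    show (if e ∈ H then (if d e = p then x e else 0) else min 8 (x e - 8 * (idx p).1)) = 0
    rw [if_pos he.1, if_neg he.2]
  let A : Fin 3 × Fin 3 → Finset E := fun p => univ.filter (fun e => y p e = 4)
  let S : Fin 3 × Fin 3 → Finset E := fun p => univ.filter (fun e => y p e = 8)
  have hspB : ∀ p e, y p e ≠ 0 → vec a b e ∈ sp a b (B p) := by
    intro p e he
    rw [(hd p).2]
    exact hxs e (hyx p e he)
  have hcov : ∀ p, Cov a b (fun e => (if e ∈ B p ∪ A p then 4 else 0) + (if e ∈ S p then 8 else 0)) := by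
    intro p
    apply layer8
    · exact cutGe_union a b (hd p).1 (fun e he => hspB p e (by
        rw [(mem_filter.1 he).2]; decide))
    · intro e he
      exact sp_mono a b subset_union_left (hspB p e (by rw [(mem_filter.1 he).2]; decide))
    · rw [Finset.disjoint_left]
      intro e he h
      have h1 := (mem_filter.1 he).2
      rcases mem_union.1 h with h | h
      · rw [hyB p e h] at h1; omega
      · rw [(mem_filter.1 h).2] at h1; omega
  have h1 := Cov.sumF a b _ hcov
  have h2 : (fun e => ∑ p, ((if e ∈ B p ∪ A p then 4 else 0) + (if e ∈ S p then 8 else 0)))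
      = fun e => (if e ∈ H then 32 else 0) + x e := by
    funext e
    have h3 : ∀ p, ((if e ∈ B p ∪ A p then 4 else 0) + (if e ∈ S p then 8 else 0))
        = (if e ∈ B p then 4 else 0) + y p e := by
      intro p
      by_cases hB : e ∈ B p
      · have h4 := hyB p e hB
        have h5 : e ∉ S p := fun h => by
          have := (mem_filter.1 h).2
          omega
        rw [if_pos (mem_union_left _ hB), if_neg h5, if_pos hB, h4]
      · rw [if_neg hB, zero_add]
        rcases hy p e with h4 | h4 | h4
        · have h5 : e ∉ S p := fun h => by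
            have := (mem_filter.1 h).2
            omega
          have h6 : e ∉ B p ∪ A p := fun h => by
            rcases mem_union.1 h with h | h
            · exact hB h
            · have := (mem_filter.1 h).2
              omega
          rw [if_neg h5, if_neg h6, h4]
        · have h5 : e ∉ S p := fun h => by
            have := (mem_filter.1 h).2
            omega
          have h6 : e ∈ B p ∪ A p := mem_union_right _ (mem_filter.2 ⟨mem_univ _, h4⟩)
          rw [if_neg h5, if_pos h6, h4]
        · have h5 : e ∈ S p := mem_filter.2 ⟨mem_univ _, h4⟩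
          have h6 : e ∉ B p ∪ A p := fun h => by
            rcases mem_union.1 h with h | h
            · exact hB h
            · have := (mem_filter.1 h).2
              omega
          rw [if_pos h5, if_neg h6, h4]
    rw [sum_congr rfl (fun p _ => h3 p), sum_add_distrib, hysum]
    congr 1
    by_cases heH : e ∈ H
    · rw [if_pos heH]
      have h4 : ∀ p, (if e ∈ B p then 4 else 0) = if d e = p then 0 else 4 := by
        intro p
        by_cases hp : d e = p
        · rw [if_pos hp, if_neg]
          intro h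
          exact (mem_filter.1 h).2 hp
        · rw [if_neg hp, if_pos]
          exact mem_filter.2 ⟨heH, hp⟩
      rw [sum_congr rfl (fun p _ => h4 p), ← add_sum_erase univ _ (mem_univ (d e)), if_pos rfl]
      have h5 : ∑ p ∈ univ.erase (d e), (if d e = p then 0 else 4)
          = ∑ p ∈ univ.erase (d e), 4 := by
        refine sum_congr rfl fun p hp => ?_
        rw [if_neg (ne_of_mem_erase hp).symm]
      rw [h5, sum_const, card_erase_of_mem (mem_univ _), card_univ]
      simp
    · rw [if_neg heH]
      apply sum_eq_zero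
      intro p _
      rw [if_neg]
      intro h
      exact heH (mem_filter.1 h).1
  rw [h2] at h1
  exact h1

/-- **Locally near-constant weights with a free part**, 3-edge-connected form. -/
theorem near_r (w r : E → ℕ) (hw4 : ∀ e, 4 ∣ w e) (hr : ∀ e, 32 * r e ≤ w e)
    (h : ∀ e, 0 < w e → ∃ Hs : Finset E, vec a b e ∈ sp a b Hs ∧ CutGe a b Hs 3 ∧
      ∀ f ∈ Hs, r e ≤ r f ∧ w e + 32 * r e ≤ 72 * r f) :
    Cov a b w := by
  classical
  let U : ℕ → Finset E := fun n => univ.filter (fun e => ∃ Hs : Finset E, e ∈ Hs ∧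
    CutGe a b Hs 3 ∧ ∀ f ∈ Hs, n ≤ r f)
  have hU : ∀ n, CutGe a b (U n) 3 := by
    rintro n X ⟨e, he, heX⟩
    obtain ⟨Hs, h1, h2, h3⟩ := (mem_filter.1 he).2
    refine (h2 X ⟨e, h1, heX⟩).trans (card_le_card (filter_subset_filter _ ?_))
    intro f hf
    exact mem_filter.2 ⟨mem_univ _, Hs, hf, h2, h3⟩
  have hUr : ∀ n e, e ∈ U n → n ≤ r e := by
    intro n e he
    obtain ⟨Hs, h1, h2, h3⟩ := (mem_filter.1 he).2
    exact h3 e h1
  have hUanti : ∀ n n' e, n' ≤ n → e ∈ U n → e ∈ U n' := by
    intro n n' e hn he
    obtain ⟨Hs, h1, h2, h3⟩ := (mem_filter.1 he).2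
    exact mem_filter.2 ⟨mem_univ _, Hs, h1, h2, fun f hf => hn.trans (h3 f hf)⟩
  have hUe : ∀ n e, 0 < n → n ≤ r e → e ∈ U n := by
    intro n e hn hle
    have h0 := hr e
    obtain ⟨Hs, h1, h2, h3⟩ := h e (by omega)
    refine mem_filter.2 ⟨mem_univ _, Hs ∪ {e}, mem_union_right _ (mem_singleton_self _), ?_, ?_⟩
    · apply cutGe_union a b h2
      intro f hf
      rw [mem_singleton] at hf
      rw [hf]; exact h1
    · intro f hf
      rcases mem_union.1 hf with hf | hf
      · exact hle.trans (h3 f hf).1
      · rw [mem_singleton] at hf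
        rw [hf]; exact hle
  obtain ⟨M, hM⟩ : ∃ M, ∀ e, w e ≤ M :=
    ⟨∑ e, w e, fun e => single_le_sum (f := w) (fun _ _ => Nat.zero_le _) (mem_univ e)⟩
  -- the level up to which the ends of `e` are joined
  let ρ : E → ℕ := fun e => Nat.findGreatest (fun n => vec a b e ∈ sp a b (U n)) M
  have hρM : ∀ e, ρ e ≤ M := fun e => Nat.findGreatest_le M
  have hρ1 : ∀ e n, 0 < n → n ≤ ρ e → vec a b e ∈ sp a b (U n) := by
    intro e n hn hle
    have h1 : ρ e ≠ 0 := by omega
    have h2 : vec a b e ∈ sp a b (U (ρ e)) :=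
      Nat.findGreatest_of_ne_zero (P := fun n => vec a b e ∈ sp a b (U n)) rfl h1
    exact sp_mono a b (fun f hf => hUanti _ _ _ hle hf) h2
  have hrρ : ∀ e, r e ≤ ρ e := by
    intro e
    by_cases h0 : r e = 0
    · omega
    · have h1 : e ∈ U (r e) := hUe _ _ (by omega) le_rfl
      have h2 : vec a b e ∈ sp a b (U (r e)) := vec_mem a b h1
      have h3 := hr e
      have h4 := hM e
      exact Nat.le_findGreatest (by omega) h2
  have hkey : ∀ e, w e + 32 * r e ≤ 72 * ρ e := by
    intro e
    by_cases h0 : w e = 0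
    · have := hr e
      omega
    obtain ⟨Hs, h1, h2, h3⟩ := h e (by omega)
    -- the least value of `r` on `Hs`
    let q : ℕ := (w e + 32 * r e + 71) / 72
    have hq : ∀ f ∈ Hs, q ≤ r f := by
      intro f hf
      have := (h3 f hf).2
      show (w e + 32 * r e + 71) / 72 ≤ r f
      omega
    have h4 : vec a b e ∈ sp a b (U q) := by
      refine sp_mono a b (fun f hf => ?_) h1
      exact mem_filter.2 ⟨mem_univ _, Hs, hf, h2, hq⟩
    have hqM : q ≤ M := by
      have h5 := hM e
      have h6 := hr e
      show (w e + 32 * r e + 71) / 72 ≤ M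
      omega
    have h5 : q ≤ ρ e := Nat.le_findGreatest hqM h4
    have h6 : w e + 32 * r e ≤ 72 * q := by
      show w e + 32 * r e ≤ 72 * ((w e + 32 * r e + 71) / 72)
      omega
    omega
  -- the free part in the level `n + 1`
  let x : ℕ → E → ℕ := fun n e =>
    if n < r e then min 8 ((w e - 32 * r e) - 8 * n)
    else if n < ρ e then min 72 ((w e - 32 * r e - 8 * r e) - 72 * (n - r e)) else 0
  have hcov := Cov.sum a b (n := M) (fun n e => (if e ∈ U (n + 1) then 32 else 0) + x n e)
    (fun n _ => unit_cov2 a b (U (n + 1)) (hU _) (x n) (by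
      intro e
      have h1 := hw4 e
      show 4 ∣ (if n < r e then min 8 ((w e - 32 * r e) - 8 * n)
        else if n < ρ e then min 72 ((w e - 32 * r e - 8 * r e) - 72 * (n - r e)) else 0)
      split_ifs <;> omega) (by
      intro e he
      have h1 := hUr _ _ he
      show (if n < r e then min 8 ((w e - 32 * r e) - 8 * n)
        else if n < ρ e then min 72 ((w e - 32 * r e - 8 * r e) - 72 * (n - r e)) else 0) ≤ 8
      rw [if_pos (by omega)]
      omega) (by
      intro e
      show (if n < r e then min 8 ((w e - 32 * r e) - 8 * n)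
        else if n < ρ e then min 72 ((w e - 32 * r e - 8 * r e) - 72 * (n - r e)) else 0) ≤ 72
      split_ifs <;> omega) (by
      intro e he
      have h1 : n < ρ e := by
        by_contra hcon
        apply he
        have h2 := hrρ e
        show (if n < r e then min 8 ((w e - 32 * r e) - 8 * n)
          else if n < ρ e then min 72 ((w e - 32 * r e - 8 * r e) - 72 * (n - r e)) else 0) = 0
        rw [if_neg (by omega), if_neg hcon]
      exact hρ1 e (n + 1) (by omega) (by omega)))
  have hsum : (fun e => ∑ n ∈ range M, ((if e ∈ U (n + 1) then 32 else 0) + x n e)) = w := by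
    funext e
    have hM' := hM e
    have hr' := hr e
    have hρ' := hρM e
    have hrρ' := hrρ e
    have hk := hkey e
    rw [sum_add_distrib]
    have h1 : ∑ n ∈ range M, (if e ∈ U (n + 1) then 32 else 0) = 32 * r e := by
      rw [← sum_filter, sum_const, smul_eq_mul]
      have h2 : (range M).filter (fun n => e ∈ U (n + 1)) = range (r e) := by
        ext n
        rw [mem_filter, mem_range, mem_range]
        constructor
        · rintro ⟨h3, h4⟩
          have := hUr _ _ h4
          omega
        · intro h3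
          exact ⟨by omega, hUe (n + 1) e (by omega) (by omega)⟩
      rw [h2, card_range, mul_comm]
    have h2 : ∑ n ∈ range M, x n e = w e - 32 * r e := by
      -- split the range
      have h3 : ∑ n ∈ range M, x n e = ∑ n ∈ range (r e), x n e
          + ∑ n ∈ range (ρ e - r e), x (r e + n) e := by
        rw [← sum_range_add (fun n => x n e) (r e) (ρ e - r e)]
        have h4 : r e + (ρ e - r e) = ρ e := by omega
        rw [h4]
        symm
        apply sum_subset
        · intro n hn
          rw [mem_range] at hn ⊢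
          omega
        · intro n _ hn
          rw [mem_range] at hn
          show (if n < r e then min 8 ((w e - 32 * r e) - 8 * n)
            else if n < ρ e then min 72 ((w e - 32 * r e - 8 * r e) - 72 * (n - r e)) else 0) = 0
          rw [if_neg (by omega), if_neg hn]
      rw [h3]
      have h4 : ∑ n ∈ range (r e), x n e = ∑ n ∈ range (r e), min 8 ((w e - 32 * r e) - 8 * n) := by
        refine sum_congr rfl fun n hn => ?_
        rw [mem_range] at hn
        exact if_pos hn
      have h5 : ∑ n ∈ range (ρ e - r e), x (r e + n) e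
          = ∑ n ∈ range (ρ e - r e), min 72 ((w e - 32 * r e - 8 * r e) - 72 * n) := by
        refine sum_congr rfl fun n hn => ?_
        rw [mem_range] at hn
        show (if r e + n < r e then min 8 ((w e - 32 * r e) - 8 * (r e + n))
            else if r e + n < ρ e then
              min 72 ((w e - 32 * r e - 8 * r e) - 72 * (r e + n - r e)) else 0) = _
        rw [if_neg (by omega), if_pos (by omega)]
        have : r e + n - r e = n := by omega
        rw [this]
      rw [h4, h5, sum_fill, sum_fill]
      omega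
    rw [h1, h2]
    omega
  rw [hsum] at hcov
  exact hcov

/-- **Locally near-constant weights with a free part**, second form. -/
theorem near_r2 (w r : E → ℕ) (hw4 : ∀ e, 4 ∣ w e) (hr : ∀ e, 32 * r e ≤ w e)
    (hpair : ∀ e f, (∃ Y : Finset V, univ.filter (fun g => Crs a b Y g) = {e, f}) → w e = w f)
    (h : ∀ e, 0 < w e → ∃ Hs : Finset E,
      (∀ X : Finset V, NoPair a b X → Crs a b X e → ∃ f ∈ Hs, Crs a b X f) ∧
      (∀ X : Finset V, NoPair a b X → (∃ f ∈ Hs, Crs a b X f) →
        3 ≤ (Hs.filter (fun f => Crs a b X f)).card) ∧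
      ∀ f ∈ Hs, r e ≤ r f ∧ w e + 32 * r e ≤ 72 * r f) :
    Cov a b w := by
  classical
  refine contr_gen a b w hpair ?_
  intro a' b' S pre hcrs hKn hnp
  refine near_r a' b' (fun e => if e ∈ S then w e else 0) (fun e => if e ∈ S then r e else 0)
    ?_ ?_ ?_
  · intro e
    show 4 ∣ if e ∈ S then w e else 0
    by_cases he : e ∈ S
    · rw [if_pos he]; exact hw4 e
    · rw [if_neg he]; exact dvd_zero _
  · intro e
    show 32 * (if e ∈ S then r e else 0) ≤ if e ∈ S then w e else 0
    by_cases he : e ∈ S
    · rw [if_pos he, if_pos he]; exact hr e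
    · rw [if_neg he, if_neg he]
  intro e he
  have heS : e ∈ S := by
    by_contra hn
    have : (if e ∈ S then w e else 0) = 0 := if_neg hn
    have he' : 0 < (if e ∈ S then w e else 0) := he
    omega
  have he' : 0 < (if e ∈ S then w e else 0) := he
  rw [if_pos heS] at he'
  obtain ⟨H, h1, h2, h3⟩ := h e he'
  refine ⟨H.filter (fun f => f ∈ S), ?_, ?_, ?_⟩
  · have h4 : b' e ∈ cls a' b' (H.filter (fun f => f ∈ S)) (a' e) := by
      by_contra hb
      have h5 : Crs a' b' (cls a' b' (H.filter (fun f => f ∈ S)) (a' e)) e := fun h =>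
        hb (h.1 (self_mem_cls a' b' _ (a' e)))
      obtain ⟨f, hf, hfX⟩ := h1 _ (hnp _) ((hcrs _ e).1 h5)
      have h6 := (hcrs _ f).2 hfX
      have hfS : f ∈ S := by
        by_contra hn
        exact hKn _ f hn h6
      exact not_crs_cls a' b' (a' e) (vec_mem a' b' (mem_filter.2 ⟨hf, hfS⟩)) h6
    exact (mem_cls a' b' _ _ _).1 h4
  · rintro X ⟨f, hf, hfX⟩
    have h4 : (H.filter (fun f => f ∈ S)).filter (fun f => Crs a' b' X f)
        = H.filter (fun f => Crs a b (pre X) f) := by
      ext g
      rw [mem_filter, mem_filter, mem_filter, hcrs]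
      constructor
      · rintro ⟨⟨h5, h6⟩, h7⟩; exact ⟨h5, h7⟩
      · rintro ⟨h5, h7⟩
        refine ⟨⟨h5, ?_⟩, h7⟩
        by_contra h6
        exact hKn X g h6 ((hcrs X g).2 h7)
    rw [h4]
    exact h2 (pre X) (hnp X) ⟨f, (mem_filter.1 hf).1, (hcrs X f).1 hfX⟩
  · intro f hf
    rw [mem_filter] at hf
    show (if e ∈ S then r e else 0) ≤ (if f ∈ S then r f else 0) ∧
      (if e ∈ S then w e else 0) + 32 * (if e ∈ S then r e else 0) ≤ 72 * (if f ∈ S then r f else 0)
    rw [if_pos heS, if_pos heS, if_pos hf.2]
    exact h3 f hf.1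

end

end Pool.Agent.H47.NC
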